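import Mathlib

/-!
Short rainbow circuits in regular matroids: definitions.

A regular matroid is given by a finite family of vectors `v : ι → V` in a rational vector
space whose set of vectors is unimodular (`Uni`).  Colourings are maps `c : ι → κ`.
-/

namespace RC

open Submodule Module

/-- A set of vectors is unimodular if the coordinates of each of its vectors with respect to
each finite linearly independent subset are `0`, `1` or `-1`. -/
def Uni {V : Type} [AddCommGroup V] [Module ℚ V] (X : Set V) : Prop :=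
  ∀ (s : Finset V) (c : V → ℚ), (s : Set V) ⊆ X → LinearIndepOn ℚ id (s : Set V) →
    (∑ a ∈ s, c a • a) ∈ X → ∀ a ∈ s, c a = 0 ∨ c a = 1 ∨ c a = -1

/-- A class of vector sets. -/
abbrev ClsT : Type 1 := ∀ (V : Type) [AddCommGroup V] [Module ℚ V], Set V → Prop

/-- Closure properties used in the proof. -/
structure Cls (C : ClsT) : Prop where
  uni : ∀ {V : Type} [AddCommGroup V] [Module ℚ V] {X : Set V}, C V X → Uni X
  mono : ∀ {V : Type} [AddCommGroup V] [Module ℚ V] {X Y : Set V}, C V Y →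
    (∀ x ∈ X, x = 0 ∨ x ∈ Y ∨ -x ∈ Y) → C V X
  map : ∀ {V W : Type} [AddCommGroup V] [Module ℚ V] [AddCommGroup W] [Module ℚ W]
    (f : V →ₗ[ℚ] W) {X : Set V}, C V X → (∀ y ∈ span ℚ X, f y = 0 → y = 0) → C W (f '' X)
  con : ∀ {V W : Type} [AddCommGroup V] [Module ℚ V] [AddCommGroup W] [Module ℚ W]
    (f : V →ₗ[ℚ] W) {X : Set V} {x : V}, C V X → x ∈ X → f x = 0 →
    (∀ y ∈ span ℚ X, f y = 0 → y ∈ span ℚ {x}) → C W (f '' X)
  claw : ∀ {V : Type} [AddCommGroup V] [Module ℚ V] {X : Set V} {p q : V}, C V X →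
    p ∈ X → q ∈ X → p + q ∈ X → LinearIndependent ℚ ![p, q] →
    C (V × ℚ) ((fun x : V => (x, (0 : ℚ))) '' X ∪ {((0 : V), (1 : ℚ)), (p, 1), (-q, 1)})

/-- There is a rainbow dependent set with at most `k` elements inside `E`. -/
def Short {ι κ V : Type} [AddCommGroup V] [Module ℚ V] (v : ι → V) (c : ι → κ)
    (E : Finset ι) (k : ℕ) : Prop :=
  ∃ T : Finset ι, T ⊆ E ∧ T.card ≤ k ∧ Set.InjOn c (T : Set ι) ∧
    ¬ LinearIndepOn ℚ v (T : Set ι)

/-- Rank of a set of elements. -/
noncomputable def rk {ι V : Type} [AddCommGroup V] [Module ℚ V] (v : ι → V)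
    (E : Finset ι) : ℕ := finrank ℚ (span ℚ (v '' (E : Set ι)))

open Classical in
/-- Number of colours met by a set of elements. -/
noncomputable def nc {ι κ : Type} (c : ι → κ) (E : Finset ι) : ℕ := (E.image c).card

/-- A coloured system: colour classes have one or two elements, no loops, no monochromatic
parallel pair, and the rank is smaller than the number of colours. -/
structure Sys (C : ClsT) {ι κ V : Type} [AddCommGroup V] [Module ℚ V] (v : ι → V)
    (c : ι → κ) (E : Finset ι) : Prop where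
  cls : C V (v '' (E : Set ι))
  ne : ∀ e ∈ E, v e ≠ 0
  two : ∀ e ∈ E, ∀ e' ∈ E, ∀ e'' ∈ E, c e = c e' → c e = c e'' → e = e' ∨ e = e'' ∨ e' = e''
  par : ∀ e ∈ E, ∀ e' ∈ E, c e = c e' → e ≠ e' → LinearIndependent ℚ ![v e, v e']
  rank : rk v E + 1 ≤ nc c E

/-- The bound for a system with `n` colours and `m` elements (`2 * n - m` colours of size one,
`m - n` colours of size two). -/
def bd (n m : ℕ) : ℕ := if m = 2 * n then (n + 1) / 2 else (2 * n - m) + (m - n) / 2

/-- The theorem for all systems of the class `C` with `n` colours. -/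
def GC (C : ClsT) (n : ℕ) : Prop :=
  ∀ (ι κ V : Type) [AddCommGroup V] [Module ℚ V] (v : ι → V) (c : ι → κ) (E : Finset ι),
    Sys C v c E → nc c E = n → Short v c E (bd n E.card)

/-- A minimal counterexample, reduced: `2 * h` colours, exactly one of them (that of `e0`)
of size one, rank `2 * h - 1`, no rainbow dependent set with at most `h` elements. -/
structure Bad (C : ClsT) (h : ℕ) {ι κ V : Type} [AddCommGroup V] [Module ℚ V] (v : ι → V)
    (c : ι → κ) (E : Finset ι) (e0 : ι) : Prop where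
  ih : ∀ n < 2 * h, GC C n
  sys : Sys C v c E
  nc_eq : nc c E = 2 * h
  card : E.card + 1 = 4 * h
  mem0 : e0 ∈ E
  single : ∀ e ∈ E, c e = c e0 → e = e0
  partner : ∀ e ∈ E, e ≠ e0 → ∃ e' ∈ E, e' ≠ e ∧ c e' = c e
  rank : rk v E + 1 = 2 * h
  tri : ∀ e ∈ E, ∀ e' ∈ E, c e = c e' → e ≠ e' → LinearIndependent ℚ ![v e0, v e, v e']
  short : ¬ Short v c E h

/-! ### Decomposable sets -/

/-- The ten vectors of the matroid `R10`. -/
def R10 : Fin 10 → Fin 5 → ℚ :=
  ![![1, 0, 0, 0, 0], ![0, 1, 0, 0, 0], ![0, 0, 1, 0, 0], ![0, 0, 0, 1, 0], ![0, 0, 0, 0, 1],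
    ![-1, 1, 0, 0, 1], ![1, -1, 1, 0, 0], ![0, 1, -1, 1, 0], ![0, 0, 1, -1, 1],
    ![1, 0, 0, 1, -1]]

/-- The class of all vector sets obtained from graphic ones, cographic ones and `R10` by
1-, 2- and 3-sums, deleting, adding loops and parallel elements, and changing signs.
`graphic`: up to a linear map injective on the span, the vectors are differences of unit
vectors of `W → ℚ` (edges of a graph with vertex set `W`).
`cographic`: the linear dependencies are the potential differences of a graph.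
`sum`: for linearly independent `p`, `q` this is the 3-sum of the two sets along the triangle
`p, q, p + q`; for `q = 0` it is the 2-sum along `p`; for `p = q = 0` the 1-sum. -/
inductive Dec : (V : Type) → [AddCommGroup V] → [Module ℚ V] → Set V → Prop
  | graphic {V : Type} [AddCommGroup V] [Module ℚ V] (X : Set V) (W : Type) [Fintype W]
      [DecidableEq W] (φ : V →ₗ[ℚ] (W → ℚ)) (inj : ∀ y ∈ span ℚ X, φ y = 0 → y = 0)
      (edge : ∀ x ∈ X, ∃ a b : W, φ x = Pi.single a 1 - Pi.single b 1) : Dec V X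
  | cographic {V : Type} [AddCommGroup V] [Module ℚ V] (X : Set V) (E W : Type) [Fintype E]
      [Fintype W] (u : E → V) (hd tl : E → W)
      (dep : ∀ a : E → ℚ, ∑ e, a e • u e = 0 ↔ ∃ π : W → ℚ, ∀ e, a e = π (hd e) - π (tl e))
      (cov : ∀ x ∈ X, ∃ e, x = u e) : Dec V X
  | r10 {V : Type} [AddCommGroup V] [Module ℚ V] (X : Set V) (φ : V →ₗ[ℚ] (Fin 5 → ℚ))
      (inj : ∀ y ∈ span ℚ X, φ y = 0 → y = 0) (col : ∀ x ∈ X, ∃ j, φ x = R10 j) : Dec V X
  | emb {V V' : Type} [AddCommGroup V] [Module ℚ V] [AddCommGroup V'] [Module ℚ V']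
      (X : Set V) (Y : Set V') (f : V →ₗ[ℚ] V') (inj : ∀ y ∈ span ℚ X, f y = 0 → y = 0)
      (sub : ∀ x ∈ X, f x = 0 ∨ f x ∈ Y ∨ -f x ∈ Y) (h : Dec V' Y) : Dec V X
  | sum {V : Type} [AddCommGroup V] [Module ℚ V] (A B : Set V) (p q : V)
      (hpq : LinearIndependent ℚ ![p, q] ∨ q = 0)
      (h : span ℚ (A ∪ {p, q}) ⊓ span ℚ (B ∪ {p, q}) = span ℚ {p, q})
      (hA : Dec V (A ∪ {p, q, p + q})) (hB : Dec V (B ∪ {p, q, p + q})) : Dec V (A ∪ B)

end RC
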