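import Pool.Agent.Helper59.RC.Defs

/-!
Module RC-U1.  Basic facts on unimodular sets.

`uni_mono`: let `s` be a finite independent subset of `X`, `x = ∑ c a • a` in `X`.  Every
`a` in `s` is nonzero, so `a` or `-a` is in `Y`; put `t a = a` if `a` is in `Y`, else `-a`.
`t` is injective on `s` (`a = -b` contradicts independence unless `a = b = 0`), the image is
independent, and `x` or `-x` or `0` is in `Y`.  If `x = 0` all coefficients vanish.

`uni_coord`: the same as the definition for a family; `v` is injective on `T` by independence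
(`LinearIndepOn.injOn`), apply the definition to `T.image v`.

`uni_circ`: by `hmin` a nontrivial relation on `T` has no zero coefficient.  For `i, j` in `T`,
`i ≠ j`, solve for `v j`: the coordinates `- c i / c j` are `0, 1, -1` by `uni_coord`.

`uni_par`: `y` is a multiple of `x`, apply `uni_coord` to the set `{x}`.
`uni_of_map`: an independent subset of `X` is mapped to an independent set (`f` is injective on
the span), apply the definition for `f '' X`.
-/

namespace RC

open Submodule Module

variable {ι V W : Type} [AddCommGroup V] [Module ℚ V] [AddCommGroup W] [Module ℚ W]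

theorem uni_coord {X : Set V} (hX : Uni X) (v : ι → V) (T : Finset ι) (hT : ∀ i ∈ T, v i ∈ X)
    (hli : LinearIndepOn ℚ v (T : Set ι)) (c : ι → ℚ) (hx : ∑ i ∈ T, c i • v i ∈ X) :
    ∀ i ∈ T, c i = 0 ∨ c i = 1 ∨ c i = -1 := by
  classical
  intro i hi
  have : Nonempty ι := ⟨i⟩
  have hinj : Set.InjOn v (T : Set ι) := hli.injOn
  have hinv : ∀ j ∈ T, Function.invFunOn v (T : Set ι) (v j) = j := fun j hj =>
    hinj.leftInvOn_invFunOn (Finset.mem_coe.2 hj)
  have hs : ((T.image v : Finset V) : Set V) ⊆ X := by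
    intro a ha
    rw [Finset.mem_coe, Finset.mem_image] at ha
    obtain ⟨j, hj, rfl⟩ := ha
    exact hT j hj
  have hl : LinearIndepOn ℚ id ((T.image v : Finset V) : Set V) := by
    rw [Finset.coe_image]
    exact hli.id_image
  have hsum : ∑ a ∈ T.image v, c (Function.invFunOn v (T : Set ι) a) • a
      = ∑ j ∈ T, c j • v j := by
    rw [Finset.sum_image (fun a ha b hb h => hinj ha hb h)]
    exact Finset.sum_congr rfl fun j hj => by rw [hinv j hj]
  have h := hX (T.image v) (fun a => c (Function.invFunOn v (T : Set ι) a)) hs hl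
    (by rw [hsum]; exact hx) (v i) (Finset.mem_image_of_mem v hi)
  simpa only [hinv i hi] using h

theorem uni_mono {X Y : Set V} (hY : Uni Y) (h : ∀ x ∈ X, x = 0 ∨ x ∈ Y ∨ -x ∈ Y) : Uni X := by
  classical
  intro s c hs hli hx a ha
  have hne : ∀ b ∈ s, b ≠ 0 := fun b hb => hli.ne_zero (Finset.mem_coe.2 hb)
  set sg : V → ℚ := fun b => if b ∈ Y then 1 else -1 with hsg
  have hsq : ∀ b, sg b * sg b = 1 := by
    intro b
    simp only [hsg]
    split_ifs <;> norm_num
  have hmem : ∀ b ∈ s, sg b • b ∈ Y := by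
    intro b hb
    simp only [hsg]
    split_ifs with hbY
    · rwa [one_smul]
    · rcases h b (hs hb) with h0 | h1 | h2
      · exact absurd h0 (hne b hb)
      · exact absurd h1 hbY
      · rwa [neg_one_smul]
  have hli0 := linearIndepOn_finset_iff.1 hli
  have hli' : LinearIndepOn ℚ (fun b => sg b • b) (s : Set V) := by
    rw [linearIndepOn_finset_iff]
    intro f hf b hb
    have h1 : ∑ x ∈ s, (f x * sg x) • id x = 0 := by
      rw [← hf]
      exact Finset.sum_congr rfl fun x _ => by rw [id, smul_smul]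
    have h2 := hli0 _ h1 b hb
    have h3 : f b = (f b * sg b) * sg b := by rw [mul_assoc, hsq, mul_one]
    rw [h3, h2, zero_mul]
  have key : ∀ e : ℚ, (e = 1 ∨ e = -1) → e • (∑ b ∈ s, c b • b) ∈ Y →
      c a = 0 ∨ c a = 1 ∨ c a = -1 := by
    intro e he hY'
    have hsum : ∑ b ∈ s, (e * (c b * sg b)) • (sg b • b) = e • ∑ b ∈ s, c b • b := by
      rw [Finset.smul_sum]
      refine Finset.sum_congr rfl fun b _ => ?_
      rw [smul_smul, smul_smul]
      congr 1
      rw [mul_assoc, mul_assoc, hsq, mul_one]
    have h1 := uni_coord hY (fun b => sg b • b) s hmem hli' (fun b => e * (c b * sg b))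
      (by rw [hsum]; exact hY') a ha
    have h2 : sg a = 1 ∨ sg a = -1 := by
      simp only [hsg]
      split_ifs <;> simp
    rcases he with rfl | rfl <;> rcases h2 with h2 | h2 <;> rw [h2] at h1 <;>
      rcases h1 with h1 | h1 | h1
    all_goals first
      | (left; linarith)
      | (right; left; linarith)
      | (right; right; linarith)
  rcases h _ hx with h0 | h1 | h2
  · left
    exact hli0 c (by simpa using h0) a ha
  · exact key 1 (Or.inl rfl) (by rwa [one_smul])
  · exact key (-1) (Or.inr rfl) (by rwa [neg_one_smul])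

theorem uni_circ [DecidableEq ι] {X : Set V} (hX : Uni X) (v : ι → V) (T : Finset ι)
    (hT : ∀ i ∈ T, v i ∈ X) (hmin : ∀ i ∈ T, LinearIndepOn ℚ v ((T.erase i : Finset ι) : Set ι))
    (c : ι → ℚ) (h0 : ∑ i ∈ T, c i • v i = 0) (hne : ∃ i ∈ T, c i ≠ 0) :
    ∀ i ∈ T, c i ≠ 0 ∧ ∀ j ∈ T, c i = c j ∨ c i = -c j := by
  have hall : ∀ i ∈ T, c i ≠ 0 := by
    intro i hi hci
    have h1 : ∑ j ∈ T.erase i, c j • v j = 0 := by
      rw [← Finset.add_sum_erase T _ hi, hci, zero_smul, zero_add] at h0
      exact h0
    have h2 := linearIndepOn_finset_iff.1 (hmin i hi) c h1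
    obtain ⟨j, hj, hcj⟩ := hne
    by_cases hij : j = i
    · exact hcj (hij ▸ hci)
    · exact hcj (h2 j (Finset.mem_erase.2 ⟨hij, hj⟩))
  intro i hi
  refine ⟨hall i hi, fun j hj => ?_⟩
  by_cases hij : i = j
  · left
    rw [hij]
  have hcj := hall j hj
  have hsum : ∑ k ∈ T.erase j, (-(c k / c j)) • v k = v j := by
    rw [← Finset.add_sum_erase T _ hj] at h0
    have h1 : ∑ k ∈ T.erase j, (-(c k / c j)) • v k
        = (-(1 / c j)) • ∑ k ∈ T.erase j, c k • v k := by
      rw [Finset.smul_sum]
      refine Finset.sum_congr rfl fun k _ => ?_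
      rw [smul_smul]
      congr 1
      field_simp
    have h2 : ∑ k ∈ T.erase j, c k • v k = -(c j • v j) := by
      rw [eq_neg_iff_add_eq_zero, add_comm]
      exact h0
    rw [h1, h2, smul_neg, neg_smul, neg_neg, smul_smul, one_div, inv_mul_cancel₀ hcj, one_smul]
  have h3 := uni_coord hX v (T.erase j) (fun k hk => hT k (Finset.mem_of_mem_erase hk))
    (hmin j hj) (fun k => -(c k / c j)) (by rw [hsum]; exact hT j hj) i
    (Finset.mem_erase.2 ⟨hij, hi⟩)
  have hci := hall i hi
  rcases h3 with h3 | h3 | h3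
  · exfalso
    apply hci
    field_simp at h3
    linarith
  · right
    field_simp at h3
    linarith
  · left
    field_simp at h3
    linarith

theorem uni_par {X : Set V} (hX : Uni X) {x y : V} (hx : x ∈ X) (hy : y ∈ X) (hx0 : x ≠ 0)
    (hy0 : y ≠ 0) (h : ¬ LinearIndependent ℚ ![x, y]) : y = x ∨ y = -x := by
  rw [LinearIndependent.pair_iff' hx0] at h
  push Not at h
  obtain ⟨a, ha⟩ := h
  have h1 := uni_coord hX (fun _ : Unit => x) {()} (fun _ _ => hx)
    (by
      rw [linearIndepOn_finset_iff]
      intro f hf i _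
      simp only [Finset.sum_singleton, smul_eq_zero] at hf
      rcases hf with hf | hf
      · cases i
        exact hf
      · exact absurd hf hx0)
    (fun _ => a) (by simpa [ha] using hy) () (by simp)
  rcases h1 with h1 | h1 | h1
  · exfalso
    apply hy0
    rw [← ha, h1, zero_smul]
  · left
    rw [← ha, h1, one_smul]
  · right
    rw [← ha, h1, neg_one_smul]

theorem uni_of_map (f : V →ₗ[ℚ] W) {X : Set V} (hf : ∀ y ∈ span ℚ X, f y = 0 → y = 0)
    (h : Uni (f '' X)) : Uni X := by
  intro s c hs hli hx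
  have hli0 := linearIndepOn_finset_iff.1 hli
  refine uni_coord h (fun a => f a) s (fun a ha => ⟨a, hs ha, rfl⟩) ?_ c ?_
  · rw [linearIndepOn_finset_iff]
    intro g hg a ha
    refine hli0 g ?_ a ha
    apply hf
    · refine Submodule.sum_mem _ fun b hb => Submodule.smul_mem _ _ (subset_span (hs hb))
    · rw [map_sum]
      simpa only [id, map_smul] using hg
  · refine ⟨_, hx, ?_⟩
    rw [map_sum]
    simp only [map_smul]

end RC
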