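import Pool.Agent.Helper73.RCS.Cocircuit

/-!
Module RC-K4.  A bad system is not cographic.

Let the dependencies of `v` on `E` be the potential differences of the graph with vertex set `W`
and edges `hd e, tl e` (`e ∈ E`).  For `w ∈ W` let `S w ⊆ E` be the set of `e` with exactly one of
`hd e = w`, `tl e = w`.  The potential `π = single w 1` gives a dependency with support exactly
`S w`; so `S w` is dependent if it is nonempty.  Let `U` = set of `w` with `S w ≠ ∅`.
(1) `|U| ≥ 2 h + 1`: the space of dependencies has dimension `|E| - rk v E = (4 h - 1) - (2 h - 1)`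
    `= 2 h`; it is the image of `W → ℚ` under `π ↦ dπ`.  For `w ∉ U`, `d (single w 1) = 0`, and
    `∑_{w ∈ U} d (single w 1) = d 1 = 0`; so the dimension is at most `|U| - 1` (`U` nonempty,
    since `h ≥ 1`).
(2) `∑_{w ∈ U} |S w| ≤ 2 |E| = 8 h - 2`.
(3) `|S w| ≥ 3` for `w ∈ U`: otherwise a nontrivial relation between at most two elements,
    contradiction to `Bad.par'` and `Sys.ne`; `2 ≤ h` is `Bad.two_le`.
(4) If `S w` (`w ∈ U`) contains no two elements of the same colour, it is a rainbow dependent set,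
    so `|S w| ≥ h + 1` (`Bad.short`).
(5) A colour `{x, y}` is contained in at most one `S w`: if `x, y ∈ S w ∩ S w'`, `w ≠ w'`, then
    both `x` and `y` join `w` and `w'`, so every dependency has `a x = ± a y` with a fixed sign;
    hence `x ∉ span` of `E \ {x, y}` and `rk v (E \ {x, y}) + 1 ≤ rk v E` (a relation
    expressing `x` by `E \ {x, y}` would be a dependency with `a x ≠ 0`, `a y = 0`), so
    `RC.coc_notin` with `D = {x, y}` (`e0 ∉ D`: colours of size two) gives `4 ≤ 2`.
(6) So at most `2 h - 1` of the sets `S w`, `w ∈ U`, contain a complete colour of size two, at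
    least two do not.
    `8 h - 2 ≥ ∑ |S w| ≥ 3 (|U| - 2) + 2 (h + 1) ≥ 3 (2 h - 1) + 2 h + 2 = 8 h - 1`,
    contradiction.
-/

namespace RC.Base

open Submodule Module

variable {ι κ V : Type} [AddCommGroup V] [Module ℚ V]

namespace Cog

open Classical in
/-- incidence coefficient -/
noncomputable def sg {W : Type} (hd tl : ι → W) (w : W) (e : ι) : ℚ :=
  (if hd e = w then 1 else 0) - (if tl e = w then 1 else 0)

open Classical in
/-- the star of a vertex -/
noncomputable def St {W : Type} (hd tl : ι → W) (E : Finset ι) (w : W) : Finset ι :=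
  E.filter (fun e => sg hd tl w e ≠ 0)

theorem sg_ne {W : Type} {hd tl : ι → W} {w : W} {e : ι} (h : sg hd tl w e ≠ 0) :
    (hd e = w ∧ tl e ≠ w) ∨ (hd e ≠ w ∧ tl e = w) := by
  classical
  unfold sg at h
  by_cases h1 : hd e = w
  · by_cases h2 : tl e = w
    · exfalso
      apply h
      rw [if_pos h1, if_pos h2, sub_self]
    · exact Or.inl ⟨h1, h2⟩
  · by_cases h2 : tl e = w
    · exact Or.inr ⟨h1, h2⟩
    · exfalso
      apply h
      rw [if_neg h1, if_neg h2, sub_self]

theorem sg_dep {v : ι → V} {E : Finset ι} {W : Type} {hd tl : ι → W}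
    (dep : ∀ a : ι → ℚ, ∑ e ∈ E, a e • v e = 0 ↔
      ∃ π : W → ℚ, ∀ e ∈ E, a e = π (hd e) - π (tl e)) (w : W) :
    ∑ e ∈ E, sg hd tl w e • v e = 0 := by
  classical
  rw [dep]
  exact ⟨fun x => if x = w then 1 else 0, fun e _ => rfl⟩

theorem star_dep {v : ι → V} {E : Finset ι} {W : Type} {hd tl : ι → W}
    (dep : ∀ a : ι → ℚ, ∑ e ∈ E, a e • v e = 0 ↔
      ∃ π : W → ℚ, ∀ e ∈ E, a e = π (hd e) - π (tl e)) (w : W)
    (hne : (St hd tl E w).Nonempty) : ¬ LinearIndepOn ℚ v (St hd tl E w : Set ι) := by
  classical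
  intro hli
  have h1 : ∑ e ∈ St hd tl E w, sg hd tl w e • v e = 0 := by
    rw [← sg_dep dep w]
    unfold St
    rw [Finset.sum_filter]
    refine Finset.sum_congr rfl fun e _ => ?_
    split_ifs with h
    · rfl
    · rw [not_not] at h
      rw [h, zero_smul]
  obtain ⟨e, he⟩ := hne
  have h2 := linearIndepOn_finset_iff.1 hli _ h1 e he
  unfold St at he
  rw [Finset.mem_filter] at he
  exact he.2 h2

/-- the number of vertices with nonempty star -/
theorem card_vertices {v : ι → V} {E : Finset ι} {W : Type} [Fintype W] {hd tl : ι → W}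
    (dep : ∀ a : ι → ℚ, ∑ e ∈ E, a e • v e = 0 ↔
      ∃ π : W → ℚ, ∀ e ∈ E, a e = π (hd e) - π (tl e)) (U : Finset W)
    (hU : ∀ w, w ∈ U ↔ (St hd tl E w).Nonempty) (hlt : rk v E < E.card) :
    E.card + 1 ≤ rk v E + U.card := by
  classical
  set Φ : (E → ℚ) →ₗ[ℚ] V := Fintype.linearCombination ℚ (fun e : E => v e) with hΦ
  set δ : (W → ℚ) →ₗ[ℚ] (E → ℚ) :=
    LinearMap.pi (fun e : E => (LinearMap.proj (hd e) : (W → ℚ) →ₗ[ℚ] ℚ) -
      LinearMap.proj (tl e)) with hδ
  have hδa : ∀ π (e : E), δ π e = π (hd e) - π (tl e) := fun π e => rfl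
  have hr : finrank ℚ (LinearMap.range Φ) = rk v E := by
    unfold rk
    rw [hΦ, Fintype.range_linearCombination]
    have : Set.range (fun e : E => v e) = v '' (E : Set ι) := by
      ext x
      simp
    rw [this]
  have hk : LinearMap.ker Φ = LinearMap.range δ := by
    ext a
    rw [LinearMap.mem_ker, LinearMap.mem_range]
    have h1 : Φ a = ∑ e ∈ E, (if h : e ∈ E then a ⟨e, h⟩ else 0) • v e := by
      rw [hΦ, Fintype.linearCombination_apply, ← Finset.sum_coe_sort E]
      refine Finset.sum_congr rfl fun e _ => ?_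
      rw [dif_pos e.2]
    rw [h1, dep]
    constructor
    · rintro ⟨π, hπ⟩
      refine ⟨π, ?_⟩
      ext e
      rw [hδa, ← hπ e e.2, dif_pos e.2]
    · rintro ⟨π, hπ⟩
      refine ⟨π, fun e he => ?_⟩
      rw [dif_pos he, ← hπ, hδa]
  have hrn := LinearMap.finrank_range_add_finrank_ker Φ
  rw [hr, hk, Module.finrank_fintype_fun_eq_card, Fintype.card_coe] at hrn
  -- the range of `δ`
  set b : W → (E → ℚ) := fun w => fun e => sg hd tl w e with hb
  have hb0 : ∀ w, w ∉ U → b w = 0 := by
    intro w hw
    rw [hU, Finset.not_nonempty_iff_eq_empty] at hw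
    ext e
    by_contra h
    have : (e : ι) ∈ St hd tl E w := by
      unfold St
      rw [Finset.mem_filter]
      exact ⟨e.2, h⟩
    rw [hw] at this
    simp at this
  have hδb : ∀ π, δ π = ∑ w, π w • b w := by
    intro π
    ext e
    rw [hδa, Finset.sum_apply]
    simp only [hb, Pi.smul_apply, smul_eq_mul]
    unfold sg
    simp [mul_sub, Finset.sum_sub_distrib]
  have hbs : ∑ w, b w = 0 := by
    have h1 := hδb (fun _ => 1)
    simp only [one_smul] at h1
    rw [← h1]
    ext e
    rw [hδa]
    simp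
  have hUne : U.Nonempty := by
    rw [Finset.nonempty_iff_ne_empty]
    intro h
    have : LinearMap.range δ = ⊥ := by
      rw [eq_bot_iff]
      rintro _ ⟨π, rfl⟩
      rw [hδb, Submodule.mem_bot]
      refine Finset.sum_eq_zero fun w _ => ?_
      rw [hb0 w (by rw [h]; simp), smul_zero]
    rw [this, finrank_bot] at hrn
    omega
  obtain ⟨w0, hw0⟩ := hUne
  have hle : LinearMap.range δ ≤ span ℚ (((U.erase w0).image b : Finset (E → ℚ)) :
      Set (E → ℚ)) := by
    rintro _ ⟨π, rfl⟩
    have h1 : δ π = ∑ w, (π w - π w0) • b w := by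
      simp only [sub_smul, Finset.sum_sub_distrib]
      rw [← Finset.smul_sum, hbs, smul_zero, sub_zero, hδb]
    rw [h1]
    refine Submodule.sum_mem _ fun w _ => ?_
    by_cases hw : w = w0
    · rw [hw, sub_self, zero_smul]
      exact zero_mem _
    · by_cases hwU : w ∈ U
      · refine Submodule.smul_mem _ _ (subset_span ?_)
        rw [Finset.coe_image]
        exact ⟨w, by simp [hw, hwU], rfl⟩
      · rw [hb0 w hwU, smul_zero]
        exact zero_mem _
  have h2 : finrank ℚ (LinearMap.range δ) ≤ U.card - 1 := by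
    refine (Submodule.finrank_mono hle).trans ((finrank_span_finset_le_card _).trans ?_)
    refine Finset.card_image_le.trans ?_
    rw [Finset.card_erase_of_mem hw0]
  have h3 : 0 < U.card := Finset.card_pos.2 ⟨w0, hw0⟩
  omega

end Cog

theorem bad_not_cographic {C : ClsT} (hC : Cls C) {h : ℕ} {v : ι → V} {c : ι → κ}
    {E : Finset ι} {e0 : ι} (hb : Bad C h v c E e0) (W : Type) [Fintype W] (hd tl : ι → W)
    (dep : ∀ a : ι → ℚ, ∑ e ∈ E, a e • v e = 0 ↔
      ∃ π : W → ℚ, ∀ e ∈ E, a e = π (hd e) - π (tl e)) : False := by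
  classical
  have hh := hb.two_le
  have hcard := hb.card
  have hrank := hb.rank
  set U : Finset W := Finset.univ.filter (fun w => (Cog.St hd tl E w).Nonempty) with hUdef
  have hU : ∀ w, w ∈ U ↔ (Cog.St hd tl E w).Nonempty := by
    intro w
    rw [hUdef, Finset.mem_filter]
    simp
  have h1 := Cog.card_vertices dep U hU (by omega)
  have hSE : ∀ w, Cog.St hd tl E w ⊆ E := fun w => Finset.filter_subset _ _
  -- (3)
  have h3 : ∀ w ∈ U, 3 ≤ (Cog.St hd tl E w).card := by
    intro w hw
    have hne := (hU w).1 hw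
    have hdep := Cog.star_dep dep w hne
    by_contra hlt
    have hc : (Cog.St hd tl E w).card = 1 ∨ (Cog.St hd tl E w).card = 2 := by
      have := Finset.card_pos.2 hne
      omega
    apply hdep
    rcases hc with hc | hc
    · obtain ⟨e, he⟩ := Finset.card_eq_one.1 hc
      have heE : e ∈ E := hSE w (by rw [he]; simp)
      rw [he, Finset.coe_singleton]
      exact LinearIndepOn.singleton (hb.sys.ne e heE)
    · obtain ⟨e, e', hee, he⟩ := Finset.card_eq_two.1 hc
      have heE : e ∈ E := hSE w (by rw [he]; simp)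
      have heE' : e' ∈ E := hSE w (by rw [he]; simp)
      have hli := hb.par' heE heE' hee
      rw [he, Finset.coe_insert, Finset.coe_singleton,
        linearIndepOn_pair_iff v hee (hb.sys.ne e heE)]
      rw [LinearIndependent.pair_iff' (hb.sys.ne e heE)] at hli
      exact hli
  -- (2)
  have h2 : ∑ w ∈ U, (Cog.St hd tl E w).card ≤ 2 * E.card := by
    calc ∑ w ∈ U, (Cog.St hd tl E w).card ≤ ∑ w, (Cog.St hd tl E w).card :=
          Finset.sum_le_sum_of_subset (Finset.subset_univ _)
      _ = ∑ w, ∑ e ∈ E, (if Cog.sg hd tl w e ≠ 0 then 1 else 0) := by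
          refine Finset.sum_congr rfl fun w _ => ?_
          unfold Cog.St
          rw [Finset.card_filter]
      _ = ∑ e ∈ E, ∑ w, (if Cog.sg hd tl w e ≠ 0 then 1 else 0) := Finset.sum_comm
      _ ≤ ∑ e ∈ E, 2 := by
          refine Finset.sum_le_sum fun e _ => ?_
          rw [← Finset.card_filter]
          have hs : Finset.univ.filter (fun w => Cog.sg hd tl w e ≠ 0) ⊆ {hd e, tl e} := by
            intro w hw
            rw [Finset.mem_filter] at hw
            rw [Finset.mem_insert, Finset.mem_singleton]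
            rcases Cog.sg_ne hw.2 with ⟨h, _⟩ | ⟨_, h⟩
            · exact Or.inl h.symm
            · exact Or.inr h.symm
          exact (Finset.card_le_card hs).trans Finset.card_le_two
      _ = 2 * E.card := by rw [Finset.sum_const, smul_eq_mul, mul_comm]
  -- (5)
  have h5 : ∀ w w', w ≠ w' → ∀ x y, x ≠ y → c x = c y → x ∈ Cog.St hd tl E w →
      y ∈ Cog.St hd tl E w → x ∈ Cog.St hd tl E w' → y ∈ Cog.St hd tl E w' → False := by
    intro w w' hww x y hxy hcxy hx hy hx' hy'
    have hxE := hSE w hx
    have hyE := hSE w hy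
    have hends : ∀ z, z ∈ Cog.St hd tl E w → z ∈ Cog.St hd tl E w' →
        (hd z = w ∧ tl z = w') ∨ (hd z = w' ∧ tl z = w) := by
      intro z hz hz'
      unfold Cog.St at hz hz'
      rw [Finset.mem_filter] at hz hz'
      rcases Cog.sg_ne hz.2 with ⟨a1, a2⟩ | ⟨a1, a2⟩ <;>
        rcases Cog.sg_ne hz'.2 with ⟨b1, b2⟩ | ⟨b1, b2⟩
      · exact absurd (a1.symm.trans b1) hww
      · exact Or.inl ⟨a1, b2⟩
      · exact Or.inr ⟨b1, a2⟩
      · exact absurd (a2.symm.trans b2) hww
    have hsign : ∃ s : ℚ, ∀ π : W → ℚ, π (hd x) - π (tl x) = s * (π (hd y) - π (tl y)) := by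
      rcases hends x hx hx' with ⟨a1, a2⟩ | ⟨a1, a2⟩ <;>
        rcases hends y hy hy' with ⟨b1, b2⟩ | ⟨b1, b2⟩
      · exact ⟨1, fun π => by rw [a1, a2, b1, b2]; ring⟩
      · exact ⟨-1, fun π => by rw [a1, a2, b1, b2]; ring⟩
      · exact ⟨-1, fun π => by rw [a1, a2, b1, b2]; ring⟩
      · exact ⟨1, fun π => by rw [a1, a2, b1, b2]; ring⟩
    obtain ⟨s, hs⟩ := hsign
    have hD : ({x, y} : Finset ι) ⊆ E := by
      intro z hz
      rw [Finset.mem_insert, Finset.mem_singleton] at hz
      rcases hz with rfl | rfl <;> assumption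
    have he0 : e0 ∉ ({x, y} : Finset ι) := by
      rw [Finset.mem_insert, Finset.mem_singleton]
      rintro (h | h)
      · subst h
        exact hxy (hb.single y hyE hcxy.symm).symm
      · subst h
        exact hxy (hb.single x hxE hcxy)
    have hrk : rk v (E \ {x, y}) + 2 ≤ 2 * h := by
      by_contra hcon
      have hfin : FiniteDimensional ℚ (span ℚ (v '' (E : Set ι))) :=
        FiniteDimensional.span_of_finite ℚ ((Finset.finite_toSet E).image v)
      have hle : span ℚ (v '' ((E \ {x, y} : Finset ι) : Set ι)) ≤ span ℚ (v '' (E : Set ι)) := by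
        apply span_mono
        apply Set.image_mono
        rw [Finset.coe_subset]
        exact Finset.sdiff_subset
      have heq : span ℚ (v '' ((E \ {x, y} : Finset ι) : Set ι)) = span ℚ (v '' (E : Set ι)) := by
        apply Submodule.eq_of_le_of_finrank_le hle
        unfold rk at hcon hrank
        omega
      have hvx : v x ∈ span ℚ (v '' ((E \ {x, y} : Finset ι) : Set ι)) := by
        rw [heq]
        exact subset_span ⟨x, hxE, rfl⟩
      rw [Submodule.mem_span_image_finset_iff_exists_fun] at hvx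
      obtain ⟨b₀, hbv⟩ := hvx
      set b : ι → ℚ := fun z => if hz : z ∈ E \ {x, y} then b₀ ⟨z, hz⟩ else 0 with hbdef
      have hbv : ∑ z ∈ E \ {x, y}, b z • v z = v x := by
        rw [← hbv, ← Finset.sum_coe_sort (E \ {x, y})]
        refine Finset.sum_congr rfl fun z _ => ?_
        rw [hbdef]
        simp only [dif_pos z.2]
      have hsum : ∑ e ∈ E, (if e = x then 1 else if e = y then 0 else - b e : ℚ) • v e = 0 := by
        have hE : E = insert x (insert y (E \ {x, y})) := by
          ext z
          simp only [Finset.mem_insert, Finset.mem_sdiff, Finset.mem_singleton, not_or]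
          constructor
          · intro hz
            by_cases h1 : z = x
            · exact Or.inl h1
            · by_cases h2 : z = y
              · exact Or.inr (Or.inl h2)
              · exact Or.inr (Or.inr ⟨hz, h1, h2⟩)
          · rintro (rfl | rfl | ⟨hz, _⟩)
            · exact hxE
            · exact hyE
            · exact hz
        rw [hE, Finset.sum_insert, Finset.sum_insert]
        · rw [if_pos rfl, if_neg hxy.symm, if_pos rfl, one_smul, zero_smul, zero_add, ← hbv,
            ← Finset.sum_add_distrib]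
          refine Finset.sum_eq_zero fun e he => ?_
          rw [Finset.mem_sdiff, Finset.mem_insert, Finset.mem_singleton, not_or] at he
          rw [if_neg he.2.1, if_neg he.2.2, neg_smul, add_neg_cancel]
        · simp
        · simp [hxy]
      rw [dep] at hsum
      obtain ⟨π, hπ⟩ := hsum
      have hπx := hπ x hxE
      have hπy := hπ y hyE
      rw [if_pos rfl] at hπx
      rw [if_neg hxy.symm, if_pos rfl] at hπy
      rw [hs π, ← hπy, mul_zero] at hπx
      exact one_ne_zero hπx
    have h4 := coc_notin hC hb hD he0 hrk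
    have h5 : ({x, y} : Finset ι).card ≤ 2 := Finset.card_le_two
    omega
  -- (6)
  set P : Finset W := U.filter (fun w => ¬ Set.InjOn c (Cog.St hd tl E w : Set ι)) with hPdef
  have hPx : ∀ w ∈ P, ∃ x y, x ≠ y ∧ c x = c y ∧ x ∈ Cog.St hd tl E w ∧
      y ∈ Cog.St hd tl E w := by
    intro w hw
    rw [hPdef, Finset.mem_filter] at hw
    obtain ⟨_, hw⟩ := hw
    unfold Set.InjOn at hw
    push Not at hw
    obtain ⟨x, hx, y, hy, hcxy, hxy⟩ := hw
    exact ⟨x, y, hxy, hcxy, hx, hy⟩
  have hP : P.card + 1 ≤ 2 * h := by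
    have hcol : ∀ w ∈ P, ∃ k, k ∈ (E.image c).erase (c e0) ∧
        ∃ x y, x ≠ y ∧ c x = k ∧ c y = k ∧ x ∈ Cog.St hd tl E w ∧ y ∈ Cog.St hd tl E w := by
      intro w hw
      obtain ⟨x, y, hxy, hcxy, hx, hy⟩ := hPx w hw
      refine ⟨c x, ?_, x, y, hxy, rfl, hcxy.symm, hx, hy⟩
      rw [Finset.mem_erase]
      refine ⟨?_, Finset.mem_image_of_mem c (hSE w hx)⟩
      intro h
      apply hxy
      rw [hb.single x (hSE w hx) h, hb.single y (hSE w hy) (hcxy.symm.trans h)]
    have : Nonempty κ := ⟨c e0⟩
    choose! k hk hk' using hcol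
    have hinj : Set.InjOn k (P : Set W) := by
      intro w hw w' hw' hkk
      by_contra hww
      obtain ⟨x, y, hxy, hcx, hcy, hx, hy⟩ := hk' w hw
      obtain ⟨x', y', hxy', hcx', hcy', hx', hy'⟩ := hk' w' hw'
      -- the colour class has two elements
      have hxx : ∀ z, z = x ∨ z = y → z ∈ Cog.St hd tl E w' := by
        intro z hz
        have hzE : z ∈ E := by
          rcases hz with rfl | rfl
          · exact hSE w hx
          · exact hSE w hy
        have hcz : c z = k w := by
          rcases hz with rfl | rfl <;> assumption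
        rcases hb.sys.two z hzE x' (hSE w' hx') y' (hSE w' hy')
          (by rw [hcz, hcx', hkk]) (by rw [hcz, hcy', hkk]) with h | h | h
        · rw [h]; exact hx'
        · rw [h]; exact hy'
        · exact absurd h hxy'
      exact h5 w w' hww x y hxy (hcx.trans hcy.symm) hx hy (hxx x (Or.inl rfl))
        (hxx y (Or.inr rfl))
    have h7 : P.card ≤ ((E.image c).erase (c e0)).card :=
      Finset.card_le_card_of_injOn k (fun w hw => hk w hw) hinj
    rw [Finset.card_erase_of_mem (Finset.mem_image_of_mem c hb.mem0)] at h7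
    have h8 : (E.image c).card = 2 * h := by
      have := hb.nc_eq
      unfold nc at this
      convert this
    omega
  have hPU : P ⊆ U := Finset.filter_subset _ _
  have hQ : ∀ w ∈ U \ P, h + 1 ≤ (Cog.St hd tl E w).card := by
    intro w hw
    rw [Finset.mem_sdiff] at hw
    obtain ⟨hwU, hwP⟩ := hw
    have hinj : Set.InjOn c (Cog.St hd tl E w : Set ι) := by
      by_contra hni
      apply hwP
      rw [hPdef]
      exact Finset.mem_filter.2 ⟨hwU, hni⟩
    by_contra hlt
    apply hb.short
    exact ⟨Cog.St hd tl E w, hSE w, by omega, hinj,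
      Cog.star_dep dep w ((hU w).1 hwU)⟩
  have hsum : 3 * P.card + (h + 1) * (U \ P).card ≤ 2 * E.card := by
    refine le_trans ?_ h2
    rw [← Finset.sum_sdiff hPU, add_comm]
    refine add_le_add ?_ ?_
    · calc (h + 1) * (U \ P).card = ∑ _w ∈ U \ P, (h + 1) := by
            rw [Finset.sum_const, smul_eq_mul, mul_comm]
        _ ≤ _ := Finset.sum_le_sum hQ
    · calc 3 * P.card = ∑ _w ∈ P, 3 := by rw [Finset.sum_const, smul_eq_mul, mul_comm]
        _ ≤ _ := Finset.sum_le_sum fun w hw => h3 w (hPU hw)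
  have hUP : (U \ P).card + P.card = U.card := Finset.card_sdiff_add_card_eq_card hPU
  obtain ⟨p', hp'⟩ : ∃ p', 2 * h = P.card + 1 + p' := ⟨2 * h - (P.card + 1), by omega⟩
  obtain ⟨x, hx⟩ : ∃ x, (U \ P).card = 2 + p' + x := ⟨(U \ P).card - (2 + p'), by omega⟩
  obtain ⟨h', hh'⟩ : ∃ h', h = h' + 2 := ⟨h - 2, by omega⟩
  have h9 : (h + 1) * (U \ P).card = (h + 1) * 2 + 3 * p' + h' * p' + (h + 1) * x := by
    rw [hx, hh']; ring
  have h10 : 0 ≤ h' * p' := Nat.zero_le _
  have h11 : 0 ≤ (h + 1) * x := Nat.zero_le _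
  omega

end RC.Base
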