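import Pool.Agent.Helper73.RCS.Cocircuit

/-!
Module RC-K3.  A bad system is not graphic.

Let `φ : V → (W → ℚ)` be as in the hypothesis: for `e ∈ E`, `φ (v e) = single a 1 - single b 1`
with `a ≠ b` (`v e ≠ 0`), call `a, b` the ends of `e`.  For `w ∈ W` let `D w ⊆ E` be the set of
elements with end `w`, that is with `φ (v e) w ≠ 0`.  Let `U ⊆ W` be the set of `w` with `D w`
nonempty.
(1) `|U| ≥ 2 h`: `φ` maps `span (v '' E)` (dimension `2 h - 1`) injectively into the space of
    functions supported on `U` with sum `0`, of dimension at most `|U| - 1`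
    (`U` nonempty).
(2) For `w ∈ U`: the functional `g ↦ g w` is nonzero on `φ (span (v '' E))` and vanishes on
    `φ (v e)` for `e ∉ D w`; so `rk v (E \ D w) + 1 ≤ rk v E`, `rk v (E \ D w) + 2 ≤ 2 h`.
    So `|D w| ≥ 4` if `e0 ∉ D w` (`RC.coc_notin`), and `|D w| ≥ 3` if `e0 ∈ D w`, with equality only
    for `{e0, x, y}`, `c x = c y` (`RC.coc_in`).
(3) Double counting: `∑_{w ∈ U} |D w| = 2 |E| = 8 h - 2`; exactly two vertices, the ends `p, q` of
    `e0`, have `e0 ∈ D w`.  `8 h - 2 ≥ 4 (|U| - 2) + 6 ≥ 8 h - 2`, so `|U| = 2 h`,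
    `|D p| = |D q| = 3`, `|D w| = 4` for the others.  `D p = {e0, x1, y1}`,
    `D q = {e0, x2, y2}`.
(4) Two elements with the same two ends are parallel, impossible (`Bad.par'`).  So for every colour
    `{x, y}` there is at most one `w` with `x, y ∈ D w`; the colour of `x1, y1` is different from
    that of `x2, y2` (else `x1` would join `p` and `q`, parallel to `e0`).  The `2 h - 2`
    vertices `w ∈ U`, `w ≠ p, q`, can contain only colours other than those of `e0, x1, x2`
    completely: at most `2 h - 3` colours.  So there is `r ∈ U`, `r ≠ p, q`, such that `D r`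
    (4 elements) contains no complete colour (note `e0 ∉ D r`).
(5) Let `F = E \ (D p ∪ D q ∪ D r)`.  The three functionals `g ↦ g p, g q, g r` are linearly
    independent on `φ (span (v '' E))`: this space has dimension `2 h - 1 = |U| - 1`, so it is the
    space of all functions supported on `U` with sum `0`, and `|U| = 2 h ≥ 4`.  So
    `rk v F ≤ 2 h - 4`.
    Colours: `D p ∪ D q` has 5 elements (`D p ∩ D q = {e0}`).  Let `i = |D r ∩ (D p ∪ D q)|`;
    `i ≤ 2` is not needed.  `|F| = 4 h - 1 - 5 - 4 + i = 4 h - 10 + i`.  `nc c F = 2 h - 3`: the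
    colours of `e0`, `x1`, `x2` are not in `F`; every other colour has at most one element in `D r`
    and none in `D p ∪ D q`, so it meets `F`.
    `RC.sub_ineq` (`rk v F + 1 ≤ 2 h - 3 = nc c F`): `h + (4 h - 10 + i - (2 h - 3) + 1)/2 ≤ rk v F`
    `≤ 2 h - 4`, so `(2 h - 6 + i)/2 ≤ h - 4`, false.
    (If `rk v F + 1 ≤ nc c F` fails there is nothing to show; it holds as `rk v F ≤ 2 h - 4`.)
-/

namespace RC.Base

open Submodule Module

variable {ι κ V : Type} [AddCommGroup V] [Module ℚ V]

theorem h85_single_ne {W : Type} [DecidableEq W] {a b : W} (hab : a ≠ b) (w : W) :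
    (Pi.single a (1 : ℚ) - Pi.single b 1 : W → ℚ) w ≠ 0 ↔ w = a ∨ w = b := by
  by_cases h1 : w = a
  · subst h1; simp [hab]
  · by_cases h2 : w = b
    · subst h2; simp [h1]
    · simp [h1, h2]

theorem h85_rank {v : ι → V} {X : Finset ι} {W : Type} [Fintype W] [DecidableEq W]
    (φ : V →ₗ[ℚ] (W → ℚ)) (inj : ∀ y ∈ span ℚ (v '' (X : Set ι)), φ y = 0 → y = 0)
    (edge : ∀ e ∈ X, ∃ a b : W, φ (v e) = Pi.single a 1 - Pi.single b 1)
    (K : Finset W) (hK : K.Nonempty) (hs : ∀ e ∈ X, ∀ w, w ∉ K → φ (v e) w = 0) :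
    rk v X + 1 ≤ K.card := by
  obtain ⟨k0, hk0⟩ := hK
  have h1 : ∀ y ∈ span ℚ (v '' (X : Set ι)), ∀ w, w ∉ K → φ y w = 0 := by
    intro y hy
    induction hy using span_induction with
    | mem x hx =>
      obtain ⟨e, he, rfl⟩ := hx
      exact hs e he
    | zero => intro w _; simp
    | add x y _ _ hx hy => intro w hw; simp [hx w hw, hy w hw]
    | smul a x _ hx => intro w hw; simp [hx w hw]
  have h2 : ∀ y ∈ span ℚ (v '' (X : Set ι)), ∑ w, φ y w = 0 := by
    intro y hy
    induction hy using span_induction with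
    | mem x hx =>
      obtain ⟨e, he, rfl⟩ := hx
      obtain ⟨a, b, hab⟩ := edge e he
      rw [hab]
      simp
    | zero => simp
    | add x y _ _ hx hy =>
      simp only [map_add, Pi.add_apply, Finset.sum_add_distrib, hx, hy, add_zero]
    | smul a x _ hx =>
      simp only [map_smul, Pi.smul_apply, smul_eq_mul, ← Finset.mul_sum, hx, mul_zero]
  let f : span ℚ (v '' (X : Set ι)) →ₗ[ℚ] (↥(K.erase k0) → ℚ) :=
    (LinearMap.funLeft ℚ ℚ (fun w : ↥(K.erase k0) => (w : W))) ∘ₗ φ ∘ₗ
      (span ℚ (v '' (X : Set ι))).subtype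
  have hf : Function.Injective f := by
    rw [← LinearMap.ker_eq_bot, LinearMap.ker_eq_bot']
    rintro ⟨y, hy⟩ h
    have h3 : ∀ w, w ∈ K → w ≠ k0 → φ y w = 0 := fun w hw hne =>
      congrFun h ⟨w, Finset.mem_erase.2 ⟨hne, hw⟩⟩
    have h5 : ∀ w, w ≠ k0 → φ y w = 0 := by
      intro w hw
      by_cases hk : w ∈ K
      · exact h3 w hk hw
      · exact h1 y hy w hk
    have h6 := h2 y hy
    rw [Finset.sum_eq_single k0 (fun w _ hw => h5 w hw) (by simp)] at h6
    have h4 : φ y = 0 := by
      funext w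
      by_cases hw : w = k0
      · subst hw; exact h6
      · exact h5 w hw
    exact Subtype.ext (inj y hy h4)
  have h7 := LinearMap.finrank_le_finrank_of_injective hf
  rw [finrank_fintype_fun_eq_card, Fintype.card_coe, Finset.card_erase_of_mem hk0] at h7
  have h8 := Finset.card_pos.2 ⟨k0, hk0⟩
  unfold rk
  omega

theorem h85_drop {v : ι → V} {E F : Finset ι} (hF : F ⊆ E) (f : V →ₗ[ℚ] ℚ)
    (hf : ∀ e ∈ F, f (v e) = 0) {e : ι} (he : e ∈ E) (hne : f (v e) ≠ 0) :
    rk v F + 1 ≤ rk v E := by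
  unfold rk
  have hlt : span ℚ (v '' (F : Set ι)) < span ℚ (v '' (E : Set ι)) := by
    refine lt_of_le_of_ne (span_mono (Set.image_mono (by exact_mod_cast hF))) ?_
    intro heq
    have h1 : v e ∈ span ℚ (v '' (F : Set ι)) := heq ▸ subset_span ⟨e, he, rfl⟩
    have hle : span ℚ (v '' (F : Set ι)) ≤ LinearMap.ker f := span_le.2 (by
      rintro _ ⟨x, hx, rfl⟩
      exact hf x hx)
    exact hne (hle h1)
  have hfin : FiniteDimensional ℚ (span ℚ (v '' (E : Set ι))) :=
    FiniteDimensional.span_of_finite ℚ ((Finset.finite_toSet E).image v)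
  exact Submodule.finrank_lt_finrank_of_lt hlt

theorem bad_not_graphic {C : ClsT} (hC : Cls C) {h : ℕ} {v : ι → V} {c : ι → κ}
    {E : Finset ι} {e0 : ι} (hb : Bad C h v c E e0) (W : Type) [Fintype W] [DecidableEq W]
    (φ : V →ₗ[ℚ] (W → ℚ)) (inj : ∀ y ∈ span ℚ (v '' (E : Set ι)), φ y = 0 → y = 0)
    (edge : ∀ e ∈ E, ∃ a b : W, φ (v e) = Pi.single a 1 - Pi.single b 1) : False := by
  classical
  have hh := hb.two_le
  have hmem : ∀ e ∈ E, v e ∈ span ℚ (v '' (E : Set ι)) := fun e he => subset_span ⟨e, he, rfl⟩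
  -- ends
  have hend : ∀ e ∈ E, ∃ a b : W, a ≠ b ∧ φ (v e) = Pi.single a 1 - Pi.single b 1 := by
    intro e he
    obtain ⟨a, b, hab⟩ := edge e he
    refine ⟨a, b, ?_, hab⟩
    rintro rfl
    apply hb.sys.ne e he
    apply inj _ (hmem e he)
    rw [hab, sub_self]
  let D : W → Finset ι := fun w => E.filter (fun e => φ (v e) w ≠ 0)
  have hD : ∀ w e, e ∈ D w ↔ e ∈ E ∧ φ (v e) w ≠ 0 := fun w e => Finset.mem_filter
  have hDE : ∀ w, D w ⊆ E := fun w => Finset.filter_subset _ _
  let U : Finset W := Finset.univ.filter (fun w => (D w).Nonempty)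
  have hU : ∀ w, w ∈ U ↔ (D w).Nonempty := fun w => by simp [U]
  -- no two elements with the same two ends
  have hpar : ∀ x ∈ E, ∀ y ∈ E, x ≠ y → ∀ w w' : W, w ≠ w' → x ∈ D w → x ∈ D w' → y ∈ D w →
      y ∈ D w' → False := by
    intro x hx y hy hxy w w' hww h1 h2 h3 h4
    rw [hD] at h1 h2 h3 h4
    obtain ⟨a, b, hab, he⟩ := hend x hx
    obtain ⟨a', b', hab', he'⟩ := hend y hy
    rw [he, h85_single_ne hab] at h1 h2
    rw [he', h85_single_ne hab'] at h3 h4
    have hcase : φ (v x) = φ (v y) ∨ φ (v x) = - φ (v y) := by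
      have hab2 : (a = a' ∧ b = b') ∨ (a = b' ∧ b = a') := by
        have e1 := h1.2
        have e2 := h2.2
        have e3 := h3.2
        have e4 := h4.2
        clear h1 h2 h3 h4 he he' edge inj
        grind
      rw [he, he', neg_sub]
      rcases hab2 with ⟨rfl, rfl⟩ | ⟨rfl, rfl⟩
      · exact Or.inl rfl
      · exact Or.inr rfl
    have hli := hb.par' hx hy hxy
    rw [LinearIndependent.pair_iff] at hli
    rcases hcase with h | h
    · have h5 : v x - v y = 0 := by
        apply inj _ (sub_mem (hmem x hx) (hmem y hy))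
        rw [map_sub, h, sub_self]
      have h6 := hli 1 (-1) (by rw [one_smul, neg_smul, one_smul, ← sub_eq_add_neg]; exact h5)
      exact one_ne_zero h6.1
    · have h5 : v x + v y = 0 := by
        apply inj _ (add_mem (hmem x hx) (hmem y hy))
        rw [map_add, h, neg_add_cancel]
      have h6 := hli 1 1 (by rw [one_smul, one_smul]; exact h5)
      exact one_ne_zero h6.1
  -- (1)
  have hUne : ∀ e ∈ E, ∀ w, φ (v e) w ≠ 0 → w ∈ U := fun e he w hw =>
    (hU w).2 ⟨e, (hD w e).2 ⟨he, hw⟩⟩
  obtain ⟨p, q, hpq, he0⟩ := hend e0 hb.mem0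
  have hp0 : e0 ∈ D p := (hD p e0).2 ⟨hb.mem0, by rw [he0, h85_single_ne hpq]; exact Or.inl rfl⟩
  have hq0 : e0 ∈ D q := (hD q e0).2 ⟨hb.mem0, by rw [he0, h85_single_ne hpq]; exact Or.inr rfl⟩
  have hpU : p ∈ U := (hU p).2 ⟨e0, hp0⟩
  have hqU : q ∈ U := (hU q).2 ⟨e0, hq0⟩
  have hrE := hb.rank
  have h1 : 2 * h ≤ U.card := by
    have := h85_rank φ inj edge U ⟨p, hpU⟩ (fun e he w hw => by
      by_contra hne
      exact hw (hUne e he w hne))
    omega
  -- (2)
  have h2 : ∀ w ∈ U, rk v (E \ D w) + 2 ≤ 2 * h := by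
    intro w hw
    obtain ⟨e, he⟩ := (hU w).1 hw
    have := h85_drop (v := v) (E := E) (F := E \ D w) Finset.sdiff_subset
      ((LinearMap.proj w) ∘ₗ φ) (by
        intro x hx
        rw [Finset.mem_sdiff, hD] at hx
        by_contra hne
        exact hx.2 ⟨hx.1, hne⟩) ((hD w e).1 he).1 ((hD w e).1 he).2
    omega
  have hn0 : ∀ w, w ≠ p → w ≠ q → e0 ∉ D w := by
    intro w hwp hwq hw
    have := ((hD w e0).1 hw).2
    rw [he0, h85_single_ne hpq] at this
    rcases this with h | h
    · exact hwp h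
    · exact hwq h
  have h4 : ∀ w ∈ U, w ≠ p → w ≠ q → 4 ≤ (D w).card := fun w hw hwp hwq =>
    coc_notin hC hb (hDE w) (hn0 w hwp hwq) (h2 w hw)
  have hP := coc_in hC hb (hDE p) hp0 (h2 p hpU)
  have hQ := coc_in hC hb (hDE q) hq0 (h2 q hqU)
  -- (3)
  have hcount : ∑ w, (D w).card = 2 * E.card := by
    have : ∀ w, (D w).card = ∑ e ∈ E, if φ (v e) w ≠ 0 then 1 else 0 := fun w => by
      rw [Finset.card_filter]
    rw [Finset.sum_congr rfl (fun w _ => this w), Finset.sum_comm,
      Finset.sum_congr rfl (g := fun _ => 2) ?_]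
    · rw [Finset.sum_const, smul_eq_mul, mul_comm]
    · intro e he
      obtain ⟨a, b, hab, hee⟩ := hend e he
      rw [← Finset.card_filter]
      have : Finset.univ.filter (fun w => φ (v e) w ≠ 0) = {a, b} := by
        ext w
        rw [Finset.mem_filter, hee, h85_single_ne hab]
        simp
      rw [this, Finset.card_pair hab]
  have hsumU : ∑ w ∈ U, (D w).card = 2 * E.card := by
    rw [← hcount]
    apply Finset.sum_subset (Finset.subset_univ _)
    intro w _ hw
    rw [hU, Finset.not_nonempty_iff_eq_empty] at hw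
    rw [hw, Finset.card_empty]
  have hsplit : ∑ w ∈ U, (D w).card = (D p).card + ((D q).card +
      ∑ w ∈ (U.erase p).erase q, (D w).card) := by
    rw [← Finset.add_sum_erase U (fun w => (D w).card) hpU,
      ← Finset.add_sum_erase (U.erase p) (fun w => (D w).card)
        (Finset.mem_erase.2 ⟨hpq.symm, hqU⟩)]
  have hcardR : ((U.erase p).erase q).card + 2 = U.card := by
    rw [Finset.card_erase_of_mem (Finset.mem_erase.2 ⟨hpq.symm, hqU⟩),
      Finset.card_erase_of_mem hpU]
    omega
  have hlow : 4 * ((U.erase p).erase q).card ≤ ∑ w ∈ (U.erase p).erase q, (D w).card := by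
    have := Finset.card_nsmul_le_sum ((U.erase p).erase q) (fun w => (D w).card) 4 (by
      intro w hw
      rw [Finset.mem_erase, Finset.mem_erase] at hw
      exact h4 w hw.2.2 hw.2.1 hw.1)
    rw [smul_eq_mul] at this
    omega
  have hE := hb.card
  have hUc : U.card = 2 * h := by omega
  have hPc : (D p).card = 3 := by omega
  have hQc : (D q).card = 3 := by omega
  obtain ⟨x1, hx1, y1, hy1, hxy1, hx10, hy10, hc1, hall1⟩ := hP.2 hPc
  obtain ⟨x2, hx2, y2, hy2, hxy2, hx20, hy20, hc2, hall2⟩ := hQ.2 hQc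
  have hle4 : ∀ r ∈ U, r ≠ p → r ≠ q → (D r).card ≤ 4 := by
    intro r hr hrp hrq
    have hrm : r ∈ (U.erase p).erase q :=
      Finset.mem_erase.2 ⟨hrq, Finset.mem_erase.2 ⟨hrp, hr⟩⟩
    have hs := Finset.add_sum_erase ((U.erase p).erase q) (fun w => (D w).card) hrm
    have hlow' := Finset.card_nsmul_le_sum (((U.erase p).erase q).erase r)
      (fun w => (D w).card) 4 (by
        intro w hw
        rw [Finset.mem_erase, Finset.mem_erase, Finset.mem_erase] at hw
        exact h4 w hw.2.2.2 hw.2.2.1 hw.2.1)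
    rw [smul_eq_mul, Finset.card_erase_of_mem hrm] at hlow'
    omega
  -- (4)
  have hex : ∃ r ∈ U, ∀ x ∈ D r, ∀ y ∈ D r, c x = c y → x = y := by
    by_contra hno
    push Not at hno
    have : Nonempty ι := ⟨e0⟩
    choose! X hX Y hY hXY hne using hno
    have hinj : Set.InjOn (fun w => c (X w)) (U : Set W) := by
      intro w hw w' hw' heq
      by_contra hww
      simp only at heq
      have hw1 : w ∈ U := hw
      have hw1' : w' ∈ U := hw'
      have a1 := hDE w (hX w hw1)
      have a2 := hDE w (hY w hw1)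
      have a3 := hDE w' (hX w' hw1')
      have a4 := hDE w' (hY w' hw1')
      have b1 := hXY w hw1
      have b2 := hXY w' hw1'
      have b3 := hne w hw1
      have b4 := hne w' hw1'
      have k1 : X w ∈ D w' := by
        rcases hb.sys.two _ a3 _ a4 _ a1 b2 heq.symm with h | h | h
        · exact absurd h b4
        · rw [← h]; exact hX w' hw1'
        · rw [← h]; exact hY w' hw1'
      have k2 : Y w ∈ D w' := by
        rcases hb.sys.two _ a3 _ a4 _ a2 b2 (heq.symm.trans b1) with h | h | h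
        · exact absurd h b4
        · rw [← h]; exact hX w' hw1'
        · rw [← h]; exact hY w' hw1'
      exact hpar _ a1 _ a2 b3 w w' hww (hX w hw1) k1 (hY w hw1) k2
    have hmaps : ∀ w ∈ U, (fun w => c (X w)) w ∈ (E.image c).erase (c e0) := by
      intro w hw
      rw [Finset.mem_erase]
      refine ⟨?_, Finset.mem_image_of_mem c (hDE w (hX w hw))⟩
      intro h
      have e1 := hb.single _ (hDE w (hX w hw)) h
      have e2 := hb.single _ (hDE w (hY w hw)) ((hXY w hw).symm.trans h)
      exact hne w hw (e1.trans e2.symm)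
    have hcc := Finset.card_le_card_of_injOn _ hmaps hinj
    rw [Finset.card_erase_of_mem (Finset.mem_image_of_mem c hb.mem0)] at hcc
    have hnc : (E.image c).card = 2 * h := by
      rw [← hb.nc_eq]
      unfold nc
      congr!
    omega
  obtain ⟨r, hrU, hr⟩ := hex
  have hrp : r ≠ p := by
    rintro rfl
    exact hxy1 (hr x1 hx1 y1 hy1 hc1)
  have hrq : r ≠ q := by
    rintro rfl
    exact hxy2 (hr x2 hx2 y2 hy2 hc2)
  have hr4 := hle4 r hrU hrp hrq
  -- colours of x1, x2
  have hc12 : c x1 ≠ c x2 := by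
    intro heq
    have k1 : x1 ∈ D q := by
      rcases hb.sys.two _ (hDE q hx2) _ (hDE q hy2) _ (hDE p hx1) hc2 heq.symm with h | h | h
      · exact absurd h hxy2
      · rw [← h]; exact hx2
      · rw [← h]; exact hy2
    exact hpar e0 hb.mem0 x1 (hDE p hx1) hx10.symm p q hpq hp0 hq0 hx1 k1
  have hc01 : c x1 ≠ c e0 := fun h => hx10 (hb.single _ (hDE p hx1) h)
  have hc02 : c x2 ≠ c e0 := fun h => hx20 (hb.single _ (hDE q hx2) h)
  -- (5)
  let F : Finset ι := E \ (D p ∪ D q ∪ D r)
  have hFE : F ⊆ E := Finset.sdiff_subset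
  have hF : ∀ e, e ∈ F ↔ e ∈ E ∧ e ∉ D p ∧ e ∉ D q ∧ e ∉ D r := by
    intro e
    simp only [F, Finset.mem_sdiff, Finset.mem_union, not_or, and_assoc]
  have hKc : (((U.erase p).erase q).erase r).card + 3 = 2 * h := by
    rw [Finset.card_erase_of_mem (Finset.mem_erase.2 ⟨hrq, Finset.mem_erase.2 ⟨hrp, hrU⟩⟩)]
    omega
  have hFrk : rk v F + 1 ≤ (((U.erase p).erase q).erase r).card := by
    refine h85_rank φ (fun y hy => inj y (span_mono (Set.image_mono (by exact_mod_cast hFE)) hy))
      (fun e he => edge e (hFE he)) _ (Finset.card_pos.1 (by omega)) ?_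
    intro e he w hw
    by_contra hne
    apply hw
    have he' := (hF e).1 he
    rw [Finset.mem_erase, Finset.mem_erase, Finset.mem_erase]
    refine ⟨?_, ?_, ?_, hUne e he'.1 w hne⟩
    · rintro rfl
      exact he'.2.2.2 ((hD _ e).2 ⟨he'.1, hne⟩)
    · rintro rfl
      exact he'.2.2.1 ((hD _ e).2 ⟨he'.1, hne⟩)
    · rintro rfl
      exact he'.2.1 ((hD _ e).2 ⟨he'.1, hne⟩)
  have hpq1 : (D p ∪ D q).card ≤ 5 := by
    have a1 := Finset.card_union_add_card_inter (D p) (D q)
    have a2 : 0 < (D p ∩ D q).card := Finset.card_pos.2 ⟨e0, Finset.mem_inter.2 ⟨hp0, hq0⟩⟩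
    omega
  have hFc : 4 * h ≤ F.card + 10 := by
    have a1 := Finset.card_union_le (D p ∪ D q) (D r)
    have a2 : E.card ≤ F.card + (D p ∪ D q ∪ D r).card := by
      have := Finset.le_card_sdiff (D p ∪ D q ∪ D r) E
      simp only [F]
      omega
    omega
  have hncE : (E.image c).card = 2 * h := by
    rw [← hb.nc_eq]
    unfold nc
    congr!
  have hthree : ((((E.image c).erase (c e0)).erase (c x1)).erase (c x2)).card + 3 = 2 * h := by
    rw [Finset.card_erase_of_mem (Finset.mem_erase.2 ⟨hc12.symm, Finset.mem_erase.2 ⟨hc02,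
      Finset.mem_image_of_mem c (hDE q hx2)⟩⟩), Finset.card_erase_of_mem (Finset.mem_erase.2
      ⟨hc01, Finset.mem_image_of_mem c (hDE p hx1)⟩), Finset.card_erase_of_mem
      (Finset.mem_image_of_mem c hb.mem0)]
    omega
  have hcp : ∀ e ∈ D p, c e = c e0 ∨ c e = c x1 := by
    intro e he
    rcases hall1 e he with h | h | h
    · exact Or.inl (by rw [h])
    · exact Or.inr (by rw [h])
    · exact Or.inr (by rw [h, hc1])
  have hcq : ∀ e ∈ D q, c e = c e0 ∨ c e = c x2 := by
    intro e he
    rcases hall2 e he with h | h | h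
    · exact Or.inl (by rw [h])
    · exact Or.inr (by rw [h])
    · exact Or.inr (by rw [h, hc2])
  have himg : F.image c = (((E.image c).erase (c e0)).erase (c x1)).erase (c x2) := by
    ext k
    rw [Finset.mem_erase, Finset.mem_erase, Finset.mem_erase, Finset.mem_image, Finset.mem_image]
    constructor
    · rintro ⟨e, he, rfl⟩
      have he' := (hF e).1 he
      refine ⟨?_, ?_, ?_, e, he'.1, rfl⟩
      · intro h
        rcases hb.sys.two _ (hDE q hx2) _ (hDE q hy2) _ he'.1 hc2 h.symm with h | h | h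
        · exact hxy2 h
        · exact he'.2.2.1 (h ▸ hx2)
        · exact he'.2.2.1 (h ▸ hy2)
      · intro h
        rcases hb.sys.two _ (hDE p hx1) _ (hDE p hy1) _ he'.1 hc1 h.symm with h | h | h
        · exact hxy1 h
        · exact he'.2.1 (h ▸ hx1)
        · exact he'.2.1 (h ▸ hy1)
      · intro h
        have := hb.single e he'.1 h
        exact he'.2.1 (this ▸ hp0)
    · rintro ⟨n1, n2, n3, e, he, rfl⟩
      have hee0 : e ≠ e0 := fun h => n3 (by rw [h])
      obtain ⟨e', he', hne', hce'⟩ := hb.partner e he hee0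
      have m1 : e ∉ D p := fun h => by
        rcases hcp e h with h | h
        · exact n3 h
        · exact n2 h
      have m2 : e ∉ D q := fun h => by
        rcases hcq e h with h | h
        · exact n3 h
        · exact n1 h
      have m1' : e' ∉ D p := fun h => by
        rcases hcp e' h with h | h
        · exact n3 (hce'.symm.trans h)
        · exact n2 (hce'.symm.trans h)
      have m2' : e' ∉ D q := fun h => by
        rcases hcq e' h with h | h
        · exact n3 (hce'.symm.trans h)
        · exact n1 (hce'.symm.trans h)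
      by_cases m3 : e ∈ D r
      · refine ⟨e', (hF e').2 ⟨he', m1', m2', ?_⟩, hce'⟩
        intro m4
        exact hne' (hr e' m4 e m3 hce')
      · exact ⟨e, (hF e).2 ⟨he, m1, m2, m3⟩, rfl⟩
  have hncF : nc c F + 3 = 2 * h := by
    have : nc c F = (F.image c).card := by
      unfold nc
      congr!
    rw [this, himg]
    exact hthree
  have hfin := sub_ineq hC hb hFE (by omega) (by omega)
  omega

end RC.Base
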