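import Pool.Agent.Helper59.RC.ChainT

/-!
Module RC-R4.  A maximal chain starting at `e0`.

The chain `ε i b = e0` for all `i, b` has length `N = 1` (`v e0 ≠ 0`).  For a chain of length `N`
the colours of the levels are distinct, so `N ≤ nc c E`.  Take `N` maximal such that a chain with
`ε 0 false = e0` and length `N` exists (`Nat.findGreatest` or well-founded argument).  If the
closure property fails for `e, e'` and `s`, define `ε' N false = e`, `ε' N true = e'`,
`ε' i = ε i` for `i ≠ N`: a chain of length `N + 1` (`GG v ε' i = GG v ε i` for `i ≤ N`).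
`chain_le_rank`: the vectors `v (ε i false)`, `i < N`, are independent elements of the span.
-/

namespace RC.Red

open Submodule Module

variable {ι κ V : Type} [AddCommGroup V] [Module ℚ V]

theorem gg_congr {v : ι → V} {ε ε' : ℕ → Bool → ι} {i : ℕ}
    (h : ∀ j < i, ε' j false = ε j false) : GG v ε' i = GG v ε i := by
  unfold GG
  congr 1
  ext w
  constructor
  · rintro ⟨j, hj, rfl⟩
    exact ⟨j, hj, by rw [h j hj]⟩
  · rintro ⟨j, hj, rfl⟩
    exact ⟨j, hj, by rw [h j hj]⟩

theorem gg_range (v : ι → V) (ε : ℕ → Bool → ι) (i : ℕ) :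
    GG v ε i = span ℚ (Set.range (fun j : Fin i => v (ε j false))) := by
  unfold GG
  congr 1
  ext w
  constructor
  · rintro ⟨j, hj, rfl⟩
    exact ⟨⟨j, hj⟩, rfl⟩
  · rintro ⟨j, rfl⟩
    exact ⟨j, j.2, rfl⟩

theorem chain_indep {v : ι → V} {c : ι → κ} {E : Finset ι} {ε : ℕ → Bool → ι} {N : ℕ}
    (hch : CCh v c E ε N) (i : ℕ) (hi : i ≤ N) :
    LinearIndependent ℚ (fun j : Fin i => v (ε j false)) := by
  induction i with
  | zero => exact linearIndependent_empty_type
  | succ i ih =>
    rw [linearIndependent_fin_succ']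
    refine ⟨ih (by omega), ?_⟩
    have h1 := hch.ind i (by omega)
    rw [gg_range] at h1
    exact h1

theorem chain_le_nc {v : ι → V} {c : ι → κ} {E : Finset ι} {ε : ℕ → Bool → ι} {N : ℕ}
    (hch : CCh v c E ε N) : N ≤ nc c E := by
  classical
  have h1 : ((Finset.range N).image (fun i => c (ε i false))).card = N := by
    rw [Finset.card_image_of_injOn, Finset.card_range]
    intro i hi j hj hij
    exact hch.inj i (Finset.mem_range.1 hi) j (Finset.mem_range.1 hj) hij
  have h2 : (Finset.range N).image (fun i => c (ε i false)) ⊆ E.image c := by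
    intro x hx
    obtain ⟨i, hi, rfl⟩ := Finset.mem_image.1 hx
    exact Finset.mem_image_of_mem _ (hch.mem i (Finset.mem_range.1 hi) false)
  have h3 := Finset.card_le_card h2
  rw [h1] at h3
  unfold nc
  have h4 : (E.image c).card = (@Finset.image ι κ (fun a b => Classical.propDecidable (a = b)) c E).card := by
    congr
  rw [← h4]
  exact h3

theorem exists_chain {C : ClsT} {v : ι → V} {c : ι → κ} {E : Finset ι} (h : Sys C v c E)
    {e0 : ι} (he0 : e0 ∈ E) : ∃ (N : ℕ) (ε : ℕ → Bool → ι), 1 ≤ N ∧ ε 0 false = e0 ∧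
      CCh v c E ε N ∧
      ∀ e ∈ E, ∀ e' ∈ E, e ≠ e' → c e = c e' → (∀ i < N, c e ≠ c (ε i false)) →
        v e ∉ GG v ε N → ∀ s : ℚ, (s = 1 ∨ s = -1) → v e - s • v e' ∉ GG v ε N := by
  classical
  set S : Set ℕ := {N | 1 ≤ N ∧ ∃ ε : ℕ → Bool → ι, ε 0 false = e0 ∧ CCh v c E ε N} with hS
  have hSne : S.Nonempty := by
    refine ⟨1, le_refl 1, fun _ _ => e0, rfl, ?_⟩
    constructor
    · intro _ _ _; exact he0
    · rfl
    · intro _ _; rfl
    · intro i hi j hj _; omega
    · intro i hi
      have h0 : i = 0 := by omega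
      subst h0
      have h1 : GG v (fun _ _ => e0) 0 = ⊥ := by
        unfold GG
        rw [Submodule.span_eq_bot]
        rintro x ⟨j, hj, -⟩
        omega
      rw [h1, Submodule.mem_bot]
      exact h.ne e0 he0
    · intro i hi hi'; omega
  have hSb : BddAbove S := by
    refine ⟨nc c E, ?_⟩
    rintro N ⟨-, ε, -, hch⟩
    exact chain_le_nc hch
  obtain ⟨hN1, ε, hε0, hch⟩ := Nat.sSup_mem hSne hSb
  have hmax : sSup S + 1 ∉ S := by
    intro h1
    have h2 := le_csSup hSb h1
    omega
  set N := sSup S with hNdef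
  refine ⟨N, ε, hN1, hε0, hch, ?_⟩
  intro e he e' he' hee hcc hcol hnot s hs hd
  apply hmax
  set ε' : ℕ → Bool → ι := fun i b => if i = N then (if b then e' else e) else ε i b with hε'
  have hlt : ∀ i < N, ∀ b, ε' i b = ε i b := by
    intro i hi b
    simp only [hε', if_neg (show i ≠ N by omega)]
  have hNf : ε' N false = e := by simp [hε']
  have hNt : ε' N true = e' := by simp [hε']
  have hGG : ∀ i ≤ N, GG v ε' i = GG v ε i := fun i hi =>
    gg_congr fun j hj => hlt j (by omega) false
  refine ⟨by omega, ε', ?_, ?_⟩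
  · rw [hlt 0 (by omega)]; exact hε0
  · constructor
    · intro i hi b
      rcases Nat.lt_succ_iff_lt_or_eq.1 hi with h1 | h1
      · rw [hlt i h1]; exact hch.mem i h1 b
      · subst h1
        cases b
        · rw [hNf]; exact he
        · rw [hNt]; exact he'
    · rw [hlt 0 (by omega), hlt 0 (by omega)]; exact hch.zero
    · intro i hi
      rcases Nat.lt_succ_iff_lt_or_eq.1 hi with h1 | h1
      · rw [hlt i h1, hlt i h1]; exact hch.col i h1
      · subst h1; rw [hNf, hNt]; exact hcc
    · intro i hi j hj hij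
      rcases Nat.lt_succ_iff_lt_or_eq.1 hi with h1 | h1
      · rcases Nat.lt_succ_iff_lt_or_eq.1 hj with h2 | h2
        · rw [hlt i h1, hlt j h2] at hij
          exact hch.inj i h1 j h2 hij
        · subst h2
          rw [hlt i h1, hNf] at hij
          exact absurd hij.symm (hcol i h1)
      · subst h1
        rcases Nat.lt_succ_iff_lt_or_eq.1 hj with h2 | h2
        · rw [hlt j h2, hNf] at hij
          exact absurd hij (hcol j h2)
        · exact h2.symm
    · intro i hi
      rw [hGG i (by omega)]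
      rcases Nat.lt_succ_iff_lt_or_eq.1 hi with h1 | h1
      · rw [hlt i h1]; exact hch.ind i h1
      · subst h1; rw [hNf]; exact hnot
    · intro i hi hi0
      rw [hGG i (by omega)]
      rcases Nat.lt_succ_iff_lt_or_eq.1 hi with h1 | h1
      · rw [hlt i h1, hlt i h1]; exact hch.dif i h1 hi0
      · subst h1; rw [hNf, hNt]; exact ⟨hee, s, hs, hd⟩

theorem chain_finrank {v : ι → V} {c : ι → κ} {E : Finset ι} {ε : ℕ → Bool → ι} {N : ℕ}
    (hch : CCh v c E ε N) (i : ℕ) (hi : i ≤ N) : finrank ℚ (GG v ε i) = i := by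
  rw [gg_range, finrank_span_eq_card (chain_indep hch i hi), Fintype.card_fin]

theorem chain_le_rank {v : ι → V} {c : ι → κ} {E : Finset ι} {ε : ℕ → Bool → ι} {N : ℕ}
    (hch : CCh v c E ε N) : N ≤ rk v E := by
  have hfin : FiniteDimensional ℚ (span ℚ (v '' (E : Set ι))) :=
    FiniteDimensional.span_of_finite ℚ (E.finite_toSet.image v)
  have h1 : GG v ε N ≤ span ℚ (v '' (E : Set ι)) := by
    unfold GG
    apply Submodule.span_mono
    rintro w ⟨j, hj, rfl⟩
    exact Set.mem_image_of_mem _ (hch.mem j hj false)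
  have h2 := Submodule.finrank_mono h1
  rw [chain_finrank hch N le_rfl] at h2
  exact h2

end RC.Red
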