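import Pool.Agent.Helper59.RC.UniQuot

/-!
Module RC-R2.  Contraction of finitely many elements in a class `C`.

`cls_con_finset`: induction on `T`.  `T = ∅`: `hC.map`.  `insert x T`: let
`g = (span {x}).mkQ : V → V₁`, `f = f₁ ∘ g` (`Submodule.liftQ`, as `f x = 0`).  By `hC.con`
`C V₁ (g '' X)`.  `f₁` kills `g '' T`; if `z = g y ∈ span (g '' X)`, `y ∈ span X`, and
`f₁ z = f y = 0`, then `y ∈ span (insert x T)`, so `z ∈ span (g '' T)`.  The induction
hypothesis must be general in `V` and `X`.
`cls_mkQ`: `f = (span T).mkQ`.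
`cls_empty` etc. are not needed.
-/

namespace RC.Red

open Submodule Module

theorem cls_con_card {C : ClsT} (hC : Cls C) {W : Type} [AddCommGroup W] [Module ℚ W] (n : ℕ) :
    ∀ {V : Type} [AddCommGroup V] [Module ℚ V] (f : V →ₗ[ℚ] W) {X : Set V} (T : Finset V),
      T.card ≤ n → (T : Set V) ⊆ X → (∀ t ∈ T, f t = 0) →
      (∀ y ∈ span ℚ X, f y = 0 → y ∈ span ℚ (T : Set V)) → C V X → C W (f '' X) := by
  classical
  induction n with
  | zero =>
    intro V _ _ f X T hn _ _ hk h
    have hT : T = ∅ := Finset.card_eq_zero.1 (Nat.le_zero.1 hn)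
    subst hT
    refine hC.map f h fun y hy hfy => ?_
    have := hk y hy hfy
    simpa using this
  | succ n ih =>
    intro V _ _ f X T hn hT h0 hk h
    by_cases hne : T = ∅
    · subst hne
      refine hC.map f h fun y hy hfy => ?_
      have := hk y hy hfy
      simpa using this
    · obtain ⟨x, hx⟩ := Finset.nonempty_iff_ne_empty.2 hne
      have hfx : f x = 0 := h0 x hx
      have hle : span ℚ ({x} : Set V) ≤ LinearMap.ker f := by
        rw [span_singleton_le_iff_mem, LinearMap.mem_ker]
        exact hfx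
      have hgx : (span ℚ ({x} : Set V)).mkQ x = 0 := by
        rw [mkQ_apply, Quotient.mk_eq_zero]
        exact mem_span_singleton_self x
      have h1 : C (V ⧸ span ℚ ({x} : Set V)) ((span ℚ ({x} : Set V)).mkQ '' X) := by
        refine hC.con _ h (hT hx) hgx fun y _ hy => ?_
        rwa [mkQ_apply, Quotient.mk_eq_zero] at hy
      have h2 := ih ((span ℚ ({x} : Set V)).liftQ f hle) (X := (span ℚ ({x} : Set V)).mkQ '' X)
        ((T.erase x).image (span ℚ ({x} : Set V)).mkQ) ?_ ?_ ?_ ?_ h1
      · rw [Set.image_image] at h2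
        have h3 : (fun y => (span ℚ ({x} : Set V)).liftQ f hle ((span ℚ ({x} : Set V)).mkQ y)) =
            f := by
          ext y
          rw [mkQ_apply, liftQ_apply]
        rw [h3] at h2
        exact h2
      · have h3 := Finset.card_erase_of_mem hx
        have h4 : ((T.erase x).image (span ℚ ({x} : Set V)).mkQ).card ≤ (T.erase x).card :=
          Finset.card_image_le
        omega
      · intro z hz
        rw [Finset.coe_image] at hz
        obtain ⟨y, hy, rfl⟩ := hz
        exact ⟨y, hT (Finset.mem_of_mem_erase hy), rfl⟩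
      · intro t ht
        obtain ⟨y, hy, rfl⟩ := Finset.mem_image.1 ht
        rw [mkQ_apply, liftQ_apply]
        exact h0 y (Finset.mem_of_mem_erase hy)
      · intro z hz hfz
        rw [span_image] at hz
        obtain ⟨y, hy, rfl⟩ := hz
        rw [mkQ_apply, liftQ_apply] at hfz
        have h3 := hk y hy hfz
        have h4 : (span ℚ ({x} : Set V)).mkQ y ∈
            (span ℚ (T : Set V)).map (span ℚ ({x} : Set V)).mkQ := ⟨y, h3, rfl⟩
        rw [← span_image] at h4
        refine span_le.2 ?_ h4
        rintro _ ⟨t, ht, rfl⟩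
        by_cases htx : t = x
        · subst htx
          rw [SetLike.mem_coe, hgx]
          exact zero_mem _
        · refine subset_span ?_
          rw [Finset.coe_image]
          exact ⟨t, Finset.mem_coe.2 (Finset.mem_erase.2 ⟨htx, ht⟩), rfl⟩

theorem cls_con_finset {C : ClsT} (hC : Cls C) {V W : Type} [AddCommGroup V] [Module ℚ V]
    [AddCommGroup W] [Module ℚ W] (f : V →ₗ[ℚ] W) {X : Set V} (T : Finset V)
    (hT : (T : Set V) ⊆ X) (h0 : ∀ t ∈ T, f t = 0)
    (hk : ∀ y ∈ span ℚ X, f y = 0 → y ∈ span ℚ (T : Set V)) (h : C V X) : C W (f '' X) :=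
  cls_con_card hC T.card f T le_rfl hT h0 hk h

theorem cls_mkQ {C : ClsT} (hC : Cls C) {V : Type} [AddCommGroup V] [Module ℚ V] {X : Set V}
    (T : Finset V) (hT : (T : Set V) ⊆ X) (h : C V X) :
    C (V ⧸ span ℚ (T : Set V)) ((span ℚ (T : Set V)).mkQ '' X) := by
  refine cls_con_finset hC _ T hT (fun t ht => ?_) (fun y _ hy => ?_) h
  · rw [mkQ_apply, Quotient.mk_eq_zero]
    exact subset_span ht
  · rwa [mkQ_apply, Quotient.mk_eq_zero] at hy

end RC.Red
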