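import Pool.Agent.Helper59.RC.ChainEx
import Pool.Agent.Helper59.RC.ClsLib

/-!
Module RC-R5.  The system contracted by a chain.  `rest c E ε N` = elements of `E` whose colour
is not a colour of the first `N` levels.  `e0 = ε 0 false` is alone in its colour class.

`rest_nc`: the image of `E` under `c` is the disjoint union of the image of `rest` and the `N`
distinct colours `c (ε i false)`.
`rest_card`: `E` is the disjoint union of `rest`, `{e0}` and the sets
`{ε i false, ε i true}`, `0 < i < N` (by `Sys.two` the colour class of `ε i false` has exactly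
these two elements, they are distinct).
`rest_rank`: `GG v ε N ≤ span (v '' E)` has dimension `N` (`chain_finrank`); the image of
`span (v '' E)` in the quotient has dimension `rk v E - N`.
`rest_sys`: `cls`: `cls_mkQ` with `T` = the set of the `v (ε i false)` and `hC.mono`; `ne`: no
loops; `par`: let `e, e' ∈ rest` have the same colour, `e ≠ e'`.  If the images are dependent,
then (both nonzero, `uni_par`) `mkQ (v e) = s • mkQ (v e')`, `s = ± 1`, so
`v e - s • v e' ∈ GG v ε N`, excluded by `hcl`.
-/

namespace RC.Red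

open Submodule Module

variable {ι κ V : Type} [AddCommGroup V] [Module ℚ V]

open Classical in
/-- The elements of `E` whose colour is not a colour of the chain. -/
noncomputable def rest (c : ι → κ) (E : Finset ι) (ε : ℕ → Bool → ι) (N : ℕ) : Finset ι :=
  E.filter (fun e => ∀ i < N, c e ≠ c (ε i false))

theorem rest_nc {v : ι → V} {c : ι → κ} {E : Finset ι} {ε : ℕ → Bool → ι} {N : ℕ}
    (hch : CCh v c E ε N) : nc c (rest c E ε N) + N = nc c E := by
  classical
  have h1 : ((Finset.range N).image (fun i => c (ε i false))).card = N := by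
    rw [Finset.card_image_of_injOn, Finset.card_range]
    intro i hi j hj hij
    exact hch.inj i (Finset.mem_range.1 hi) j (Finset.mem_range.1 hj) hij
  have hmem : ∀ e, e ∈ rest c E ε N ↔ e ∈ E ∧ ∀ i < N, c e ≠ c (ε i false) := by
    intro e
    unfold rest
    rw [Finset.mem_filter]
  have h2 : Disjoint ((rest c E ε N).image c) ((Finset.range N).image (fun i => c (ε i false))) := by
    rw [Finset.disjoint_left]
    intro k hk hk'
    obtain ⟨e, he, rfl⟩ := Finset.mem_image.1 hk
    obtain ⟨i, hi, hie⟩ := Finset.mem_image.1 hk'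
    exact ((hmem e).1 he).2 i (Finset.mem_range.1 hi) hie.symm
  have h3 : E.image c = (rest c E ε N).image c ∪ (Finset.range N).image (fun i => c (ε i false)) := by
    ext k
    rw [Finset.mem_union, Finset.mem_image, Finset.mem_image, Finset.mem_image]
    constructor
    · rintro ⟨e, he, rfl⟩
      by_cases hc : ∀ i < N, c e ≠ c (ε i false)
      · exact Or.inl ⟨e, (hmem e).2 ⟨he, hc⟩, rfl⟩
      · push Not at hc
        obtain ⟨i, hi, hie⟩ := hc
        exact Or.inr ⟨i, Finset.mem_range.2 hi, hie.symm⟩
    · rintro (⟨e, he, rfl⟩ | ⟨i, hi, rfl⟩)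
      · exact ⟨e, ((hmem e).1 he).1, rfl⟩
      · exact ⟨ε i false, hch.mem i (Finset.mem_range.1 hi) false, rfl⟩
  have h4 := congrArg Finset.card h3
  rw [Finset.card_union_of_disjoint h2, h1] at h4
  unfold nc
  convert h4.symm

theorem rest_card {C : ClsT} {v : ι → V} {c : ι → κ} {E : Finset ι} (h : Sys C v c E)
    {ε : ℕ → Bool → ι} {N : ℕ} (hN : 1 ≤ N) (hch : CCh v c E ε N)
    (hs : ∀ e ∈ E, c e = c (ε 0 false) → e = ε 0 false) :
    (rest c E ε N).card + (2 * N - 1) = E.card := by
  classical
  let F : ℕ → Finset ι := fun i => E.filter (fun e => c e = c (ε i false))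
  have hF : ∀ i e, e ∈ F i ↔ e ∈ E ∧ c e = c (ε i false) := fun i e => Finset.mem_filter
  have hF0 : (F 0).card = 1 := by
    have : F 0 = {ε 0 false} := by
      ext e
      rw [hF, Finset.mem_singleton]
      constructor
      · rintro ⟨h1, h2⟩
        exact hs e h1 h2
      · rintro rfl
        exact ⟨hch.mem 0 hN false, rfl⟩
    rw [this, Finset.card_singleton]
  have hFi : ∀ i < N, 0 < i → (F i).card = 2 := by
    intro i hi hi0
    have : F i = {ε i false, ε i true} := by
      ext e
      rw [hF, Finset.mem_insert, Finset.mem_singleton]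
      constructor
      · rintro ⟨h1, h2⟩
        rcases h.two e h1 (ε i false) (hch.mem i hi false) (ε i true) (hch.mem i hi true) h2
          (h2.trans (hch.col i hi)) with h3 | h3 | h3
        · exact Or.inl h3
        · exact Or.inr h3
        · exact absurd h3 (hch.dif i hi hi0).1
      · rintro (rfl | rfl)
        · exact ⟨hch.mem i hi false, rfl⟩
        · exact ⟨hch.mem i hi true, (hch.col i hi).symm⟩
    rw [this, Finset.card_pair (hch.dif i hi hi0).1]
  have hdis : ∀ i ∈ Finset.range N, ∀ j ∈ Finset.range N, i ≠ j → Disjoint (F i) (F j) := by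
    intro i hi j hj hij
    rw [Finset.disjoint_left]
    intro e h1 h2
    exact hij (hch.inj i (Finset.mem_range.1 hi) j (Finset.mem_range.1 hj)
      (((hF i e).1 h1).2.symm.trans ((hF j e).1 h2).2))
  have hU : E = rest c E ε N ∪ (Finset.range N).biUnion F := by
    ext e
    rw [Finset.mem_union, Finset.mem_biUnion]
    unfold rest
    rw [Finset.mem_filter]
    constructor
    · intro he
      by_cases hc : ∀ i < N, c e ≠ c (ε i false)
      · exact Or.inl ⟨he, hc⟩
      · push Not at hc
        obtain ⟨i, hi, hie⟩ := hc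
        exact Or.inr ⟨i, Finset.mem_range.2 hi, (hF i e).2 ⟨he, hie⟩⟩
    · rintro (⟨he, -⟩ | ⟨i, -, hie⟩)
      · exact he
      · exact ((hF i e).1 hie).1
  have hD : Disjoint (rest c E ε N) ((Finset.range N).biUnion F) := by
    rw [Finset.disjoint_left]
    intro e he he'
    unfold rest at he
    rw [Finset.mem_filter] at he
    obtain ⟨i, hi, hie⟩ := Finset.mem_biUnion.1 he'
    exact he.2 i (Finset.mem_range.1 hi) ((hF i e).1 hie).2
  have hc1 : ((Finset.range N).biUnion F).card = 2 * N - 1 := by
    rw [Finset.card_biUnion hdis]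
    obtain ⟨M, rfl⟩ : ∃ M, N = M + 1 := ⟨N - 1, by omega⟩
    rw [Finset.sum_range_succ', hF0]
    rw [Finset.sum_congr rfl (fun i hi => hFi (i + 1) (by have := Finset.mem_range.1 hi; omega)
      (by omega))]
    rw [Finset.sum_const, Finset.card_range, smul_eq_mul]
    omega
  have h5 := congrArg Finset.card hU
  rw [Finset.card_union_of_disjoint hD, hc1] at h5
  exact h5.symm

theorem rest_rank {v : ι → V} {c : ι → κ} {E : Finset ι} {ε : ℕ → Bool → ι} {N : ℕ}
    (hch : CCh v c E ε N) (E' : Finset ι) (hE : E' ⊆ E) :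
    rk (fun e => (GG v ε N).mkQ (v e)) E' + N ≤ rk v E := by
  have hfin : FiniteDimensional ℚ (span ℚ (v '' (E : Set ι))) :=
    FiniteDimensional.span_of_finite ℚ (E.finite_toSet.image v)
  have hle : GG v ε N ≤ span ℚ (v '' (E : Set ι)) := by
    unfold GG
    apply Submodule.span_mono
    rintro w ⟨j, hj, rfl⟩
    exact ⟨ε j false, hch.mem j hj false, rfl⟩
  let f := (GG v ε N).mkQ.domRestrict (span ℚ (v '' (E : Set ι)))
  have h1 := LinearMap.finrank_range_add_finrank_ker f
  have h2 : finrank ℚ (LinearMap.ker f) = N := by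
    have e1 : LinearMap.ker f = (GG v ε N).comap (span ℚ (v '' (E : Set ι))).subtype := by
      ext y
      simp [f, LinearMap.mem_ker]
    rw [e1, LinearEquiv.finrank_eq (Submodule.comapSubtypeEquivOfLe hle)]
    exact chain_finrank hch N le_rfl
  have h3 : finrank ℚ (LinearMap.range f) = rk (fun e => (GG v ε N).mkQ (v e)) E := by
    unfold rk
    have e1 : LinearMap.range f = (span ℚ (v '' (E : Set ι))).map (GG v ε N).mkQ := by
      rw [LinearMap.range_domRestrict]
    rw [e1, Submodule.map_span, Set.image_image]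
  have h4 := rk_mono (v := fun e => (GG v ε N).mkQ (v e)) hE
  unfold rk at h1 h3 h4 ⊢
  omega

theorem rest_sys {C : ClsT} (hC : Cls C) {v : ι → V} {c : ι → κ} {E : Finset ι}
    (h : Sys C v c E) {ε : ℕ → Bool → ι} {N : ℕ} (hN : 1 ≤ N) (hch : CCh v c E ε N)
    (hcl : ∀ e ∈ E, ∀ e' ∈ E, e ≠ e' → c e = c e' → (∀ i < N, c e ≠ c (ε i false)) →
        v e ∉ GG v ε N → ∀ s : ℚ, (s = 1 ∨ s = -1) → v e - s • v e' ∉ GG v ε N)
    (hl : ∀ e ∈ rest c E ε N, v e ∉ GG v ε N) :
    Sys C (fun e => (GG v ε N).mkQ (v e)) c (rest c E ε N) := by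
  classical
  have hsub : rest c E ε N ⊆ E := by
    unfold rest
    exact Finset.filter_subset _ _
  have hmem : ∀ e, e ∈ rest c E ε N ↔ e ∈ E ∧ ∀ i < N, c e ≠ c (ε i false) := by
    intro e
    unfold rest
    rw [Finset.mem_filter]
  have hcls : C (V ⧸ GG v ε N) ((fun e => (GG v ε N).mkQ (v e)) '' (rest c E ε N : Set ι)) := by
    let T : Finset V := (Finset.range N).image (fun i => v (ε i false))
    have hTs : (T : Set V) = {w | ∃ j < N, w = v (ε j false)} := by
      ext w
      simp only [T, Finset.coe_image, Finset.coe_range, Set.mem_image, Set.mem_Iio, Set.mem_setOf_eq]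
      constructor
      · rintro ⟨j, hj, rfl⟩
        exact ⟨j, hj, rfl⟩
      · rintro ⟨j, hj, rfl⟩
        exact ⟨j, hj, rfl⟩
    have hGG : GG v ε N = span ℚ (T : Set V) := by
      rw [hTs]
      rfl
    have h1 := cls_con_finset hC (GG v ε N).mkQ (X := v '' (E : Set ι)) T
      (by
        rw [hTs]
        rintro w ⟨j, hj, rfl⟩
        exact ⟨ε j false, hch.mem j hj false, rfl⟩)
      (by
        intro t ht
        rw [mkQ_apply, Quotient.mk_eq_zero, hGG]
        exact subset_span ht)
      (by
        intro y _ hy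
        rw [mkQ_apply, Quotient.mk_eq_zero, hGG] at hy
        exact hy) h.cls
    refine hC.mono h1 ?_
    rintro _ ⟨e, he, rfl⟩
    exact Or.inr (Or.inl ⟨v e, ⟨e, hsub he, rfl⟩, rfl⟩)
  have hne : ∀ e ∈ rest c E ε N, (GG v ε N).mkQ (v e) ≠ 0 := by
    intro e he h0
    rw [mkQ_apply, Quotient.mk_eq_zero] at h0
    exact hl e he h0
  refine ⟨hcls, hne, ?_, ?_, ?_⟩
  · intro e he e' he' e'' he'' h1 h2
    exact h.two e (hsub he) e' (hsub he') e'' (hsub he'') h1 h2
  · intro e he e' he' hce hee
    by_contra hcon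
    have hu := uni_par (hC.uni hcls) ⟨e, he, rfl⟩ ⟨e', he', rfl⟩ (hne e he) (hne e' he') hcon
    have hcol := ((hmem e').1 he').2
    rcases hu with hu | hu
    · have h1 : v e' - (1 : ℚ) • v e ∈ GG v ε N := by
        rw [one_smul]
        exact (Submodule.Quotient.eq _).1 hu
      exact hcl e' (hsub he') e (hsub he) hee.symm hce.symm hcol (hl e' he') 1 (Or.inl rfl) h1
    · have h1 : v e' - (-1 : ℚ) • v e ∈ GG v ε N := by
        rw [neg_one_smul]
        apply (Submodule.Quotient.eq _).1
        exact hu
      exact hcl e' (hsub he') e (hsub he) hee.symm hce.symm hcol (hl e' he') (-1) (Or.inr rfl) h1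
  · have h1 := rest_rank hch (rest c E ε N) hsub
    have h2 := rest_nc hch
    have h3 := h.rank
    omega

end RC.Red
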