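import Pool.Agent.Helper59.RC.UniBasic

/-!
Module RC-R1.  Elementary facts on `Short`, `rk`, `nc`, `bd`, `Sys`.

`short_min`: take a dependent rainbow set of minimal cardinality.
`short_congr`: multiplying the vectors by nonzero scalars does not change dependence.
`short_map`: an injective linear map on the span does not change dependence
(`LinearIndepOn.map` / `linearIndepOn` iff).
`short_two`: the set `{e, e'}`.
`sys_card`: every colour class has one or two elements.
`short_drop`: some colour can be deleted.  If there is a colour with a single element `e`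
(`E.card < 2 * n`) delete it: `E' = E.erase e`, `nc c E' = n - 1`, `E'.card = E.card - 1`,
`rk v E' ≤ rk v E`, and `bd (n-1) (E.card-1) ≤ bd n E.card`
(`a - 1` colours of size one, `b` of size two).  Otherwise delete a colour with two elements:
`a = 0`, `bd (n-1) (E.card - 2) ≤ bd n E.card`.  `Sys` for `E'`: `cls` by `hC.mono`.
-/

namespace RC.Red

open Submodule Module

variable {ι κ V W : Type} [AddCommGroup V] [Module ℚ V] [AddCommGroup W] [Module ℚ W]

theorem short_mono {v : ι → V} {c : ι → κ} {E E' : Finset ι} {k k' : ℕ} (h : Short v c E k)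
    (hE : E ⊆ E') (hk : k ≤ k') : Short v c E' k' := by
  obtain ⟨T, hT, hc, hi, hd⟩ := h
  exact ⟨T, hT.trans hE, hc.trans hk, hi, hd⟩

theorem short_min [DecidableEq ι] {v : ι → V} {c : ι → κ} {E : Finset ι} {k : ℕ}
    (h : Short v c E k) : ∃ T : Finset ι, T ⊆ E ∧ T.card ≤ k ∧ Set.InjOn c (T : Set ι) ∧
    ¬ LinearIndepOn ℚ v (T : Set ι) ∧
    ∀ e ∈ T, LinearIndepOn ℚ v ((T.erase e : Finset ι) : Set ι) := by
  obtain ⟨T, hT, hc, hi, hd⟩ := h
  induction T using Finset.strongInduction with
  | H T ih =>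
    by_cases hall : ∀ e ∈ T, LinearIndepOn ℚ v ((T.erase e : Finset ι) : Set ι)
    · exact ⟨T, hT, hc, hi, hd, hall⟩
    · push Not at hall
      obtain ⟨e, he, hdep⟩ := hall
      refine ih (T.erase e) (Finset.erase_ssubset he) ((Finset.erase_subset e T).trans hT)
        ((Finset.card_le_card (Finset.erase_subset e T)).trans hc) (hi.mono ?_) hdep
      exact Finset.coe_subset.2 (Finset.erase_subset e T)

theorem short_two {v : ι → V} {c : ι → κ} {E : Finset ι} {e e' : ι} (he : e ∈ E)
    (he' : e' ∈ E) (hc : c e ≠ c e') (h : ¬ LinearIndependent ℚ ![v e, v e']) :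
    Short v c E 2 := by
  classical
  have hne : e ≠ e' := fun h => hc (by rw [h])
  refine ⟨{e, e'}, ?_, Finset.card_le_two, ?_, ?_⟩
  · intro x hx
    simp only [Finset.mem_insert, Finset.mem_singleton] at hx
    rcases hx with rfl | rfl
    · exact he
    · exact he'
  · intro x hx y hy hxy
    simp only [Finset.coe_insert, Finset.coe_singleton, Set.mem_insert_iff,
      Set.mem_singleton_iff] at hx hy
    rcases hx with rfl | rfl <;> rcases hy with rfl | rfl
    · rfl
    · exact absurd hxy hc
    · exact absurd hxy.symm hc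
    · rfl
  · intro hli
    apply h
    rw [Finset.coe_pair, LinearIndepOn.pair_iff v hne] at hli
    rw [LinearIndependent.pair_iff]
    exact hli

theorem short_map (f : V →ₗ[ℚ] W) {v : ι → V} {c : ι → κ} {E : Finset ι} {k : ℕ}
    (hf : ∀ y ∈ span ℚ (v '' (E : Set ι)), f y = 0 → y = 0) :
    Short (fun e => f (v e)) c E k ↔ Short v c E k := by
  have key : ∀ T : Finset ι, T ⊆ E →
      (LinearIndepOn ℚ (fun e => f (v e)) (T : Set ι) ↔ LinearIndepOn ℚ v (T : Set ι)) := by
    intro T hT
    constructor
    · intro h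
      exact LinearIndepOn.of_comp f h
    · intro h
      refine h.map_injOn f ?_
      intro x hx y hy hxy
      have hle : span ℚ (v '' (T : Set ι)) ≤ span ℚ (v '' (E : Set ι)) :=
        span_mono (Set.image_mono (Finset.coe_subset.2 hT))
      exact sub_eq_zero.1 (hf (x - y) (sub_mem (hle hx) (hle hy)) (by rw [map_sub, hxy, sub_self]))
  constructor
  · rintro ⟨T, hT, hc, hi, hd⟩
    exact ⟨T, hT, hc, hi, fun h => hd ((key T hT).2 h)⟩
  · rintro ⟨T, hT, hc, hi, hd⟩
    exact ⟨T, hT, hc, hi, fun h => hd ((key T hT).1 h)⟩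

theorem rk_map (f : V →ₗ[ℚ] W) {v : ι → V} {E : Finset ι}
    (hf : ∀ y ∈ span ℚ (v '' (E : Set ι)), f y = 0 → y = 0) :
    rk (fun e => f (v e)) E = rk v E := by
  have h1 : span ℚ ((fun e => f (v e)) '' (E : Set ι)) =
      (span ℚ (v '' (E : Set ι))).map f := by
    rw [Submodule.map_span, Set.image_image]
  have h2 : Function.Injective (f.domRestrict (span ℚ (v '' (E : Set ι)))) := by
    rw [injective_iff_map_eq_zero]
    rintro ⟨y, hy⟩ h0
    exact Subtype.ext (hf y hy h0)
  unfold rk
  rw [h1, ← LinearMap.range_domRestrict, LinearMap.finrank_range_of_inj h2]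

theorem rk_mono {v : ι → V} {E E' : Finset ι} (h : E ⊆ E') : rk v E ≤ rk v E' := by
  have : FiniteDimensional ℚ (span ℚ (v '' (E' : Set ι))) :=
    FiniteDimensional.span_of_finite ℚ (E'.finite_toSet.image v)
  exact Submodule.finrank_mono (span_mono (Set.image_mono (Finset.coe_subset.2 h)))

theorem nc_mono {c : ι → κ} {E E' : Finset ι} (h : E ⊆ E') : nc c E ≤ nc c E' := by
  classical
  unfold nc
  exact Finset.card_le_card (Finset.image_subset_image h)

private theorem class_card {C : ClsT} {v : ι → V} {c : ι → κ} {E : Finset ι} (h : Sys C v c E)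
    [DecidableEq κ] (a : κ) : (E.filter (fun x => c x = a)).card ≤ 2 := by
  by_contra hlt
  rw [not_le, Finset.two_lt_card] at hlt
  obtain ⟨x, hx, y, hy, z, hz, hxy, hxz, hyz⟩ := hlt
  rw [Finset.mem_filter] at hx hy hz
  rcases h.two x hx.1 y hy.1 z hz.1 (hx.2.trans hy.2.symm) (hx.2.trans hz.2.symm) with h1 | h1 | h1
  · exact hxy h1
  · exact hxz h1
  · exact hyz h1

theorem sys_card {C : ClsT} {v : ι → V} {c : ι → κ} {E : Finset ι} (h : Sys C v c E) :
    nc c E ≤ E.card ∧ E.card ≤ 2 * nc c E := by
  classical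
  unfold nc
  refine ⟨?_, ?_⟩
  · convert Finset.card_image_le (s := E) (f := c)
  · convert Finset.card_le_mul_card_image (f := c) E 2 (fun a _ => class_card h a)

/-- Subsystems (without the rank condition, which is a hypothesis). -/
theorem sys_sub {C : ClsT} (hC : Cls C) {v : ι → V} {c : ι → κ} {E E' : Finset ι}
    (h : Sys C v c E) (hE : E' ⊆ E) (hr : rk v E' + 1 ≤ nc c E') : Sys C v c E' where
  cls := hC.mono h.cls (fun x hx =>
    Or.inr (Or.inl (Set.image_mono (Finset.coe_subset.2 hE) hx)))
  ne := fun e he => h.ne e (hE he)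
  two := fun e he e' he' e'' he'' => h.two e (hE he) e' (hE he') e'' (hE he'')
  par := fun e he e' he' => h.par e (hE he) e' (hE he')
  rank := hr

private theorem bd_aux {n m m' : ℕ} (hn : 1 ≤ n) (h1 : n - 1 ≤ m') (h2 : m' ≤ 2 * (n - 1))
    (h3 : n ≤ m) (h4 : m ≤ 2 * n) (h5 : m' + 1 = m ∨ m' + 2 = m) :
    bd (n - 1) m' ≤ bd n m := by
  unfold bd
  split_ifs <;> omega

theorem short_drop {C : ClsT} (hC : Cls C) {n : ℕ} (ih : ∀ n' < n, GC C n') {v : ι → V}
    {c : ι → κ} {E : Finset ι} (h : Sys C v c E) (hn : nc c E = n) (hr : rk v E + 1 < n) :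
    Short v c E (bd n E.card) := by
  classical
  have hE : E.Nonempty := by
    rw [Finset.nonempty_iff_ne_empty]
    rintro rfl
    have : nc c (∅ : Finset ι) = 0 := by simp [nc]
    omega
  obtain ⟨e, he⟩ := hE
  have hsub : E.filter (fun x => c x ≠ c e) ⊆ E := Finset.filter_subset _ _
  have hnc : nc c (E.filter (fun x => c x ≠ c e)) = n - 1 := by
    have h1 : (E.filter (fun x => c x ≠ c e)).image c = (E.image c).erase (c e) := by
      ext a
      simp only [Finset.mem_image, Finset.mem_filter, Finset.mem_erase]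
      constructor
      · rintro ⟨x, ⟨hx, hne⟩, rfl⟩
        exact ⟨hne, x, hx, rfl⟩
      · rintro ⟨hne, x, hx, rfl⟩
        exact ⟨x, ⟨hx, hne⟩, rfl⟩
    have h2 : nc c E = (E.image c).card := by
      unfold nc
      congr
    have h3 : nc c (E.filter (fun x => c x ≠ c e)) =
        ((E.filter (fun x => c x ≠ c e)).image c).card := by
      unfold nc
      congr
    rw [h3, h1, Finset.card_erase_of_mem (Finset.mem_image_of_mem c he), ← h2, hn]
  have hr' : rk v (E.filter (fun x => c x ≠ c e)) + 1 ≤
      nc c (E.filter (fun x => c x ≠ c e)) := by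
    have := rk_mono (v := v) hsub
    omega
  have hs := sys_sub hC h hsub hr'
  have hc1 := sys_card h
  have hc2 := sys_card hs
  have hcard : (E.filter (fun x => c x = c e)).card + (E.filter (fun x => c x ≠ c e)).card =
      E.card := Finset.card_filter_add_card_filter_not _
  have hk1 : 1 ≤ (E.filter (fun x => c x = c e)).card :=
    Finset.card_pos.2 ⟨e, Finset.mem_filter.2 ⟨he, rfl⟩⟩
  have hk2 := class_card h (c e)
  rw [hn] at hc1
  rw [hnc] at hc2
  have hS := ih (n - 1) (by omega) ι κ V v c _ hs hnc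
  refine short_mono hS hsub ?_
  refine bd_aux (by omega) hc2.1 hc2.2 hc1.1 hc1.2 ?_
  omega

end RC.Red
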