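import Pool.Agent.Helper59.RC.UniBasic

/-!
Module RC-U2.  Images and contractions of unimodular sets.

`uni_con`: let `s` be a finite independent subset of `f '' X`, `∑ c a • a = f x` with `x ∈ X`.
Choose preimages `g a ∈ X` of `a ∈ s`.  Then `x - ∑ c a • g a` is in `span X` and is killed by
`f`, so it lies in `span S`.  Choose an independent subset `B ⊆ S` with `span B = span S`
(`exists_linearIndependent`), write the difference as a finite combination `∑ d b • b`, `b ∈ B'`,
`B' ⊆ B` finite.  The family consisting of `g a` (`a ∈ s`) and `b ∈ B'` is independent: apply `f`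
to a relation (`f b = 0`) and use independence of `s`, then of `B'`.  Now apply `uni_coord` with
index type `V ⊕ V` or `↥s ⊕ ↥B'`.

`uni_map` is the special case `S = ∅`.

`exists_factor`: `f` induces an isomorphism from `U / (U ⊓ ker f)` onto `f U`; the restriction of
`g` to `U` factors through it; extend the resulting map `f U → U'` to `W` (vector spaces:
`LinearMap.exists_extend`).
-/

namespace RC

open Submodule Module

variable {V W W' : Type} [AddCommGroup V] [Module ℚ V] [AddCommGroup W] [Module ℚ W]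
  [AddCommGroup W'] [Module ℚ W']

theorem uni_con (f : V →ₗ[ℚ] W) {X S : Set V} (hX : Uni X) (hS : S ⊆ X)
    (h0 : ∀ s ∈ S, f s = 0) (hk : ∀ y ∈ span ℚ X, f y = 0 → y ∈ span ℚ S) : Uni (f '' X) := by
  classical
  intro s c hs hli hx
  obtain ⟨x, hxX, hfx⟩ := hx
  have hg : ∀ a : W, ∃ g : V, a ∈ s → g ∈ X ∧ f g = a := by
    intro a
    by_cases ha : a ∈ s
    · obtain ⟨g, hg1, hg2⟩ := hs (Finset.mem_coe.2 ha)
      exact ⟨g, fun _ => ⟨hg1, hg2⟩⟩
    · exact ⟨0, fun h => absurd h ha⟩
  choose g hg using hg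
  have hd : x - ∑ a ∈ s, c a • g a ∈ span ℚ S := by
    apply hk
    · refine Submodule.sub_mem _ (subset_span hxX) (Submodule.sum_mem _ fun a ha => ?_)
      exact Submodule.smul_mem _ _ (subset_span (hg a ha).1)
    · rw [map_sub, hfx, map_sum, sub_eq_zero]
      exact Finset.sum_congr rfl fun a ha => by rw [map_smul, (hg a ha).2]
  obtain ⟨B, hBS, hBspan, hBli⟩ := exists_linearIndependent ℚ S
  rw [← hBspan, mem_span_set] at hd
  obtain ⟨e, he1, he2⟩ := hd
  have heB : ∀ b ∈ e.support, b ∈ B := fun b hb => he1 (Finset.mem_coe.2 hb)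
  have hliB : LinearIndepOn ℚ id (e.support : Set V) := by
    have h1 : LinearIndepOn ℚ id B := hBli
    exact h1.mono he1
  have hli0 := linearIndepOn_finset_iff.1 hli
  have hliB0 := linearIndepOn_finset_iff.1 hliB
  have hliT : LinearIndepOn ℚ (Sum.elim g id : W ⊕ V → V)
      ((s.disjSum e.support : Finset (W ⊕ V)) : Set (W ⊕ V)) := by
    rw [linearIndepOn_finset_iff]
    intro h hh
    rw [Finset.sum_disjSum] at hh
    simp only [Sum.elim_inl, Sum.elim_inr] at hh
    have hA : ∀ a ∈ s, h (Sum.inl a) = 0 := by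
      have h1 := congrArg f hh
      rw [map_add, map_zero, map_sum, map_sum] at h1
      have h2 : ∑ b ∈ e.support, f (h (Sum.inr b) • id b) = 0 := by
        refine Finset.sum_eq_zero fun b hb => ?_
        rw [map_smul, id, h0 b (hBS (heB b hb)), smul_zero]
      rw [h2, add_zero] at h1
      refine hli0 (fun a => h (Sum.inl a)) ?_
      rw [← h1]
      exact Finset.sum_congr rfl fun a ha => by rw [map_smul, (hg a ha).2, id]
    have hB : ∀ b ∈ e.support, h (Sum.inr b) = 0 := by
      refine hliB0 (fun b => h (Sum.inr b)) ?_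
      have h1 : ∑ a ∈ s, h (Sum.inl a) • g a = 0 := by
        refine Finset.sum_eq_zero fun a ha => ?_
        rw [hA a ha, zero_smul]
      rw [h1, zero_add] at hh
      exact hh
    intro i hi
    rcases i with a | b
    · exact hA a (Finset.inl_mem_disjSum.1 hi)
    · exact hB b (Finset.inr_mem_disjSum.1 hi)
  have hmem : ∀ i ∈ s.disjSum e.support, (Sum.elim g id : W ⊕ V → V) i ∈ X := by
    intro i hi
    rcases i with a | b
    · exact (hg a (Finset.inl_mem_disjSum.1 hi)).1
    · exact hS (hBS (heB b (Finset.inr_mem_disjSum.1 hi)))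
  have hsum : ∑ i ∈ s.disjSum e.support,
      (Sum.elim c e : W ⊕ V → ℚ) i • (Sum.elim g id : W ⊕ V → V) i = x := by
    rw [Finset.sum_disjSum]
    simp only [Sum.elim_inl, Sum.elim_inr, id]
    have h1 : ∑ b ∈ e.support, e b • b = x - ∑ a ∈ s, c a • g a := he2
    rw [h1]
    abel
  intro a ha
  exact uni_coord hX _ _ hmem hliT _ (by rw [hsum]; exact hxX) (Sum.inl a)
    (Finset.inl_mem_disjSum.2 ha)

theorem uni_map (f : V →ₗ[ℚ] W) {X : Set V} (hX : Uni X)
    (hk : ∀ y ∈ span ℚ X, f y = 0 → y = 0) : Uni (f '' X) :=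
  uni_con f hX (Set.empty_subset X) (fun s hs => absurd hs (Set.notMem_empty s))
    (fun y hy h => by rw [hk y hy h]; exact Submodule.zero_mem _)

/-- A linear map on a subspace that vanishes on the kernel of `f` factors through `f`. -/
theorem exists_factor (f : V →ₗ[ℚ] W) (g : V →ₗ[ℚ] W') (U : Submodule ℚ V)
    (h : ∀ y ∈ U, f y = 0 → g y = 0) : ∃ k : W →ₗ[ℚ] W', ∀ y ∈ U, k (f y) = g y := by
  have hker : LinearMap.ker (f.domRestrict U) ≤ LinearMap.ker (g.domRestrict U) := by
    intro y hy
    rw [LinearMap.mem_ker, LinearMap.domRestrict_apply] at hy ⊢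
    exact h y y.2 hy
  obtain ⟨k, hk⟩ := LinearMap.exists_leftInverse_of_injective
    ((LinearMap.ker (f.domRestrict U)).liftQ (f.domRestrict U) le_rfl)
    (Submodule.ker_liftQ_eq_bot _ _ _ le_rfl)
  refine ⟨((LinearMap.ker (f.domRestrict U)).liftQ (g.domRestrict U) hker).comp k, ?_⟩
  intro y hy
  have h1 : f y = (LinearMap.ker (f.domRestrict U)).liftQ (f.domRestrict U) le_rfl
      (Submodule.Quotient.mk ⟨y, hy⟩) := by
    rw [Submodule.liftQ_apply]
    rfl
  rw [LinearMap.comp_apply, h1]
  have h2 := LinearMap.congr_fun hk (Submodule.Quotient.mk ⟨y, hy⟩)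
  rw [LinearMap.comp_apply, LinearMap.id_apply] at h2
  rw [h2, Submodule.liftQ_apply]
  rfl

end RC
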