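import Pool.Agent.Helper59.RC.Cost
import Pool.Agent.Helper59.RC.ShortLib
import Pool.Agent.Helper59.RC.UniQuot

/-!
Module RC-R3.  The cost lemma for a chain inside a coloured family.

`cost_TQ`: let `f = mkQ (span (v '' T))`, `X' = {z | z ∈ f '' (v '' E) or -z ∈ ...}`
(unimodular by `uni_con` with `S = v '' T` and `uni_mono`).  Put
`u i false = f (v (ε i false))`, `u i true = s i • f (v (ε i true))` with the signs `s i` of
`CCh.dif` (`s 0 = 1`).  `f` is injective on `GG v ε N` by `hTi`, so `Chain X' u N` (`dne`: the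
difference is nonzero in `V` by `hpar`, and it is in `GG v ε i`).
Let `q = f (v e) ∈ X' ⊓ FF u N`.  If `q = 0`, then `T ∪ {e}` is dependent (`e ∉ T` because of the
colours), `T.card + 1`.  Otherwise `(cost_all N hN).1` gives `q = ∑ α i • u i (g i)` with at most
`(N + 1) / 2` terms; lifted to `V`:
`v e - ∑ α i • (± v (ε i (g i))) ∈ span (v '' T)`: a nontrivial relation on the rainbow set
`T ∪ {e} ∪ {ε i (g i) | α i ≠ 0}`.

`cost_TP`: the same with `a 0 false = f (v e)`, `a 0 true = s • f (v e')`, `k = 1`,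
`(cost_all N hN).2 1`: bound `1 + (N + 1 - 1) / 2 = 1 + N / 2`.  `Circ X' u N a 1`:
`dif`: `v e - s • v e' ∈ GG v ε N`; `dne`: it is nonzero (`hpar`) and `f` is injective on
`GG v ε N`; `sum`: `hmem`; `one`: if `f (v e) = 0` or `f (v e') = 0` then `T ∪ {e}` or
`T ∪ {e'}` is dependent and we are done; if `f (v e) = - s • f (v e')`: put
`d = v e - s • v e'`; `f d = 2 • f (v e)`.  If `T = ∅` then `f` is injective and `v e, v e'` would
be dependent, contradiction to `hpar`.  In general: `f (v e) ∈ FF u N` is in `X'`, so its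
coordinates in the basis `u i false` are `0,1,-1`, and `f d = 2 • f (v e)`.  If
`v e ∉ GG v ε N`, the coordinates of `d` in the basis `v (ε i false)` are `0,1,-1` (`uni_coord`
for the independent family `v e, v (ε i false)` and the vector `v e'`), hence those of
`f d`; so `f d = 0`, `d = 0`, contradiction to `hpar`.  If `v e ∈ GG v ε N`, then also
`s • v e' = v e - d ∈ GG v ε N` and `f (v e + s • v e') = 0` gives `v e + s • v e' = 0`,
contradiction to `hpar`.
The relation lifts as before (the coefficient of the pair may be zero; a relation with only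
`u`-terms is impossible by `chain_li`, or harmless: it is also a rainbow relation).
-/

namespace RC.Red

open Submodule Module

variable {ι κ V : Type} [AddCommGroup V] [Module ℚ V]

/-- Span of the first `i` levels. -/
def GG (v : ι → V) (ε : ℕ → Bool → ι) (i : ℕ) : Submodule ℚ V :=
  span ℚ {w | ∃ j < i, w = v (ε j false)}

/-- A chain inside a coloured family. -/
structure CCh (v : ι → V) (c : ι → κ) (E : Finset ι) (ε : ℕ → Bool → ι) (N : ℕ) : Prop where
  mem : ∀ i < N, ∀ b, ε i b ∈ E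
  zero : ε 0 false = ε 0 true
  col : ∀ i < N, c (ε i false) = c (ε i true)
  inj : ∀ i < N, ∀ j < N, c (ε i false) = c (ε j false) → i = j
  ind : ∀ i < N, v (ε i false) ∉ GG v ε i
  dif : ∀ i < N, 0 < i → ε i false ≠ ε i true ∧
    ∃ s : ℚ, (s = 1 ∨ s = -1) ∧ v (ε i false) - s • v (ε i true) ∈ GG v ε i

namespace ChainT

variable {W : Type} [AddCommGroup W] [Module ℚ W]

theorem li_range (w : ℕ → V) (M : ℕ) (h : ∀ i < M, w i ∉ span ℚ (w '' {j | j < i})) :
    LinearIndepOn ℚ w (Finset.range M : Set ℕ) := by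
  induction M with
  | zero => simp
  | succ M ih =>
    rw [Finset.range_add_one, Finset.coe_insert, linearIndepOn_insert (by simp)]
    refine ⟨ih fun i hi => h i (by omega), ?_⟩
    have h1 := h M (by omega)
    rw [Finset.coe_range]
    exact h1

theorem GG_eq (v : ι → V) (ε : ℕ → Bool → ι) (i : ℕ) :
    GG v ε i = span ℚ ((fun j => v (ε j false)) '' (Finset.range i : Set ℕ)) := by
  unfold GG
  congr 1
  ext w
  constructor
  · rintro ⟨j, hj, rfl⟩
    exact ⟨j, by simpa using hj, rfl⟩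
  · rintro ⟨j, hj, rfl⟩
    exact ⟨j, by simpa using hj, rfl⟩

theorem FF_eq (u : ℕ → Bool → V) (i : ℕ) :
    FF u i = span ℚ ((fun j => u j false) '' (Finset.range i : Set ℕ)) := by
  unfold FF
  congr 1
  ext w
  constructor
  · rintro ⟨j, hj, rfl⟩
    exact ⟨j, by simpa using hj, rfl⟩
  · rintro ⟨j, hj, rfl⟩
    exact ⟨j, by simpa using hj, rfl⟩

theorem GG_mono (v : ι → V) (ε : ℕ → Bool → ι) {i j : ℕ} (h : i ≤ j) : GG v ε i ≤ GG v ε j := by
  refine span_mono ?_
  rintro w ⟨k, hk, rfl⟩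
  exact ⟨k, by omega, rfl⟩

theorem col' {v : ι → V} {c : ι → κ} {E : Finset ι} {ε : ℕ → Bool → ι} {N : ℕ}
    (hch : CCh v c E ε N) {i : ℕ} (hi : i < N) (b : Bool) : c (ε i b) = c (ε i false) := by
  cases b
  · rfl
  · exact (hch.col i hi).symm

/-- The rainbow dependent set. -/
theorem short_of_mem {v : ι → V} {c : ι → κ} {E : Finset ι} {ε : ℕ → Bool → ι} {N : ℕ}
    (hch : CCh v c E ε N) (T : Finset ι) (hT : T ⊆ E) (hTc : Set.InjOn c (T : Set ι))
    (hTd : ∀ t ∈ T, ∀ i < N, c t ≠ c (ε i false)) (I : Finset ℕ) (hI : ∀ i ∈ I, i < N)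
    (g : ℕ → Bool) {x : ι} (hx : x ∈ E) (hxT : ∀ t ∈ T, c x ≠ c t)
    (hxI : ∀ i ∈ I, c x ≠ c (ε i false))
    (hmem : v x ∈ span ℚ (v '' (T : Set ι)) ⊔
      span ℚ ((fun i => v (ε i (g i))) '' (I : Set ℕ))) :
    Short v c E (T.card + 1 + I.card) := by
  classical
  have hxn : x ∉ T ∪ I.image (fun i => ε i (g i)) := by
    intro h
    rcases Finset.mem_union.1 h with h | h
    · exact hxT x h rfl
    · obtain ⟨i, hi, rfl⟩ := Finset.mem_image.1 h
      exact hxI i hi (col' hch (hI i hi) _)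
  refine ⟨insert x (T ∪ I.image (fun i => ε i (g i))), ?_, ?_, ?_, ?_⟩
  · intro y hy
    rcases Finset.mem_insert.1 hy with rfl | hy
    · exact hx
    rcases Finset.mem_union.1 hy with hy | hy
    · exact hT hy
    · obtain ⟨i, hi, rfl⟩ := Finset.mem_image.1 hy
      exact hch.mem i (hI i hi) _
  · refine (Finset.card_insert_le _ _).trans ?_
    have h1 := Finset.card_union_le T (I.image (fun i => ε i (g i)))
    have h2 := Finset.card_image_le (s := I) (f := fun i => ε i (g i))
    omega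
  · intro y hy z hz hyz
    simp only [Finset.coe_insert, Finset.coe_union, Finset.coe_image, Set.mem_insert_iff,
      Set.mem_union, Set.mem_image, Finset.mem_coe] at hy hz
    rcases hy with rfl | hy | ⟨i, hi, rfl⟩ <;> rcases hz with rfl | hz | ⟨j, hj, rfl⟩
    · rfl
    · exact absurd hyz (hxT _ hz)
    · exact absurd (hyz.trans (col' hch (hI j hj) _)) (hxI j hj)
    · exact absurd hyz.symm (hxT _ hy)
    · exact hTc hy hz hyz
    · exact absurd (hyz.trans (col' hch (hI j hj) _)) (hTd _ hy j (hI j hj))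
    · exact absurd (hyz.symm.trans (col' hch (hI i hi) _)) (hxI i hi)
    · exact absurd (hyz.symm.trans (col' hch (hI i hi) _)) (hTd _ hz i (hI i hi))
    · have h1 : i = j := hch.inj i (hI i hi) j (hI j hj)
        ((col' hch (hI i hi) (g i)).symm.trans (hyz.trans (col' hch (hI j hj) (g j))))
      rw [h1]
  · intro h
    rw [Finset.coe_insert, linearIndepOn_insert (by simpa using hxn)] at h
    apply h.2
    rw [Finset.coe_union, Finset.coe_image, Set.image_union, Set.image_image, span_union]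
    exact hmem

/-- Signs. -/
theorem exists_signs {v : ι → V} {c : ι → κ} {E : Finset ι} {ε : ℕ → Bool → ι} {N : ℕ}
    (hch : CCh v c E ε N) : ∃ s : ℕ → ℚ, (∀ i, s i = 1 ∨ s i = -1) ∧
      ∀ i < N, v (ε i false) - s i • v (ε i true) ∈ GG v ε i := by
  have h : ∀ i, ∃ r : ℚ, (r = 1 ∨ r = -1) ∧ (i < N →
      v (ε i false) - r • v (ε i true) ∈ GG v ε i) := by
    intro i
    by_cases hi : i < N
    · rcases Nat.eq_zero_or_pos i with h0 | h0
      · refine ⟨1, Or.inl rfl, fun _ => ?_⟩
        rw [h0, hch.zero, one_smul, sub_self]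
        exact zero_mem _
      · obtain ⟨_, r, hr, hr'⟩ := hch.dif i hi h0
        exact ⟨r, hr, fun _ => hr'⟩
    · exact ⟨1, Or.inl rfl, fun h => absurd h hi⟩
  choose s h1 h2 using h
  exact ⟨s, h1, h2⟩

/-- The chain in the quotient. -/
def uu (f : V →ₗ[ℚ] W) (v : ι → V) (ε : ℕ → Bool → ι) (s : ℕ → ℚ) (i : ℕ) (b : Bool) : W :=
  if b then s i • f (v (ε i true)) else f (v (ε i false))

theorem FF_uu (f : V →ₗ[ℚ] W) (v : ι → V) (ε : ℕ → Bool → ι) (s : ℕ → ℚ) (i : ℕ) :
    FF (uu f v ε s) i = (GG v ε i).map f := by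
  rw [FF_eq, GG_eq, Submodule.map_span, Set.image_image]
  rfl

theorem not_par {x y : V} (h : LinearIndependent ℚ ![x, y]) {s : ℚ} : x - s • y ≠ 0 := by
  intro h0
  rw [LinearIndependent.pair_iff] at h
  have h1 := h 1 (-s) (by rw [one_smul, neg_smul, ← sub_eq_add_neg]; exact h0)
  exact one_ne_zero h1.1

theorem chain_uu {v : ι → V} {c : ι → κ} {E : Finset ι}
    (hpar : ∀ e ∈ E, ∀ e' ∈ E, c e = c e' → e ≠ e' → LinearIndependent ℚ ![v e, v e'])
    {ε : ℕ → Bool → ι} {N : ℕ} (hch : CCh v c E ε N) {s : ℕ → ℚ}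
    (hs : ∀ i, s i = 1 ∨ s i = -1)
    (hs' : ∀ i < N, v (ε i false) - s i • v (ε i true) ∈ GG v ε i) (f : V →ₗ[ℚ] W)
    (hf : ∀ y ∈ GG v ε N, f y = 0 → y = 0) {X : Set W}
    (hX : ∀ e ∈ E, f (v e) ∈ X ∧ -f (v e) ∈ X) : Chain X (uu f v ε s) N where
  mem := by
    intro i hi b
    cases b
    · exact (hX _ (hch.mem i hi false)).1
    · change s i • f (v (ε i true)) ∈ X
      rcases hs i with h | h <;> rw [h]
      · rw [one_smul]
        exact (hX _ (hch.mem i hi true)).1
      · rw [neg_one_smul]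
        exact (hX _ (hch.mem i hi true)).2
  ind := by
    intro i hi h
    rw [FF_uu] at h
    obtain ⟨y, hy, hy'⟩ := h
    have h1 : v (ε i false) ∈ GG v ε N := subset_span ⟨i, hi, rfl⟩
    have h2 := hf (v (ε i false) - y) (sub_mem h1 (GG_mono v ε hi.le hy)) (by
      rw [map_sub, hy']
      exact sub_self _)
    apply hch.ind i hi
    rw [sub_eq_zero] at h2
    rw [h2]
    exact hy
  dif := by
    intro i hi
    rw [FF_uu]
    refine ⟨_, hs' i hi, ?_⟩
    rw [map_sub, map_smul]
    rfl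
  dne := by
    intro i hi h0 h
    have h1 := hf _ (GG_mono v ε hi.le (hs' i hi)) (by
      rw [map_sub, map_smul]
      exact sub_eq_zero.2 h)
    exact not_par (hpar _ (hch.mem i hi false) _ (hch.mem i hi true) (hch.col i hi)
      (hch.dif i hi h0).1) h1

theorem uni_X {v : ι → V} {E T : Finset ι} (hU : Uni (v '' (E : Set ι))) (hT : T ⊆ E) :
    Uni {z | z ∈ (span ℚ (v '' (T : Set ι))).mkQ '' (v '' (E : Set ι)) ∨
      -z ∈ (span ℚ (v '' (T : Set ι))).mkQ '' (v '' (E : Set ι))} := by
  have h1 : Uni ((span ℚ (v '' (T : Set ι))).mkQ '' (v '' (E : Set ι))) := by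
    refine uni_con _ hU (S := v '' (T : Set ι)) (Set.image_mono (Finset.coe_subset.2 hT)) ?_ ?_
    · intro x hx
      rw [Submodule.mkQ_apply, Submodule.Quotient.mk_eq_zero]
      exact subset_span hx
    · intro y _ hy
      rw [Submodule.mkQ_apply, Submodule.Quotient.mk_eq_zero] at hy
      exact hy
  exact uni_mono h1 fun x hx => Or.inr hx

theorem mkQ_inj {v : ι → V} {ε : ℕ → Bool → ι} {N : ℕ} (T : Finset ι)
    (hTi : ∀ μ : ι → ℚ, ∑ t ∈ T, μ t • v t ∈ GG v ε N → ∀ t ∈ T, μ t = 0) (y : V)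
    (hy : y ∈ GG v ε N) (h : (span ℚ (v '' (T : Set ι))).mkQ y = 0) : y = 0 := by
  rw [Submodule.mkQ_apply, Submodule.Quotient.mk_eq_zero] at h
  obtain ⟨μ, hμ⟩ := (Submodule.mem_span_image_finset_iff_exists_fun' ℚ).1 h
  rw [← hμ]
  refine Finset.sum_eq_zero fun t ht => ?_
  rw [hTi μ (by rw [hμ]; exact hy) t ht, zero_smul]

theorem lift {v : ι → V} {ε : ℕ → Bool → ι} {s : ℕ → ℚ} (P : Submodule ℚ V) (I : Finset ℕ)
    (g : ℕ → Bool) {x : V}
    (h : P.mkQ x ∈ span ℚ ((fun i => uu P.mkQ v ε s i (g i)) '' (I : Set ℕ))) :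
    x ∈ P ⊔ span ℚ ((fun i => v (ε i (g i))) '' (I : Set ℕ)) := by
  have h1 : span ℚ ((fun i => uu P.mkQ v ε s i (g i)) '' (I : Set ℕ)) ≤
      (span ℚ ((fun i => v (ε i (g i))) '' (I : Set ℕ))).map P.mkQ := by
    rw [span_le]
    rintro w ⟨i, hi, rfl⟩
    have h2 : P.mkQ (v (ε i (g i))) ∈
        (span ℚ ((fun i => v (ε i (g i))) '' (I : Set ℕ))).map P.mkQ :=
      ⟨_, subset_span ⟨i, hi, rfl⟩, rfl⟩
    cases hb : g i
    · rw [hb] at h2
      simpa [uu, hb] using h2
    · rw [hb] at h2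
      simpa [uu, hb] using Submodule.smul_mem _ (s i) h2
  have h3 : x ∈ ((span ℚ ((fun i => v (ε i (g i))) '' (I : Set ℕ))).map P.mkQ).comap P.mkQ :=
    h1 h
  rwa [Submodule.comap_map_mkQ] at h3

/-- A short sum. -/
theorem mem_of_sum (u : ℕ → Bool → W) (α : ℕ → ℚ) (g : ℕ → Bool) (N : ℕ) :
    ∑ i ∈ Finset.range N, α i • u i (g i) ∈
      span ℚ ((fun i => u i (g i)) '' (((Finset.range N).filter fun i => α i ≠ 0 : Finset ℕ) :
        Set ℕ)) := by
  refine Submodule.sum_mem _ fun i hi => ?_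
  by_cases h : α i = 0
  · rw [h, zero_smul]
    exact zero_mem _
  · exact Submodule.smul_mem _ _ (subset_span ⟨i, by simpa using ⟨Finset.mem_range.1 hi, h⟩, rfl⟩)

/-- The exceptional case of the cost lemma does not occur. -/
theorem no_exc {v : ι → V} {c : ι → κ} {E : Finset ι} (hU : Uni (v '' (E : Set ι)))
    (hpar : ∀ e ∈ E, ∀ e' ∈ E, c e = c e' → e ≠ e' → LinearIndependent ℚ ![v e, v e'])
    {ε : ℕ → Bool → ι} {N : ℕ} (hch : CCh v c E ε N) (f : V →ₗ[ℚ] W)
    (hf : ∀ y ∈ GG v ε N, f y = 0 → y = 0) {X : Set W} (hX : Uni X)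
    (hEX : ∀ e ∈ E, f (v e) ∈ X)
    {e e' : ι} (he : e ∈ E) (he' : e' ∈ E) (hee : e ≠ e') (hcc : c e = c e')
    {s : ℚ} (hs : s = 1 ∨ s = -1) (hd : v e - s • v e' ∈ GG v ε N)
    (h0 : f (v e) = -(s • f (v e'))) : False := by
  have hss : s * s = 1 := by rcases hs with rfl | rfl <;> norm_num
  have hli := hpar e he e' he' hcc hee
  have hne : v e - s • v e' ≠ 0 := not_par hli
  have hne' : v e + s • v e' ≠ 0 := by
    have h1 := not_par (s := -s) hli
    rwa [neg_smul, sub_neg_eq_add] at h1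
  by_cases hG : v e ∈ GG v ε N
  · refine hne' (hf _ ?_ ?_)
    · have h1 : v e + s • v e' = (v e + v e) - (v e - s • v e') := by abel
      rw [h1]
      exact sub_mem (add_mem hG hG) hd
    · rw [map_add, map_smul, h0, neg_add_cancel]
  · have hdG := hd
    rw [GG_eq] at hdG
    obtain ⟨γ, hγ⟩ := (Submodule.mem_span_image_finset_iff_exists_fun' ℚ).1 hdG
    have hl1 : LinearIndepOn ℚ (fun j => v (ε j false)) (Finset.range N : Set ℕ) := by
      refine li_range _ N fun i hi h => hch.ind i hi ?_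
      rw [GG_eq, Finset.coe_range]
      exact h
    have hl2 : LinearIndepOn ℚ (fun j => f (v (ε j false))) (Finset.range N : Set ℕ) := by
      refine hl1.map_injOn f ?_
      rw [← GG_eq]
      intro x hx y hy hxy
      exact sub_eq_zero.1 (hf (x - y) (sub_mem hx hy) (by rw [map_sub, hxy, sub_self]))
    have h2 : f (v e) = ∑ j ∈ Finset.range N, (γ j / 2) • f (v (ε j false)) := by
      have h3 : f (v e - s • v e') = (2 : ℚ) • f (v e) := by
        rw [map_sub, map_smul, two_smul]
        nth_rewrite 3 [h0]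
        rw [sub_eq_add_neg]
      have h4 : ∑ j ∈ Finset.range N, γ j • f (v (ε j false)) = (2 : ℚ) • f (v e) := by
        rw [← h3, ← hγ, map_sum]
        exact Finset.sum_congr rfl fun j _ => by rw [map_smul]
      have h5 : f (v e) = (1 / 2 : ℚ) • ((2 : ℚ) • f (v e)) := by
        rw [smul_smul]
        norm_num
      rw [h5, ← h4, Finset.smul_sum]
      refine Finset.sum_congr rfl fun j _ => ?_
      rw [smul_smul]
      congr 1
      ring
    have h3 := uni_coord hX (fun j => f (v (ε j false))) (Finset.range N)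
      (fun i hi => hEX _ (hch.mem i (Finset.mem_range.1 hi) false)) hl2 (fun j => γ j / 2)
      (by rw [← h2]; exact hEX e he)
    -- the family with `v e`
    have hl3 : LinearIndepOn ℚ (fun j => if j = N then v e else v (ε j false))
        (Finset.range (N + 1) : Set ℕ) := by
      have himg : (fun j => if j = N then v e else v (ε j false)) '' (Finset.range N : Set ℕ) =
          (fun j => v (ε j false)) '' (Finset.range N : Set ℕ) := by
        refine Set.image_congr fun j hj => ?_
        rw [Finset.mem_coe, Finset.mem_range] at hj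
        rw [if_neg hj.ne]
      rw [Finset.range_add_one, Finset.coe_insert, linearIndepOn_insert (by simp), himg, ← GG_eq,
        if_pos rfl]
      refine ⟨hl1.congr fun j hj => ?_, hG⟩
      rw [Finset.mem_coe, Finset.mem_range] at hj
      simp only [if_neg hj.ne]
    have h4 := uni_coord hU (fun j => if j = N then v e else v (ε j false)) (Finset.range (N + 1))
      (by
        intro i hi
        rw [Finset.mem_range] at hi
        by_cases hiN : i = N
        · simp only [if_pos hiN]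
          exact ⟨e, he, rfl⟩
        · simp only [if_neg hiN]
          exact ⟨_, hch.mem i (by omega) false, rfl⟩) hl3
      (fun j => if j = N then s else -(s * γ j))
      (by
        rw [Finset.sum_range_succ]
        simp only [if_true]
        have h5 : ∑ j ∈ Finset.range N, (if j = N then s else -(s * γ j)) •
            (if j = N then v e else v (ε j false)) = -(s • (v e - s • v e')) := by
          rw [← hγ, Finset.smul_sum, ← Finset.sum_neg_distrib]
          refine Finset.sum_congr rfl fun j hj => ?_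
          rw [Finset.mem_range] at hj
          rw [if_neg hj.ne, if_neg hj.ne, neg_smul, smul_smul]
        rw [h5, smul_sub, smul_smul, hss, one_smul]
        have h6 : -(s • v e - v e') + s • v e = v e' := by abel
        rw [h6]
        exact ⟨e', he', rfl⟩)
    apply hne
    rw [← hγ]
    refine Finset.sum_eq_zero fun j hj => ?_
    have h5 := h3 j hj
    have h6 := h4 j (by rw [Finset.mem_range] at hj ⊢; omega)
    rw [Finset.mem_range] at hj
    simp only [if_neg hj.ne] at h6
    have h7 : γ j = 0 := by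
      rcases hs with rfl | rfl <;> rcases h5 with h5 | h5 | h5 <;> rcases h6 with h6 | h6 | h6 <;>
        linarith
    rw [h7, zero_smul]

end ChainT

open ChainT

theorem cost_TQ {v : ι → V} {c : ι → κ} {E : Finset ι} (hU : Uni (v '' (E : Set ι)))
    (hpar : ∀ e ∈ E, ∀ e' ∈ E, c e = c e' → e ≠ e' → LinearIndependent ℚ ![v e, v e'])
    {ε : ℕ → Bool → ι} {N : ℕ} (hch : CCh v c E ε N) (hN : 1 ≤ N) (T : Finset ι)
    (hT : T ⊆ E) (hTc : Set.InjOn c (T : Set ι))
    (hTd : ∀ t ∈ T, ∀ i < N, c t ≠ c (ε i false))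
    (hTi : ∀ μ : ι → ℚ, ∑ t ∈ T, μ t • v t ∈ GG v ε N → ∀ t ∈ T, μ t = 0)
    {e : ι} (he : e ∈ E) (hec : ∀ t ∈ T, c e ≠ c t) (hed : ∀ i < N, c e ≠ c (ε i false))
    (hmem : v e ∈ GG v ε N ⊔ span ℚ (v '' (T : Set ι))) :
    Short v c E (T.card + 1 + (N + 1) / 2) := by
  classical
  obtain ⟨s, hs, hs'⟩ := exists_signs hch
  set P : Submodule ℚ V := span ℚ (v '' (T : Set ι)) with hP
  have hinj := mkQ_inj T hTi
  have hC := chain_uu hpar hch hs hs' P.mkQ hinj
    (X := {z | z ∈ P.mkQ '' (v '' (E : Set ι)) ∨ -z ∈ P.mkQ '' (v '' (E : Set ι))})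
    (fun e he => ⟨Or.inl ⟨_, ⟨e, he, rfl⟩, rfl⟩, Or.inr (by
      rw [neg_neg]
      exact ⟨_, ⟨e, he, rfl⟩, rfl⟩)⟩)
  by_cases hq0 : P.mkQ (v e) = 0
  · have h1 := short_of_mem hch T hT hTc hTd ∅ (by simp) (fun _ => false) he hec (by simp) (by
      rw [Submodule.mkQ_apply, Submodule.Quotient.mk_eq_zero] at hq0
      exact Submodule.mem_sup_left hq0)
    exact short_mono h1 subset_rfl (by simp)
  · have hF : P.mkQ (v e) ∈ FF (uu P.mkQ v ε s) N := by
      rw [FF_uu]
      have h1 : P.mkQ (v e) ∈ (GG v ε N ⊔ P).map P.mkQ := ⟨_, hmem, rfl⟩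
      rwa [Submodule.map_sup, Submodule.mkQ_map_self, sup_bot_eq] at h1
    obtain ⟨α, g, h1, h2⟩ := (cost_all N hN).1 _ _ _ _ (uni_X hU hT) hC
      (Or.inl ⟨_, ⟨e, he, rfl⟩, rfl⟩) hF hq0
    have h3 := mem_of_sum (uu P.mkQ v ε s) α g N
    rw [← h1] at h3
    have h4 := short_of_mem hch T hT hTc hTd ((Finset.range N).filter fun i => α i ≠ 0)
      (fun i hi => Finset.mem_range.1 (Finset.mem_filter.1 hi).1) g he hec
      (fun i hi => hed i (Finset.mem_range.1 (Finset.mem_filter.1 hi).1)) (lift P _ g h3)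
    refine short_mono h4 subset_rfl ?_
    omega

theorem cost_TP {v : ι → V} {c : ι → κ} {E : Finset ι} (hU : Uni (v '' (E : Set ι)))
    (hpar : ∀ e ∈ E, ∀ e' ∈ E, c e = c e' → e ≠ e' → LinearIndependent ℚ ![v e, v e'])
    {ε : ℕ → Bool → ι} {N : ℕ} (hch : CCh v c E ε N) (hN : 1 ≤ N) (T : Finset ι)
    (hT : T ⊆ E) (hTc : Set.InjOn c (T : Set ι))
    (hTd : ∀ t ∈ T, ∀ i < N, c t ≠ c (ε i false))
    (hTi : ∀ μ : ι → ℚ, ∑ t ∈ T, μ t • v t ∈ GG v ε N → ∀ t ∈ T, μ t = 0)
    {e e' : ι} (he : e ∈ E) (he' : e' ∈ E) (hee : e ≠ e') (hcc : c e = c e')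
    (hec : ∀ t ∈ T, c e ≠ c t) (hed : ∀ i < N, c e ≠ c (ε i false))
    {s : ℚ} (hs : s = 1 ∨ s = -1) (hd : v e - s • v e' ∈ GG v ε N)
    (hmem : v e ∈ GG v ε N ⊔ span ℚ (v '' (T : Set ι))) :
    Short v c E (T.card + 1 + N / 2) := by
  classical
  obtain ⟨r, hr, hr'⟩ := exists_signs hch
  set P : Submodule ℚ V := span ℚ (v '' (T : Set ι)) with hP
  have hinj := mkQ_inj T hTi
  have hXm : ∀ e ∈ E, P.mkQ (v e) ∈
      {z | z ∈ P.mkQ '' (v '' (E : Set ι)) ∨ -z ∈ P.mkQ '' (v '' (E : Set ι))} ∧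
      -P.mkQ (v e) ∈
        {z | z ∈ P.mkQ '' (v '' (E : Set ι)) ∨ -z ∈ P.mkQ '' (v '' (E : Set ι))} :=
    fun e he => ⟨Or.inl ⟨_, ⟨e, he, rfl⟩, rfl⟩, Or.inr (by
      rw [neg_neg]
      exact ⟨_, ⟨e, he, rfl⟩, rfl⟩)⟩
  have hC := chain_uu hpar hch hr hr' P.mkQ hinj hXm
  by_cases hq0 : P.mkQ (v e) = 0
  · have h1 := short_of_mem hch T hT hTc hTd ∅ (by simp) (fun _ => false) he hec (by simp) (by
      rw [Submodule.mkQ_apply, Submodule.Quotient.mk_eq_zero] at hq0
      exact Submodule.mem_sup_left hq0)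
    exact short_mono h1 subset_rfl (by simp)
  by_cases hq1 : P.mkQ (v e') = 0
  · have h1 := short_of_mem hch T hT hTc hTd ∅ (by simp) (fun _ => false) he'
      (fun t ht => by rw [← hcc]; exact hec t ht) (by simp) (by
      rw [Submodule.mkQ_apply, Submodule.Quotient.mk_eq_zero] at hq1
      exact Submodule.mem_sup_left hq1)
    exact short_mono h1 subset_rfl (by simp)
  have hs0 : s ≠ 0 := by rcases hs with rfl | rfl <;> norm_num
  have hF : P.mkQ (v e) ∈ FF (uu P.mkQ v ε r) N := by
    rw [FF_uu]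
    have h1 : P.mkQ (v e) ∈ (GG v ε N ⊔ P).map P.mkQ := ⟨_, hmem, rfl⟩
    rwa [Submodule.map_sup, Submodule.mkQ_map_self, sup_bot_eq] at h1
  have hcirc : Circ {z | z ∈ P.mkQ '' (v '' (E : Set ι)) ∨ -z ∈ P.mkQ '' (v '' (E : Set ι))}
      (uu P.mkQ v ε r) N (fun _ b => if b then s • P.mkQ (v e') else P.mkQ (v e)) 1 := by
    refine ⟨one_pos, ?_, ?_, ?_, ?_, ?_, ?_⟩
    · intro _ _ b
      cases b
      · exact (hXm e he).1
      · change s • P.mkQ (v e') ∈ _
        rcases hs with h | h <;> rw [h]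
        · rw [one_smul]
          exact (hXm e' he').1
        · rw [neg_one_smul]
          exact (hXm e' he').2
    · intro _ _
      rw [FF_uu]
      refine ⟨_, hd, ?_⟩
      rw [map_sub, map_smul]
      rfl
    · intro _ _ h
      refine not_par (hpar e he e' he' hcc hee) (hinj _ hd ?_)
      rw [map_sub, map_smul]
      exact sub_eq_zero.2 h
    · intro _
      refine ⟨hq0, smul_ne_zero hs0 hq1, fun h => ?_⟩
      exact no_exc hU hpar hch P.mkQ hinj (uni_X hU hT) (fun e he => (hXm e he).1) he he' hee hcc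
        hs hd h
    · rw [Finset.sum_range_one]
      exact hF
    · intro μ _ i hi j hj
      have h1 : i = j := by omega
      rw [h1]
  obtain ⟨α, μ, g, b, hne, hsum, hcard⟩ := (cost_all N hN).2 1 le_rfl _ _ _ _ (uni_X hU hT) hC
    hcirc
  rw [Finset.sum_range_one] at hsum
  have h3 := mem_of_sum (uu P.mkQ v ε r) α g N
  by_cases hμ : μ 0 = 0
  · -- only the chain is used
    rw [hμ, zero_smul, add_zero] at hsum
    have hex : ∃ i < N, α i ≠ 0 := by
      rcases hne with h | ⟨j, hj, hj'⟩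
      · exact h
      · exfalso
        apply hj'
        have : j = 0 := by omega
        rw [this, hμ]
    obtain ⟨i, hi, hαi⟩ := hex
    have hiI : i ∈ (Finset.range N).filter fun i => α i ≠ 0 :=
      Finset.mem_filter.2 ⟨Finset.mem_range.2 hi, hαi⟩
    have hmemi : P.mkQ (v (ε i (g i))) ∈ span ℚ ((fun i => uu P.mkQ v ε r i (g i)) ''
        ((((Finset.range N).filter fun i => α i ≠ 0).erase i : Finset ℕ) : Set ℕ)) := by
      have h5 : uu P.mkQ v ε r i (g i) ∈ span ℚ ((fun i => uu P.mkQ v ε r i (g i)) ''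
          ((((Finset.range N).filter fun i => α i ≠ 0).erase i : Finset ℕ) : Set ℕ)) := by
        have h6 : ∑ j ∈ Finset.range N, α j • uu P.mkQ v ε r j (g j) =
            α i • uu P.mkQ v ε r i (g i) +
              ∑ j ∈ (Finset.range N).erase i, α j • uu P.mkQ v ε r j (g j) :=
          (Finset.add_sum_erase _ _ (Finset.mem_range.2 hi)).symm
        rw [hsum] at h6
        have h7 : uu P.mkQ v ε r i (g i) = -((α i)⁻¹ •
            ∑ j ∈ (Finset.range N).erase i, α j • uu P.mkQ v ε r j (g j)) := by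
          have h8 : α i • uu P.mkQ v ε r i (g i) =
              -∑ j ∈ (Finset.range N).erase i, α j • uu P.mkQ v ε r j (g j) :=
            eq_neg_of_add_eq_zero_left h6.symm
          have h9 := congrArg (fun z => (α i)⁻¹ • z) h8
          simp only [smul_smul, inv_mul_cancel₀ hαi, one_smul, smul_neg] at h9
          rw [h9]
        rw [h7]
        refine neg_mem (Submodule.smul_mem _ _ (Submodule.sum_mem _ fun j hj => ?_))
        rw [Finset.mem_erase, Finset.mem_range] at hj
        by_cases hαj : α j = 0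
        · rw [hαj, zero_smul]
          exact zero_mem _
        · refine Submodule.smul_mem _ _ (subset_span ⟨j, ?_, rfl⟩)
          rw [Finset.mem_coe, Finset.mem_erase, Finset.mem_filter, Finset.mem_range]
          exact ⟨hj.1, hj.2, hαj⟩
      have h10 : P.mkQ (v (ε i (g i))) = uu P.mkQ v ε r i (g i) ∨
          P.mkQ (v (ε i (g i))) = r i • uu P.mkQ v ε r i (g i) := by
        cases hb : g i
        · left
          simp [uu]
        · right
          have hrr : r i * r i = 1 := by rcases hr i with h | h <;> rw [h] <;> norm_num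
          simp only [uu, if_true, smul_smul, hrr, one_smul]
      rcases h10 with h10 | h10 <;> rw [h10]
      · exact h5
      · exact Submodule.smul_mem _ _ h5
    have h4 := short_of_mem hch T hT hTc hTd (((Finset.range N).filter fun i => α i ≠ 0).erase i)
      (fun j hj => Finset.mem_range.1 (Finset.mem_filter.1 (Finset.mem_of_mem_erase hj)).1) g
      (hch.mem i hi (g i))
      (fun t ht h => hTd t ht i hi (h.symm.trans (col' hch hi _)))
      (fun j hj h => by
        rw [Finset.mem_erase, Finset.mem_filter, Finset.mem_range] at hj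
        exact hj.1 (hch.inj i hi j hj.2.1 ((col' hch hi (g i)).symm.trans h)).symm)
      (lift P _ g hmemi)
    refine short_mono h4 subset_rfl ?_
    rw [Finset.card_erase_of_mem hiI]
    have h5 : 0 < ((Finset.range N).filter fun i => α i ≠ 0).card := Finset.card_pos.2 ⟨i, hiI⟩
    omega
  · -- the pair is used
    have hc1 : ((Finset.range 1).filter fun j => μ j ≠ 0).card = 1 := by
      rw [Finset.range_one, Finset.filter_singleton, if_pos hμ, Finset.card_singleton]
    have hkey : ∀ x : ι, (∃ t : ℚ, P.mkQ (v x) = t • (if b 0 then s • P.mkQ (v e') else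
        P.mkQ (v e))) → P.mkQ (v x) ∈ span ℚ ((fun i => uu P.mkQ v ε r i (g i)) ''
          (((Finset.range N).filter fun i => α i ≠ 0 : Finset ℕ) : Set ℕ)) := by
      rintro x ⟨t, ht⟩
      rw [ht]
      refine Submodule.smul_mem _ _ ?_
      have h8 : μ 0 • (if b 0 then s • P.mkQ (v e') else P.mkQ (v e)) =
          -∑ j ∈ Finset.range N, α j • uu P.mkQ v ε r j (g j) :=
        eq_neg_of_add_eq_zero_right hsum
      have h9 := congrArg (fun z => (μ 0)⁻¹ • z) h8
      simp only [smul_smul, inv_mul_cancel₀ hμ, one_smul, smul_neg] at h9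
      rw [h9]
      exact neg_mem (Submodule.smul_mem _ _ h3)
    have hfin : ∀ x : ι, x ∈ E → c x = c e → (∃ t : ℚ, P.mkQ (v x) = t • (if b 0 then
        s • P.mkQ (v e') else P.mkQ (v e))) → Short v c E (T.card + 1 + N / 2) := by
      intro x hx hxc ht
      have h4 := short_of_mem hch T hT hTc hTd ((Finset.range N).filter fun i => α i ≠ 0)
        (fun i hi => Finset.mem_range.1 (Finset.mem_filter.1 hi).1) g hx
        (fun t ht => by rw [hxc]; exact hec t ht)
        (fun i hi => by rw [hxc]; exact hed i (Finset.mem_range.1 (Finset.mem_filter.1 hi).1))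
        (lift P _ g (hkey x ht))
      refine short_mono h4 subset_rfl ?_
      omega
    cases hb : b 0
    · exact hfin e he rfl ⟨1, by simp [hb]⟩
    · refine hfin e' he' hcc.symm ⟨s, ?_⟩
      have hss : s * s = 1 := by rcases hs with rfl | rfl <;> norm_num
      simp only [hb, if_true, smul_smul, hss, one_smul]

end RC.Red
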