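import Pool.Agent.Helper59.RC.UniQuot

/-!
Module RC-U7.  Graphic sets are unimodular.

By `uni_of_map` and `uni_mono` it suffices that the set `Y` of all vectors
`Pi.single a 1 - Pi.single b 1` of `W → ℚ` is unimodular.  Let `s ⊆ Y` be finite and independent,
`x = ∑ c a • a ∈ Y`, `a₀ ∈ s`.  Let `U = span (s.erase a₀)`.  Define `w ~ w'` if
`single w 1 - single w' 1 ∈ U`; this is an equivalence relation.  `a₀ = single u 1 - single u' 1`
is not in `U`, so `u` is not equivalent to `u'`.  Let `χ (g) = ∑_{w ~ u} g w` (linear).  `χ`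
vanishes on every `b = single w 1 - single w' 1` of `s.erase a₀` (`w ~ w'`), `χ a₀ = 1`, and
`χ x ∈ {0, 1, -1}`.  So `c a₀ = χ x`.
-/

namespace RC

open Submodule Module

variable {V : Type} [AddCommGroup V] [Module ℚ V]

/-- The set of all differences of two unit vectors is unimodular. -/
theorem uni_edges (W : Type) [Fintype W] [DecidableEq W] :
    Uni {y : W → ℚ | ∃ a b : W, y = Pi.single a 1 - Pi.single b 1} := by
  classical
  intro s c hs hli hx a₀ ha₀
  obtain ⟨u, u', hu⟩ := hs (Finset.mem_coe.2 ha₀)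
  obtain ⟨x, x', hxx⟩ := hx
  set U : Submodule ℚ (W → ℚ) := span ℚ ((s.erase a₀ : Finset (W → ℚ)) : Set (W → ℚ)) with hU
  have hnot : a₀ ∉ U := by
    have h1 := (linearIndepOn_iff_notMem_span.1 hli) a₀ (Finset.mem_coe.2 ha₀)
    simpa [hU, Finset.coe_erase] using h1
  set P : W → Prop := fun w => (Pi.single w 1 - Pi.single u 1 : W → ℚ) ∈ U with hP
  have hPu : P u := by
    simp only [hP, sub_self]
    exact U.zero_mem
  have hPu' : ¬ P u' := by
    intro h
    apply hnot
    have h1 := U.neg_mem h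
    rw [neg_sub, ← hu] at h1
    exact h1
  have hPP : ∀ w w' : W, (Pi.single w 1 - Pi.single w' 1 : W → ℚ) ∈ U → (P w ↔ P w') := by
    intro w w' h
    constructor
    · intro h1
      have h2 := U.sub_mem h1 h
      have h3 : (Pi.single w 1 - Pi.single u 1 - (Pi.single w 1 - Pi.single w' 1) : W → ℚ)
          = Pi.single w' 1 - Pi.single u 1 := by abel
      rw [h3] at h2
      exact h2
    · intro h1
      have h2 := U.add_mem h h1
      have h3 : (Pi.single w 1 - Pi.single w' 1 + (Pi.single w' 1 - Pi.single u 1) : W → ℚ)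
          = Pi.single w 1 - Pi.single u 1 := by abel
      rw [h3] at h2
      exact h2
  let χ : (W → ℚ) →ₗ[ℚ] ℚ := ∑ w ∈ Finset.univ.filter P, LinearMap.proj w
  have hχ : ∀ w, χ (Pi.single w 1) = if P w then 1 else 0 := by
    intro w
    simp only [χ, LinearMap.sum_apply, LinearMap.proj_apply, Pi.single_apply]
    rw [Finset.sum_ite_eq']
    simp
  have hχ0 : ∀ b ∈ s, b ≠ a₀ → χ b = 0 := by
    intro b hb hne
    obtain ⟨w, w', hw⟩ := hs (Finset.mem_coe.2 hb)
    have hbU : b ∈ U := subset_span (Finset.mem_coe.2 (Finset.mem_erase.2 ⟨hne, hb⟩))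
    have h1 := hPP w w' (hw ▸ hbU)
    rw [hw, map_sub, hχ, hχ]
    by_cases h2 : P w
    · rw [if_pos h2, if_pos (h1.1 h2), sub_self]
    · rw [if_neg h2, if_neg (fun h3 => h2 (h1.2 h3)), sub_self]
  have hχ1 : χ a₀ = 1 := by
    rw [hu, map_sub, hχ, hχ, if_pos hPu, if_neg hPu', sub_zero]
  have hsum : χ (∑ a ∈ s, c a • a) = c a₀ := by
    rw [map_sum, Finset.sum_eq_single a₀]
    · rw [map_smul, hχ1, smul_eq_mul, mul_one]
    · intro b hb hne
      rw [map_smul, hχ0 b hb hne, smul_zero]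
    · intro h
      exact absurd ha₀ h
  rw [hxx, map_sub, hχ, hχ] at hsum
  rw [← hsum]
  split_ifs <;> simp

theorem uni_graphic (X : Set V) (W : Type) [Fintype W] [DecidableEq W] (φ : V →ₗ[ℚ] (W → ℚ))
    (inj : ∀ y ∈ span ℚ X, φ y = 0 → y = 0)
    (edge : ∀ x ∈ X, ∃ a b : W, φ x = Pi.single a 1 - Pi.single b 1) : Uni X := by
  refine uni_of_map φ inj (uni_mono (uni_edges W) ?_)
  rintro _ ⟨x, hx, rfl⟩
  exact Or.inr (Or.inl (edge x hx))

end RC
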