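import Pool.Agent.Helper59.RC.UniGlue
import Pool.Agent.Helper59.RC.UniGraph

/-!
Module RC-U6.  Adding a claw to a triangle.

`claw_graphic`: there are functionals `P, Q : V → ℚ` with `P p = Q q = 1`, `P q = Q p = 0`
(extend the dual basis of the independent pair).  Put
`φ (x, t) = P x • (ε 0 - ε 1) + Q x • (ε 2 - ε 0) + t • (ε 3 - ε 0)`, `ε i = Pi.single i 1`.
Then `(p,0) ↦ ε0 - ε1`, `(q,0) ↦ ε2 - ε0`, `(p+q,0) ↦ ε2 - ε1`, `(0,1) ↦ ε3 - ε0`,
`(p,1) ↦ ε3 - ε1`, `(-q,1) ↦ ε3 - ε2`.  The span of the six vectors is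
`{(α p + β q, t)}` and `φ` is injective on it.

`claw_span`: `span (inl '' X ∪ {p', q'})` consists of vectors with second coordinate `0`; an
element `(α p + β q, t)` of `span (claw ∪ {p', q'})` with `t = 0` is in `span {p', q'}`.

`uni_claw`: `uni_glue` with `A = inl '' X`, `B` = the claw, `p' = (p, 0)`, `q' = (q, 0)`
(`A ∪ D = A` up to `uni_mono`; `inl '' X` is unimodular by `uni_map`; `B ∪ D` by `uni_graphic`).

`cls_uni`: `mono = uni_mono`, `map = uni_map`, `con = uni_con` with `S = {x}`, `claw = uni_claw`.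
-/

namespace RC

open Submodule Module

variable {V : Type} [AddCommGroup V] [Module ℚ V]

/-- The claw attached to the triangle `p, q, p + q`. -/
def clawSet (p q : V) : Set (V × ℚ) := {((0 : V), (1 : ℚ)), (p, 1), (-q, 1)}

private theorem dual_pair {p q : V} (li : LinearIndependent ℚ ![p, q]) :
    ∃ P Q : V →ₗ[ℚ] ℚ, P p = 1 ∧ P q = 0 ∧ Q p = 0 ∧ Q q = 1 := by
  have hinj := linearIndependent_iff_injective_fintypeLinearCombination.1 li
  obtain ⟨g, hg⟩ := LinearMap.exists_leftInverse_of_injective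
    (Fintype.linearCombination ℚ ![p, q]) (LinearMap.ker_eq_bot.2 hinj)
  have h0 : g p = Pi.single 0 1 := by
    have h := LinearMap.congr_fun hg (Pi.single (0 : Fin 2) (1 : ℚ))
    simpa [Fintype.linearCombination_apply_single] using h
  have h1 : g q = Pi.single 1 1 := by
    have h := LinearMap.congr_fun hg (Pi.single (1 : Fin 2) (1 : ℚ))
    simpa [Fintype.linearCombination_apply_single] using h
  refine ⟨(LinearMap.proj 0).comp g, (LinearMap.proj 1).comp g, ?_, ?_, ?_, ?_⟩ <;>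
    simp [h0, h1]

/-- The functional of the claw. -/
private noncomputable def clawMap (P Q : V →ₗ[ℚ] ℚ) : (V × ℚ) →ₗ[ℚ] (Fin 4 → ℚ) :=
  LinearMap.coprod
    (P.smulRight (Pi.single 0 1 - Pi.single 1 1) + Q.smulRight (Pi.single 2 1 - Pi.single 0 1))
    (LinearMap.toSpanSingleton ℚ _ (Pi.single 3 1 - Pi.single 0 1))

private theorem clawMap_apply (P Q : V →ₗ[ℚ] ℚ) (x : V) (t : ℚ) :
    clawMap P Q (x, t) = P x • (Pi.single 0 1 - Pi.single 1 1) +
      Q x • (Pi.single 2 1 - Pi.single 0 1) + t • (Pi.single 3 1 - Pi.single 0 1) := by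
  simp [clawMap]

private theorem claw_fst {p q : V} {y : V × ℚ}
    (hy : y ∈ span ℚ (clawSet p q ∪ {((p : V), (0 : ℚ)), (q, 0), (p + q, 0)})) :
    y.1 ∈ span ℚ {p, q} := by
  have hp : p ∈ span ℚ ({p, q} : Set V) := subset_span (by simp)
  have hq : q ∈ span ℚ ({p, q} : Set V) := subset_span (by simp)
  have hle : span ℚ (clawSet p q ∪ {((p : V), (0 : ℚ)), (q, 0), (p + q, 0)}) ≤
      (span ℚ ({p, q} : Set V)).comap (LinearMap.fst ℚ V ℚ) := by
    rw [span_le]
    rintro x ((rfl | rfl | rfl) | (rfl | rfl | rfl))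
    · exact zero_mem (span ℚ ({p, q} : Set V))
    · exact hp
    · exact neg_mem hq
    · exact hp
    · exact hq
    · exact add_mem hp hq
  exact hle hy

theorem claw_graphic {p q : V} (li : LinearIndependent ℚ ![p, q]) :
    ∃ φ : (V × ℚ) →ₗ[ℚ] (Fin 4 → ℚ),
      (∀ y ∈ span ℚ (clawSet p q ∪ {((p : V), (0 : ℚ)), (q, 0), (p + q, 0)}),
        φ y = 0 → y = 0) ∧
      ∀ x ∈ clawSet p q ∪ {((p : V), (0 : ℚ)), (q, 0), (p + q, 0)},
        ∃ a b, φ x = Pi.single a 1 - Pi.single b 1 := by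
  obtain ⟨P, Q, hPp, hPq, hQp, hQq⟩ := dual_pair li
  refine ⟨clawMap P Q, ?_, ?_⟩
  · rintro ⟨x, t⟩ hy h0
    obtain ⟨α, β, hx⟩ := mem_span_pair.1 (claw_fst hy)
    dsimp only at hx
    rw [clawMap_apply, ← hx] at h0
    simp only [map_add, map_smul, hPp, hPq, hQp, hQq, smul_eq_mul, mul_one, mul_zero, add_zero,
      zero_add] at h0
    have h1 := congrFun h0 1
    have h2 := congrFun h0 2
    have h3 := congrFun h0 3
    simp at h1 h2 h3
    subst h1 h2 h3
    rw [← hx]
    simp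
  · rintro x ((rfl | rfl | rfl) | (rfl | rfl | rfl))
    · exact ⟨3, 0, by rw [clawMap_apply]; simp⟩
    · refine ⟨3, 1, ?_⟩
      rw [clawMap_apply, hPp, hQp, one_smul, one_smul, zero_smul]
      abel
    · refine ⟨3, 2, ?_⟩
      rw [clawMap_apply, map_neg, map_neg, hPq, hQq, neg_zero, zero_smul, neg_smul, one_smul,
        one_smul]
      abel
    · exact ⟨0, 1, by rw [clawMap_apply, hPp, hQp]; simp⟩
    · exact ⟨2, 0, by rw [clawMap_apply, hPq, hQq]; simp⟩
    · refine ⟨2, 1, ?_⟩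
      rw [clawMap_apply, map_add, map_add, hPp, hPq, hQp, hQq, add_zero, zero_add, one_smul,
        one_smul, zero_smul]
      abel

theorem claw_span (X : Set V) (p q : V) (hp : p ∈ span ℚ X) (hq : q ∈ span ℚ X) :
    span ℚ ((fun x : V => (x, (0 : ℚ))) '' X ∪ {((p : V), (0 : ℚ)), (q, 0)}) ⊓
      span ℚ (clawSet p q ∪ {((p : V), (0 : ℚ)), (q, 0)}) =
    span ℚ {((p : V), (0 : ℚ)), (q, 0)} := by
  apply le_antisymm
  · rintro ⟨x, t⟩ ⟨h1, h2⟩
    have ht : t = 0 := by
      have hle : span ℚ ((fun x : V => (x, (0 : ℚ))) '' X ∪ {((p : V), (0 : ℚ)), (q, 0)}) ≤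
          LinearMap.ker (LinearMap.snd ℚ V ℚ) := by
        rw [span_le]
        rintro x (⟨x, _, rfl⟩ | (rfl | rfl)) <;> simp
      simpa using hle h1
    have hx : x ∈ span ℚ ({p, q} : Set V) := by
      have h3 : ((x, t) : V × ℚ) ∈
          span ℚ (clawSet p q ∪ {((p : V), (0 : ℚ)), (q, 0), (p + q, 0)}) := by
        refine span_mono (Set.union_subset_union_right _ ?_) h2
        intro y hy
        simp only [Set.mem_insert_iff, Set.mem_singleton_iff] at hy ⊢
        tauto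
      exact claw_fst h3
    obtain ⟨α, β, rfl⟩ := mem_span_pair.1 hx
    subst ht
    rw [mem_span_pair]
    exact ⟨α, β, by simp⟩
  · exact le_inf (span_mono Set.subset_union_right) (span_mono Set.subset_union_right)

theorem uni_claw {X : Set V} {p q : V} (hX : Uni X) (hp : p ∈ X) (hq : q ∈ X)
    (hs : p + q ∈ X) (li : LinearIndependent ℚ ![p, q]) :
    Uni ((fun x : V => (x, (0 : ℚ))) '' X ∪ {((0 : V), (1 : ℚ)), (p, 1), (-q, 1)}) := by
  have hpq' : ((p, (0 : ℚ)) : V × ℚ) + (q, 0) = (p + q, 0) := by simp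
  have hX' : Uni ((fun x : V => (x, (0 : ℚ))) '' X) := by
    have h := uni_map (LinearMap.inl ℚ V ℚ) hX (fun y _ hy => by simpa using hy)
    have he : (⇑(LinearMap.inl ℚ V ℚ)) = fun x : V => (x, (0 : ℚ)) := by
      funext x
      rfl
    rwa [he] at h
  have li' : LinearIndependent ℚ ![((p : V), (0 : ℚ)), (q, 0)] := by
    rw [LinearIndependent.pair_iff] at li ⊢
    intro s t hst
    apply li s t
    simpa using congrArg Prod.fst hst
  have hA : Uni ((fun x : V => (x, (0 : ℚ))) '' X ∪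
      {((p : V), (0 : ℚ)), (q, 0), ((p : V), (0 : ℚ)) + (q, 0)}) := by
    refine uni_mono hX' ?_
    rintro x (hx | (rfl | rfl | rfl))
    · exact Or.inr (Or.inl hx)
    · exact Or.inr (Or.inl ⟨p, hp, rfl⟩)
    · exact Or.inr (Or.inl ⟨q, hq, rfl⟩)
    · exact Or.inr (Or.inl ⟨p + q, hs, hpq'.symm⟩)
  have hB : Uni (clawSet p q ∪
      {((p : V), (0 : ℚ)), (q, 0), ((p : V), (0 : ℚ)) + (q, 0)}) := by
    obtain ⟨φ, h1, h2⟩ := claw_graphic li
    rw [hpq']
    exact uni_graphic _ (Fin 4) φ h1 h2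
  refine uni_mono (uni_glue (Or.inl li') hA hB
    (claw_span X p q (subset_span hp) (subset_span hq))) ?_
  rintro x (hx | hx)
  · exact Or.inr (Or.inl (Or.inl (Or.inl hx)))
  · exact Or.inr (Or.inl (Or.inl (Or.inr hx)))

theorem cls_uni : Cls (fun V _ _ X => Uni X) where
  uni := fun h => h
  mono := fun hY h => uni_mono hY h
  map := fun f _ hX hk => uni_map f hX hk
  con := fun f X x hX hx h0 hk => by
    refine uni_con f hX (S := {x}) (by simpa using hx) ?_ hk
    intro s hs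
    rw [Set.mem_singleton_iff] at hs
    rw [hs, h0]
  claw := fun hX hp hq hs li => uni_claw hX hp hq hs li

end RC
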