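import Pool.Agent.Helper59.RC.DecBasic

/-!
Module RC-D3.  Restriction and contraction of cographic sets.

`cographic_restrict`: let `E₁` be the subtype `P`.  Let `r` be the equivalence relation on `W`
generated by `hd e ~ tl e` for all `e` with `¬ P e`; `W₁ = Quot r` (finite), `hd₁, tl₁` the
compositions.  A function `a₁` on `E₁` extended by `0` is a dependency iff it is the difference
of a potential `π` with `π (hd e) = π (tl e)` for all `e` with `¬ P e`, that is of a potential
which factors through `W₁`.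

`con_cographic`: choose for the set `X` the subtype `P e := u e ∈ X`; by `cographic_restrict`
we may work with a family `u₁ : E₁ → V` whose range is `X`.  Let `u₁ e₀ = x` and
`E₂ = {e : E₁ // e ≠ e₀}`.  For `a : E₂ → ℚ`: `∑ a e • mkQ (u₁ e) = 0` iff
`∑ a e • u₁ e = - t • x` for some `t` iff (dependency of `u₁`) there are `t, π` with
`a e = π (hd e) - π (tl e)` on `E₂` and `t = π (hd e₀) - π (tl e₀)` iff there is `π` with the
first property.  So `mkQ ∘ u₁` on `E₂` is a cographic family, `Dec.cographic` for its range, and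
`mkQ '' X` is contained in the range together with `0` (`dec_mono`).
-/

namespace RC

open Submodule Module

theorem cographic_restrict {V : Type} [AddCommGroup V] [Module ℚ V] (E W : Type) [Fintype E]
    [Fintype W] (u : E → V) (hd tl : E → W)
    (dep : ∀ a : E → ℚ, ∑ e, a e • u e = 0 ↔ ∃ π : W → ℚ, ∀ e, a e = π (hd e) - π (tl e))
    (P : E → Prop) [Fintype {e : E // P e}] :
    ∃ (W₁ : Type) (_ : Fintype W₁) (hd₁ tl₁ : {e : E // P e} → W₁),
      ∀ a : {e : E // P e} → ℚ, ∑ e, a e • u e.1 = 0 ↔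
        ∃ π : W₁ → ℚ, ∀ e, a e = π (hd₁ e) - π (tl₁ e) := by
  classical
  let r : W → W → Prop := fun w w' => ∃ e, ¬ P e ∧ w = hd e ∧ w' = tl e
  refine ⟨Quot r, Fintype.ofFinite _, fun e => Quot.mk r (hd e.1), fun e => Quot.mk r (tl e.1),
    fun a => ?_⟩
  let b : E → ℚ := fun e => if h : P e then a ⟨e, h⟩ else 0
  have hb1 : ∀ e : {e : E // P e}, b e.1 = a e := fun e => dif_pos e.2
  have hb2 : ∀ e : E, ¬ P e → b e = 0 := fun e he => dif_neg he
  have hsum : ∑ e : {e : E // P e}, a e • u e.1 = ∑ e, b e • u e := by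
    have h1 : ∑ e ∈ Finset.univ.filter P, b e • u e = ∑ e, b e • u e := by
      refine Finset.sum_subset (Finset.subset_univ _) fun e _ he => ?_
      rw [hb2 e (fun h => he (Finset.mem_filter.2 ⟨Finset.mem_univ _, h⟩)), zero_smul]
    rw [← h1, Finset.sum_subtype (Finset.univ.filter P) (p := P)
      (fun x => by rw [Finset.mem_filter]; exact ⟨fun h => h.2, fun h => ⟨Finset.mem_univ _, h⟩⟩)]
    exact Finset.sum_congr rfl fun e _ => by rw [hb1 e]
  rw [hsum, dep b]
  constructor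
  · rintro ⟨π, hπ⟩
    refine ⟨Quot.lift π ?_, fun e => ?_⟩
    · rintro w w' ⟨e, he, rfl, rfl⟩
      have h1 := hπ e
      rw [hb2 e he] at h1
      exact sub_eq_zero.1 h1.symm
    · rw [← hb1 e]
      exact hπ e.1
  · rintro ⟨π, hπ⟩
    refine ⟨fun w => π (Quot.mk r w), fun e => ?_⟩
    by_cases he : P e
    · have h1 := hπ ⟨e, he⟩
      rw [← hb1 ⟨e, he⟩] at h1
      exact h1
    · have h1 : Quot.mk r (hd e) = Quot.mk r (tl e) := Quot.sound ⟨e, he, rfl, rfl⟩
      show b e = π (Quot.mk r (hd e)) - π (Quot.mk r (tl e))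
      rw [hb2 e he, h1, sub_self]

theorem con_cographic {V : Type} [AddCommGroup V] [Module ℚ V] (X : Set V) (E W : Type)
    [Fintype E] [Fintype W] (u : E → V) (hd tl : E → W)
    (dep : ∀ a : E → ℚ, ∑ e, a e • u e = 0 ↔ ∃ π : W → ℚ, ∀ e, a e = π (hd e) - π (tl e))
    (cov : ∀ x ∈ X, ∃ e, x = u e) {x : V} (hx : x ∈ X) :
    Dec (V ⧸ span ℚ {x}) ((span ℚ {x}).mkQ '' X) := by
  classical
  obtain ⟨e₀, rfl⟩ := cov x hx
  have hsplit : ∀ b : E → ℚ, ∑ e, b e • u e =
      b e₀ • u e₀ + ∑ e : {e : E // e ≠ e₀}, b e.1 • u e.1 := by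
    intro b
    rw [← Finset.add_sum_erase Finset.univ (fun e => b e • u e) (Finset.mem_univ e₀),
      Finset.sum_subtype (Finset.univ.erase e₀) (p := fun e => e ≠ e₀)
        (fun y => by
          rw [Finset.mem_erase]
          exact ⟨fun h => h.1, fun h => ⟨h, Finset.mem_univ _⟩⟩)]
  let u₂ : {e : E // e ≠ e₀} → V ⧸ span ℚ {u e₀} := fun e => (span ℚ {u e₀}).mkQ (u e.1)
  refine dec_mono (Dec.cographic (Set.range u₂) {e : E // e ≠ e₀} W u₂ (fun e => hd e.1)
    (fun e => tl e.1) (fun a => ?_) ?_) ?_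
  · have h1 : ∑ e, a e • u₂ e = (span ℚ {u e₀}).mkQ (∑ e, a e • u e.1) := by
      rw [map_sum]
      exact Finset.sum_congr rfl fun e _ => (map_smul _ _ _).symm
    rw [h1, Submodule.mkQ_apply, Submodule.Quotient.mk_eq_zero, Submodule.mem_span_singleton]
    constructor
    · rintro ⟨t, ht⟩
      let b : E → ℚ := fun e => if h : e ≠ e₀ then a ⟨e, h⟩ else -t
      have hb1 : ∀ e : {e : E // e ≠ e₀}, b e.1 = a e := fun e => dif_pos e.2
      have hb0 : b e₀ = -t := dif_neg (fun h => h rfl)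
      have h2 : ∑ e, b e • u e = 0 := by
        rw [hsplit b, hb0, Finset.sum_congr rfl (fun e _ => by rw [hb1 e]), ← ht, neg_smul,
          neg_add_cancel]
      obtain ⟨π, hπ⟩ := (dep b).1 h2
      refine ⟨π, fun e => ?_⟩
      rw [← hb1 e]
      exact hπ e.1
    · rintro ⟨π, hπ⟩
      have h2 := (dep (fun e => π (hd e) - π (tl e))).2 ⟨π, fun e => rfl⟩
      rw [hsplit (fun e => π (hd e) - π (tl e))] at h2
      refine ⟨-(π (hd e₀) - π (tl e₀)), ?_⟩
      have h3 : ∑ e : {e : E // e ≠ e₀}, a e • u e.1 =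
          ∑ e : {e : E // e ≠ e₀}, (π (hd e.1) - π (tl e.1)) • u e.1 :=
        Finset.sum_congr rfl fun e _ => by rw [hπ e]
      rw [h3, neg_smul]
      exact neg_eq_of_add_eq_zero_right h2
  · rintro _ ⟨e, rfl⟩
    exact ⟨e, rfl⟩
  · rintro _ ⟨y, hy, rfl⟩
    obtain ⟨e, rfl⟩ := cov y hy
    by_cases he : e = e₀
    · left
      rw [he, Submodule.mkQ_apply, Submodule.Quotient.mk_eq_zero]
      exact subset_span rfl
    · exact Or.inr (Or.inl ⟨⟨e, he⟩, rfl⟩)

end RC
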