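import Pool.Agent.Helper59.RC.DecBasic

/-!
Module RC-D2.  Contraction of a graphic set.

`φ x = single a 1 - single b 1`.  If `a = b` then `φ x = 0`, so `x = 0` and `span {x} = ⊥`:
use `Dec.graphic` with the map `k : V / span {x} → (W → ℚ)`, `k (mkQ y) = φ y`
(`Submodule.liftQ`).  If `a ≠ b` let `r : W → W`, `r b = a`, `r w = w` otherwise, and let
`R : (W → ℚ) → (W → ℚ)` be linear with `R (single w 1) = single (r w) 1` (explicitly
`R g w = ∑ w' with r w' = w, g w'`).  The kernel of `R` is `span {single a 1 - single b 1}`: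
`R g = 0` says `g w = 0` for `w ≠ a, b` and `g a + g b = 0`.  `R ∘ φ` kills `x`, lift it to
`V / span {x}`; it is injective on `span (mkQ '' X)`: `R (φ y) = 0` with `y ∈ span X` gives
`φ y = t • φ x`, so `y = t • x`.  Edges go to edges.
-/

namespace RC

open Submodule Module

/-- the push forward of functions along a map of the vertices -/
private def cgPush {W : Type} [Fintype W] [DecidableEq W] (r : W → W) :
    (W → ℚ) →ₗ[ℚ] (W → ℚ) :=
  ∑ w', (LinearMap.proj w' : (W → ℚ) →ₗ[ℚ] ℚ).smulRight (Pi.single (r w') (1 : ℚ))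

private theorem cgPush_apply {W : Type} [Fintype W] [DecidableEq W] (r : W → W) (g : W → ℚ)
    (w : W) : cgPush r g w = ∑ w', if r w' = w then g w' else 0 := by
  unfold cgPush
  rw [LinearMap.sum_apply, Finset.sum_apply]
  refine Finset.sum_congr rfl fun w' _ => ?_
  rw [LinearMap.smulRight_apply, LinearMap.proj_apply, Pi.smul_apply, Pi.single_apply,
    smul_eq_mul]
  by_cases h : r w' = w
  · rw [if_pos h.symm, if_pos h, mul_one]
  · rw [if_neg (Ne.symm h), if_neg h, mul_zero]

private theorem cgPush_single {W : Type} [Fintype W] [DecidableEq W] (r : W → W) (w : W) :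
    cgPush r (Pi.single w 1) = Pi.single (r w) 1 := by
  funext v
  rw [cgPush_apply, Finset.sum_eq_single w]
  · rw [Pi.single_eq_same, Pi.single_apply]
    by_cases h : r w = v
    · rw [if_pos h, if_pos h.symm]
    · rw [if_neg h, if_neg (Ne.symm h)]
  · intro w' _ hw
    rw [Pi.single_eq_of_ne hw, ite_self]
  · intro h
    exact absurd (Finset.mem_univ w) h

private theorem cgPush_ker {W : Type} [Fintype W] [DecidableEq W] (a b : W) (g : W → ℚ)
    (h : cgPush (fun w => if w = b then a else w) g = 0) :
    ∃ t : ℚ, g = t • (Pi.single a 1 - Pi.single b 1) := by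
  have h1 : ∀ w, (∑ w', if (if w' = b then a else w') = w then g w' else 0) = 0 := by
    intro w
    have := congrFun h w
    rw [cgPush_apply] at this
    exact this
  have h2 : ∀ w, w ≠ a → w ≠ b → g w = 0 := by
    intro w hwa hwb
    have h3 := h1 w
    rw [Finset.sum_eq_single w] at h3
    · rwa [if_neg hwb, if_pos rfl] at h3
    · intro w' _ hw
      by_cases hb : w' = b
      · rw [if_pos hb, if_neg (Ne.symm hwa)]
      · rw [if_neg hb, if_neg hw]
    · intro h4
      exact absurd (Finset.mem_univ w) h4
  by_cases hab : a = b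
  · subst hab
    refine ⟨0, ?_⟩
    funext w
    rw [zero_smul]
    by_cases hwa : w = a
    · subst hwa
      have h3 := h1 w
      rw [Finset.sum_eq_single w] at h3
      · rwa [if_pos rfl, if_pos rfl] at h3
      · intro w' _ hw
        rw [if_neg hw, if_neg hw]
      · intro h4
        exact absurd (Finset.mem_univ w) h4
    · exact h2 w hwa hwa
  · have h3 := h1 a
    have h4 : g a + g b = 0 := by
      rw [← h3, ← Finset.sum_pair (f := g) hab]
      symm
      rw [← Finset.sum_subset (Finset.subset_univ ({a, b} : Finset W))]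
      · refine Finset.sum_congr rfl fun w hw => ?_
        rw [Finset.mem_insert, Finset.mem_singleton] at hw
        rcases hw with rfl | rfl
        · rw [if_neg hab, if_pos rfl]
        · rw [if_pos rfl, if_pos rfl]
      · intro w _ hw
        rw [Finset.mem_insert, Finset.mem_singleton, not_or] at hw
        rw [if_neg hw.2, if_neg hw.1]
    refine ⟨g a, ?_⟩
    funext w
    rw [Pi.smul_apply, Pi.sub_apply, smul_eq_mul]
    by_cases hwa : w = a
    · subst hwa
      rw [Pi.single_eq_same, Pi.single_eq_of_ne hab, sub_zero, mul_one]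
    · by_cases hwb : w = b
      · subst hwb
        rw [Pi.single_eq_same, Pi.single_eq_of_ne hwa]
        linarith
      · rw [h2 w hwa hwb, Pi.single_eq_of_ne hwa, Pi.single_eq_of_ne hwb, sub_zero, mul_zero]

theorem con_graphic {V : Type} [AddCommGroup V] [Module ℚ V] (X : Set V) (W : Type) [Fintype W]
    [DecidableEq W] (φ : V →ₗ[ℚ] (W → ℚ)) (inj : ∀ y ∈ span ℚ X, φ y = 0 → y = 0)
    (edge : ∀ x ∈ X, ∃ a b : W, φ x = Pi.single a 1 - Pi.single b 1) {x : V} (hx : x ∈ X) :
    Dec (V ⧸ span ℚ {x}) ((span ℚ {x}).mkQ '' X) := by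
  obtain ⟨a, b, hab⟩ := edge x hx
  have hle : span ℚ {x} ≤ LinearMap.ker ((cgPush fun w => if w = b then a else w).comp φ) := by
    rw [Submodule.span_le, Set.singleton_subset_iff, SetLike.mem_coe, LinearMap.mem_ker,
      LinearMap.comp_apply, hab, map_sub, cgPush_single, cgPush_single, if_pos rfl]
    by_cases h : a = b
    · rw [if_pos h, sub_self]
    · rw [if_neg h, sub_self]
  refine Dec.graphic _ W ((span ℚ {x}).liftQ _ hle) ?_ ?_
  · intro y hy h0
    rw [← Submodule.map_span] at hy
    obtain ⟨z, hz, rfl⟩ := hy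
    rw [Submodule.mkQ_apply, Submodule.liftQ_apply, LinearMap.comp_apply] at h0
    obtain ⟨t, ht⟩ := cgPush_ker a b (φ z) h0
    have h1 : z - t • x = 0 := by
      apply inj
      · exact Submodule.sub_mem _ hz (Submodule.smul_mem _ _ (subset_span hx))
      · rw [map_sub, map_smul, hab, ht, sub_self]
    rw [Submodule.mkQ_apply, Submodule.Quotient.mk_eq_zero, sub_eq_zero.1 h1]
    exact Submodule.mem_span_singleton.2 ⟨t, rfl⟩
  · rintro _ ⟨z, hz, rfl⟩
    obtain ⟨a', b', h⟩ := edge z hz
    exact ⟨(if a' = b then a else a'), (if b' = b then a else b'), by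
      rw [Submodule.mkQ_apply, Submodule.liftQ_apply, LinearMap.comp_apply, h, map_sub,
        cgPush_single, cgPush_single]⟩

end RC
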