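import Pool.Agent.Helper59.RC.DecBasic

/-!
Module RC-D4.  Contraction of `R10`.

`r10_con`: `R10 / j` is the bond matroid of `K_{3,3}`.  For `i ≠ j` the table gives
`i : (hd, tl)` (vertices `0..5`), and the last list the coefficient `k w` of `R10 j` in the
dependency belonging to vertex `w`:  for every `a` on `{i ≠ j}`,
`∑ a i • R10 i ∈ span {R10 j}` iff there is `π` with `a i = π (hd i) - π (tl i)`; then
`∑ a i • R10 i + (∑ w, k w * π w) • R10 j = 0`.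
con 0 1:(2,3) 2:(3,5) 3:(0,4) 4:(2,0) 5:(1,2) 6:(4,3) 7:(4,1) 8:(5,1) 9:(5,0)  k=[1,1,-1,1,-1,-1]
con 1 0:(3,5) 2:(4,5) 3:(0,4) 4:(2,3) 5:(3,0) 6:(5,1) 7:(4,2) 8:(1,2) 9:(1,0)  k=[1,-1,1,-1,-1,1]
con 2 0:(2,3) 1:(1,2) 3:(1,0) 4:(0,4) 5:(4,5) 6:(4,2) 7:(5,1) 8:(3,0) 9:(3,5)  k=[1,-1,1,-1,-1,1]
con 3 0:(5,2) 1:(0,4) 2:(4,1) 4:(2,1) 5:(3,0) 6:(3,5) 7:(4,5) 8:(1,3) 9:(2,0)  k=[1,1,-1,-1,-1,1]
con 4 0:(3,2) 1:(0,3) 2:(5,1) 3:(1,2) 5:(3,5) 6:(4,5) 7:(4,0) 8:(1,0) 9:(2,4)  k=[1,-1,1,-1,-1,1]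
con 5 0:(3,1) 1:(0,3) 2:(4,5) 3:(0,2) 4:(4,3) 6:(2,4) 7:(1,5) 8:(1,2) 9:(5,0)  k=[-1,-1,1,1,-1,1]
con 6 0:(2,3) 1:(0,2) 2:(2,5) 3:(1,3) 4:(4,5) 5:(5,1) 7:(3,4) 8:(1,0) 9:(4,0)  k=[1,-1,-1,1,-1,1]
con 7 0:(3,1) 1:(0,2) 2:(2,5) 3:(3,2) 4:(0,4) 5:(5,1) 6:(4,3) 8:(1,0) 9:(5,4)  k=[-1,1,1,-1,1,-1]
con 8 0:(3,5) 1:(0,1) 2:(2,5) 3:(4,2) 4:(2,1) 5:(3,4) 6:(0,4) 7:(1,3) 9:(5,0)  k=[-1,1,-1,-1,1,1]
con 9 0:(4,2) 1:(0,1) 2:(4,5) 3:(0,2) 4:(2,3) 5:(5,0) 6:(3,1) 7:(3,5) 8:(1,4)  k=[-1,1,1,-1,-1,1]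
For the direction from the dependency to `π`: the five coordinate equations of
`∑ a i • R10 i + t • R10 j = 0` determine everything; put `π 0 = 0` and define `π` along a
spanning tree of the graph by `a`, then check the remaining edges linearly (`linarith`).

`con_r10`: `φ x = R10 j`; the map `V / span {x} → (Fin 5 → ℚ) / span {R10 j}` induced by `φ` is
injective on `span (mkQ '' X)`; use `Dec.emb` and `r10_con`.
-/

namespace RC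

open Submodule Module

private theorem R10_sum (a : Fin 10 → ℚ) : (∑ e, a e • R10 e) =
    ![a 0 - a 5 + a 6 + a 9, a 1 + a 5 - a 6 + a 7, a 2 + a 6 - a 7 + a 8,
      a 3 + a 7 - a 8 + a 9, a 4 + a 5 + a 8 - a 9] := by
  ext c
  simp only [Finset.sum_apply, Pi.smul_apply, smul_eq_mul, Fin.sum_univ_succ, Fin.sum_univ_zero]
  fin_cases c <;> simp [R10] <;> ring_nf

private theorem con_0 (a : Fin 10 → ℚ) : (∃ t : ℚ, t • R10 0 = ∑ e, a e • R10 e) ↔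
    ∃ π : Fin 7 → ℚ, ∀ e, a e = π ((![6, 2, 3, 0, 2, 1, 4, 4, 5, 5] : Fin 10 → Fin 7) e) -
      π ((![0, 3, 5, 4, 0, 2, 3, 1, 1, 0] : Fin 10 → Fin 7) e) := by
  rw [R10_sum]
  constructor
  · rintro ⟨t, ht⟩
    have h0 := congrFun ht 0
    have h1 := congrFun ht 1
    have h2 := congrFun ht 2
    have h3 := congrFun ht 3
    have h4 := congrFun ht 4
    simp [R10] at h0 h1 h2 h3 h4
    refine ⟨![0, 0 + a 4 + a 5, 0 + a 4, 0 - a 3 - a 6, 0 - a 3, 0 + a 4 + a 5 + a 8, 0 + a 0], ?_⟩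
    intro e
    fin_cases e <;> simp <;> linarith
  · rintro ⟨π, hπ⟩
    have e0 := hπ 0
    have e1 := hπ 1
    have e2 := hπ 2
    have e3 := hπ 3
    have e4 := hπ 4
    have e5 := hπ 5
    have e6 := hπ 6
    have e7 := hπ 7
    have e8 := hπ 8
    have e9 := hπ 9
    simp at e0 e1 e2 e3 e4 e5 e6 e7 e8 e9
    refine ⟨a 0 - π 0 - π 1 + π 2 - π 3 + π 4 + π 5, ?_⟩
    ext c
    fin_cases c <;> simp [R10] <;> linarith

private theorem con_1 (a : Fin 10 → ℚ) : (∃ t : ℚ, t • R10 1 = ∑ e, a e • R10 e) ↔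
    ∃ π : Fin 7 → ℚ, ∀ e, a e = π ((![3, 6, 4, 0, 2, 3, 5, 4, 1, 1] : Fin 10 → Fin 7) e) -
      π ((![5, 0, 5, 4, 3, 0, 1, 2, 2, 0] : Fin 10 → Fin 7) e) := by
  rw [R10_sum]
  constructor
  · rintro ⟨t, ht⟩
    have h0 := congrFun ht 0
    have h1 := congrFun ht 1
    have h2 := congrFun ht 2
    have h3 := congrFun ht 3
    have h4 := congrFun ht 4
    simp [R10] at h0 h1 h2 h3 h4
    refine ⟨![0, 0 - a 3 - a 7 + a 8, 0 - a 3 - a 7, 0 + a 5, 0 - a 3, 0 + a 5 - a 0, 0 + a 1], ?_⟩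
    intro e
    fin_cases e <;> simp <;> linarith
  · rintro ⟨π, hπ⟩
    have e0 := hπ 0
    have e1 := hπ 1
    have e2 := hπ 2
    have e3 := hπ 3
    have e4 := hπ 4
    have e5 := hπ 5
    have e6 := hπ 6
    have e7 := hπ 7
    have e8 := hπ 8
    have e9 := hπ 9
    simp at e0 e1 e2 e3 e4 e5 e6 e7 e8 e9
    refine ⟨a 1 - π 0 + π 1 - π 2 + π 3 + π 4 - π 5, ?_⟩
    ext c
    fin_cases c <;> simp [R10] <;> linarith

private theorem con_2 (a : Fin 10 → ℚ) : (∃ t : ℚ, t • R10 2 = ∑ e, a e • R10 e) ↔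
    ∃ π : Fin 7 → ℚ, ∀ e, a e = π ((![2, 1, 6, 1, 0, 4, 4, 5, 3, 3] : Fin 10 → Fin 7) e) -
      π ((![3, 2, 0, 0, 4, 5, 2, 1, 0, 5] : Fin 10 → Fin 7) e) := by
  rw [R10_sum]
  constructor
  · rintro ⟨t, ht⟩
    have h0 := congrFun ht 0
    have h1 := congrFun ht 1
    have h2 := congrFun ht 2
    have h3 := congrFun ht 3
    have h4 := congrFun ht 4
    simp [R10] at h0 h1 h2 h3 h4
    refine ⟨![0, 0 + a 3, 0 - a 4 - a 6, 0 + a 8, 0 - a 4, 0 - a 4 - a 5, 0 + a 2], ?_⟩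
    intro e
    fin_cases e <;> simp <;> linarith
  · rintro ⟨π, hπ⟩
    have e0 := hπ 0
    have e1 := hπ 1
    have e2 := hπ 2
    have e3 := hπ 3
    have e4 := hπ 4
    have e5 := hπ 5
    have e6 := hπ 6
    have e7 := hπ 7
    have e8 := hπ 8
    have e9 := hπ 9
    simp at e0 e1 e2 e3 e4 e5 e6 e7 e8 e9
    refine ⟨a 2 - π 0 + π 1 - π 2 + π 3 + π 4 - π 5, ?_⟩
    ext c
    fin_cases c <;> simp [R10] <;> linarith

private theorem con_3 (a : Fin 10 → ℚ) : (∃ t : ℚ, t • R10 3 = ∑ e, a e • R10 e) ↔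
    ∃ π : Fin 7 → ℚ, ∀ e, a e = π ((![5, 0, 4, 6, 2, 3, 3, 4, 1, 2] : Fin 10 → Fin 7) e) -
      π ((![2, 4, 1, 0, 1, 0, 5, 5, 3, 0] : Fin 10 → Fin 7) e) := by
  rw [R10_sum]
  constructor
  · rintro ⟨t, ht⟩
    have h0 := congrFun ht 0
    have h1 := congrFun ht 1
    have h2 := congrFun ht 2
    have h3 := congrFun ht 3
    have h4 := congrFun ht 4
    simp [R10] at h0 h1 h2 h3 h4
    refine ⟨![0, 0 - a 1 - a 2, 0 - a 1 - a 2 + a 4, 0 + a 5, 0 - a 1, 0 + a 5 - a 6, 0 + a 3], ?_⟩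
    intro e
    fin_cases e <;> simp <;> linarith
  · rintro ⟨π, hπ⟩
    have e0 := hπ 0
    have e1 := hπ 1
    have e2 := hπ 2
    have e3 := hπ 3
    have e4 := hπ 4
    have e5 := hπ 5
    have e6 := hπ 6
    have e7 := hπ 7
    have e8 := hπ 8
    have e9 := hπ 9
    simp at e0 e1 e2 e3 e4 e5 e6 e7 e8 e9
    refine ⟨a 3 - π 0 - π 1 + π 2 + π 3 + π 4 - π 5, ?_⟩
    ext c
    fin_cases c <;> simp [R10] <;> linarith

private theorem con_4 (a : Fin 10 → ℚ) : (∃ t : ℚ, t • R10 4 = ∑ e, a e • R10 e) ↔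
    ∃ π : Fin 7 → ℚ, ∀ e, a e = π ((![3, 0, 5, 1, 6, 3, 4, 4, 1, 2] : Fin 10 → Fin 7) e) -
      π ((![2, 3, 1, 2, 0, 5, 5, 0, 0, 4] : Fin 10 → Fin 7) e) := by
  rw [R10_sum]
  constructor
  · rintro ⟨t, ht⟩
    have h0 := congrFun ht 0
    have h1 := congrFun ht 1
    have h2 := congrFun ht 2
    have h3 := congrFun ht 3
    have h4 := congrFun ht 4
    simp [R10] at h0 h1 h2 h3 h4
    refine ⟨![0, 0 + a 8, 0 - a 1 - a 5 + a 6 + a 9, 0 - a 1, 0 - a 1 - a 5 + a 6, 0 - a 1 - a 5, 0 + a 4], ?_⟩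
    intro e
    fin_cases e <;> simp <;> linarith
  · rintro ⟨π, hπ⟩
    have e0 := hπ 0
    have e1 := hπ 1
    have e2 := hπ 2
    have e3 := hπ 3
    have e4 := hπ 4
    have e5 := hπ 5
    have e6 := hπ 6
    have e7 := hπ 7
    have e8 := hπ 8
    have e9 := hπ 9
    simp at e0 e1 e2 e3 e4 e5 e6 e7 e8 e9
    refine ⟨a 4 - π 0 + π 1 - π 2 + π 3 + π 4 - π 5, ?_⟩
    ext c
    fin_cases c <;> simp [R10] <;> linarith

private theorem con_5 (a : Fin 10 → ℚ) : (∃ t : ℚ, t • R10 5 = ∑ e, a e • R10 e) ↔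
    ∃ π : Fin 7 → ℚ, ∀ e, a e = π ((![3, 0, 4, 0, 4, 6, 2, 1, 1, 5] : Fin 10 → Fin 7) e) -
      π ((![1, 3, 5, 2, 3, 0, 4, 5, 2, 0] : Fin 10 → Fin 7) e) := by
  rw [R10_sum]
  constructor
  · rintro ⟨t, ht⟩
    have h0 := congrFun ht 0
    have h1 := congrFun ht 1
    have h2 := congrFun ht 2
    have h3 := congrFun ht 3
    have h4 := congrFun ht 4
    simp [R10] at h0 h1 h2 h3 h4
    refine ⟨![0, 0 - a 3 + a 8, 0 - a 3, 0 - a 1, 0 - a 1 + a 4, 0 + a 9, 0 + a 5], ?_⟩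
    intro e
    fin_cases e <;> simp <;> linarith
  · rintro ⟨π, hπ⟩
    have e0 := hπ 0
    have e1 := hπ 1
    have e2 := hπ 2
    have e3 := hπ 3
    have e4 := hπ 4
    have e5 := hπ 5
    have e6 := hπ 6
    have e7 := hπ 7
    have e8 := hπ 8
    have e9 := hπ 9
    simp at e0 e1 e2 e3 e4 e5 e6 e7 e8 e9
    refine ⟨a 5 + π 0 + π 1 - π 2 - π 3 + π 4 - π 5, ?_⟩
    ext c
    fin_cases c <;> simp [R10] <;> linarith

private theorem con_6 (a : Fin 10 → ℚ) : (∃ t : ℚ, t • R10 6 = ∑ e, a e • R10 e) ↔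
    ∃ π : Fin 7 → ℚ, ∀ e, a e = π ((![2, 0, 2, 1, 4, 5, 6, 3, 1, 4] : Fin 10 → Fin 7) e) -
      π ((![3, 2, 5, 3, 5, 1, 0, 4, 0, 0] : Fin 10 → Fin 7) e) := by
  rw [R10_sum]
  constructor
  · rintro ⟨t, ht⟩
    have h0 := congrFun ht 0
    have h1 := congrFun ht 1
    have h2 := congrFun ht 2
    have h3 := congrFun ht 3
    have h4 := congrFun ht 4
    simp [R10] at h0 h1 h2 h3 h4
    refine ⟨![0, 0 - a 1 - a 2 - a 5, 0 - a 1, 0 - a 1 - a 2 + a 4 + a 7, 0 - a 1 - a 2 + a 4, 0 - a 1 - a 2, 0 + a 6], ?_⟩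
    intro e
    fin_cases e <;> simp <;> linarith
  · rintro ⟨π, hπ⟩
    have e0 := hπ 0
    have e1 := hπ 1
    have e2 := hπ 2
    have e3 := hπ 3
    have e4 := hπ 4
    have e5 := hπ 5
    have e6 := hπ 6
    have e7 := hπ 7
    have e8 := hπ 8
    have e9 := hπ 9
    simp at e0 e1 e2 e3 e4 e5 e6 e7 e8 e9
    refine ⟨a 6 - π 0 + π 1 + π 2 - π 3 + π 4 - π 5, ?_⟩
    ext c
    fin_cases c <;> simp [R10] <;> linarith

private theorem con_7 (a : Fin 10 → ℚ) : (∃ t : ℚ, t • R10 7 = ∑ e, a e • R10 e) ↔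
    ∃ π : Fin 7 → ℚ, ∀ e, a e = π ((![3, 0, 2, 3, 0, 5, 4, 6, 1, 5] : Fin 10 → Fin 7) e) -
      π ((![1, 2, 5, 2, 4, 1, 3, 0, 0, 4] : Fin 10 → Fin 7) e) := by
  rw [R10_sum]
  constructor
  · rintro ⟨t, ht⟩
    have h0 := congrFun ht 0
    have h1 := congrFun ht 1
    have h2 := congrFun ht 2
    have h3 := congrFun ht 3
    have h4 := congrFun ht 4
    simp [R10] at h0 h1 h2 h3 h4
    refine ⟨![0, 0 - a 1 - a 2 - a 5, 0 - a 1, 0 - a 1 + a 3, 0 - a 4, 0 - a 1 - a 2, 0 + a 7], ?_⟩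
    intro e
    fin_cases e <;> simp <;> linarith
  · rintro ⟨π, hπ⟩
    have e0 := hπ 0
    have e1 := hπ 1
    have e2 := hπ 2
    have e3 := hπ 3
    have e4 := hπ 4
    have e5 := hπ 5
    have e6 := hπ 6
    have e7 := hπ 7
    have e8 := hπ 8
    have e9 := hπ 9
    simp at e0 e1 e2 e3 e4 e5 e6 e7 e8 e9
    refine ⟨a 7 + π 0 - π 1 - π 2 + π 3 - π 4 + π 5, ?_⟩
    ext c
    fin_cases c <;> simp [R10] <;> linarith

private theorem con_8 (a : Fin 10 → ℚ) : (∃ t : ℚ, t • R10 8 = ∑ e, a e • R10 e) ↔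
    ∃ π : Fin 7 → ℚ, ∀ e, a e = π ((![3, 0, 2, 4, 2, 3, 0, 1, 6, 5] : Fin 10 → Fin 7) e) -
      π ((![5, 1, 5, 2, 1, 4, 4, 3, 0, 0] : Fin 10 → Fin 7) e) := by
  rw [R10_sum]
  constructor
  · rintro ⟨t, ht⟩
    have h0 := congrFun ht 0
    have h1 := congrFun ht 1
    have h2 := congrFun ht 2
    have h3 := congrFun ht 3
    have h4 := congrFun ht 4
    simp [R10] at h0 h1 h2 h3 h4
    refine ⟨![0, 0 - a 1, 0 - a 1 + a 4, 0 - a 1 - a 7, 0 - a 6, 0 + a 9, 0 + a 8], ?_⟩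
    intro e
    fin_cases e <;> simp <;> linarith
  · rintro ⟨π, hπ⟩
    have e0 := hπ 0
    have e1 := hπ 1
    have e2 := hπ 2
    have e3 := hπ 3
    have e4 := hπ 4
    have e5 := hπ 5
    have e6 := hπ 6
    have e7 := hπ 7
    have e8 := hπ 8
    have e9 := hπ 9
    simp at e0 e1 e2 e3 e4 e5 e6 e7 e8 e9
    refine ⟨a 8 + π 0 - π 1 + π 2 + π 3 - π 4 - π 5, ?_⟩
    ext c
    fin_cases c <;> simp [R10] <;> linarith

private theorem con_9 (a : Fin 10 → ℚ) : (∃ t : ℚ, t • R10 9 = ∑ e, a e • R10 e) ↔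
    ∃ π : Fin 7 → ℚ, ∀ e, a e = π ((![4, 0, 4, 0, 2, 5, 3, 3, 1, 6] : Fin 10 → Fin 7) e) -
      π ((![2, 1, 5, 2, 3, 0, 1, 5, 4, 0] : Fin 10 → Fin 7) e) := by
  rw [R10_sum]
  constructor
  · rintro ⟨t, ht⟩
    have h0 := congrFun ht 0
    have h1 := congrFun ht 1
    have h2 := congrFun ht 2
    have h3 := congrFun ht 3
    have h4 := congrFun ht 4
    simp [R10] at h0 h1 h2 h3 h4
    refine ⟨![0, 0 - a 1, 0 - a 3, 0 - a 3 - a 4, 0 - a 1 - a 8, 0 + a 5, 0 + a 9], ?_⟩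
    intro e
    fin_cases e <;> simp <;> linarith
  · rintro ⟨π, hπ⟩
    have e0 := hπ 0
    have e1 := hπ 1
    have e2 := hπ 2
    have e3 := hπ 3
    have e4 := hπ 4
    have e5 := hπ 5
    have e6 := hπ 6
    have e7 := hπ 7
    have e8 := hπ 8
    have e9 := hπ 9
    simp at e0 e1 e2 e3 e4 e5 e6 e7 e8 e9
    refine ⟨a 9 + π 0 - π 1 - π 2 + π 3 + π 4 - π 5, ?_⟩
    ext c
    fin_cases c <;> simp [R10] <;> linarith

private theorem con_aux (j : Fin 10) (hd tl : Fin 10 → Fin 7)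
    (h : ∀ a : Fin 10 → ℚ, (∃ t : ℚ, t • R10 j = ∑ e, a e • R10 e) ↔
      ∃ π : Fin 7 → ℚ, ∀ e, a e = π (hd e) - π (tl e)) :
    Dec ((Fin 5 → ℚ) ⧸ span ℚ {R10 j}) ((span ℚ {R10 j}).mkQ '' Set.range R10) := by
  refine Dec.cographic _ (Fin 10) (Fin 7) (fun e => (span ℚ {R10 j}).mkQ (R10 e)) hd tl ?_ ?_
  · intro a
    rw [← h a]
    have : ∑ e, a e • (span ℚ {R10 j}).mkQ (R10 e) =
        (span ℚ {R10 j}).mkQ (∑ e, a e • R10 e) := by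
      simp only [map_sum, map_smul]
    rw [this, mkQ_apply, Quotient.mk_eq_zero, mem_span_singleton]
  · rintro x ⟨y, ⟨e, rfl⟩, rfl⟩
    exact ⟨e, rfl⟩

theorem r10_con (j : Fin 10) :
    Dec ((Fin 5 → ℚ) ⧸ span ℚ {R10 j}) ((span ℚ {R10 j}).mkQ '' Set.range R10) := by
  fin_cases j
  · exact con_aux 0 _ _ con_0
  · exact con_aux 1 _ _ con_1
  · exact con_aux 2 _ _ con_2
  · exact con_aux 3 _ _ con_3
  · exact con_aux 4 _ _ con_4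
  · exact con_aux 5 _ _ con_5
  · exact con_aux 6 _ _ con_6
  · exact con_aux 7 _ _ con_7
  · exact con_aux 8 _ _ con_8
  · exact con_aux 9 _ _ con_9

theorem con_r10 {V : Type} [AddCommGroup V] [Module ℚ V] (X : Set V)
    (φ : V →ₗ[ℚ] (Fin 5 → ℚ)) (inj : ∀ y ∈ span ℚ X, φ y = 0 → y = 0)
    (col : ∀ x ∈ X, ∃ j, φ x = R10 j) {x : V} (hx : x ∈ X) :
    Dec (V ⧸ span ℚ {x}) ((span ℚ {x}).mkQ '' X) := by
  obtain ⟨j, hj⟩ := col x hx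
  have hle : span ℚ {x} ≤ (span ℚ {R10 j}).comap φ := by
    rw [span_le, Set.singleton_subset_iff]
    change φ x ∈ span ℚ {R10 j}
    rw [hj]
    exact mem_span_singleton_self _
  refine Dec.emb _ _ ((span ℚ {x}).mapQ (span ℚ {R10 j}) φ hle) ?_ ?_ (r10_con j)
  · intro y hy h0
    rw [span_image] at hy
    obtain ⟨z, hz, rfl⟩ := hy
    have h1 : φ z ∈ span ℚ {R10 j} := by
      rw [mkQ_apply, mapQ_apply, Quotient.mk_eq_zero] at h0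
      exact h0
    rw [mem_span_singleton] at h1
    obtain ⟨t, ht⟩ := h1
    have h2 : φ (z - t • x) = 0 := by
      rw [map_sub, map_smul, hj, ht, sub_self]
    have h3 : z - t • x = 0 :=
      inj _ (sub_mem hz (smul_mem _ _ (subset_span hx))) h2
    rw [mkQ_apply, Quotient.mk_eq_zero, mem_span_singleton]
    exact ⟨t, (sub_eq_zero.mp h3).symm⟩
  · rintro _ ⟨y, hy, rfl⟩
    obtain ⟨i, hi⟩ := col y hy
    right; left
    refine ⟨R10 i, ⟨i, rfl⟩, ?_⟩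
    rw [← hi]
    rfl

end RC
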