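import Pool.Agent.Helper59.RC.DecBasic

/-!
Module RC-D5.  Contraction of a sum.  Write `D = {p, q, p + q}`, `Q = V / span {x}`,
`m = mkQ`.  `span (A ∪ D) = span (A ∪ {p, q})`.

`con_sum_aux` (the case `x ∈ A`; the case `x ∈ B` is symmetric, swap `A` and `B`):
`Uni (A ∪ D)` and `Uni (B ∪ D)` by `dec_uni`.
(1) `x ∉ span {p, q}`.  Then `x ∉ span (B ∪ {p, q})` (otherwise `x` is in the intersection), so
    `m` is injective on `span (B ∪ D)` and `Dec Q (m '' (B ∪ D))` by `dec_map`;
    `Dec Q (m '' (A ∪ D))` by `cA x`.  `m p, m q` are independent (or `m q = 0` if `q = 0`).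
    `span (m '' (A ∪ {p,q})) ⊓ span (m '' (B ∪ {p,q})) = span {m p, m q}`: if
    `m a = m b` with `a ∈ span (A ∪ {p,q})`, `b ∈ span (B ∪ {p,q})`, then `b - a ∈ span {x}`, so
    `b ∈ span (A ∪ {p,q})`, `b ∈ span {p, q}`.  `Dec.sum` gives `Dec Q (m '' A ∪ m '' B)`.
(2) `x ∈ span {p, q}`, `x ≠ 0`.  By `uni_plane` (if `p, q` are independent) or `uni_par` (if
    `q = 0`, then `p ≠ 0`) `x = ± d` with `d ∈ D`, `d ≠ 0`, so `span {x} = span {d}`.
    `Dec Q (m '' (A ∪ D))` by `cA x`, `Dec Q (m '' (B ∪ D))` by `cB d` (transport along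
    `span {x} = span {d}`, for example with `dec_mkQ` for `f = (span {x}).mkQ`).
    The three vectors `m p, m q, m p + m q` are `0, r, r` up to sign, for one vector `r`
    (`d = p`: `r = m q`; `d = q`: `r = m p`; `d = p + q`: `r = m p`, `m q = - m p`;
    if `q = 0`, `d = p`: `r = 0`).
    Since `x ∈ span (A ∪ D) ⊓ span (B ∪ D)`, the images satisfy
    `m (span (A ∪ D)) ⊓ m (span (B ∪ D)) = m (span (A ∪ D) ⊓ span (B ∪ D)) = span {r}`.
    `Dec.sum` with `p := r`, `q := 0` and `dec_mono`.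
(3) `x = 0`: `m` is injective, everything by `dec_map` (or from `Dec.sum` itself).
-/

namespace RC

open Submodule Module

private theorem con_neg {V : Type} [AddCommGroup V] [Module ℚ V] (d : V) :
    span ℚ {-d} = span ℚ {d} := by
  apply le_antisymm
  · rw [Submodule.span_singleton_le_iff_mem]
    exact Submodule.neg_mem _ (subset_span rfl)
  · rw [Submodule.span_singleton_le_iff_mem]
    have h1 : - -d ∈ span ℚ {-d} := Submodule.neg_mem _ (subset_span rfl)
    rwa [neg_neg] at h1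

private theorem con_inter {V : Type} [AddCommGroup V] [Module ℚ V] (A B : Set V) (p q x : V)
    (h : span ℚ (A ∪ {p, q}) ⊓ span ℚ (B ∪ {p, q}) = span ℚ {p, q})
    (hx : x ∈ span ℚ (A ∪ {p, q})) (r s : V ⧸ span ℚ {x})
    (hrs : span ℚ {r, s} = (span ℚ {p, q}).map (span ℚ {x}).mkQ) :
    span ℚ ((span ℚ {x}).mkQ '' A ∪ {r, s}) ⊓ span ℚ ((span ℚ {x}).mkQ '' B ∪ {r, s}) =
      span ℚ {r, s} := by
  have e1 : ∀ C : Set V, span ℚ ((span ℚ {x}).mkQ '' C ∪ {r, s}) =
      (span ℚ (C ∪ {p, q})).map (span ℚ {x}).mkQ := by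
    intro C
    rw [span_union, span_union, Submodule.map_sup, hrs, Submodule.map_span _ C]
  rw [e1 A, e1 B, hrs]
  apply le_antisymm
  · rintro z ⟨⟨a, ha, rfl⟩, ⟨b, hb, hab⟩⟩
    have h1 : b - a ∈ span ℚ {x} := by
      rw [← Submodule.ker_mkQ (span ℚ {x}), LinearMap.mem_ker, map_sub, hab, sub_self]
    have h2 : span ℚ {x} ≤ span ℚ (A ∪ {p, q}) := by
      rw [Submodule.span_singleton_le_iff_mem]
      exact hx
    have h3 : b ∈ span ℚ (A ∪ {p, q}) := by
      have h4 := Submodule.add_mem _ ha (h2 h1)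
      rwa [add_sub_cancel] at h4
    have h4 : b ∈ span ℚ {p, q} := by
      rw [← h]
      exact ⟨h3, hb⟩
    exact ⟨b, h4, hab⟩
  · rw [← h]
    exact le_inf (Submodule.map_mono inf_le_left) (Submodule.map_mono inf_le_right)

private theorem con_core {V : Type} [AddCommGroup V] [Module ℚ V] (A B : Set V) (p q x : V)
    (h : span ℚ (A ∪ {p, q}) ⊓ span ℚ (B ∪ {p, q}) = span ℚ {p, q})
    (hx : x ∈ span ℚ (A ∪ {p, q})) (r s : V ⧸ span ℚ {x})
    (hrs : span ℚ {r, s} = (span ℚ {p, q}).map (span ℚ {x}).mkQ)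
    (hli : LinearIndependent ℚ ![r, s] ∨ s = 0)
    (dA : Dec (V ⧸ span ℚ {x}) ((span ℚ {x}).mkQ '' A ∪ {r, s, r + s}))
    (dB : Dec (V ⧸ span ℚ {x}) ((span ℚ {x}).mkQ '' B ∪ {r, s, r + s})) :
    Dec (V ⧸ span ℚ {x}) ((span ℚ {x}).mkQ '' (A ∪ B)) := by
  rw [Set.image_union]
  exact Dec.sum _ _ r s hli (con_inter A B p q x h hx r s hrs) dA dB

private theorem con_sum_aux {V : Type} [AddCommGroup V] [Module ℚ V] (A B : Set V) (p q : V)
    (hpq : LinearIndependent ℚ ![p, q] ∨ q = 0)
    (h : span ℚ (A ∪ {p, q}) ⊓ span ℚ (B ∪ {p, q}) = span ℚ {p, q})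
    (hA : Dec V (A ∪ {p, q, p + q})) (hB : Dec V (B ∪ {p, q, p + q}))
    (cA : ∀ x ∈ A ∪ {p, q, p + q},
      Dec (V ⧸ span ℚ {x}) ((span ℚ {x}).mkQ '' (A ∪ {p, q, p + q})))
    (cB : ∀ x ∈ B ∪ {p, q, p + q},
      Dec (V ⧸ span ℚ {x}) ((span ℚ {x}).mkQ '' (B ∪ {p, q, p + q})))
    {x : V} (hx : x ∈ A) : Dec (V ⧸ span ℚ {x}) ((span ℚ {x}).mkQ '' (A ∪ B)) := by
  have hxA : x ∈ span ℚ (A ∪ {p, q}) := subset_span (Or.inl hx)
  have hmk : ∀ y : V, (span ℚ {x}).mkQ y = 0 ↔ y ∈ span ℚ {x} := by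
    intro y
    rw [← LinearMap.mem_ker, Submodule.ker_mkQ]
  by_cases hx0 : x = 0
  · have hAB : Dec V (A ∪ B) := Dec.sum A B p q hpq h hA hB
    refine dec_map _ hAB ?_
    intro y _ hy
    rw [hmk, hx0, Submodule.span_zero_singleton, Submodule.mem_bot] at hy
    exact hy
  by_cases hxs : x ∈ span ℚ {p, q}
  · -- `x` in the span of `p, q`
    have hcase : (x = p ∨ x = -p) ∨ (x = q ∨ x = -q) ∨ (x = p + q ∨ x = -(p + q)) := by
      rcases hpq with li | hq0
      · rcases uni_plane (dec_uni hA) (Or.inr (Or.inl rfl)) (Or.inr (Or.inr (Or.inl rfl)))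
          (Or.inr (Or.inr (Or.inr rfl))) li (Or.inl hx) hxs with
          h0 | h1 | h1 | h1 | h1 | h1 | h1
        · exact absurd h0 hx0
        · exact Or.inl (Or.inl h1)
        · exact Or.inl (Or.inr h1)
        · exact Or.inr (Or.inl (Or.inl h1))
        · exact Or.inr (Or.inl (Or.inr h1))
        · exact Or.inr (Or.inr (Or.inl h1))
        · exact Or.inr (Or.inr (Or.inr h1))
      · left
        have hxp : x ∈ span ℚ {p} := by
          rw [hq0] at hxs
          have h1 : span ℚ ({p, 0} : Set V) = span ℚ {p} := by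
            rw [Set.pair_comm, Submodule.span_insert_zero]
          rwa [h1] at hxs
        obtain ⟨t, rfl⟩ := Submodule.mem_span_singleton.1 hxp
        have hp0 : p ≠ 0 := by
          rintro rfl
          exact hx0 (smul_zero t)
        have ht : t ≠ 0 := by
          rintro rfl
          exact hx0 (zero_smul ℚ p)
        refine uni_par (dec_uni hA) (x := p) (y := t • p) (Or.inr (Or.inl rfl)) (Or.inl hx)
          hp0 hx0 ?_
        rw [LinearIndependent.pair_iff' hp0]
        push Not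
        exact ⟨t, rfl⟩
    -- common part
    have key : ∀ (d : V), (x = d ∨ x = -d) → d ∈ ({p, q, p + q} : Set V) →
        ∀ r : V ⧸ span ℚ {x}, (r = (span ℚ {x}).mkQ p ∨ r = (span ℚ {x}).mkQ q) →
        (((span ℚ {x}).mkQ p = 0 ∧ (span ℚ {x}).mkQ q = r) ∨
          ((span ℚ {x}).mkQ p = r ∧ (span ℚ {x}).mkQ q = 0) ∨
          ((span ℚ {x}).mkQ p = r ∧ (span ℚ {x}).mkQ q = -r)) →
        Dec (V ⧸ span ℚ {x}) ((span ℚ {x}).mkQ '' (A ∪ B)) := by
      intro d hd hdD r hr hcs
      have hsp : span ℚ {x} = span ℚ {d} := by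
        rcases hd with hd | hd
        · rw [hd]
        · rw [hd]
          exact con_neg d
      have hdx : d ∈ span ℚ {x} := by
        rw [hsp]
        exact subset_span rfl
      have hB2 : Dec (V ⧸ span ℚ {x}) ((span ℚ {x}).mkQ '' (B ∪ {p, q, p + q})) := by
        refine dec_mkQ _ (x := d) (Or.inr hdD) ((hmk d).2 hdx) ?_ (cB d (Or.inr hdD))
        intro y _ hy
        rw [← hsp]
        exact (hmk y).1 hy
      have hA2 := cA x (Or.inl hx)
      have hmono : ∀ C : Set V, Dec (V ⧸ span ℚ {x}) ((span ℚ {x}).mkQ '' (C ∪ {p, q, p + q})) →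
          Dec (V ⧸ span ℚ {x}) ((span ℚ {x}).mkQ '' C ∪ {r, 0, r + 0}) := by
        intro C hC
        refine dec_mono hC ?_
        have hr2 : r ∈ (span ℚ {x}).mkQ '' (C ∪ {p, q, p + q}) := by
          rcases hr with hr | hr
          · exact ⟨p, Or.inr (Or.inl rfl), hr.symm⟩
          · exact ⟨q, Or.inr (Or.inr (Or.inl rfl)), hr.symm⟩
        rintro z (⟨c, hc, rfl⟩ | rfl | rfl | rfl)
        · exact Or.inr (Or.inl ⟨c, Or.inl hc, rfl⟩)
        · exact Or.inr (Or.inl hr2)
        · exact Or.inl rfl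
        · right
          left
          rw [add_zero]
          exact hr2
      refine con_core A B p q x h hxA r 0 ?_ (Or.inr rfl) (hmono A hA2) (hmono B hB2)
      have h1 : span ℚ ({r, 0} : Set (V ⧸ span ℚ {x})) = span ℚ {r} := by
        rw [Set.pair_comm, Submodule.span_insert_zero]
      rw [h1, Submodule.map_span, Set.image_pair]
      rcases hcs with ⟨e1, e2⟩ | ⟨e1, e2⟩ | ⟨e1, e2⟩
      · rw [e1, e2, Submodule.span_insert_zero]
      · rw [e1, e2, h1]
      · rw [e1, e2]
        apply le_antisymm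
        · exact Submodule.span_mono (by intro z hz; left; exact hz)
        · rw [Submodule.span_le]
          rintro z (rfl | rfl)
          · exact subset_span rfl
          · exact Submodule.neg_mem _ (subset_span rfl)
    have hz : ∀ d : V, (x = d ∨ x = -d) → (span ℚ {x}).mkQ d = 0 := by
      intro d hd
      rw [hmk]
      rcases hd with hd | hd
      · rw [hd]
        exact subset_span rfl
      · rw [hd, con_neg]
        exact subset_span rfl
    rcases hcase with hd | hd | hd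
    · exact key p hd (Or.inl rfl) _ (Or.inr rfl) (Or.inl ⟨hz p hd, rfl⟩)
    · exact key q hd (Or.inr (Or.inl rfl)) _ (Or.inl rfl) (Or.inr (Or.inl ⟨rfl, hz q hd⟩))
    · refine key (p + q) hd (Or.inr (Or.inr rfl)) _ (Or.inl rfl) (Or.inr (Or.inr ⟨rfl, ?_⟩))
      have h1 := hz (p + q) hd
      rw [map_add, add_eq_zero_iff_eq_neg'] at h1
      exact h1
  · -- `x` not in the span of `p, q`
    have himg : ∀ C : Set V, (span ℚ {x}).mkQ '' (C ∪ {p, q, p + q}) =
        (span ℚ {x}).mkQ '' C ∪ {(span ℚ {x}).mkQ p, (span ℚ {x}).mkQ q,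
          (span ℚ {x}).mkQ p + (span ℚ {x}).mkQ q} := by
      intro C
      rw [Set.image_union, Set.image_insert_eq, Set.image_insert_eq, Set.image_singleton,
        map_add]
    have hspan : span ℚ (B ∪ {p, q, p + q}) = span ℚ (B ∪ {p, q}) := by
      rw [span_union, span_union]
      congr 1
      apply le_antisymm
      · rw [Submodule.span_le]
        rintro z (rfl | rfl | rfl)
        · exact subset_span (Or.inl rfl)
        · exact subset_span (Or.inr rfl)
        · exact Submodule.add_mem _ (subset_span (Or.inl rfl)) (subset_span (Or.inr rfl))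
      · refine Submodule.span_mono ?_
        rintro z (rfl | rfl)
        · exact Or.inl rfl
        · exact Or.inr (Or.inl rfl)
    refine con_core A B p q x h hxA ((span ℚ {x}).mkQ p) ((span ℚ {x}).mkQ q) ?_ ?_ ?_ ?_
    · rw [Submodule.map_span, Set.image_pair]
    · rcases hpq with li | hq0
      · left
        have h1 : LinearIndependent ℚ (⇑(span ℚ {x}).mkQ ∘ ![p, q]) := by
          refine li.map ?_
          rw [Submodule.ker_mkQ, Matrix.range_cons, Matrix.range_cons, Matrix.range_empty,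
            Set.union_empty, Submodule.disjoint_def]
          intro y hy1 hy2
          obtain ⟨t, rfl⟩ := Submodule.mem_span_singleton.1 hy2
          by_cases ht : t = 0
          · rw [ht, zero_smul]
          · exfalso
            apply hxs
            have h2 := Submodule.smul_mem _ t⁻¹ hy1
            rw [smul_smul, inv_mul_cancel₀ ht, one_smul] at h2
            exact h2
        have h2 : (⇑(span ℚ {x}).mkQ ∘ ![p, q]) =
            ![(span ℚ {x}).mkQ p, (span ℚ {x}).mkQ q] := by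
          funext i
          fin_cases i <;> rfl
        rwa [h2] at h1
      · right
        rw [hq0, map_zero]
    · rw [← himg]
      exact cA x (Or.inl hx)
    · rw [← himg]
      refine dec_map _ hB ?_
      intro y hy hy0
      rw [hspan] at hy
      rw [hmk] at hy0
      obtain ⟨t, rfl⟩ := Submodule.mem_span_singleton.1 hy0
      by_cases ht : t = 0
      · rw [ht, zero_smul]
      · exfalso
        apply hxs
        have h2 := Submodule.smul_mem _ t⁻¹ hy
        rw [smul_smul, inv_mul_cancel₀ ht, one_smul] at h2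
        rw [← h]
        exact ⟨hxA, h2⟩

theorem con_sum {V : Type} [AddCommGroup V] [Module ℚ V] (A B : Set V) (p q : V)
    (hpq : LinearIndependent ℚ ![p, q] ∨ q = 0)
    (h : span ℚ (A ∪ {p, q}) ⊓ span ℚ (B ∪ {p, q}) = span ℚ {p, q})
    (hA : Dec V (A ∪ {p, q, p + q})) (hB : Dec V (B ∪ {p, q, p + q}))
    (cA : ∀ x ∈ A ∪ {p, q, p + q},
      Dec (V ⧸ span ℚ {x}) ((span ℚ {x}).mkQ '' (A ∪ {p, q, p + q})))
    (cB : ∀ x ∈ B ∪ {p, q, p + q},
      Dec (V ⧸ span ℚ {x}) ((span ℚ {x}).mkQ '' (B ∪ {p, q, p + q})))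
    {x : V} (hx : x ∈ A ∪ B) : Dec (V ⧸ span ℚ {x}) ((span ℚ {x}).mkQ '' (A ∪ B)) := by
  rcases hx with hx | hx
  · exact con_sum_aux A B p q hpq h hA hB cA cB hx
  · rw [Set.union_comm A B]
    rw [inf_comm] at h
    exact con_sum_aux B A p q hpq h hB hA cB cA hx

end RC
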