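import Pool.Agent.Helper59.RC.CostInt

/-!
Module RC-C12.  A circuit modulo a chain of length `N` has at most `N + 1` pairs.

`k ≤ 1`: trivial.  Let `k ≥ 2`, `δ j = a j false - a j true ∈ FF u N`, nonzero.
(1) For every `f` and every `i < N` at most two of the coordinates `(δ j)_i` (`j < k`) with
respect to the basis `u l (f l)` are nonzero: for `S ⊆ range k` the sum of the `a j (g j)` with
`g = true` exactly on `S` has `i`-th coordinate `c - ∑_S (δ j)_i`, which is `0, 1, -1`
(`circ_coord`), and `(δ j)_i ∈ {0,1,-1}` (`diff_coord`, `circ_notMem`).  If three are nonzero, take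
for `S` those among the three with coordinate `1`, and those with coordinate `-1`: the two values
differ by `3`.
(2) Let `∑ ρ j • δ j = 0` with `ρ 0 = 0`.  Let `0 < l < k`.  By `chain_cross` for `δ 0, δ l` there
are `f`, `i` with both `i`-th coordinates nonzero; by (1) all other `(δ j)_i` are zero, so the
`i`-th coordinate of the relation is `ρ 0 * (δ 0)_i + ρ l * (δ l)_i = 0` (uniqueness of
coordinates, `chain_li`), so `ρ l = 0`.  Hence `δ 1, ..., δ (k-1)` are linearly independent in
`FF u N`, whose dimension is at most `N` (it is spanned by `N` vectors).  So `k - 1 ≤ N`.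
-/

namespace RC

open Submodule Module Finset

variable {V : Type} [AddCommGroup V] [Module ℚ V]

theorem circ_le_swap {u a : ℕ → Bool → V} {N k : ℕ} (f : ℕ → Bool) (c : ℕ → ℚ) (D : ℕ → ℕ → ℚ)
    (hc : ∑ j ∈ range k, a j false = ∑ i ∈ range N, c i • u i (f i))
    (hD : ∀ j < k, a j false - a j true = ∑ i ∈ range N, D j i • u i (f i))
    (S : Finset ℕ) (hS : S ⊆ range k) :
    ∑ j ∈ range k, a j (decide (j ∈ S)) =
      ∑ i ∈ range N, (c i - ∑ j ∈ S, D j i) • u i (f i) := by
  have h1 : ∀ j ∈ range k, a j (decide (j ∈ S)) =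
      a j false - (if j ∈ S then a j false - a j true else 0) := by
    intro j _
    by_cases hj : j ∈ S
    · simp [hj]
    · simp [hj]
  rw [Finset.sum_congr rfl h1, Finset.sum_sub_distrib, hc]
  have h2 : ∑ j ∈ range k, (if j ∈ S then a j false - a j true else 0) =
      ∑ j ∈ S, (a j false - a j true) := by
    rw [Finset.sum_ite_mem, Finset.inter_eq_right.2 hS]
  have h3 : ∑ j ∈ S, (a j false - a j true) = ∑ i ∈ range N, (∑ j ∈ S, D j i) • u i (f i) := by
    have h4 : ∑ j ∈ S, (a j false - a j true) = ∑ j ∈ S, ∑ i ∈ range N, D j i • u i (f i) :=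
      Finset.sum_congr rfl fun j hj => hD j (Finset.mem_range.1 (hS hj))
    rw [h4, Finset.sum_comm]
    exact Finset.sum_congr rfl fun i _ => (Finset.sum_smul).symm
  rw [h2, h3, ← Finset.sum_sub_distrib]
  exact Finset.sum_congr rfl fun i _ => (sub_smul _ _ _).symm

theorem circ_le_bd {x : ℚ} (h : x = 0 ∨ x = 1 ∨ x = -1) : -1 ≤ x ∧ x ≤ 1 := by
  rcases h with rfl | rfl | rfl <;> norm_num

theorem circ_le_three {X : Set V} (hU : Uni X) {u a : ℕ → Bool → V} {N k : ℕ}
    (hc : Chain X u N) (h : Circ X u N a k) (hk : 2 ≤ k) (f : ℕ → Bool) (D : ℕ → ℕ → ℚ)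
    (hD : ∀ j < k, a j false - a j true = ∑ i ∈ range N, D j i • u i (f i))
    {i : ℕ} (hi : i < N) {p q r : ℕ} (hp : p < k) (hq : q < k) (hr : r < k)
    (hpq : p ≠ q) (hpr : p ≠ r) (hqr : q ≠ r) (h1 : D p i ≠ 0) (h2 : D q i ≠ 0) : D r i = 0 := by
  obtain ⟨c, hcc⟩ := chain_expand hc f h.sum
  have hS : ∀ S ⊆ range k, -1 ≤ c i - ∑ j ∈ S, D j i ∧ c i - ∑ j ∈ S, D j i ≤ 1 := by
    intro S hS
    exact circ_le_bd (circ_coord hU hc h f (fun j => decide (j ∈ S)) _
      (circ_le_swap f c D hcc hD S hS) i hi)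
  have hv : ∀ j < k, D j i = 0 ∨ D j i = 1 ∨ D j i = -1 := by
    intro j hj
    exact diff_coord hU hc (h.mem j hj false) (h.mem j hj true) (circ_notMem h hk hj false) f _
      (hD j hj) i hi
  by_contra h3
  have mp : p ∈ range k := Finset.mem_range.2 hp
  have mq : q ∈ range k := Finset.mem_range.2 hq
  have mr : r ∈ range k := Finset.mem_range.2 hr
  have e0 := hS ∅ (Finset.empty_subset _)
  have e1 := hS {p} (by simpa using hp)
  have e2 := hS {q} (by simpa using hq)
  have e3 := hS {r} (by simpa using hr)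
  have e4 := hS {p, q} (by
    intro x hx
    simp only [Finset.mem_insert, Finset.mem_singleton] at hx
    rcases hx with rfl | rfl <;> assumption)
  have e5 := hS {p, r} (by
    intro x hx
    simp only [Finset.mem_insert, Finset.mem_singleton] at hx
    rcases hx with rfl | rfl <;> assumption)
  have e6 := hS {q, r} (by
    intro x hx
    simp only [Finset.mem_insert, Finset.mem_singleton] at hx
    rcases hx with rfl | rfl <;> assumption)
  have e7 := hS {p, q, r} (by
    intro x hx
    simp only [Finset.mem_insert, Finset.mem_singleton] at hx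
    rcases hx with rfl | rfl | rfl <;> assumption)
  have hpqr : p ∉ ({q, r} : Finset ℕ) := by simp [hpq, hpr]
  have hqr' : q ∉ ({r} : Finset ℕ) := by simp [hqr]
  have hpq' : p ∉ ({q} : Finset ℕ) := by simp [hpq]
  have hpr' : p ∉ ({r} : Finset ℕ) := by simp [hpr]
  rw [Finset.sum_empty] at e0
  rw [Finset.sum_singleton] at e1 e2 e3
  rw [Finset.sum_insert hpq', Finset.sum_singleton] at e4
  rw [Finset.sum_insert hpr', Finset.sum_singleton] at e5
  rw [Finset.sum_insert hqr', Finset.sum_singleton] at e6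
  rw [Finset.sum_insert hpqr, Finset.sum_insert hqr', Finset.sum_singleton] at e7
  rcases hv p hp with g1 | g1 | g1
  · exact h1 g1
  all_goals rcases hv q hq with g2 | g2 | g2
  · exact h2 g2
  pick_goal 3
  · exact h2 g2
  all_goals rcases hv r hr with g3 | g3 | g3
  all_goals first
    | exact h3 g3
    | (rw [g1, g2, g3] at e7; rw [g1, g2] at e4; rw [g1, g3] at e5; rw [g2, g3] at e6
       rw [g1] at e1; rw [g2] at e2; rw [g3] at e3
       linarith [e0.1, e0.2, e1.1, e1.2, e2.1, e2.2, e3.1, e3.2, e4.1, e4.2, e5.1, e5.2,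
         e6.1, e6.2, e7.1, e7.2])

theorem circ_le {X : Set V} (hU : Uni X) {u a : ℕ → Bool → V} {N k : ℕ} (hN : 1 ≤ N)
    (hc : Chain X u N) (h : Circ X u N a k) : k ≤ N + 1 := by
  classical
  by_cases hk : 2 ≤ k
  swap
  · omega
  have hmem : ∀ j < k, a j false - a j true ∈ FF u N := h.dif
  have hne : ∀ j < k, a j false - a j true ≠ 0 := fun j hj => sub_ne_zero.2 (h.dne j hj)
  -- the key step
  have key : ∀ ρ : ℕ → ℚ, ρ 0 = 0 → ∑ j ∈ range k, ρ j • (a j false - a j true) = 0 →
      ∀ l, 0 < l → l < k → ρ l = 0 := by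
    intro ρ h0 hρ l hl0 hl
    obtain ⟨f, α, α', e1, e2, i, hi, n1, n2⟩ :=
      chain_cross hc (hmem 0 (by omega)) (hmem l hl) (hne 0 (by omega)) (hne l hl)
    have hex : ∀ j, ∃ β : ℕ → ℚ, j < k → a j false - a j true = ∑ i ∈ range N, β i • u i (f i) := by
      intro j
      by_cases hj : j < k
      · obtain ⟨β, hβ⟩ := chain_expand hc f (hmem j hj)
        exact ⟨β, fun _ => hβ⟩
      · exact ⟨0, fun hh => absurd hh hj⟩
    choose D hD using hex
    have hli := linearIndepOn_finset_iff.1 (chain_li hc f)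
    have huniq : ∀ β β' : ℕ → ℚ, ∑ i ∈ range N, β i • u i (f i) = ∑ i ∈ range N, β' i • u i (f i) →
        ∀ i < N, β i = β' i := by
      intro β β' hb i hi
      have h1 : ∑ i ∈ range N, (β i - β' i) • u i (f i) = 0 := by
        simp only [sub_smul, Finset.sum_sub_distrib, hb, sub_self]
      exact sub_eq_zero.1 (hli (fun i => β i - β' i) h1 i (Finset.mem_range.2 hi))
    have d0 : D 0 i ≠ 0 := by
      rw [huniq (D 0) α (by rw [← hD 0 (by omega), e1]) i hi]
      exact n1
    have dl : D l i ≠ 0 := by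
      rw [huniq (D l) α' (by rw [← hD l hl, e2]) i hi]
      exact n2
    have hoth : ∀ j < k, j ≠ 0 → j ≠ l → D j i = 0 := by
      intro j hj hj0 hjl
      exact circ_le_three hU hc h hk f D hD hi (by omega) hl hj (by omega) (Ne.symm hj0)
        (Ne.symm hjl) d0 dl
    have h1 : ∑ i ∈ range N, (∑ j ∈ range k, ρ j * D j i) • u i (f i) =
        ∑ i ∈ range N, (0 : ℚ) • u i (f i) := by
      simp only [zero_smul, Finset.sum_const_zero]
      rw [← hρ]
      have h2 : ∑ j ∈ range k, ρ j • (a j false - a j true) =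
          ∑ j ∈ range k, ∑ i ∈ range N, (ρ j * D j i) • u i (f i) := by
        refine Finset.sum_congr rfl fun j hj => ?_
        rw [hD j (Finset.mem_range.1 hj), Finset.smul_sum]
        exact Finset.sum_congr rfl fun i _ => smul_smul _ _ _
      rw [h2, Finset.sum_comm]
      exact Finset.sum_congr rfl fun i _ => Finset.sum_smul
    have h3 : ∑ j ∈ range k, ρ j * D j i = 0 := huniq _ _ h1 i hi
    have h4 : ∑ j ∈ range k, ρ j * D j i = ρ l * D l i := by
      refine Finset.sum_eq_single l ?_ ?_
      · intro j hj hjl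
        by_cases hj0 : j = 0
        · rw [hj0, h0, zero_mul]
        · rw [hoth j (Finset.mem_range.1 hj) hj0 hjl, mul_zero]
      · intro hh
        exact absurd (Finset.mem_range.2 hl) hh
    rw [h4] at h3
    rcases mul_eq_zero.1 h3 with h5 | h5
    · exact h5
    · exact absurd h5 dl
  -- linear independence
  have hlin : LinearIndependent ℚ (fun j : Fin (k - 1) =>
      (⟨a (j + 1) false - a (j + 1) true, hmem _ (by omega)⟩ : FF u N)) := by
    rw [Fintype.linearIndependent_iff]
    intro g hg j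
    have h1 : ∑ j : Fin (k - 1), g j • (a (j + 1) false - a (j + 1) true) = 0 := by
      have := congrArg (fun x : FF u N => (x : V)) hg
      simpa using this
    have h2 := key (fun l => if hl : 0 < l ∧ l - 1 < k - 1 then g ⟨l - 1, hl.2⟩ else 0)
      (by simp) ?_ (j + 1) (Nat.succ_pos _) (by omega)
    · have h3 : 0 < (j : ℕ) + 1 ∧ (j : ℕ) + 1 - 1 < k - 1 := ⟨Nat.succ_pos _, by omega⟩
      rw [dif_pos h3] at h2
      simpa using h2
    · obtain ⟨k', rfl⟩ : ∃ k', k = k' + 1 := ⟨k - 1, by omega⟩
      rw [Finset.sum_range_succ']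
      simp only [lt_irrefl, false_and, dif_neg, not_false_eq_true, zero_smul, add_zero]
      have h4 : (k' + 1 - 1) = k' := by omega
      rw [Finset.sum_range]
      rw [← h1]
      refine Finset.sum_bij (fun (x : Fin k') _ => (⟨x, by omega⟩ : Fin (k' + 1 - 1))) ?_ ?_ ?_ ?_
      · intro x _
        exact Finset.mem_univ _
      · intro x _ y _ hxy
        simpa [Fin.ext_iff] using hxy
      · intro x _
        exact ⟨⟨x, by omega⟩, Finset.mem_univ _, rfl⟩
      · intro x _
        have h5 : 0 < (x : ℕ) + 1 ∧ (x : ℕ) + 1 - 1 < k' + 1 - 1 := ⟨Nat.succ_pos _, by omega⟩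
        rw [dif_pos h5]
        rfl
  have hFF : FF u N = span ℚ (((range N).image fun j => u j false : Finset V) : Set V) := by
    rw [FF]
    congr 1
    ext w
    simp only [Set.mem_ofPred_eq, Finset.coe_image, Set.mem_image, Finset.mem_coe,
      Finset.mem_range]
    constructor
    · rintro ⟨j, hj, rfl⟩
      exact ⟨j, hj, rfl⟩
    · rintro ⟨j, hj, rfl⟩
      exact ⟨j, hj, rfl⟩
  have hfin : Module.Finite ℚ (FF u N) := by
    rw [hFF]
    exact FiniteDimensional.span_finset ℚ _
  have hrank : finrank ℚ (FF u N) ≤ N := by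
    rw [hFF]
    refine (finrank_span_finset_le_card _).trans ?_
    refine Finset.card_image_le.trans ?_
    rw [Finset.card_range]
  have h6 := hlin.fintype_card_le_finrank
  rw [Fintype.card_fin] at h6
  omega

end RC
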