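import Pool.Agent.Helper59.RC.CostInt

/-!
Module RC-C4.  Renaming of the pairs: permutations `σ` of the indices (`σ` maps `range k`
bijectively to itself) and exchanges of the two vectors of a pair (`τ`).
All proofs are rewriting of finite sums (`Finset.sum_bij`, `Finset.sum_nbij`); for the flips use
that `a j true - a j false ∈ FF u N`.
-/

namespace RC

open Submodule Module Finset

variable {V : Type} [AddCommGroup V] [Module ℚ V]

theorem costSym_sum {M : Type} [AddCommMonoid M] {k : ℕ} (σ : Equiv.Perm ℕ)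
    (hσ : ∀ j, j < k ↔ σ j < k) (F : ℕ → M) :
    ∑ j ∈ range k, F (σ j) = ∑ j ∈ range k, F j :=
  Finset.sum_equiv σ (fun j => by simp [hσ j]) (fun _ _ => rfl)

theorem costSym_card {k : ℕ} (σ : Equiv.Perm ℕ) (hσ : ∀ j, j < k ↔ σ j < k) (μ : ℕ → ℚ) :
    ((range k).filter (fun j => μ (σ.symm j) ≠ 0)).card =
      ((range k).filter (fun j => μ j ≠ 0)).card := by
  symm
  apply Finset.card_equiv σ
  intro j
  simp [hσ j]

theorem costSym_ext (α : ℕ → ℚ) (N : ℕ) (w : ℕ → V) :
    ∑ i ∈ range (N + 1), (if i < N then α i else 0) • w i = ∑ i ∈ range N, α i • w i := by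
  rw [Finset.sum_range_succ]
  simp only [lt_irrefl, if_false, zero_smul, add_zero]
  apply Finset.sum_congr rfl
  intro i hi
  rw [if_pos (Finset.mem_range.1 hi)]

theorem costSym_extcard (α : ℕ → ℚ) (N : ℕ) :
    ((range (N + 1)).filter (fun i => (if i < N then α i else 0) ≠ 0)).card =
      ((range N).filter (fun i => α i ≠ 0)).card := by
  congr 1
  ext i
  simp only [Finset.mem_filter, Finset.mem_range]
  constructor
  · rintro ⟨_, h2⟩
    by_cases hi : i < N
    · rw [if_pos hi] at h2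
      exact ⟨hi, h2⟩
    · rw [if_neg hi] at h2
      exact absurd rfl h2
  · rintro ⟨h1, h2⟩
    rw [if_pos h1]
    exact ⟨by omega, h2⟩

theorem circ_perm {X : Set V} {u a : ℕ → Bool → V} {N k : ℕ} (h : Circ X u N a k)
    (σ : Equiv.Perm ℕ) (hσ : ∀ j, j < k ↔ σ j < k) : Circ X u N (fun j b => a (σ j) b) k where
  pos := h.pos
  mem j hj b := h.mem (σ j) ((hσ j).1 hj) b
  dif j hj := h.dif (σ j) ((hσ j).1 hj)
  dne j hj := h.dne (σ j) ((hσ j).1 hj)
  one hk := by
    have h0 : σ 0 = 0 := by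
      have := (hσ 0).1 h.pos
      omega
    simp only [h0]
    exact h.one hk
  sum := by
    rw [costSym_sum σ hσ (fun j => a j false)]
    exact h.sum
  min μ hμ i hi j hj := by
    have h1 : ∑ j ∈ range k, μ j • a (σ j) false =
        ∑ j ∈ range k, μ (σ.symm j) • a j false := by
      rw [← costSym_sum σ hσ (fun j => μ (σ.symm j) • a j false)]
      simp
    have h2 := h.min (fun j => μ (σ.symm j)) (h1 ▸ hμ) (σ i) ((hσ i).1 hi) (σ j)
      ((hσ j).1 hj)
    simpa using h2

theorem relP_perm {u a : ℕ → Bool → V} {N k m : ℕ} (σ : Equiv.Perm ℕ)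
    (hσ : ∀ j, j < k ↔ σ j < k) (h : RelP u (fun j b => a (σ j) b) N k m) :
    RelP u a N k m := by
  obtain ⟨α, μ, f, g, h1, h2, h3⟩ := h
  refine ⟨α, fun j => μ (σ.symm j), f, fun j => g (σ.symm j), ?_, ?_, ?_⟩
  · rcases h1 with h1 | ⟨j, hj, h1⟩
    · exact Or.inl h1
    · refine Or.inr ⟨σ j, (hσ j).1 hj, ?_⟩
      simpa using h1
  · rw [← costSym_sum σ hσ (fun j => μ (σ.symm j) • a j (g (σ.symm j)))]
    simpa using h2
  · rw [costSym_card σ hσ μ]
    exact h3

theorem circ_flip {X : Set V} {u a : ℕ → Bool → V} {N k : ℕ} (h : Circ X u N a k)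
    (τ : ℕ → Bool) : Circ X u N (fun j b => a j (xor b (τ j))) k where
  pos := h.pos
  mem j hj b := h.mem j hj _
  dif j hj := by
    cases hτ : τ j
    · simpa [hτ] using h.dif j hj
    · have := (FF u N).neg_mem (h.dif j hj)
      simpa [hτ] using this
  dne j hj := by
    cases hτ : τ j
    · simpa [hτ] using h.dne j hj
    · simpa [hτ] using (h.dne j hj).symm
  one hk := by
    obtain ⟨h1, h2, h3⟩ := h.one hk
    cases hτ : τ 0
    · simpa [hτ] using ⟨h1, h2, h3⟩
    · have h4 : a 0 true ≠ -a 0 false := fun h => h3 (by rw [h, neg_neg])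
      simpa [hτ] using ⟨h2, h1, h4⟩
  sum := circ_sum_mem h (fun j => xor false (τ j))
  min μ hμ := circ_min h (fun j => xor false (τ j)) μ hμ

theorem relP_flip {u a : ℕ → Bool → V} {N k m : ℕ} (τ : ℕ → Bool)
    (h : RelP u (fun j b => a j (xor b (τ j))) N k m) : RelP u a N k m := by
  obtain ⟨α, μ, f, g, h1, h2, h3⟩ := h
  exact ⟨α, μ, f, fun j => xor (g j) (τ j), h1, h2, h3⟩

/-- Changing the signs of both vectors of the pairs. -/
theorem relP_sign {u a : ℕ → Bool → V} {N k m : ℕ} (s : ℕ → ℚ) (hs : ∀ j, s j ≠ 0)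
    (h : RelP u (fun j b => s j • a j b) N k m) : RelP u a N k m := by
  obtain ⟨α, μ, f, g, h1, h2, h3⟩ := h
  refine ⟨α, fun j => μ j * s j, f, g, ?_, ?_, ?_⟩
  · rcases h1 with h1 | ⟨j, hj, h1⟩
    · exact Or.inl h1
    · exact Or.inr ⟨j, hj, mul_ne_zero h1 (hs j)⟩
  · simpa only [mul_smul] using h2
  · have : (range k).filter (fun j => μ j * s j ≠ 0) = (range k).filter (fun j => μ j ≠ 0) := by
      ext j
      simp [hs j]
    rw [this]
    exact h3

/-- More room. -/
theorem relP_mono {u a : ℕ → Bool → V} {N k m m' : ℕ} (hm : m ≤ m')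
    (h : RelP u a N k m) : RelP u a N k m' := by
  obtain ⟨α, μ, f, g, h1, h2, h3⟩ := h
  exact ⟨α, μ, f, g, h1, h2, h3.trans hm⟩

/-- One more level, not used. -/
theorem relP_succ {u a : ℕ → Bool → V} {N k m : ℕ}
    (h : RelP u a N k m) : RelP u a (N + 1) k m := by
  obtain ⟨α, μ, f, g, h1, h2, h3⟩ := h
  refine ⟨fun i => if i < N then α i else 0, μ, f, g, ?_, ?_, ?_⟩
  · rcases h1 with ⟨i, hi, h1⟩ | h1
    · refine Or.inl ⟨i, by omega, ?_⟩
      simp only [hi, if_true]
      exact h1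
    · exact Or.inr h1
  · rw [costSym_ext α N (fun i => u i (f i))]
    exact h2
  · rw [costSym_extcard]
    exact h3

theorem relQ_succ {u : ℕ → Bool → V} {q : V} {N m : ℕ}
    (h : RelQ u q N m) : RelQ u q (N + 1) m := by
  obtain ⟨α, f, h1, h2⟩ := h
  refine ⟨fun i => if i < N then α i else 0, f, ?_, ?_⟩
  · rw [costSym_ext α N (fun i => u i (f i))]
    exact h1
  · rw [costSym_extcard]
    exact h2

end RC
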