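import Pool.Agent.Helper59.RC.CostDirs
import Pool.Agent.Helper59.RC.CostLe
import Pool.Agent.Helper59.RC.CostSym

/-!
Module RC-C9.  No direction changes (all `γ j = 0`): all differences are in `FF u N`.

`costA` (`c0 = 0`): then `Circ X u N a k` (`min`: `FF u N ≤ FF u (N+1)`), `CostP N k`,
`relP_succ`; `k + (N + 1 - k)/2 ≤ k + (N + 2 - k)/2`.

`costB` (`c0 = ± 1`): let `s = - c0`.  Put `b j = a j` for `j < k` and
`b k = (s • u N false, s • u N true)` in `X' = X ∪ {z | -z ∈ X}` (`uni_mono`).
`Circ X' u N b (k+1)`: `sum`: `∑_{j<k} a j false + s • u N false ∈ FF u N`; `min`: if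
`∑_{j<k} μ j • a j false + μ k • s • u N false ∈ FF u N` then in particular
`∑_{j<k} μ j • a j false ∈ FF u (N+1)`, so `μ j = μ 0` for all `j < k` (`Circ.min`), and then
`μ 0 • (∑ a j false) + μ k • s • u N false ∈ FF u N` gives `(μ 0 * c0 + μ k * s) = 0`
(`u N false ∉ FF u N`), so `μ k = μ 0`.  `dne` for `b k`: `0 < N`.
`circ_le` gives `k + 1 ≤ N + 1`, and `CostP N (k+1)` a relation with at most
`k + 1 + (N + 1 - (k + 1))/2 = k + (N + 2 - k)/2` terms; it is a relation for `N + 1`, `k`.
-/

namespace RC

open Submodule Module Finset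

variable {V : Type} [AddCommGroup V] [Module ℚ V]

private theorem costAB_pred {X : Set V} {u : ℕ → Bool → V} {N : ℕ} (h : Chain X u (N + 1)) :
    Chain X u N where
  mem := fun i hi b => h.mem i (by omega) b
  ind := fun i hi => h.ind i (by omega)
  dif := fun i hi => h.dif i (by omega)
  dne := fun i hi h0 => h.dne i (by omega) h0

theorem costA {X : Set V} (hU : Uni X) {u a : ℕ → Bool → V} {N k : ℕ} (hP : CostP N k)
    (hc : Chain X u (N + 1)) (h : Circ X u (N + 1) a k)
    (hd : ∀ j < k, a j false - a j true ∈ FF u N)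
    (hs : ∑ j ∈ range k, a j false ∈ FF u N) :
    RelP u a (N + 1) k (k + (N + 2 - k) / 2) := by
  have hc' := costAB_pred hc
  have h' : Circ X u N a k :=
    { pos := h.pos
      mem := h.mem
      dif := hd
      dne := h.dne
      one := h.one
      sum := hs
      min := fun μ hμ => h.min μ (FF_mono u (Nat.le_succ N) hμ) }
  exact relP_mono (by omega) (relP_succ (hP V X u a hU hc' h'))

theorem costB {X : Set V} (hU : Uni X) {u a : ℕ → Bool → V} {N k : ℕ} (hN : 1 ≤ N)
    (hP : CostP N (k + 1)) (hc : Chain X u (N + 1)) (h : Circ X u (N + 1) a k)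
    (hk : 2 ≤ k) (hd : ∀ j < k, a j false - a j true ∈ FF u N) (c0 : ℚ)
    (h0 : c0 = 1 ∨ c0 = -1)
    (hs : (∑ j ∈ range k, a j false) - c0 • u N false ∈ FF u N) :
    RelP u a (N + 1) k (k + (N + 2 - k) / 2) := by
  classical
  have hc' := costAB_pred hc
  have hs0 : c0 ≠ 0 := by rcases h0 with rfl | rfl <;> norm_num
  have hNN : N < N + 1 := Nat.lt_succ_self N
  have huN : u N false ∈ FF u (N + 1) := subset_span ⟨N, hNN, rfl⟩
  set X' : Set V := X ∪ {z | -z ∈ X} with hX'
  have hU' : Uni X' := uni_mono hU (by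
    rintro x (hx | hx)
    · exact Or.inr (Or.inl hx)
    · exact Or.inr (Or.inr hx))
  have hcX : Chain X' u N :=
    { mem := fun i hi b => Or.inl (hc'.mem i hi b)
      ind := hc'.ind
      dif := hc'.dif
      dne := hc'.dne }
  set b : ℕ → Bool → V := fun j t => if j < k then a j t else (-c0) • u N t with hb
  have hbj : ∀ j < k, ∀ t, b j t = a j t := fun j hj t => if_pos hj
  have hbk : ∀ t, b k t = (-c0) • u N t := fun t => if_neg (lt_irrefl k)
  have hsum : ∀ (μ : ℕ → ℚ) (g : ℕ → Bool), ∑ j ∈ range (k + 1), μ j • b j (g j) =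
      ∑ j ∈ range k, μ j • a j (g j) + (μ k * (-c0)) • u N (g k) := by
    intro μ g
    rw [sum_range_succ, hbk, smul_smul]
    congr 1
    apply sum_congr rfl
    intro j hj
    rw [hbj j (mem_range.mp hj)]
  have hsum1 : ∑ j ∈ range (k + 1), b j false =
      ∑ j ∈ range k, a j false + (-c0) • u N false := by
    have := hsum (fun _ => 1) (fun _ => false)
    simpa using this
  have hC : Circ X' u N b (k + 1) := by
    refine ⟨Nat.succ_pos k, ?_, ?_, ?_, ?_, ?_, ?_⟩
    · intro j hj t
      rcases Nat.lt_succ_iff_lt_or_eq.mp hj with hj' | rfl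
      · rw [hbj j hj']
        exact Or.inl (h.mem j hj' t)
      · rw [hbk]
        rcases h0 with rfl | rfl
        · right
          change -((-1 : ℚ) • u N t) ∈ X
          have : -((-1 : ℚ) • u N t) = u N t := by simp
          rw [this]
          exact hc.mem N hNN t
        · left
          have : (-(-1 : ℚ)) • u N t = u N t := by simp
          rw [this]
          exact hc.mem N hNN t
    · intro j hj
      rcases Nat.lt_succ_iff_lt_or_eq.mp hj with hj' | rfl
      · rw [hbj j hj', hbj j hj']
        exact hd j hj'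
      · rw [hbk, hbk, ← smul_sub]
        exact smul_mem _ _ (hc.dif N hNN)
    · intro j hj
      rcases Nat.lt_succ_iff_lt_or_eq.mp hj with hj' | rfl
      · rw [hbj j hj', hbj j hj']
        exact h.dne j hj'
      · rw [hbk, hbk]
        intro he
        exact hc.dne N hNN hN (smul_right_injective V (neg_ne_zero.mpr hs0) he)
    · intro hk1
      omega
    · rw [hsum1, neg_smul, ← sub_eq_add_neg]
      exact hs
    · intro μ hμ
      rw [hsum μ (fun _ => false)] at hμ
      have h1 : ∑ j ∈ range k, μ j • a j false ∈ FF u (N + 1) := by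
        have h2 := sub_mem (FF_mono u (Nat.le_succ N) hμ)
          (smul_mem _ (μ k * (-c0)) huN)
        simpa using h2
      have h3 := h.min μ h1
      have h4 : ∑ j ∈ range k, μ j • a j false = μ 0 • ∑ j ∈ range k, a j false := by
        rw [smul_sum]
        apply sum_congr rfl
        intro j hj
        rw [h3 j (mem_range.mp hj) 0 h.pos]
      have h5 : (c0 * (μ 0 - μ k)) • u N false ∈ FF u N := by
        have h6 := sub_mem hμ (smul_mem _ (μ 0) hs)
        rw [h4] at h6
        have h7 : μ 0 • ∑ j ∈ range k, a j false + (μ k * -c0) • u N false -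
            μ 0 • (∑ j ∈ range k, a j false - c0 • u N false) =
            (c0 * (μ 0 - μ k)) • u N false := by
          module
        rwa [h7] at h6
      have h8 : μ 0 = μ k := by
        by_contra hne
        have h9 : c0 * (μ 0 - μ k) ≠ 0 := mul_ne_zero hs0 (sub_ne_zero.mpr hne)
        apply hc.ind N hNN
        have h10 := smul_mem (FF u N) (c0 * (μ 0 - μ k))⁻¹ h5
        rwa [smul_smul, inv_mul_cancel₀ h9, one_smul] at h10
      have h11 : ∀ i < k + 1, μ i = μ 0 := by
        intro i hi
        rcases Nat.lt_succ_iff_lt_or_eq.mp hi with hi' | rfl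
        · exact h3 i hi' 0 h.pos
        · exact h8.symm
      intro i hi j hj
      rw [h11 i hi, h11 j hj]
  have hle : k + 1 ≤ N + 1 := circ_le hU' hN hcX hC
  obtain ⟨α, μ, f, g, h1, h2, h3⟩ := hP V X' u b hU' hcX hC
  rw [hsum μ g] at h2
  refine ⟨fun i => if i < N then α i else μ k * (-c0), μ,
    fun i => if i < N then f i else g k, g, ?_, ?_, ?_⟩
  · rcases h1 with ⟨i, hi, h1⟩ | ⟨j, hj, h1⟩
    · left
      exact ⟨i, by omega, by simpa [hi] using h1⟩
    · rcases Nat.lt_succ_iff_lt_or_eq.mp hj with hj' | rfl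
      · exact Or.inr ⟨j, hj', h1⟩
      · left
        refine ⟨N, hNN, ?_⟩
        simp only [lt_irrefl, if_false]
        exact mul_ne_zero h1 (neg_ne_zero.mpr hs0)
  · rw [sum_range_succ]
    simp only [lt_irrefl, if_false]
    have h4 : ∑ i ∈ range N, (if i < N then α i else μ k * -c0) •
        u i (if i < N then f i else g k) = ∑ i ∈ range N, α i • u i (f i) := by
      apply sum_congr rfl
      intro i hi
      rw [if_pos (mem_range.mp hi), if_pos (mem_range.mp hi)]
    rw [h4, ← h2]
    abel
  · have h5 : ((range (N + 1)).filter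
        (fun i => (if i < N then α i else μ k * -c0) ≠ 0)).card =
        ((range N).filter (fun i => α i ≠ 0)).card + (if μ k ≠ 0 then 1 else 0) := by
      rw [card_filter, card_filter, sum_range_succ]
      congr 1
      · apply sum_congr rfl
        intro i hi
        rw [if_pos (mem_range.mp hi)]
      · simp [hs0]
    have h6 : ((range (k + 1)).filter (fun j => μ j ≠ 0)).card =
        ((range k).filter (fun j => μ j ≠ 0)).card + (if μ k ≠ 0 then 1 else 0) := by
      rw [card_filter, card_filter, sum_range_succ]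
    rw [h5]
    rw [h6] at h3
    omega

end RC
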