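import Pool.Agent.Helper59.RC.CostInt

/-!
Module RC-C3.  Degenerate configurations.  Write `δ j = a j false - a j true`.

`deg_pair`: `i ≠ j`, `δ i = δ j` or `δ i = - δ j`.  Let `q = ∑_{l<k} a l false`.  Since
`2 ≤ k`, all `a l b ∉ FF u N` (`circ_notMem`), so the coordinates of `δ i` with respect to every
basis `u l (f l)` are `0, 1, -1` (`diff_coord`); the same holds for all sums
`∑ a l (g l)` (`circ_coord`).
* `δ i = δ j = δ`: let `w = q - δ` = the sum with `g i = true`.  Suppose `w ≠ 0`.
  `chain_cross` for `w, δ` gives a basis and an index with coordinates `w_l ≠ 0`, `δ_l ≠ 0`.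
  `q_l = w_l + δ_l`, `w_l`, and `(q - 2 δ)_l = w_l - δ_l` (the sum with `g i = g j = true`) are all
  in `{0,1,-1}`, `δ_l = ± 1`: then `w_l = 0`, contradiction.
* `δ j = - δ i`: `q`, `q - δ i`, `q + δ i` are sums; if `q ≠ 0` take the index with `q_l ≠ 0`,
  `(δ i)_l ≠ 0`: `q_l, q_l ± (δ i)_l ∈ {0,1,-1}` forces `q_l = 0`, contradiction.

`deg_two`: `k = 2`, `2 q = δ 0 + δ 1`, `q = a 0 false + a 1 false`.  Let `w = q`,
`w' = q - δ 1 = a 0 false + a 1 true`.  `w + w' = δ 0`, `w - w' = δ 1`.  If `w, w' ≠ 0` take the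
index with `w_l, w'_l ≠ 0`, both are `± 1`, so `w_l + w'_l` or `w_l - w'_l` is `± 2`, but both
are coordinates of `δ 0`, `δ 1`.  Contradiction; so `w = 0` or `w' = 0`.
-/

namespace RC

open Submodule Module Finset

variable {V : Type} [AddCommGroup V] [Module ℚ V]

omit [Module ℚ V] in
private theorem cd_upd (a : ℕ → Bool → V) (k : ℕ) (g : ℕ → Bool) {i : ℕ} (hi : i < k)
    (b : Bool) : ∑ l ∈ range k, a l (Function.update g i b l) =
      ∑ l ∈ range k, a l (g l) + (a i b - a i (g i)) := by
  have h1 : (fun l => a l (Function.update g i b l)) =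
      Function.update (fun l => a l (g l)) i (a i b) := by
    funext l
    by_cases hl : l = i
    · subst hl
      rw [Function.update_self, Function.update_self]
    · rw [Function.update_of_ne hl, Function.update_of_ne hl]
  rw [h1, sum_update_of_mem (mem_range.mpr hi), ← add_sum_erase (range k)
    (fun l => a l (g l)) (mem_range.mpr hi), erase_eq]
  abel

private theorem cd_arith {x y : ℚ} (hx0 : x ≠ 0) (hy0 : y ≠ 0) (hx : x = 0 ∨ x = 1 ∨ x = -1)
    (hy : y = 0 ∨ y = 1 ∨ y = -1) (h1 : x + y = 0 ∨ x + y = 1 ∨ x + y = -1)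
    (h2 : x - y = 0 ∨ x - y = 1 ∨ x - y = -1) : False := by
  rcases hx with hx | hx | hx
  · exact hx0 hx
  · rcases hy with hy | hy | hy
    · exact hy0 hy
    · rw [hx, hy] at h1
      norm_num at h1
    · rw [hx, hy] at h2
      norm_num at h2
  · rcases hy with hy | hy | hy
    · exact hy0 hy
    · rw [hx, hy] at h2
      norm_num at h2
    · rw [hx, hy] at h1
      norm_num at h1

private theorem cd_add (u : ℕ → Bool → V) (N : ℕ) (f : ℕ → Bool) (α β : ℕ → ℚ) {x y : V}
    (hx : x = ∑ i ∈ range N, α i • u i (f i)) (hy : y = ∑ i ∈ range N, β i • u i (f i)) :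
    x + y = ∑ i ∈ range N, (α i + β i) • u i (f i) := by
  rw [hx, hy, ← sum_add_distrib]
  exact sum_congr rfl fun i _ => (add_smul _ _ _).symm

private theorem cd_sub (u : ℕ → Bool → V) (N : ℕ) (f : ℕ → Bool) (α β : ℕ → ℚ) {x y : V}
    (hx : x = ∑ i ∈ range N, α i • u i (f i)) (hy : y = ∑ i ∈ range N, β i • u i (f i)) :
    x - y = ∑ i ∈ range N, (α i - β i) • u i (f i) := by
  rw [hx, hy, ← sum_sub_distrib]
  exact sum_congr rfl fun i _ => (sub_smul _ _ _).symm

theorem deg_pair {X : Set V} (hU : Uni X) {u a : ℕ → Bool → V} {N k : ℕ} (hc : Chain X u N)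
    (h : Circ X u N a k) {i j : ℕ} (hi : i < k) (hj : j < k) (hij : i ≠ j)
    (hd : a i false - a i true = a j false - a j true ∨
      a i false - a i true = -(a j false - a j true)) :
    ∃ g : ℕ → Bool, ∑ l ∈ range k, a l (g l) = 0 := by
  have hk : 2 ≤ k := by omega
  have hδ0 : a i false - a i true ≠ 0 := sub_ne_zero.mpr (h.dne i hi)
  have hδF := h.dif i hi
  have hq : ∑ l ∈ range k, a l ((fun _ : ℕ => false) l) = ∑ l ∈ range k, a l false := rfl
  have s1 : ∑ l ∈ range k, a l (Function.update (fun _ : ℕ => false) i true l) =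
      ∑ l ∈ range k, a l false - (a i false - a i true) := by
    rw [cd_upd a k _ hi true]
    abel
  have s2 : ∑ l ∈ range k, a l (Function.update (fun _ : ℕ => false) j true l) =
      ∑ l ∈ range k, a l false - (a j false - a j true) := by
    rw [cd_upd a k _ hj true]
    abel
  have s3 : ∑ l ∈ range k, a l (Function.update
      (Function.update (fun _ : ℕ => false) i true) j true l) =
      ∑ l ∈ range k, a l false - (a i false - a i true) - (a j false - a j true) := by
    rw [cd_upd a k _ hj true, cd_upd a k _ hi true, Function.update_of_ne hij.symm]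
    abel
  rcases hd with hd | hd
  · by_cases hw : ∑ l ∈ range k, a l (Function.update (fun _ : ℕ => false) i true l) = 0
    · exact ⟨_, hw⟩
    exfalso
    obtain ⟨f, α, β, e1, e2, m, hm, hα, hβ⟩ :=
      chain_cross hc (circ_sum_mem h _) hδF hw hδ0
    have c1 := circ_coord hU hc h f _ α e1 m hm
    have c2 := diff_coord hU hc (h.mem i hi false) (h.mem i hi true)
      (circ_notMem h hk hi false) f β e2 m hm
    have e3 := cd_add u N f α β e1 e2
    have e4 := cd_sub u N f α β e1 e2
    have c3 := circ_coord hU hc h f (fun _ : ℕ => false) (fun i => α i + β i)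
      (by rw [← e3, s1]; abel) m hm
    have c4 := circ_coord hU hc h f
      (Function.update (Function.update (fun _ : ℕ => false) i true) j true)
      (fun i => α i - β i) (by rw [← e4, s1, s3, ← hd]) m hm
    exact cd_arith hα hβ c1 c2 c3 c4
  · by_cases hw : ∑ l ∈ range k, a l ((fun _ : ℕ => false) l) = 0
    · exact ⟨_, hw⟩
    exfalso
    obtain ⟨f, α, β, e1, e2, m, hm, hα, hβ⟩ :=
      chain_cross hc (circ_sum_mem h _) hδF hw hδ0
    have c1 := circ_coord hU hc h f _ α e1 m hm
    have c2 := diff_coord hU hc (h.mem i hi false) (h.mem i hi true)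
      (circ_notMem h hk hi false) f β e2 m hm
    have e3 := cd_add u N f α β e1 e2
    have e4 := cd_sub u N f α β e1 e2
    have hd' : a j false - a j true = -(a i false - a i true) := by rw [hd, neg_neg]
    have c3 := circ_coord hU hc h f (Function.update (fun _ : ℕ => false) j true)
      (fun i => α i + β i) (by rw [← e3, s2, hd', sub_neg_eq_add]) m hm
    have c4 := circ_coord hU hc h f (Function.update (fun _ : ℕ => false) i true)
      (fun i => α i - β i) (by rw [← e4, s1]) m hm
    exact cd_arith hα hβ c1 c2 c3 c4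

theorem deg_two {X : Set V} (hU : Uni X) {u a : ℕ → Bool → V} {N : ℕ} (hc : Chain X u N)
    (h : Circ X u N a 2)
    (hd : (2 : ℚ) • (a 0 false + a 1 false) =
      (a 0 false - a 0 true) + (a 1 false - a 1 true)) :
    ∃ g : ℕ → Bool, ∑ l ∈ range 2, a l (g l) = 0 := by
  have s0 : ∑ l ∈ range 2, a l ((fun _ : ℕ => false) l) = a 0 false + a 1 false := by
    rw [sum_range_succ, sum_range_one]
  have s1 : ∑ l ∈ range 2, a l (Function.update (fun _ : ℕ => false) 1 true l) =
      a 0 false + a 1 true := by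
    rw [cd_upd a 2 _ (by norm_num : 1 < 2) true, s0]
    abel
  by_cases hw : ∑ l ∈ range 2, a l ((fun _ : ℕ => false) l) = 0
  · exact ⟨_, hw⟩
  by_cases hw' : ∑ l ∈ range 2, a l (Function.update (fun _ : ℕ => false) 1 true l) = 0
  · exact ⟨_, hw'⟩
  exfalso
  obtain ⟨f, α, β, e1, e2, m, hm, hα, hβ⟩ :=
    chain_cross hc (circ_sum_mem h _) (circ_sum_mem h _) hw hw'
  have c1 := circ_coord hU hc h f _ α e1 m hm
  have c2 := circ_coord hU hc h f _ β e2 m hm
  have e3 := cd_add u N f α β e1 e2
  have e4 := cd_sub u N f α β e1 e2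
  rw [s0, s1] at e3 e4
  have h2 : a 0 false + a 1 false + (a 0 false + a 1 false) =
      (a 0 false - a 0 true) + (a 1 false - a 1 true) := by
    rw [← hd, two_smul]
  have c3 := diff_coord hU hc (h.mem 0 (by norm_num) false) (h.mem 0 (by norm_num) true)
    (circ_notMem h le_rfl (by norm_num) false) f (fun i => α i + β i)
    (by
      rw [← e3]
      have h3 : a 0 false - a 0 true = (a 0 false - a 0 true) + (a 1 false - a 1 true) -
          (a 1 false - a 1 true) := by abel
      rw [h3, ← h2]
      abel) m hm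
  have c4 := diff_coord hU hc (h.mem 1 (by norm_num) false) (h.mem 1 (by norm_num) true)
    (circ_notMem h le_rfl (by norm_num) false) f (fun i => α i - β i)
    (by rw [← e4]; abel) m hm
  exact cd_arith hα hβ c1 c2 c3 c4

/-- A vanishing sum is a relation with `k` vectors. -/
theorem relP_of_sum {u a : ℕ → Bool → V} {N k m : ℕ} (hk : 0 < k) (hm : k ≤ m)
    (h : ∃ g : ℕ → Bool, ∑ l ∈ range k, a l (g l) = 0) : RelP u a N k m := by
  obtain ⟨g, hg⟩ := h
  refine ⟨fun _ => 0, fun _ => 1, fun _ => false, g, Or.inr ⟨0, hk, one_ne_zero⟩, ?_, ?_⟩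
  · simpa using hg
  · have h1 : ((range k).filter (fun _ : ℕ => (1 : ℚ) ≠ 0)).card ≤ k := by
      have := card_filter_le (range k) (fun _ : ℕ => (1 : ℚ) ≠ 0)
      rwa [card_range] at this
    have h2 : ((range N).filter (fun _ : ℕ => (0 : ℚ) ≠ 0)).card = 0 := by simp
    rw [h2, zero_add]
    exact h1.trans hm

end RC
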