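import Pool.Agent.Helper59.RC.CostDirs
import Pool.Agent.Helper59.RC.CostSym
import Pool.Agent.Helper59.RC.CostDeg
import Pool.Agent.Helper59.RC.UniQuot

/-!
Module RC-C10.  Exactly one direction changes; normalised: it is the last pair `K = k - 1 ≥ 1`
(so `k = K + 1`), and the sum of all `a j false` is in `FF u N`.

Write `x = a K false`.  If some sum `∑_{l<k} a l (g l)` vanishes, use `relP_of_sum`.  Let `m = mkQ (span {x})`, `X' = m '' X`
(`uni_con`, `S = {x}`), `u' = m ∘ u`, `a' j b = m (a j b)`, `K` pairs, `N` levels.
`x ∉ FF u (N+1)` (`circ_notMem`, `k ≥ 2`), so `m` is injective on `FF u (N+1)` and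
`FF u' i = (FF u i).map m` (`i ≤ N`).
`Chain X' u' N`: `u i false ∉ FF u i ⊔ span {x}`.
`Circ X' u' N a' K`:
* `dif`, `dne`: for `j < K` the difference is in `FF u N` and nonzero.
* `sum`: `m (∑_{j<K} a j false) = m (∑_{j<k} a j false)`, in `(FF u N).map m`.
* `min`: `∑_{j<K} μ j • a j false - t • x ∈ FF u N ≤ FF u (N+1)` gives all `μ j` equal
  (`Circ.min` with `μ K = -t`).
* `one` (`K = 1`): `a 0 b = t • x` would give, modulo `FF u (N+1)`, (`circ_min`) `t = -1`, so
  `a 0 b + x = 0`: a vanishing sum, excluded.  If `a 0 false + a 0 true = t • x` then modulo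
  `FF u (N+1)` (`a 0 true` is congruent to `a 0 false`) `t = -2`, so with
  `q = a 0 false + x`, `δ = a 0 false - a 0 true`: `2 q = δ`; coordinates of `q`
  (`circ_coord`) and of `δ` (`diff_coord`) are `0,1,-1`, so `δ = 0`, contradiction.
`CostP N K` gives a relation in the quotient with at most `K + (N + 1 - K)/2`
terms; lifted: `∑ α i • u i (f i) + ∑_{j<K} μ j • a j (g j) = t • x`, one more term:
`K + 1 + (N + 1 - K)/2 = k + (N + 2 - k)/2`.
-/

namespace RC

open Submodule Module Finset

variable {V : Type} [AddCommGroup V] [Module ℚ V]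

variable {W : Type} [AddCommGroup W] [Module ℚ W]

private theorem cc_map (m : V →ₗ[ℚ] W) (u : ℕ → Bool → V) (i : ℕ) :
    FF (fun i b => m (u i b)) i = (FF u i).map m := by
  unfold FF
  rw [Submodule.map_span]
  congr 1
  ext w
  constructor
  · rintro ⟨j, hj, rfl⟩
    exact ⟨_, ⟨j, hj, rfl⟩, rfl⟩
  · rintro ⟨_, ⟨j, hj, rfl⟩, rfl⟩
    exact ⟨j, hj, rfl⟩

theorem costC {X : Set V} (hU : Uni X) {u a : ℕ → Bool → V} {N K : ℕ} (hK : 1 ≤ K)
    (hP : CostP N K) (hc : Chain X u (N + 1)) (h : Circ X u (N + 1) a (K + 1))
    (hd : ∀ j < K, a j false - a j true ∈ FF u N)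
    (hs : ∑ j ∈ range (K + 1), a j false ∈ FF u N) :
    RelP u a (N + 1) (K + 1) (K + 1 + (N + 2 - (K + 1)) / 2) := by
  classical
  by_cases hnv : ∃ g : ℕ → Bool, ∑ l ∈ range (K + 1), a l (g l) = 0
  · exact relP_of_sum (by omega) (by omega) hnv
  have hx : a K false ∉ FF u (N + 1) := circ_notMem h (by omega) (Nat.lt_succ_self K) false
  have hF1 : ∀ t : ℚ, t • a K false ∈ FF u (N + 1) → t = 0 := by
    intro t ht
    by_contra h0
    apply hx
    have := smul_mem (FF u (N + 1)) t⁻¹ ht
    rwa [smul_smul, inv_mul_cancel₀ h0, one_smul] at this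
  have hu1 : ∀ z ∈ FF u N, z ∈ FF u (N + 1) := fun z hz => FF_mono u (Nat.le_succ N) hz
  set S : Submodule ℚ V := span ℚ ({a K false} : Set V) with hS
  set m : V →ₗ[ℚ] V ⧸ S := S.mkQ with hm
  have hm0 : ∀ z, m z = 0 → ∃ t : ℚ, z = t • a K false := by
    intro z hz
    rw [hm, Submodule.mkQ_apply, Submodule.Quotient.mk_eq_zero] at hz
    obtain ⟨t, rfl⟩ := Submodule.mem_span_singleton.1 hz
    exact ⟨t, rfl⟩
  have hmx : m (a K false) = 0 := by
    rw [hm, Submodule.mkQ_apply, Submodule.Quotient.mk_eq_zero]
    exact subset_span (by simp)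
  have hinj : ∀ w ∈ FF u (N + 1), m w = 0 → w = 0 := by
    intro w hw hz
    obtain ⟨t, ht⟩ := hm0 w hz
    rw [ht] at hw
    rw [ht, hF1 t hw, zero_smul]
  have hmem' : ∀ i w, m w ∈ FF (fun i b => m (u i b)) i →
      ∃ w' ∈ FF u i, ∃ t : ℚ, w = w' + t • a K false := by
    intro i w hw
    rw [cc_map] at hw
    obtain ⟨w', hw', he⟩ := Submodule.mem_map.1 hw
    obtain ⟨t, ht⟩ := hm0 (w - w') (by rw [map_sub, he, sub_self])
    exact ⟨w', hw', t, by rw [← ht]; abel⟩
  have hmem : ∀ i w, w ∈ FF u i → m w ∈ FF (fun i b => m (u i b)) i := by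
    intro i w hw
    rw [cc_map]
    exact Submodule.mem_map_of_mem hw
  have hUX : Uni (m '' X) := by
    refine uni_con m (S := {a K false}) hU ?_ ?_ ?_
    · rintro z rfl
      exact h.mem K (Nat.lt_succ_self K) false
    · rintro z rfl
      exact hmx
    · intro z _ hz
      rwa [hm, Submodule.mkQ_apply, Submodule.Quotient.mk_eq_zero] at hz
  have hchain : Chain (m '' X) (fun i b => m (u i b)) N := by
    refine ⟨fun i hi b => ⟨_, hc.mem i (by omega) b, rfl⟩, fun i hi hin => ?_,
      fun i hi => ?_, fun i hi hi0 he => ?_⟩
    · obtain ⟨w', hw', t, he⟩ := hmem' i _ hin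
      have hlt : FF u i ≤ FF u (N + 1) := FF_mono u (by omega)
      have h3 : t • a K false ∈ FF u (N + 1) := by
        have h4 : u i false ∈ FF u (N + 1) := subset_span ⟨i, by omega, rfl⟩
        have h5 := sub_mem h4 (hlt hw')
        rwa [he, add_sub_cancel_left] at h5
      have h6 := hF1 t h3
      subst h6
      apply hc.ind i (by omega)
      rw [he, zero_smul, add_zero]
      exact hw'
    · have := hmem i _ (hc.dif i (by omega))
      simpa only [map_sub] using this
    · apply hc.dne i (by omega) hi0
      apply sub_eq_zero.1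
      apply hinj _ (FF_mono u (by omega) (hc.dif i (by omega)))
      rw [map_sub, sub_eq_zero]
      exact he
  have hcirc : Circ (m '' X) (fun i b => m (u i b)) N (fun j b => m (a j b)) K := by
    refine ⟨by omega, fun j hj b => ⟨_, h.mem j (by omega) b, rfl⟩, fun j hj => ?_,
      fun j hj he => ?_, fun hK1 => ?_, ?_, fun μ hμ i hi j hj => ?_⟩
    · have h3 := hmem N _ (hd j hj)
      rwa [map_sub] at h3
    · apply h.dne j (by omega)
      apply sub_eq_zero.1
      apply hinj _ (hu1 _ (hd j hj))
      rw [map_sub, sub_eq_zero]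
      exact he
    · -- one
      subst hK1
      have hsum2 : ∀ g : ℕ → Bool, ∑ l ∈ range 2, a l (g l) = a 0 (g 0) + a 1 (g 1) := by
        intro g
        rw [Finset.sum_range_succ, Finset.sum_range_one]
      have hne : ∀ b : Bool, a 0 b + a 1 false ≠ 0 := by
        intro b he
        apply hnv
        refine ⟨fun l => if l = 0 then b else false, ?_⟩
        rw [hsum2]
        simpa using he
      have hmin2 : ∀ (b : Bool) (t : ℚ), a 0 b = t • a 1 false → t = -1 := by
        intro b t he
        have h3 := circ_min h (fun l => if l = 0 then b else false)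
          (fun i => if i = 0 then 1 else -t) (by
            rw [Finset.sum_range_succ, Finset.sum_range_one]
            simp only [if_true, one_smul, one_ne_zero, if_false, neg_smul]
            rw [he, add_neg_cancel]
            exact zero_mem _) 0 (by omega) 1 (by omega)
        simp only [if_true, one_ne_zero, if_false] at h3
        linarith
      have hone : ∀ b : Bool, m (a 0 b) ≠ 0 := by
        intro b he
        obtain ⟨t, ht⟩ := hm0 _ he
        rw [hmin2 b t ht] at ht
        exact hne b (by rw [ht]; module)
      refine ⟨hone false, hone true, fun he => ?_⟩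
      obtain ⟨t, ht⟩ := hm0 (a 0 false + a 0 true) (by
        rw [map_add]
        exact add_eq_zero_iff_eq_neg.2 he)
      have hd0 := h.dif 0 (by omega)
      have hl : t = -2 := by
        have h3 := h.min (fun i => if i = 0 then 2 else -t) (by
          rw [Finset.sum_range_succ, Finset.sum_range_one]
          simp only [if_true, one_ne_zero, if_false]
          have h4 : (2 : ℚ) • a 0 false + -t • a 1 false = (a 0 false - a 0 true) := by
            have h5 : (2 : ℚ) • a 0 false + -t • a 1 false
              = (a 0 false + a 0 true) + (a 0 false - a 0 true) - t • a 1 false := by module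
            rw [h5, ht]
            module
          rw [h4]
          exact hd0) 0 (by omega) 1 (by omega)
        simp only [if_true, one_ne_zero, if_false] at h3
        linarith
      rw [hl] at ht
      -- `2 q = δ`
      obtain ⟨β, hβ⟩ := chain_expand hc (fun _ => false) hd0
      have hq : ∑ j ∈ range 2, a j ((fun _ : ℕ => false) j) =
          ∑ i ∈ range (N + 1), (β i / 2) • u i ((fun _ : ℕ => false) i) := by
        rw [hsum2]
        have h5 : ∑ i ∈ range (N + 1), (β i / 2) • u i ((fun _ : ℕ => false) i) =
            (1 / 2 : ℚ) • ∑ i ∈ range (N + 1), β i • u i ((fun _ : ℕ => false) i) := by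
          rw [Finset.smul_sum]
          refine Finset.sum_congr rfl fun i _ => ?_
          rw [smul_smul]
          congr 1
          ring
        rw [h5, ← hβ]
        have h6 : a 0 false + a 1 false = (1 / 2 : ℚ) • ((a 0 false + a 0 true) +
            (a 0 false - a 0 true) + (2 : ℚ) • a 1 false) := by module
        rw [h6, ht]
        module
      have hβ0 : ∀ i < N + 1, β i = 0 := by
        intro i hi
        have c1 := circ_coord hU hc h (fun _ => false) (fun _ => false) (fun i => β i / 2) hq i hi
        have c2 := diff_coord hU hc (h.mem 0 (by omega) false) (h.mem 0 (by omega) true)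
          (circ_notMem h le_rfl (by omega) false) (fun _ => false) β hβ i hi
        rcases c1 with c1 | c1 | c1 <;> rcases c2 with c2 | c2 | c2
        all_goals linarith
      apply h.dne 0 (by omega)
      rw [← sub_eq_zero, hβ]
      exact Finset.sum_eq_zero fun i hi => by rw [hβ0 i (Finset.mem_range.1 hi), zero_smul]
    · have h3 := hmem N _ hs
      rw [Finset.sum_range_succ, map_add, hmx, add_zero, map_sum] at h3
      exact h3
    · have h3 : m (∑ j ∈ range K, μ j • a j false) ∈ FF (fun i b => m (u i b)) N := by
        rw [map_sum]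
        simpa only [map_smul] using hμ
      obtain ⟨w', hw', t, he⟩ := hmem' N _ h3
      have h4 := h.min (fun i => if i < K then μ i else -t) (by
        rw [Finset.sum_range_succ]
        simp only [lt_irrefl, if_false]
        have h5 : ∑ j ∈ range K, (if j < K then μ j else -t) • a j false
            = ∑ j ∈ range K, μ j • a j false :=
          Finset.sum_congr rfl fun j hj => by rw [if_pos (Finset.mem_range.1 hj)]
        rw [h5, he]
        have h6 : w' + t • a K false + -t • a K false = w' := by module
        rw [h6]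
        exact hu1 _ hw') i (by omega) j (by omega)
      simpa only [hi, hj, if_true] using h4
  -- the relation in the quotient
  obtain ⟨α, μ, f, g, hnt, hrel, hcard⟩ := hP (V ⧸ S) (m '' X) _ _ hUX hchain hcirc
  have hrel' : m (∑ i ∈ range N, α i • u i (f i) + ∑ j ∈ range K, μ j • a j (g j)) = 0 := by
    rw [map_add, map_sum, map_sum]
    simpa only [map_smul] using hrel
  obtain ⟨t, ht⟩ := hm0 _ hrel'
  refine ⟨fun i => if i < N then α i else 0, fun j => if j < K then μ j else -t, f,
    fun j => if j < K then g j else false, ?_, ?_, ?_⟩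
  · rcases hnt with ⟨i, hi, h8⟩ | ⟨j, hj, h8⟩
    · exact Or.inl ⟨i, by omega, by simpa only [hi, if_true] using h8⟩
    · exact Or.inr ⟨j, by omega, by simpa only [hj, if_true] using h8⟩
  · rw [costSym_ext α N (fun i => u i (f i)), Finset.sum_range_succ]
    have h5 : ∑ j ∈ range K, (if j < K then μ j else -t) • a j (if j < K then g j else false)
        = ∑ j ∈ range K, μ j • a j (g j) :=
      Finset.sum_congr rfl fun j hj => by
        rw [if_pos (Finset.mem_range.1 hj), if_pos (Finset.mem_range.1 hj)]
    rw [h5]
    simp only [lt_irrefl, if_false]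
    rw [← add_assoc, ht]
    module
  · rw [costSym_extcard]
    have h5 : ((range (K + 1)).filter (fun j => (if j < K then μ j else -t) ≠ 0)).card ≤
        ((range K).filter (fun j => μ j ≠ 0)).card + 1 := by
      have h6 : (range (K + 1)).filter (fun j => (if j < K then μ j else -t) ≠ 0) ⊆
          insert K ((range K).filter (fun j => μ j ≠ 0)) := by
        intro j hj
        rw [Finset.mem_filter, Finset.mem_range] at hj
        rw [Finset.mem_insert, Finset.mem_filter, Finset.mem_range]
        by_cases hjK : j < K
        · right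
          refine ⟨hjK, ?_⟩
          have := hj.2
          rwa [if_pos hjK] at this
        · left
          omega
      exact (Finset.card_le_card h6).trans (Finset.card_insert_le _ _)
    refine (Nat.add_le_add_left h5 _).trans ?_
    omega

end RC
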