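import Pool.Agent.Helper59.RC.CostDeg
import Pool.Agent.Helper59.RC.CostSym

/-!
Module RC-C7.  `CostP (N + 1) 1`.  Let `x = a 0 false`, `y = a 0 true`, both in
`X ⊓ FF u (N+1)`, nonzero, `x ≠ ± y`.  (`dif` and `sum` give `x, y ∈ FF u (N+1)`.)
Let `cx, cy` be the coordinates at level `N`: `x - cx • u N false ∈ FF u N`; they are `0, 1, -1`
(`fst_coord`).  The bound is `1 + (N + 1) / 2`.
* `cx = cy = 0`: `Circ X u N a 1`, `CostP N 1`, `relP_succ`, bound `1 + N/2`.
* `cx = 0`, `cy ≠ 0`: `CostQ N` for `q = x`: `x = ∑ α i • u i (f i)` with at most `(N+1)/2`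
  terms; relation with `μ 0 = -1`, `g 0 = false`: at most `1 + (N+1)/2` terms.
  `cy = 0`, `cx ≠ 0`: the same with `g 0 = true`.
* both nonzero: put `s = - cx⁻¹`, `s' = - cy⁻¹` (both `± 1`) and define pairs
  `b 0 = (u N false, u N true)`, `b 1 = (s • x, s' • y)` in the unimodular set
  `X' = X ∪ {z | -z ∈ X}` (`uni_mono`).  `Circ X' u N b 2`: `s • x + u N false ∈ FF u N`,
  `s • x - s' • y ∈ FF u N`, `s • x ≠ s' • y` (as `x ≠ ± y`), `u N false ≠ u N true` (`0 < N`),
  `min`: `μ 0 • u N false + μ 1 • (s • x) ∈ FF u N` iff `μ 0 = μ 1`.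
  `CostP N 2`: relation with at most `2 + (N + 1 - 2) / 2 = 1 + (N + 1) / 2` terms (`N ≥ 1`),
  which is a relation for `N + 1`, `a` (the pair `b 0` is level `N`).
-/

namespace RC

open Submodule Module Finset

private theorem cs1_expand {V : Type} [AddCommGroup V] [Module ℚ V] {u : ℕ → Bool → V} {N : ℕ}
    {x : V} (hx : x ∈ FF u (N + 1)) : ∃ c : ℚ, x - c • u N false ∈ FF u N := by
  rw [FF_succ, Submodule.mem_sup] at hx
  obtain ⟨y, hy, z, hz, rfl⟩ := hx
  obtain ⟨c, rfl⟩ := Submodule.mem_span_singleton.1 hz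
  exact ⟨c, by rw [add_sub_cancel_right]; exact hy⟩

private theorem cs1_coord {V : Type} [AddCommGroup V] [Module ℚ V] {X : Set V} (hU : Uni X)
    {u : ℕ → Bool → V} {N : ℕ} (hc : Chain X u (N + 1)) (hcN : Chain X u N) {x : V} (hx : x ∈ X)
    {c : ℚ} (h : x - c • u N false ∈ FF u N) : c = 0 ∨ c = 1 ∨ c = -1 := by
  obtain ⟨α, hα⟩ := chain_expand hcN (fun _ => false) h
  have h1 := fst_coord hU hc hx (fun _ => false) (fun i => if i < N then α i else c) (by
    rw [Finset.sum_range_succ, if_neg (lt_irrefl N)]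
    have h2 : ∑ i ∈ range N, (if i < N then α i else c) • u i false =
        ∑ i ∈ range N, α i • u i false := by
      refine Finset.sum_congr rfl fun i hi => ?_
      rw [if_pos (Finset.mem_range.1 hi)]
    rw [h2, ← hα, sub_add_cancel])
  have h3 := h1 N (Nat.lt_succ_self N)
  rwa [if_neg (lt_irrefl N)] at h3

private theorem cs1_chain {V : Type} [AddCommGroup V] [Module ℚ V] {X X' : Set V}
    {u : ℕ → Bool → V} {N : ℕ} (hc : Chain X u (N + 1)) (hX : X ⊆ X') : Chain X' u N where
  mem i hi b := hX (hc.mem i (by omega) b)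
  ind i hi := hc.ind i (by omega)
  dif i hi := hc.dif i (by omega)
  dne i hi h0 := hc.dne i (by omega) h0

private theorem cs1_easy {V : Type} [AddCommGroup V] [Module ℚ V] {X : Set V} (hU : Uni X)
    {u a : ℕ → Bool → V} {N : ℕ} (hQ : CostQ N) (hcN : Chain X u N) (b : Bool)
    (hx : a 0 b ∈ X) (hF : a 0 b ∈ FF u N) (h0 : a 0 b ≠ 0) :
    RelP u a (N + 1) 1 (1 + (N + 1) / 2) := by
  obtain ⟨α, f, h1, h2⟩ := hQ V X u (a 0 b) hU hcN hx hF h0
  apply relP_succ
  refine ⟨α, fun _ => -1, f, fun _ => b, Or.inr ⟨0, by norm_num, by norm_num⟩, ?_, ?_⟩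
  · rw [← h1, Finset.sum_range_one, neg_one_smul, add_neg_cancel]
  · exact (Nat.add_le_add h2 ((Finset.card_filter_le _ _).trans
      (le_of_eq (Finset.card_range 1)))).trans (by omega)

theorem costP_succ_one {N : ℕ} (hN : 1 ≤ N) (hQ : CostQ N) (hP : CostP N 1) (hP2 : CostP N 2) :
    CostP (N + 1) 1 := by
  intro V _ _ X u a hU hc h
  have hcN : Chain X u N := cs1_chain hc (fun _ hx => hx)
  have hbd : 1 + (N + 1 + 1 - 1) / 2 = 1 + (N + 1) / 2 := rfl
  rw [hbd]
  have hxX : a 0 false ∈ X := h.mem 0 h.pos false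
  have hyX : a 0 true ∈ X := h.mem 0 h.pos true
  obtain ⟨hx0, hy0, hxy⟩ := h.one rfl
  have hne : a 0 false ≠ a 0 true := h.dne 0 h.pos
  have hxF : a 0 false ∈ FF u (N + 1) := by
    have := h.sum
    rwa [Finset.sum_range_one] at this
  have hyF : a 0 true ∈ FF u (N + 1) := by
    have h1 := (FF u (N + 1)).sub_mem hxF (h.dif 0 h.pos)
    rwa [sub_sub_cancel] at h1
  obtain ⟨cx, hcx⟩ := cs1_expand hxF
  obtain ⟨cy, hcy⟩ := cs1_expand hyF
  have hcx1 := cs1_coord hU hc hcN hxX hcx
  have hcy1 := cs1_coord hU hc hcN hyX hcy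
  by_cases hcx0 : cx = 0
  · refine cs1_easy hU hQ hcN false hxX ?_ hx0
    rwa [hcx0, zero_smul, sub_zero] at hcx
  by_cases hcy0 : cy = 0
  · refine cs1_easy hU hQ hcN true hyX ?_ hy0
    rwa [hcy0, zero_smul, sub_zero] at hcy
  have hcx2 : cx = 1 ∨ cx = -1 := hcx1.resolve_left hcx0
  have hcy2 : cy = 1 ∨ cy = -1 := hcy1.resolve_left hcy0
  set sx : ℚ := -cx with hsx
  set sy : ℚ := -cy with hsy
  have hxs : sx • a 0 false + u N false ∈ FF u N := by
    have h1 := (FF u N).smul_mem sx hcx
    have h2 : sx • (a 0 false - cx • u N false) = sx • a 0 false + u N false := by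
      rw [smul_sub, smul_smul]
      have : sx * cx = -1 := by rcases hcx2 with h | h <;> rw [hsx, h] <;> norm_num
      rw [this, neg_one_smul, sub_neg_eq_add]
    rwa [h2] at h1
  have hys : sy • a 0 true + u N false ∈ FF u N := by
    have h1 := (FF u N).smul_mem sy hcy
    have h2 : sy • (a 0 true - cy • u N false) = sy • a 0 true + u N false := by
      rw [smul_sub, smul_smul]
      have : sy * cy = -1 := by rcases hcy2 with h | h <;> rw [hsy, h] <;> norm_num
      rw [this, neg_one_smul, sub_neg_eq_add]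
    rwa [h2] at h1
  have hsx1 : sx = 1 ∨ sx = -1 := by
    rcases hcx2 with h | h
    · right; rw [hsx, h]
    · left; rw [hsx, h, neg_neg]
  have hsy1 : sy = 1 ∨ sy = -1 := by
    rcases hcy2 with h | h
    · right; rw [hsy, h]
    · left; rw [hsy, h, neg_neg]
  let b : ℕ → Bool → V := fun j t => if j = 0 then u N t else
    (if t then sy • a 0 true else sx • a 0 false)
  have hb0 : ∀ t, b 0 t = u N t := fun t => rfl
  have hb1f : b 1 false = sx • a 0 false := rfl
  have hb1t : b 1 true = sy • a 0 true := rfl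
  have hU' : Uni (X ∪ {z | -z ∈ X}) := uni_mono hU (fun x hx => by
    rcases hx with hx | hx
    · exact Or.inr (Or.inl hx)
    · exact Or.inr (Or.inr hx))
  have hsgn : ∀ (t : ℚ) (x : V), (t = 1 ∨ t = -1) → x ∈ X → t • x ∈ X ∪ {z | -z ∈ X} := by
    rintro t x (rfl | rfl) hx
    · left; rwa [one_smul]
    · right
      show -((-1 : ℚ) • x) ∈ X
      rwa [neg_one_smul, neg_neg]
  have hcirc : Circ (X ∪ {z | -z ∈ X}) u N b 2 := by
    refine ⟨by norm_num, ?_, ?_, ?_, ?_, ?_, ?_⟩
    · intro j hj t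
      rcases Nat.eq_zero_or_pos j with rfl | hj0
      · exact Or.inl (hc.mem N (Nat.lt_succ_self N) t)
      · have : j = 1 := by omega
        subst this
        cases t
        · rw [hb1f]; exact hsgn _ _ hsx1 hxX
        · rw [hb1t]; exact hsgn _ _ hsy1 hyX
    · intro j hj
      rcases Nat.eq_zero_or_pos j with rfl | hj0
      · exact hc.dif N (Nat.lt_succ_self N)
      · have : j = 1 := by omega
        subst this
        rw [hb1f, hb1t]
        have h1 := (FF u N).sub_mem hxs hys
        rwa [add_sub_add_right_eq_sub] at h1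
    · intro j hj
      rcases Nat.eq_zero_or_pos j with rfl | hj0
      · exact hc.dne N (Nat.lt_succ_self N) hN
      · have : j = 1 := by omega
        subst this
        rw [hb1f, hb1t]
        intro he
        rcases hsx1 with h1 | h1 <;> rcases hsy1 with h2 | h2 <;>
          rw [h1, h2] at he <;> simp only [one_smul, neg_one_smul] at he
        · exact hne he
        · exact hxy he
        · exact hxy (by rw [← he, neg_neg])
        · exact hne (neg_injective he)
    · intro h1
      exact absurd h1 (by norm_num)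
    · rw [Finset.sum_range_succ, Finset.sum_range_one, hb0, hb1f, add_comm]
      exact hxs
    · intro μ hμ
      rw [Finset.sum_range_succ, Finset.sum_range_one, hb0, hb1f] at hμ
      have h1 : (μ 0 - μ 1) • u N false ∈ FF u N := by
        have h2 := (FF u N).sub_mem hμ ((FF u N).smul_mem (μ 1) hxs)
        have h3 : μ 0 • u N false + μ 1 • sx • a 0 false -
            μ 1 • (sx • a 0 false + u N false) = (μ 0 - μ 1) • u N false := by
          rw [smul_add, sub_smul]; abel
        rwa [h3] at h2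
      have h4 : μ 0 = μ 1 := by
        by_contra hne'
        have h5 : μ 0 - μ 1 ≠ 0 := sub_ne_zero.2 hne'
        have h6 := (FF u N).smul_mem (μ 0 - μ 1)⁻¹ h1
        rw [smul_smul, inv_mul_cancel₀ h5, one_smul] at h6
        exact hc.ind N (Nat.lt_succ_self N) h6
      intro i hi j hj
      have hi' : i = 0 ∨ i = 1 := by omega
      have hj' : j = 0 ∨ j = 1 := by omega
      rcases hi' with rfl | rfl <;> rcases hj' with rfl | rfl
      · rfl
      · exact h4
      · exact h4.symm
      · rfl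
  obtain ⟨α, μ, f, g, h1, h2, h3⟩ := hP2 V _ u b hU' (cs1_chain hc (fun _ hx => Or.inl hx)) hcirc
  set sg : ℚ := if g 1 then sy else sx with hsg
  have hsg0 : sg ≠ 0 := by
    rw [hsg]
    cases g 1
    · rcases hsx1 with h | h <;> simp [h]
    · rcases hsy1 with h | h <;> simp [h]
  have hbg : b 1 (g 1) = sg • a 0 (g 1) := by
    rw [hsg]
    cases g 1
    · rw [hb1f]; simp
    · rw [hb1t]; simp
  have e1 : ∑ i ∈ range (N + 1), (if i < N then α i else μ 0) • u i (if i < N then f i else g 0) =
      ∑ i ∈ range N, α i • u i (f i) + μ 0 • u N (g 0) := by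
    rw [Finset.sum_range_succ, if_neg (lt_irrefl N), if_neg (lt_irrefl N)]
    congr 1
    refine Finset.sum_congr rfl fun i hi => ?_
    rw [if_pos (Finset.mem_range.1 hi), if_pos (Finset.mem_range.1 hi)]
  have e2 : ((range (N + 1)).filter (fun i => (if i < N then α i else μ 0) ≠ 0)).card =
      ((range N).filter (fun i => α i ≠ 0)).card + (if μ 0 ≠ 0 then 1 else 0) := by
    rw [Finset.range_add_one, Finset.filter_insert]
    have h4 : (range N).filter (fun i => (if i < N then α i else μ 0) ≠ 0) =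
        (range N).filter (fun i => α i ≠ 0) := by
      refine Finset.filter_congr fun i hi => ?_
      rw [if_pos (Finset.mem_range.1 hi)]
    rw [h4, if_neg (lt_irrefl N)]
    by_cases h5 : μ 0 = 0
    · simp [h5]
    · rw [if_pos h5, if_pos h5, Finset.card_insert_of_notMem]
      simp
  have e3 : ((range 2).filter (fun j => μ j ≠ 0)).card =
      (if μ 0 ≠ 0 then 1 else 0) + (if μ 1 ≠ 0 then 1 else 0) := by
    have h4 : range 2 = {0, 1} := by decide
    rw [h4, Finset.filter_insert, Finset.filter_singleton]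
    by_cases h5 : μ 0 = 0 <;> by_cases h6 : μ 1 = 0 <;> simp [h5, h6]
  have e4 : ((range 1).filter (fun _ => μ 1 * sg ≠ 0)).card = (if μ 1 ≠ 0 then 1 else 0) := by
    by_cases h6 : μ 1 = 0
    · simp [h6]
    · have h7 : μ 1 * sg ≠ 0 := mul_ne_zero h6 hsg0
      simp [h6, hsg0]
  refine ⟨fun i => if i < N then α i else μ 0, fun _ => μ 1 * sg,
    fun i => if i < N then f i else g 0, fun _ => g 1, ?_, ?_, ?_⟩
  · rcases h1 with ⟨i, hi, h1⟩ | ⟨j, hj, h1⟩
    · left
      refine ⟨i, by omega, ?_⟩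
      simp only [if_pos hi]
      exact h1
    · have hj' : j = 0 ∨ j = 1 := by omega
      rcases hj' with rfl | rfl
      · left
        refine ⟨N, Nat.lt_succ_self N, ?_⟩
        simp only [lt_irrefl, if_false]
        exact h1
      · right
        exact ⟨0, by norm_num, mul_ne_zero h1 hsg0⟩
  · rw [e1, Finset.sum_range_one, mul_smul, ← hbg, add_assoc]
    rw [Finset.sum_range_succ, Finset.sum_range_one, hb0] at h2
    exact h2
  · rw [e2, e4]
    rw [e3] at h3
    omega

end RC
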