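import Pool.Agent.Helper59.RC.CostDeg
import Pool.Agent.Helper59.RC.CostSym
import Pool.Agent.Helper59.RC.UniQuot

/-!
Module RC-C6.  `CostQ N`, `CostP N 1`, `1 ≤ N` imply `CostQ (N + 1)`.

Let `q ∈ X ⊓ FF u (N+1)`, `q ≠ 0`, `q - c • u N false ∈ FF u N`.
* `c = 0`: `CostQ N`, `relQ_succ`, `(N + 1)/2 ≤ (N + 2)/2`.
* `c ≠ 0`: by `fst_coord` `c = ± 1`.  If `q = ± u N b` for some `b`, done (one level).
  Otherwise let `m = mkQ (span {q})`, `X' = m '' X` (unimodular by `uni_con` with `S = {q}`),
  `u' i b = m (u i b)`, and `a' 0 b = m (u N b)` (any value for other indices), `k = 1`.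
  `FF u N ⊓ span {q} = ⊥` (as `c ≠ 0`), so `m` is injective on `FF u N` and
  `FF u' i = (FF u i).map m`.
  `Chain X' u' N`: clear (`u i false ∉ FF u i ⊔ span {q}` because `q ∉ FF u N` and `i < N`).
  `Circ X' u' N a' 1`: `dif`: `u N false - u N true ∈ FF u N`; `dne`: this difference is nonzero
  (`0 < N`) and in `FF u N`, so its image is nonzero; `sum`: `m (u N false)`
  `= m (u N false - c⁻¹ • q) ∈ (FF u N).map m`; `min` trivial.  `one`: `m (u N b) ≠ 0`, as
  `u N b = t • q` would give `u N b = ± q` (`uni_par`).  Suppose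
  `m (u N false) = - m (u N true)`: `u N false + u N true = t • q`, modulo `FF u N`:
  `2 = t c`, so `t = 2 c` (`c = ± 1`) and `d = u N false - u N true`
  `= 2 • (u N false - c • q)`.  In a basis `u i (f i)` (`i < N`) the coordinates of `d` are
  `0,1,-1` (`diff_coord` with `e = u N false`), those of `u N false - c • q` also
  (`diff_coord` with `e = u N false`, `e' = c • q`, allow `-q ∈ X` by replacing `X` by
  `X ∪ -X`, or `fst_coord` for `q` with the basis `u i (f i)`, `i < N + 1`), so `d = 0`,
  contradiction.
  `CostP N 1` gives a nontrivial relation `∑ α i • u i (f i) + μ • u N (g 0) = t • q` with at most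
  `1 + N / 2` nonzero coefficients.  `t ≠ 0`, since the levels `0..N` are independent
  (`chain_li` for `N + 1`).  Divide by `t`: `RelQ u q (N+1) (1 + N/2)` and
  `1 + N / 2 = (N + 2) / 2`.
-/

namespace RC

open Submodule Module Finset

theorem costQ_succ {N : ℕ} (hN : 1 ≤ N) (hQ : CostQ N) (hP : CostP N 1) : CostQ (N + 1) := by
  intro V _ _ X u q hU hc hqX hq hq0
  classical
  have hcN : Chain X u N :=
    { mem := fun i hi b => hc.mem i (by omega) b
      ind := fun i hi => hc.ind i (by omega)
      dif := fun i hi => hc.dif i (by omega)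
      dne := fun i hi h0 => hc.dne i (by omega) h0 }
  have hNnot : u N false ∉ FF u N := hc.ind N (by omega)
  have hδ : u N false - u N true ∈ FF u N := hc.dif N (by omega)
  have hNnot' : u N true ∉ FF u N := by
    intro h
    apply hNnot
    have := add_mem hδ h
    rwa [sub_add_cancel] at this
  obtain ⟨w, hw, y, hy, hwy⟩ := Submodule.mem_sup.1 (FF_succ u N ▸ hq)
  obtain ⟨c, rfl⟩ := mem_span_singleton.1 hy
  by_cases hc0 : c = 0
  · subst hc0
    have hqw : q = w := by rw [← hwy, zero_smul, add_zero]
    obtain ⟨α, f, h1, h2⟩ := relQ_succ (hQ V X u q hU hcN hqX (hqw ▸ hw) hq0)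
    exact ⟨α, f, h1, h2.trans (by omega)⟩
  have hqnot : q ∉ FF u N := by
    intro h
    apply hNnot
    have h1 : c • u N false ∈ FF u N := by
      have : c • u N false = q - w := by rw [← hwy]; abel
      rw [this]
      exact sub_mem h hw
    have h2 := Submodule.smul_mem _ c⁻¹ h1
    rwa [smul_smul, inv_mul_cancel₀ hc0, one_smul] at h2
  -- coordinates of `q`
  obtain ⟨α, hα⟩ := chain_expand hcN (fun _ => false) hw
  have hcoord : ∀ i < N + 1, (if i = N then c else α i) = 0 ∨ (if i = N then c else α i) = 1 ∨
      (if i = N then c else α i) = -1 := by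
    refine fst_coord hU hc hqX (fun _ => false) (fun i => if i = N then c else α i) ?_
    rw [sum_range_succ, if_pos rfl, ← hwy, hα]
    congr 1
    refine sum_congr rfl fun i hi => ?_
    rw [if_neg (ne_of_lt (mem_range.1 hi))]
  have hcc : c = 1 ∨ c = -1 := by
    rcases hcoord N (by omega) with h | h | h <;> rw [if_pos rfl] at h
    · exact absurd h hc0
    · exact Or.inl h
    · exact Or.inr h
  have hcoordα : ∀ i < N, α i = 0 ∨ α i = 1 ∨ α i = -1 := by
    intro i hi
    have := hcoord i (by omega)
    rwa [if_neg (ne_of_lt hi)] at this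
  have hc2 : c * c = 1 := by rcases hcc with h | h <;> rw [h] <;> norm_num
  by_cases hone : ∃ b, q = u N b ∨ q = -u N b
  · obtain ⟨b, hb⟩ := hone
    have h1 : ∃ s : ℚ, q = s • u N b := by
      rcases hb with hb | hb
      · exact ⟨1, by rw [one_smul]; exact hb⟩
      · exact ⟨-1, by rw [neg_smul, one_smul]; exact hb⟩
    obtain ⟨s, hs⟩ := h1
    refine ⟨fun i => if i = N then s else 0, fun _ => b, ?_, ?_⟩
    · rw [sum_range_succ]
      beta_reduce
      rw [if_pos rfl, sum_eq_zero, zero_add]
      · exact hs
      · intro i hi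
        rw [if_neg (ne_of_lt (mem_range.1 hi)), zero_smul]
    · have : ((range (N + 1)).filter (fun i => (if i = N then s else 0) ≠ 0)) ⊆ {N} := by
        intro i hi
        rw [mem_filter] at hi
        by_contra h
        rw [mem_singleton] at h
        exact hi.2 (if_neg h)
      refine (card_le_card this).trans ?_
      rw [card_singleton]
      omega
  push Not at hone
  -- the quotient
  set m : V →ₗ[ℚ] (V ⧸ span ℚ {q}) := (span ℚ {q}).mkQ with hm
  have hker : ∀ y : V, m y = 0 → ∃ t : ℚ, t • q = y := by
    intro y hy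
    have : y ∈ span ℚ {q} := by
      rw [hm, mkQ_apply, Submodule.Quotient.mk_eq_zero] at hy
      exact hy
    exact mem_span_singleton.1 this
  have hmq : m q = 0 := by
    rw [hm, mkQ_apply, Submodule.Quotient.mk_eq_zero]
    exact mem_span_singleton_self q
  have hinj : ∀ y ∈ FF u N, m y = 0 → y = 0 := by
    intro y hy h0
    obtain ⟨t, ht⟩ := hker y h0
    by_cases ht0 : t = 0
    · rw [← ht, ht0, zero_smul]
    · exfalso
      apply hqnot
      have h2 := Submodule.smul_mem _ t⁻¹ hy
      rwa [← ht, smul_smul, inv_mul_cancel₀ ht0, one_smul] at h2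
  have hU' : Uni (m '' X) := by
    refine uni_con m hU (S := {q}) (Set.singleton_subset_iff.2 hqX) ?_ ?_
    · intro s hs
      rw [Set.mem_singleton_iff] at hs
      rw [hs, hmq]
    · intro y _ hy
      obtain ⟨t, ht⟩ := hker y hy
      exact mem_span_singleton.2 ⟨t, ht⟩
  have hFF : ∀ i, FF (fun i b => m (u i b)) i = (FF u i).map m := by
    intro i
    unfold FF
    rw [Submodule.map_span]
    congr 1
    ext z
    constructor
    · rintro ⟨j, hj, rfl⟩
      exact ⟨u j false, ⟨j, hj, rfl⟩, rfl⟩
    · rintro ⟨_, ⟨j, hj, rfl⟩, rfl⟩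
      exact ⟨j, hj, rfl⟩
  have hc' : Chain (m '' X) (fun i b => m (u i b)) N := by
    refine ⟨fun i hi b => ⟨_, hcN.mem i hi b, rfl⟩, ?_, ?_, ?_⟩
    · intro i hi h
      rw [hFF] at h
      obtain ⟨z, hz, hzi⟩ := h
      have h1 : u i false - z = 0 := by
        refine hinj _ (sub_mem ?_ (FF_mono u (by omega) hz)) ?_
        · exact subset_span ⟨i, hi, rfl⟩
        · rw [map_sub, hzi, sub_self]
      rw [sub_eq_zero] at h1
      exact hcN.ind i hi (h1 ▸ hz)
    · intro i hi
      rw [hFF, ← map_sub]
      exact ⟨_, hcN.dif i hi, rfl⟩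
    · intro i hi h0 h
      have h1 : u i false - u i true = 0 := by
        refine hinj _ (FF_mono u (by omega) (hcN.dif i hi)) ?_
        rw [map_sub]
        exact sub_eq_zero.2 h
      exact hcN.dne i hi h0 (sub_eq_zero.1 h1)
  have hNX : ∀ b, u N b ∈ X := fun b => hc.mem N (by omega) b
  have hNne : ∀ b, u N b ≠ 0 := by
    intro b h
    cases b
    · exact hNnot (h ▸ zero_mem _)
    · exact hNnot' (h ▸ zero_mem _)
  have hmne : ∀ b, m (u N b) ≠ 0 := by
    intro b h
    obtain ⟨t, ht⟩ := hker _ h
    have h1 : ¬ LinearIndependent ℚ ![q, u N b] := by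
      rw [LinearIndependent.pair_iff' hq0]
      push Not
      exact ⟨t, ht⟩
    rcases uni_par hU hqX (hNX b) hq0 (hNne b) h1 with h2 | h2
    · exact (hone b).1 h2.symm
    · apply (hone b).2
      rw [h2, neg_neg]
  have hcirc : Circ (m '' X) (fun i b => m (u i b)) N (fun _ b => m (u N b)) 1 := by
    refine ⟨one_pos, fun j _ b => ⟨_, hNX b, rfl⟩, ?_, ?_, ?_, ?_, ?_⟩
    · intro j _
      rw [hFF, ← map_sub]
      exact ⟨_, hδ, rfl⟩
    · intro j _ h
      have h1 : u N false - u N true = 0 := by
        refine hinj _ hδ ?_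
        rw [map_sub]
        exact sub_eq_zero.2 h
      exact hc.dne N (by omega) (by omega) (sub_eq_zero.1 h1)
    · intro _
      refine ⟨hmne false, hmne true, ?_⟩
      intro h
      have h1 : m (u N false + u N true) = 0 := by
        rw [map_add]
        exact eq_neg_iff_add_eq_zero.1 h
      obtain ⟨t, ht⟩ := hker _ h1
      -- `t * c = 2`
      have h2 : (2 - t * c) • u N false ∈ FF u N := by
        have : (2 - t * c) • u N false = t • w + (u N false - u N true) := by
          have h3 : u N true = t • q - u N false := by rw [ht]; abel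
          rw [h3, ← hwy]
          module
        rw [this]
        exact add_mem (Submodule.smul_mem _ _ hw) hδ
      have h3 : 2 - t * c = 0 := by
        by_contra h4
        apply hNnot
        have h5 := Submodule.smul_mem _ (2 - t * c)⁻¹ h2
        rwa [smul_smul, inv_mul_cancel₀ h4, one_smul] at h5
      have htc : t = 2 * c := by
        have : t * (c * c) = 2 * c := by
          have : t * c = 2 := by linarith
          rw [← mul_assoc, this]
        rwa [hc2, mul_one] at this
      have hd : u N false - u N true = ∑ i ∈ range N, (-(2 * c) * α i) • u i false := by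
        have h3 : u N true = t • q - u N false := by rw [ht]; abel
        have h4 : u N false - u N true = -(2 * c) • w := by
          rw [h3, ← hwy, htc]
          have : ((2 * c) * c) • u N false = (2 : ℚ) • u N false := by
            rw [mul_assoc, hc2, mul_one]
          rw [smul_add, smul_smul, this]
          module
        rw [h4, hα, smul_sum]
        refine sum_congr rfl fun i _ => ?_
        rw [smul_smul]
      have h5 := diff_coord hU hcN (hNX false) (hNX true) hNnot (fun _ => false) _ hd
      have h6 : ∀ i < N, α i = 0 := by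
        intro i hi
        have h7 := h5 i hi
        rcases hcoordα i hi with h8 | h8 | h8
        · exact h8
        · exfalso
          rw [h8] at h7
          rcases hcc with h9 | h9 <;> rw [h9] at h7 <;> norm_num at h7
        · exfalso
          rw [h8] at h7
          rcases hcc with h9 | h9 <;> rw [h9] at h7 <;> norm_num at h7
      have h7 : u N false - u N true = 0 := by
        rw [hd]
        refine sum_eq_zero fun i hi => ?_
        rw [h6 i (mem_range.1 hi), mul_zero, zero_smul]
      exact hc.dne N (by omega) (by omega) (sub_eq_zero.1 h7)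
    · rw [sum_range_one, hFF]
      refine ⟨-(c⁻¹ • w), neg_mem (Submodule.smul_mem _ _ hw), ?_⟩
      have h1 : -(c⁻¹ • w) = u N false - c⁻¹ • q := by
        rw [← hwy, smul_add, smul_smul, inv_mul_cancel₀ hc0, one_smul]
        abel
      rw [h1, map_sub, map_smul, hmq, smul_zero, sub_zero]
    · intro μ _ i hi j hj
      have h1 : i = 0 := by omega
      have h2 : j = 0 := by omega
      rw [h1, h2]
  obtain ⟨β, μ, f, g, hnt, hsum, hcard⟩ := hP _ (m '' X) _ _ hU' hc' hcirc
  rw [sum_range_one] at hsum
  have hsum' : m (∑ i ∈ range N, β i • u i (f i) + μ 0 • u N (g 0)) = 0 := by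
    rw [map_add, map_sum, map_smul]
    simp only [map_smul]
    exact hsum
  obtain ⟨t, ht⟩ := hker _ hsum'
  set β' : ℕ → ℚ := fun i => if i = N then μ 0 else β i with hβ'
  set f' : ℕ → Bool := fun i => if i = N then g 0 else f i with hf'
  have hsumN : ∑ i ∈ range (N + 1), β' i • u i (f' i) = t • q := by
    rw [sum_range_succ, ht]
    simp only [hβ', hf', if_true]
    congr 1
    refine sum_congr rfl fun i hi => ?_
    rw [if_neg (ne_of_lt (mem_range.1 hi)), if_neg (ne_of_lt (mem_range.1 hi))]
  have ht0 : t ≠ 0 := by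
    rintro rfl
    rw [zero_smul] at hsumN
    have h1 := linearIndepOn_finset_iff.1 (chain_li hc f') β' hsumN
    rcases hnt with ⟨i, hi, hi0⟩ | ⟨j, hj, hj0⟩
    · have h2 := h1 i (mem_range.2 (by omega))
      rw [hβ'] at h2
      simp only [if_neg (ne_of_lt hi)] at h2
      exact hi0 h2
    · have hj' : j = 0 := by omega
      subst hj'
      have h2 := h1 N (mem_range.2 (by omega))
      rw [hβ'] at h2
      simp only [if_true] at h2
      exact hj0 h2
  refine ⟨fun i => t⁻¹ * β' i, f', ?_, ?_⟩
  · have h1 : q = t⁻¹ • (t • q) := by rw [smul_smul, inv_mul_cancel₀ ht0, one_smul]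
    rw [h1, ← hsumN, smul_sum]
    refine sum_congr rfl fun i _ => ?_
    rw [smul_smul]
  · have h1 : ((range (N + 1)).filter (fun i => t⁻¹ * β' i ≠ 0)) ⊆
        ((range N).filter (fun i => β i ≠ 0)) ∪
          (((range 1).filter (fun j => μ j ≠ 0)).image (fun _ => N)) := by
      intro i hi
      rw [mem_filter, mem_range] at hi
      rw [mem_union, mem_filter, mem_image, mem_range]
      have h2 : β' i ≠ 0 := right_ne_zero_of_mul hi.2
      by_cases hiN : i = N
      · right
        refine ⟨0, ?_, hiN.symm⟩
        rw [mem_filter]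
        refine ⟨by simp, ?_⟩
        rw [hβ'] at h2
        simpa only [if_pos hiN] using h2
      · left
        refine ⟨by omega, ?_⟩
        rw [hβ'] at h2
        simpa only [if_neg hiN] using h2
    refine (card_le_card h1).trans ((card_union_le _ _).trans ?_)
    have h2 := card_image_le (s := (range 1).filter (fun j => μ j ≠ 0)) (f := fun _ => N)
    omega

end RC
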