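import Pool.Agent.Helper59.RC.CostBase
import Pool.Agent.Helper59.RC.CostStepQ
import Pool.Agent.Helper59.RC.CostStep1
import Pool.Agent.Helper59.RC.CostAB
import Pool.Agent.Helper59.RC.CostC
import Pool.Agent.Helper59.RC.CostD

/-!
Module RC-C13.  Assembly of the cost lemma: induction on `N ≥ 1` of
`CostQ N ∧ ∀ k ≥ 1, CostP N k`.  Step: `costQ_succ`, `costP_succ_one`; for `k ≥ 2` let
`γ, c0` be as in `dirs`.
* all `γ j = 0`: `hval` with `S = ∅` gives `c0 ∈ {0,1,-1}`: `costA` or `costB`.
* exactly one, `γ i ≠ 0`: `c0` and `c0 - γ i` are in `{0,1,-1}`; they are different.  If neither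
  is `0` then they are `1, -1` and `γ i = ± 2`, impossible.  Let `τ i = (c0 ≠ 0)` (flip the pair
  `i` if `c0 ≠ 0`), `σ` = the transposition of `i` and `k - 1`.  After `circ_flip`, `circ_perm`
  the sum of all first vectors is in `FF u N` and the differences of all pairs but the last are in
  `FF u N`: `costC`, then `relP_perm`, `relP_flip`.
* exactly two, `γ i, γ i' ≠ 0`: choose `σ` with `σ 0 = i`, `σ (k-1) = i'` (`i ≠ i'`, `k ≥ 2`)
  and use `costD` with `γ ∘ σ`.
-/

namespace RC

open Submodule Module Finset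

private theorem ca_swap {k p q : ℕ} (hp : p < k) (hq : q < k) (j : ℕ) :
    j < k ↔ Equiv.swap p q j < k := by
  by_cases h1 : j = p
  · subst h1
    rw [Equiv.swap_apply_left]
    exact ⟨fun _ => hq, fun _ => hp⟩
  · by_cases h2 : j = q
    · subst h2
      rw [Equiv.swap_apply_right]
      exact ⟨fun _ => hp, fun _ => hq⟩
    · rw [Equiv.swap_apply_of_ne_of_ne h1 h2]

private theorem ca_one {V : Type} [AddCommGroup V] [Module ℚ V] {X : Set V} (hU : Uni X)
    {u a : ℕ → Bool → V} {N K : ℕ} (hK : 1 ≤ K) (hP : CostP N K) (hc : Chain X u (N + 1))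
    (h : Circ X u (N + 1) a (K + 1)) (γ : ℕ → ℚ) (c0 : ℚ)
    (hγ : ∀ j < K + 1, (a j false - a j true) - γ j • u N false ∈ FF u N)
    (hc0 : (∑ j ∈ range (K + 1), a j false) - c0 • u N false ∈ FF u N)
    (hγv : ∀ j < K + 1, γ j = 0 ∨ γ j = 1 ∨ γ j = -1)
    (hval : ∀ S ⊆ range (K + 1), c0 - ∑ j ∈ S, γ j = 0 ∨ c0 - ∑ j ∈ S, γ j = 1 ∨
        c0 - ∑ j ∈ S, γ j = -1)
    {i : ℕ} (hi : i < K + 1) (hi0 : γ i ≠ 0) (hoth : ∀ j < K + 1, j ≠ i → γ j = 0) :
    RelP u a (N + 1) (K + 1) (K + 1 + (N + 2 - (K + 1)) / 2) := by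
  have hv1 : c0 = 0 ∨ c0 = 1 ∨ c0 = -1 := by
    have := hval ∅ (empty_subset _)
    rwa [sum_empty, sub_zero] at this
  have hv2 : c0 - γ i = 0 ∨ c0 - γ i = 1 ∨ c0 - γ i = -1 := by
    have := hval {i} (singleton_subset_iff.2 (mem_range.2 hi))
    rwa [sum_singleton] at this
  have hγi : γ i = 1 ∨ γ i = -1 := (hγv i hi).resolve_left hi0
  have hor : c0 = 0 ∨ c0 = γ i := by
    rcases hv1 with h1 | h1 | h1
    · exact Or.inl h1
    · right
      rcases hγi with h2 | h2
      · rw [h1, h2]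
      · exfalso
        rw [h1, h2] at hv2
        norm_num at hv2
    · right
      rcases hγi with h2 | h2
      · exfalso
        rw [h1, h2] at hv2
        norm_num at hv2
      · rw [h1, h2]
  -- a choice of one vector in the pair `i`
  obtain ⟨t, ht⟩ : ∃ t : Bool, (∑ j ∈ range (K + 1), a j (if j = i then t else false)) ∈
      FF u N := by
    rcases hor with h1 | h1
    · refine ⟨false, ?_⟩
      have h2 : ∑ j ∈ range (K + 1), a j (if j = i then false else false) =
          (∑ j ∈ range (K + 1), a j false) - c0 • u N false := by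
        rw [h1, zero_smul, sub_zero]
        refine sum_congr rfl fun j _ => ?_
        rw [ite_self]
      rw [h2]
      exact hc0
    · refine ⟨true, ?_⟩
      have h2 : ∑ j ∈ range (K + 1), a j (if j = i then true else false) =
          ((∑ j ∈ range (K + 1), a j false) - c0 • u N false) -
            ((a i false - a i true) - γ i • u N false) := by
        rw [← Finset.add_sum_erase (range (K + 1)) (fun j => a j false) (mem_range.2 hi),
          ← Finset.add_sum_erase (range (K + 1)) (fun j => a j (if j = i then true else false))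
            (mem_range.2 hi)]
        have h3 : ∑ j ∈ (range (K + 1)).erase i, a j (if j = i then true else false) =
            ∑ j ∈ (range (K + 1)).erase i, a j false := by
          refine sum_congr rfl fun j hj => ?_
          rw [if_neg (ne_of_mem_erase hj)]
        rw [h3, if_pos rfl, h1]
        abel
      rw [h2]
      exact sub_mem hc0 (hγ i hi)
  set τ : ℕ → Bool := fun j => if j = i then t else false with hτ
  have hσ : ∀ j, j < K + 1 ↔ Equiv.swap i K j < K + 1 := ca_swap hi (Nat.lt_succ_self K)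
  have h1 := circ_perm (circ_flip h τ) (Equiv.swap i K) hσ
  refine relP_flip τ (relP_perm (Equiv.swap i K) hσ (costC hU hK hP hc h1 ?_ ?_))
  · intro j hj
    have hne : Equiv.swap i K j ≠ i := by
      intro h2
      have h3 : j = K := by
        have h4 := congrArg (Equiv.swap i K) h2
        rwa [Equiv.swap_apply_self, Equiv.swap_apply_left] at h4
      omega
    have hlt : Equiv.swap i K j < K + 1 := (hσ j).1 (by omega)
    have h2 := hγ _ hlt
    rw [hoth _ hlt hne, zero_smul, sub_zero] at h2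
    have h3 : τ (Equiv.swap i K j) = false := by
      rw [hτ]
      exact if_neg hne
    show a (Equiv.swap i K j) (xor false (τ (Equiv.swap i K j))) -
      a (Equiv.swap i K j) (xor true (τ (Equiv.swap i K j))) ∈ FF u N
    rw [h3]
    exact h2
  · have h2 : ∑ j ∈ range (K + 1), a (Equiv.swap i K j) (xor false (τ (Equiv.swap i K j))) =
        ∑ j ∈ range (K + 1), a j (τ j) := by
      rw [costSym_sum (Equiv.swap i K) hσ (fun j => a j (xor false (τ j)))]
      refine sum_congr rfl fun j _ => ?_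
      rw [Bool.false_xor]
    show ∑ j ∈ range (K + 1), a (Equiv.swap i K j) (xor false (τ (Equiv.swap i K j))) ∈ FF u N
    rw [h2]
    exact ht

private theorem ca_two {V : Type} [AddCommGroup V] [Module ℚ V] {X : Set V} (hU : Uni X)
    {u a : ℕ → Bool → V} {N K : ℕ} (hK : 1 ≤ K) (hP : CostP N K) (hc : Chain X u (N + 1))
    (h : Circ X u (N + 1) a (K + 1)) (γ : ℕ → ℚ) (c0 : ℚ)
    (hγ : ∀ j < K + 1, (a j false - a j true) - γ j • u N false ∈ FF u N)
    (hc0 : (∑ j ∈ range (K + 1), a j false) - c0 • u N false ∈ FF u N)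
    (hγv : ∀ j < K + 1, γ j = 0 ∨ γ j = 1 ∨ γ j = -1)
    (hval : ∀ S ⊆ range (K + 1), c0 - ∑ j ∈ S, γ j = 0 ∨ c0 - ∑ j ∈ S, γ j = 1 ∨
        c0 - ∑ j ∈ S, γ j = -1)
    {i i' : ℕ} (hi : i < K + 1) (hi' : i' < K + 1) (hii : i ≠ i') (hi0 : γ i ≠ 0)
    (hi0' : γ i' ≠ 0) (hoth : ∀ j < K + 1, j ≠ i → j ≠ i' → γ j = 0) :
    RelP u a (N + 1) (K + 1) (K + 1 + (N + 2 - (K + 1)) / 2) := by
  have hpos : 0 < K + 1 := Nat.succ_pos K
  set x : ℕ := Equiv.swap 0 i i' with hx
  have hxlt : x < K + 1 := (ca_swap hpos hi i').1 hi'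
  have hx0 : x ≠ 0 := by
    intro h0
    have h1 := congrArg (Equiv.swap 0 i) h0
    rw [hx, Equiv.swap_apply_self, Equiv.swap_apply_left] at h1
    exact hii h1.symm
  set σ : Equiv.Perm ℕ := Equiv.swap 0 i * Equiv.swap K x with hσd
  have hσ : ∀ j, j < K + 1 ↔ σ j < K + 1 := by
    intro j
    rw [hσd, Equiv.Perm.mul_apply, ← ca_swap hpos hi, ← ca_swap (Nat.lt_succ_self K) hxlt]
  have hσ0 : σ 0 = i := by
    rw [hσd, Equiv.Perm.mul_apply, Equiv.swap_apply_of_ne_of_ne (by omega) hx0.symm,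
      Equiv.swap_apply_left]
  have hσK : σ K = i' := by
    rw [hσd, Equiv.Perm.mul_apply, Equiv.swap_apply_left, hx, Equiv.swap_apply_self]
  have h1 := circ_perm h σ hσ
  refine relP_perm σ hσ (costD hU hK hP hc h1 (fun j => γ (σ j)) c0 ?_ ?_ ?_ ?_ ?_ ?_)
  · intro j hj
    exact hγ (σ j) ((hσ j).1 hj)
  · have h2 := costSym_sum σ hσ (fun j => a j false)
    beta_reduce at h2 ⊢
    rw [h2]
    exact hc0
  · intro S hS
    have h2 : ∑ j ∈ S, γ (σ j) = ∑ j ∈ S.map σ.toEmbedding, γ j := by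
      rw [sum_map]
      rfl
    have h3 : S.map σ.toEmbedding ⊆ range (K + 1) := by
      intro y hy
      rw [mem_map] at hy
      obtain ⟨j, hj, rfl⟩ := hy
      exact mem_range.2 ((hσ j).1 (mem_range.1 (hS hj)))
    beta_reduce
    rw [h2]
    exact hval _ h3
  · show γ (σ 0) = 1 ∨ γ (σ 0) = -1
    rw [hσ0]
    exact (hγv i hi).resolve_left hi0
  · show γ (σ K) = 1 ∨ γ (σ K) = -1
    rw [hσK]
    exact (hγv i' hi').resolve_left hi0'
  · intro j hj hj0
    show γ (σ j) = 0
    refine hoth (σ j) ((hσ j).1 (by omega)) ?_ ?_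
    · intro h2
      have h3 := σ.injective (h2.trans hσ0.symm)
      omega
    · intro h2
      have h3 := σ.injective (h2.trans hσK.symm)
      omega

theorem cost_all (N : ℕ) (hN : 1 ≤ N) : CostQ N ∧ ∀ k, 1 ≤ k → CostP N k := by
  induction N, hN using Nat.le_induction with
  | base => exact ⟨costQ_one, costP_one⟩
  | succ N hN ih =>
    obtain ⟨hQ, hP⟩ := ih
    refine ⟨costQ_succ hN hQ (hP 1 le_rfl), fun k hk => ?_⟩
    rcases Nat.lt_or_ge 1 k with hk2 | hk2
    · intro V _ _ X u a hU hc h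
      obtain ⟨γ, c0, hγ, hc0, hγv, hval, hcase⟩ := dirs hU hc h hk2
      obtain ⟨K, rfl⟩ : ∃ K, k = K + 1 := ⟨k - 1, by omega⟩
      have hK : 1 ≤ K := by omega
      rcases hcase with h0 | ⟨i, hi, hi0, hoth⟩ | ⟨i, hi, i', hi', hii, hi0, hi0', hoth⟩
      · have hd : ∀ j < K + 1, a j false - a j true ∈ FF u N := by
          intro j hj
          have h1 := hγ j hj
          rwa [h0 j hj, zero_smul, sub_zero] at h1
        have hv : c0 = 0 ∨ c0 = 1 ∨ c0 = -1 := by
          have := hval ∅ (empty_subset _)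
          rwa [sum_empty, sub_zero] at this
        rcases hv with hv | hv
        · rw [hv, zero_smul, sub_zero] at hc0
          exact costA hU (hP (K + 1) (by omega)) hc h hd hc0
        · exact costB hU hN (hP (K + 1 + 1) (by omega)) hc h (by omega) hd c0 hv hc0
      · exact ca_one hU hK (hP K hK) hc h γ c0 hγ hc0 hγv hval hi hi0 hoth
      · exact ca_two hU hK (hP K hK) hc h γ c0 hγ hc0 hγv hval hi hi' hii hi0 hi0' hoth
    · have hk1 : k = 1 := by omega
      subst hk1
      exact costP_succ_one hN hQ (hP 1 le_rfl) (hP 2 (by omega))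

end RC
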