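import Pool.Agent.Helper59.RC.CostDeg
import Pool.Agent.Helper59.RC.CostSym

/-!
Module RC-C5.  The cost lemma for `N = 1`.  `FF u 1 = span {u 0 false}`.

`costQ_one`: `q = t • u 0 false`, one level, `(1 + 1) / 2 = 1`.

`costP_one`: let `w = u 0 false ≠ 0`.
* `k = 1`: `a 0 false`, `a 0 true` are nonzero multiples of `w` in `X`, so each is `± w`
  (`uni_par`), hence `a 0 false = ± a 0 true`, contradiction to `dne`, `one`.
* `k ≥ 2`: `δ j = a j false - a j true = ε j • w` with `ε j = ± 1` (`diff_coord`,
  `circ_notMem`, `dne`), `∑ a j false = α • w`.  For every `S ⊆ range k` the sum with `g = true`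
  on `S` equals `(α - ∑_{S} ε j) • w`, so `α - ∑_S ε j ∈ {0,1,-1}` (`circ_coord`).
  Taking `S = {ε = 1}` and `S = {ε = -1}`: the two values differ by `k`, so `k ≤ 2`.
  For `k = 2`: `α, α - ε 0, α - ε 1, α - ε 0 - ε 1` are in `{0,1,-1}`, so one of them is `0`
  (if `ε 0 = ε 1` then `α = ε 0` and `α - ε 0 = 0`; otherwise `α = 0`).  `relP_of_sum`;
  the bound is `2 + (1 + 1 - 2) / 2 = 2`.
-/

namespace RC

open Submodule Module Finset

theorem costQ_one : CostQ 1 := by
  intro V _ _ X u q hU hc hq hqF hq0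
  obtain ⟨α, hα⟩ := chain_expand hc (fun _ => false) hqF
  refine ⟨α, fun _ => false, hα, ?_⟩
  calc ((range 1).filter (fun i => α i ≠ 0)).card ≤ (range 1).card := card_filter_le _ _
    _ ≤ (1 + 1) / 2 := by simp

theorem costP_one (k : ℕ) (hk : 1 ≤ k) : CostP 1 k := by
  intro V _ _ X u a hU hc h
  have hb : k ≤ k + (1 + 1 - k) / 2 := Nat.le_add_right _ _
  have hw : u 0 false ≠ 0 := by
    intro h0
    apply hc.ind 0 Nat.zero_lt_one
    rw [h0]
    exact zero_mem _
  rcases Nat.lt_or_ge 1 k with h2 | h2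
  · apply relP_of_sum h.pos hb
    have key : ∀ g : ℕ → Bool, ∃ c : ℚ, ∑ j ∈ range k, a j (g j) = c • u 0 false ∧
        (c = 0 ∨ c = 1 ∨ c = -1) := by
      intro g
      obtain ⟨α, hα⟩ := chain_expand hc (fun _ => false) (circ_sum_mem h g)
      exact ⟨α 0, by simpa using hα,
        circ_coord hU hc h (fun _ => false) g α hα 0 Nat.zero_lt_one⟩
    obtain ⟨e, he, he'⟩ : ∃ e : ℚ, a 0 false - a 0 true = e • u 0 false ∧
        (e = 1 ∨ e = -1) := by
      obtain ⟨α, hα⟩ := chain_expand hc (fun _ => false) (h.dif 0 h.pos)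
      have h3 := diff_coord hU hc (h.mem 0 h.pos false) (h.mem 0 h.pos true)
        (circ_notMem h h2 h.pos false) (fun _ => false) α hα 0 Nat.zero_lt_one
      have h4 : a 0 false - a 0 true = α 0 • u 0 false := by simpa using hα
      refine ⟨α 0, h4, ?_⟩
      rcases h3 with h3 | h3
      · exfalso
        apply h.dne 0 h.pos
        rw [h3, zero_smul, sub_eq_zero] at h4
        exact h4
      · exact h3
    obtain ⟨c1, hc1, hc1'⟩ := key (fun _ => false)
    obtain ⟨c2, hc2, hc2'⟩ := key (fun j => decide (j = 0))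
    have hs : ∑ j ∈ range k, a j false - ∑ j ∈ range k, a j (decide (j = 0)) =
        a 0 false - a 0 true := by
      rw [← Finset.add_sum_erase (range k) (fun j => a j false) (mem_range.2 h.pos),
        ← Finset.add_sum_erase (range k) (fun j => a j (decide (j = 0))) (mem_range.2 h.pos)]
      have : ∑ j ∈ (range k).erase 0, a j (decide (j = 0)) =
          ∑ j ∈ (range k).erase 0, a j false := by
        apply sum_congr rfl
        intro j hj
        rw [decide_eq_false (ne_of_mem_erase hj)]
      rw [this]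
      simp
    have hdiff : c1 - c2 = e := by
      have h5 : (c1 - c2 - e) • u 0 false = 0 := by
        rw [sub_smul, sub_smul, ← hc1, ← hc2, ← he, hs, sub_self]
      rcases smul_eq_zero.1 h5 with h5 | h5
      · linarith
      · exact absurd h5 hw
    by_cases h6 : c1 = 0
    · exact ⟨fun _ => false, by rw [hc1, h6, zero_smul]⟩
    by_cases h7 : c2 = 0
    · exact ⟨fun j => decide (j = 0), by rw [hc2, h7, zero_smul]⟩
    exfalso
    rcases hc1' with h8 | h8 | h8 <;> rcases hc2' with h9 | h9 | h9 <;>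
      rcases he' with h10 | h10 <;> first
      | exact h6 h8
      | exact h7 h9
      | (rw [h8, h9, h10] at hdiff; norm_num at hdiff)
  · exfalso
    have hk1 : k = 1 := by omega
    subst hk1
    obtain ⟨n1, n2, n3⟩ := h.one rfl
    have hpar : ∀ y ∈ X, y ∈ FF u 1 → y ≠ 0 → y = u 0 false ∨ y = -u 0 false := by
      intro y hyX hyF hy0
      refine uni_par hU (hc.mem 0 Nat.zero_lt_one false) hyX hw hy0 ?_
      obtain ⟨α, hα⟩ := chain_expand hc (fun _ => false) hyF
      rw [LinearIndependent.pair_iff' hw]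
      intro hn
      exact hn (α 0) (by simpa using hα.symm)
    have hF0 : a 0 false ∈ FF u 1 := by simpa using h.sum
    have hF1 : a 0 true ∈ FF u 1 := by
      have := sub_mem hF0 (h.dif 0 h.pos)
      simpa using this
    have hd := h.dne 0 h.pos
    rcases hpar _ (h.mem 0 h.pos false) hF0 n1 with h3 | h3 <;>
      rcases hpar _ (h.mem 0 h.pos true) hF1 n2 with h4 | h4
    · exact hd (by rw [h3, h4])
    · exact n3 (by rw [h3, h4, neg_neg])
    · exact n3 (by rw [h3, h4])
    · exact hd (by rw [h3, h4])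

end RC
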