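import Pool.Agent.Helper59.RC.Defs

/-!
Definitions for the cost lemma.
`u i` (`i < N`) are the levels of a chain, `u i false`, `u i true` are the two vectors of level
`i` (equal for `i = 0`), `FF u i` is the span of the first `i` levels; `a j` (`j < k`) are
further pairs whose two vectors are congruent modulo `FF u N` and which form a circuit modulo
`FF u N`.
-/

namespace RC

open Submodule Module Finset

variable {V : Type} [AddCommGroup V] [Module ℚ V]

/-- Span of the first `i` levels. -/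
def FF (u : ℕ → Bool → V) (i : ℕ) : Submodule ℚ V := span ℚ {w | ∃ j < i, w = u j false}

structure Chain (X : Set V) (u : ℕ → Bool → V) (N : ℕ) : Prop where
  mem : ∀ i < N, ∀ b, u i b ∈ X
  ind : ∀ i < N, u i false ∉ FF u i
  dif : ∀ i < N, u i false - u i true ∈ FF u i
  dne : ∀ i < N, 0 < i → u i false ≠ u i true

structure Circ (X : Set V) (u : ℕ → Bool → V) (N : ℕ) (a : ℕ → Bool → V) (k : ℕ) : Prop where
  pos : 0 < k
  mem : ∀ j < k, ∀ b, a j b ∈ X
  dif : ∀ j < k, a j false - a j true ∈ FF u N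
  dne : ∀ j < k, a j false ≠ a j true
  one : k = 1 → a 0 false ≠ 0 ∧ a 0 true ≠ 0 ∧ a 0 false ≠ -a 0 true
  sum : ∑ j ∈ range k, a j false ∈ FF u N
  min : ∀ μ : ℕ → ℚ, ∑ j ∈ range k, μ j • a j false ∈ FF u N → ∀ i < k, ∀ j < k, μ i = μ j

/-- A nontrivial rainbow relation with at most `m` vectors. -/
def RelP (u a : ℕ → Bool → V) (N k m : ℕ) : Prop :=
  ∃ (α μ : ℕ → ℚ) (f g : ℕ → Bool), ((∃ i < N, α i ≠ 0) ∨ ∃ j < k, μ j ≠ 0) ∧
    ∑ i ∈ range N, α i • u i (f i) + ∑ j ∈ range k, μ j • a j (g j) = 0 ∧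
    ((range N).filter (fun i => α i ≠ 0)).card + ((range k).filter (fun j => μ j ≠ 0)).card ≤ m

/-- `q` is a combination of at most `m` vectors, at most one from each level. -/
def RelQ (u : ℕ → Bool → V) (q : V) (N m : ℕ) : Prop :=
  ∃ (α : ℕ → ℚ) (f : ℕ → Bool), q = ∑ i ∈ range N, α i • u i (f i) ∧
    ((range N).filter (fun i => α i ≠ 0)).card ≤ m

def CostQ (N : ℕ) : Prop :=
  ∀ (V : Type) [AddCommGroup V] [Module ℚ V] (X : Set V) (u : ℕ → Bool → V) (q : V),
    Uni X → Chain X u N → q ∈ X → q ∈ FF u N → q ≠ 0 → RelQ u q N ((N + 1) / 2)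

def CostP (N k : ℕ) : Prop :=
  ∀ (V : Type) [AddCommGroup V] [Module ℚ V] (X : Set V) (u a : ℕ → Bool → V),
    Uni X → Chain X u N → Circ X u N a k → RelP u a N k (k + (N + 1 - k) / 2)

end RC
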