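import Pool.Agent.Helper59.RC.CostInt

/-!
Module RC-C8.  Top coordinates.  Chain of length `N + 1`, `k ≥ 2` pairs.

`top_coord`: `w ∈ FF u (N+1) = FF u N ⊔ span {u N false}`.
`dirs`: choose `γ j` with `(a j false - a j true) - γ j • u N false ∈ FF u N` and `c0` with
`∑ a j false - c0 • u N false ∈ FF u N`.  For `S ⊆ range k` the sum with `g = true` on `S`,
`false` elsewhere, has top coordinate `c0 - ∑_S γ j`, which is the coordinate at level `N` in the
basis `u i false`, `i < N + 1` (coordinates are unique, `chain_li`), so it is `0,1,-1` by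
`circ_coord`.  `γ j ∈ {0,1,-1}` by `diff_coord`.
At most two `γ j` are nonzero: if three are nonzero, take `S` = those among them with `γ = 1` and
`S'` = those with `γ = -1`: the two values differ by `3`.
The case distinction: no nonzero `γ` and `c0 = 0`; no nonzero `γ` and `c0 = ± 1`; exactly one,
`γ j ≠ 0`; exactly two.
-/

namespace RC

open Submodule Module Finset

variable {V : Type} [AddCommGroup V] [Module ℚ V]

theorem top_coord {u : ℕ → Bool → V} {N : ℕ} {w : V} (hw : w ∈ FF u (N + 1)) :
    ∃ c : ℚ, w - c • u N false ∈ FF u N := by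
  rw [FF_succ] at hw
  obtain ⟨y, hy, z, hz, rfl⟩ := mem_sup.mp hw
  obtain ⟨c, rfl⟩ := mem_span_singleton.mp hz
  exact ⟨c, by simpa using hy⟩

private theorem cd_pred {X : Set V} {u : ℕ → Bool → V} {N : ℕ} (h : Chain X u (N + 1)) :
    Chain X u N where
  mem := fun i hi b => h.mem i (by omega) b
  ind := fun i hi => h.ind i (by omega)
  dif := fun i hi => h.dif i (by omega)
  dne := fun i hi h0 => h.dne i (by omega) h0

/-- an element with top coordinate `c` as a combination of the `u i false` -/
private theorem cd_expand {X : Set V} {u : ℕ → Bool → V} {N : ℕ} (h : Chain X u (N + 1)) {w : V}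
    {c : ℚ} (hw : w - c • u N false ∈ FF u N) :
    ∃ α : ℕ → ℚ, α N = c ∧ w = ∑ i ∈ range (N + 1), α i • u i ((fun _ => false) i) := by
  obtain ⟨α, hα⟩ := chain_expand (cd_pred h) (fun _ => false) hw
  refine ⟨Function.update α N c, Function.update_self .., ?_⟩
  rw [sum_range_succ, Function.update_self]
  have : ∑ i ∈ range N, Function.update α N c i • u i false = ∑ i ∈ range N, α i • u i false := by
    apply sum_congr rfl
    intro i hi
    have : i ≠ N := by
      have := mem_range.mp hi
      omega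
    rw [Function.update_of_ne this]
  rw [this, ← hα]
  simp

theorem dirs {X : Set V} (hU : Uni X) {u a : ℕ → Bool → V} {N k : ℕ}
    (hc : Chain X u (N + 1)) (h : Circ X u (N + 1) a k) (hk : 2 ≤ k) :
    ∃ (γ : ℕ → ℚ) (c0 : ℚ),
      (∀ j < k, (a j false - a j true) - γ j • u N false ∈ FF u N) ∧
      (∑ j ∈ range k, a j false) - c0 • u N false ∈ FF u N ∧
      (∀ j < k, γ j = 0 ∨ γ j = 1 ∨ γ j = -1) ∧
      (∀ S ⊆ range k, c0 - ∑ j ∈ S, γ j = 0 ∨ c0 - ∑ j ∈ S, γ j = 1 ∨
        c0 - ∑ j ∈ S, γ j = -1) ∧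
      ((∀ j < k, γ j = 0) ∨ (∃ i < k, γ i ≠ 0 ∧ ∀ j < k, j ≠ i → γ j = 0) ∨
        (∃ i < k, ∃ i' < k, i ≠ i' ∧ γ i ≠ 0 ∧ γ i' ≠ 0 ∧
          ∀ j < k, j ≠ i → j ≠ i' → γ j = 0)) := by
  classical
  have hex : ∀ j, ∃ c : ℚ, j < k → (a j false - a j true) - c • u N false ∈ FF u N := by
    intro j
    by_cases hj : j < k
    · obtain ⟨c, hc'⟩ := top_coord (h.dif j hj)
      exact ⟨c, fun _ => hc'⟩
    · exact ⟨0, fun h' => absurd h' hj⟩
  choose γ hγ using hex
  obtain ⟨c0, hc0⟩ := top_coord h.sum
  have h3 : ∀ j < k, γ j = 0 ∨ γ j = 1 ∨ γ j = -1 := by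
    intro j hj
    obtain ⟨α, hαN, hα⟩ := cd_expand hc (hγ j hj)
    have := diff_coord hU hc (h.mem j hj false) (h.mem j hj true) (circ_notMem h hk hj false)
      (fun _ => false) α hα N (Nat.lt_succ_self N)
    rwa [hαN] at this
  have h4 : ∀ S ⊆ range k, c0 - ∑ j ∈ S, γ j = 0 ∨ c0 - ∑ j ∈ S, γ j = 1 ∨
      c0 - ∑ j ∈ S, γ j = -1 := by
    intro S hS
    have key : (∑ j ∈ range k, a j (decide (j ∈ S))) - (c0 - ∑ j ∈ S, γ j) • u N false ∈
        FF u N := by
      have e1 : ∑ j ∈ range k, a j (decide (j ∈ S)) =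
          ∑ j ∈ range k, a j false - ∑ j ∈ S, (a j false - a j true) := by
        have e2 : ∑ j ∈ S, (a j false - a j true) =
            ∑ j ∈ range k, if j ∈ S then (a j false - a j true) else 0 := by
          rw [← sum_filter]
          apply sum_congr _ fun _ _ => rfl
          ext j
          simp only [mem_filter]
          exact ⟨fun hj => ⟨hS hj, hj⟩, fun hj => hj.2⟩
        rw [e2, ← sum_sub_distrib]
        apply sum_congr rfl
        intro j _
        by_cases hj : j ∈ S
        · simp [hj]
        · simp [hj]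
      have e3 : (∑ j ∈ range k, a j (decide (j ∈ S))) - (c0 - ∑ j ∈ S, γ j) • u N false =
          ((∑ j ∈ range k, a j false) - c0 • u N false) -
            ∑ j ∈ S, ((a j false - a j true) - γ j • u N false) := by
        rw [e1, sum_sub_distrib (f := fun j => a j false - a j true), sub_smul, sum_smul]
        abel
      rw [e3]
      exact sub_mem hc0 (sum_mem fun j hj => hγ j (mem_range.mp (hS hj)))
    obtain ⟨α, hαN, hα⟩ := cd_expand hc key
    have := circ_coord hU hc h (fun _ => false) (fun j => decide (j ∈ S)) α hα N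
      (Nat.lt_succ_self N)
    rwa [hαN] at this
  refine ⟨γ, c0, hγ, hc0, h3, h4, ?_⟩
  -- at most two of the coordinates are nonzero
  have hP := h4 ((range k).filter fun j => γ j = 1) (filter_subset _ _)
  have hM := h4 ((range k).filter fun j => γ j = -1) (filter_subset _ _)
  have sP : ∑ j ∈ (range k).filter (fun j => γ j = 1), γ j =
      (((range k).filter fun j => γ j = 1).card : ℚ) := by
    rw [sum_congr rfl (g := fun _ => (1 : ℚ)) fun j hj => (mem_filter.mp hj).2]
    simp
  have sM : ∑ j ∈ (range k).filter (fun j => γ j = -1), γ j =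
      -(((range k).filter fun j => γ j = -1).card : ℚ) := by
    rw [sum_congr rfl (g := fun _ => (-1 : ℚ)) fun j hj => (mem_filter.mp hj).2]
    simp
  rw [sP] at hP
  rw [sM] at hM
  have hsum : (((range k).filter fun j => γ j = 1).card : ℚ) +
      (((range k).filter fun j => γ j = -1).card : ℚ) ≤ 2 := by
    rcases hP with hP | hP | hP <;> rcases hM with hM | hM | hM <;> linarith
  have hsum' : ((range k).filter fun j => γ j = 1).card +
      ((range k).filter fun j => γ j = -1).card ≤ 2 := by exact_mod_cast hsum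
  have hT : (range k).filter (fun j => γ j ≠ 0) ⊆
      (range k).filter (fun j => γ j = 1) ∪ (range k).filter (fun j => γ j = -1) := by
    intro j hj
    obtain ⟨hj1, hj2⟩ := mem_filter.mp hj
    rcases h3 j (mem_range.mp hj1) with h0 | h0 | h0
    · exact absurd h0 hj2
    · exact mem_union_left _ (mem_filter.mpr ⟨hj1, h0⟩)
    · exact mem_union_right _ (mem_filter.mpr ⟨hj1, h0⟩)
  have hcard : ((range k).filter fun j => γ j ≠ 0).card ≤ 2 :=
    (card_le_card hT).trans ((card_union_le _ _).trans hsum')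
  have hmem : ∀ j, j ∈ (range k).filter (fun j => γ j ≠ 0) ↔ j < k ∧ γ j ≠ 0 := by
    intro j
    rw [mem_filter, mem_range]
  have hcases : ((range k).filter fun j => γ j ≠ 0).card = 0 ∨
      ((range k).filter fun j => γ j ≠ 0).card = 1 ∨
      ((range k).filter fun j => γ j ≠ 0).card = 2 := by omega
  rcases hcases with h0 | h0 | h0
  · left
    intro j hj
    by_contra hne
    have := (hmem j).mpr ⟨hj, hne⟩
    rw [card_eq_zero.mp h0] at this
    exact absurd this (notMem_empty _)
  · right; left
    obtain ⟨i, hi⟩ := card_eq_one.mp h0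
    have hi' : i ∈ (range k).filter (fun j => γ j ≠ 0) := by rw [hi]; exact mem_singleton_self i
    obtain ⟨hik, hine⟩ := (hmem i).mp hi'
    refine ⟨i, hik, hine, ?_⟩
    intro j hj hji
    by_contra hne
    have := (hmem j).mpr ⟨hj, hne⟩
    rw [hi, mem_singleton] at this
    exact hji this
  · right; right
    obtain ⟨i, i', hii, hi⟩ := card_eq_two.mp h0
    have hi1 : i ∈ (range k).filter (fun j => γ j ≠ 0) := by rw [hi]; simp
    have hi2 : i' ∈ (range k).filter (fun j => γ j ≠ 0) := by rw [hi]; simp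
    obtain ⟨hik, hine⟩ := (hmem i).mp hi1
    obtain ⟨hik', hine'⟩ := (hmem i').mp hi2
    refine ⟨i, hik, i', hik', hii, hine, hine', ?_⟩
    intro j hj hji hji'
    by_contra hne
    have := (hmem j).mpr ⟨hj, hne⟩
    rw [hi, mem_insert, mem_singleton] at this
    rcases this with h1 | h1
    · exact hji h1
    · exact hji' h1

end RC
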