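import Pool.Agent.Helper59.RC.CostU
import Pool.Agent.Helper59.RC.UniBasic

/-!
Module RC-C2.  Integrality of coordinates.

`circ_sum_mem`: `a j true` is congruent to `a j false`.
`circ_min`: the same remark and `Circ.min`.
`circ_coord`: the vectors `u i (f i)` (`i < N`) and `a j (g j)` (`j + 1 < k`, that is all `j < k`
except `k - 1`) are independent: a relation gives, modulo `FF u N`, a combination of the `a j`
with `μ (k-1) = 0`, so all `μ j = 0` (`circ_min`), then `chain_li`.  The vector `a (k-1) (g (k-1))`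
is `- ∑_{j < k-1} a j (g j) + ∑ α i • u i (f i)`; apply `uni_coord` (index type `ℕ ⊕ ℕ` or
similar).
`diff_coord`: `e ∉ FF u N`, so `e` together with `u i (f i)` is independent and
`e' = e - ∑ α i • u i (f i)`.
`fst_coord`: `uni_coord` for the family `u i (f i)`.
`circ_notMem`: for `2 ≤ k` apply `Circ.min` to `μ = Pi.single j 1`.
-/

namespace RC

open Submodule Module Finset

variable {V : Type} [AddCommGroup V] [Module ℚ V]

private theorem ci_self (u : ℕ → Bool → V) {i N : ℕ} (hi : i < N) : u i false ∈ FF u N :=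
  subset_span ⟨i, hi, rfl⟩

private theorem ci_dif {X : Set V} {u a : ℕ → Bool → V} {N k : ℕ} (h : Circ X u N a k) {j : ℕ}
    (hj : j < k) (b : Bool) : a j false - a j b ∈ FF u N := by
  cases b
  · simp
  · exact h.dif j hj

theorem circ_sum_mem {X : Set V} {u a : ℕ → Bool → V} {N k : ℕ} (h : Circ X u N a k)
    (g : ℕ → Bool) : ∑ j ∈ range k, a j (g j) ∈ FF u N := by
  have h1 : ∑ j ∈ range k, (a j false - a j (g j)) ∈ FF u N :=
    sum_mem fun j hj => ci_dif h (mem_range.mp hj) _
  have h2 := sub_mem h.sum h1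
  rw [sum_sub_distrib] at h2
  simpa using h2

theorem circ_min {X : Set V} {u a : ℕ → Bool → V} {N k : ℕ} (h : Circ X u N a k)
    (g : ℕ → Bool) (μ : ℕ → ℚ) (hμ : ∑ j ∈ range k, μ j • a j (g j) ∈ FF u N) :
    ∀ i < k, ∀ j < k, μ i = μ j := by
  apply h.min μ
  have h1 : ∑ j ∈ range k, μ j • (a j false - a j (g j)) ∈ FF u N :=
    sum_mem fun j hj => smul_mem _ _ (ci_dif h (mem_range.mp hj) _)
  have h2 := add_mem hμ h1
  rw [← sum_add_distrib] at h2
  have h3 : ∀ j ∈ range k, μ j • a j (g j) + μ j • (a j false - a j (g j)) = μ j • a j false := by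
    intro j _
    module
  rwa [sum_congr rfl h3] at h2

theorem circ_coord {X : Set V} (hU : Uni X) {u a : ℕ → Bool → V} {N k : ℕ}
    (hc : Chain X u N) (h : Circ X u N a k) (f g : ℕ → Bool) (α : ℕ → ℚ)
    (hα : ∑ j ∈ range k, a j (g j) = ∑ i ∈ range N, α i • u i (f i)) :
    ∀ i < N, α i = 0 ∨ α i = 1 ∨ α i = -1 := by
  obtain ⟨m, rfl⟩ : ∃ m, k = m + 1 := ⟨k - 1, by have := h.pos; omega⟩
  intro i hi
  have key := uni_coord hU (Sum.elim (fun i => u i (f i)) (fun j => a j (g j)))
    ((range N).disjSum (range m)) ?_ ?_ (Sum.elim α (fun _ => -1)) ?_ (Sum.inl i) ?_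
  · simpa using key
  · intro x hx
    rcases Finset.mem_disjSum.mp hx with ⟨i, hi, rfl⟩ | ⟨j, hj, rfl⟩
    · exact hc.mem i (mem_range.mp hi) _
    · exact h.mem j (by have := mem_range.mp hj; omega) _
  · rw [linearIndepOn_finset_iff]
    intro c hs
    rw [Finset.sum_disjSum] at hs
    simp only [Sum.elim_inl, Sum.elim_inr] at hs
    have hμ : ∑ j ∈ range (m + 1), (if j < m then c (Sum.inr j) else 0) • a j (g j) ∈ FF u N := by
      rw [sum_range_succ]
      have h1 : ∑ j ∈ range m, (if j < m then c (Sum.inr j) else 0) • a j (g j)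
          = ∑ j ∈ range m, c (Sum.inr j) • a j (g j) := by
        apply sum_congr rfl
        intro j hj
        rw [if_pos (mem_range.mp hj)]
      rw [h1, if_neg (lt_irrefl m), zero_smul, add_zero]
      have h2 : ∑ j ∈ range m, c (Sum.inr j) • a j (g j)
          = - ∑ i ∈ range N, c (Sum.inl i) • u i (f i) := by
        rw [eq_neg_iff_add_eq_zero, add_comm]
        exact hs
      rw [h2]
      exact neg_mem (chain_mem hc f _)
    have h3 := circ_min h g _ hμ
    have h4 : ∀ j < m, c (Sum.inr j) = 0 := by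
      intro j hj
      have := h3 j (by omega) m (by omega)
      simpa [hj] using this
    have h5 : ∑ i ∈ range N, c (Sum.inl i) • u i (f i) = 0 := by
      have h6 : ∑ j ∈ range m, c (Sum.inr j) • a j (g j) = 0 := by
        apply sum_eq_zero
        intro j hj
        rw [h4 j (mem_range.mp hj), zero_smul]
      rwa [h6, add_zero] at hs
    have h7 := chain_li hc f
    rw [linearIndepOn_finset_iff] at h7
    have h8 := h7 (fun i => c (Sum.inl i)) h5
    intro x hx
    rcases Finset.mem_disjSum.mp hx with ⟨i, hi, rfl⟩ | ⟨j, hj, rfl⟩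
    · exact h8 i hi
    · exact h4 j (mem_range.mp hj)
  · rw [Finset.sum_disjSum]
    simp only [Sum.elim_inl, Sum.elim_inr]
    rw [← hα, sum_range_succ]
    have : ∑ x ∈ range m, a x (g x) + a m (g m) + ∑ j ∈ range m, (-1 : ℚ) • a j (g j)
        = a m (g m) := by
      simp only [neg_smul, one_smul, sum_neg_distrib]
      abel
    rw [this]
    exact h.mem m (by omega) _
  · exact Finset.mem_disjSum.mpr (Or.inl ⟨i, mem_range.mpr hi, rfl⟩)

theorem diff_coord {X : Set V} (hU : Uni X) {u : ℕ → Bool → V} {N : ℕ} (hc : Chain X u N)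
    {e e' : V} (he : e ∈ X) (he' : e' ∈ X) (hn : e ∉ FF u N) (f : ℕ → Bool) (α : ℕ → ℚ)
    (hα : e - e' = ∑ i ∈ range N, α i • u i (f i)) :
    ∀ i < N, α i = 0 ∨ α i = 1 ∨ α i = -1 := by
  intro i hi
  have key := uni_coord hU (Sum.elim (fun _ : Unit => e) (fun i => u i (f i)))
    (({()} : Finset Unit).disjSum (range N)) ?_ ?_ (Sum.elim (fun _ => 1) (fun i => - α i)) ?_
    (Sum.inr i) ?_
  · simp only [Sum.elim_inr] at key
    rcases key with h | h | h
    · left; linarith
    · right; right; linarith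
    · right; left; linarith
  · intro x hx
    rcases Finset.mem_disjSum.mp hx with ⟨i, hi, rfl⟩ | ⟨j, hj, rfl⟩
    · exact he
    · exact hc.mem j (mem_range.mp hj) _
  · rw [linearIndepOn_finset_iff]
    intro c hs
    rw [Finset.sum_disjSum] at hs
    simp only [Sum.elim_inl, Sum.elim_inr, sum_singleton] at hs
    have h0 : c (Sum.inl ()) = 0 := by
      by_contra hne
      apply hn
      have h1 : c (Sum.inl ()) • e ∈ FF u N := by
        have : c (Sum.inl ()) • e = - ∑ i ∈ range N, c (Sum.inr i) • u i (f i) := by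
          rw [eq_neg_iff_add_eq_zero]
          exact hs
        rw [this]
        exact neg_mem (chain_mem hc f _)
      have h2 := smul_mem (FF u N) (c (Sum.inl ()))⁻¹ h1
      rwa [smul_smul, inv_mul_cancel₀ hne, one_smul] at h2
    rw [h0, zero_smul, zero_add] at hs
    have h7 := chain_li hc f
    rw [linearIndepOn_finset_iff] at h7
    have h8 := h7 (fun i => c (Sum.inr i)) hs
    intro x hx
    rcases Finset.mem_disjSum.mp hx with ⟨i, hi, rfl⟩ | ⟨j, hj, rfl⟩
    · exact h0
    · exact h8 j hj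
  · rw [Finset.sum_disjSum]
    simp only [Sum.elim_inl, Sum.elim_inr, sum_singleton, one_smul, neg_smul, sum_neg_distrib]
    rw [← hα]
    have : e + -(e - e') = e' := by abel
    rw [this]
    exact he'
  · exact Finset.mem_disjSum.mpr (Or.inr ⟨i, mem_range.mpr hi, rfl⟩)

theorem fst_coord {X : Set V} (hU : Uni X) {u : ℕ → Bool → V} {N : ℕ} (hc : Chain X u N)
    {q : V} (hq : q ∈ X) (f : ℕ → Bool) (α : ℕ → ℚ)
    (hα : q = ∑ i ∈ range N, α i • u i (f i)) :
    ∀ i < N, α i = 0 ∨ α i = 1 ∨ α i = -1 := by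
  intro i hi
  exact uni_coord hU (fun i => u i (f i)) (range N) (fun i hi => hc.mem i (mem_range.mp hi) _)
    (chain_li hc f) α (by rw [← hα]; exact hq) i (mem_range.mpr hi)

theorem circ_notMem {X : Set V} {u a : ℕ → Bool → V} {N k : ℕ} (h : Circ X u N a k)
    (hk : 2 ≤ k) {j : ℕ} (hj : j < k) (b : Bool) : a j b ∉ FF u N := by
  intro hb
  have h0 : a j false ∈ FF u N := by
    have := add_mem (ci_dif h hj b) hb
    simpa using this
  have h1 := h.min (Pi.single j 1) (by
    rw [Finset.sum_eq_single j]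
    · simpa using h0
    · intro i _ hij
      rw [Pi.single_eq_of_ne hij, zero_smul]
    · intro hj'
      exact absurd (mem_range.mpr hj) hj')
  obtain ⟨i, hi, hij⟩ : ∃ i < k, i ≠ j := by
    by_cases h2 : j = 0
    · exact ⟨1, by omega, by omega⟩
    · exact ⟨0, by omega, by omega⟩
  have h3 := h1 i hi j hj
  rw [Pi.single_eq_of_ne hij, Pi.single_eq_same] at h3
  exact zero_ne_one h3

end RC
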