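import Pool.Agent.Helper59.RC.CostDefs

/-!
Module RC-C1.  Chains: independence and the crossing lemma.

`chain_expand` / `chain_li`: induction on `N`.  `u i (f i)` is congruent to `u i false` modulo
`FF u i`, and `FF u (i + 1) = FF u i ⊔ span {u i false} = FF u i ⊔ span {u i (f i)}`, with
`u i (f i) ∉ FF u i`.

`chain_cross` (induction on `N`): let `w, w'` be nonzero in `FF u (N+1)`.  Let
`w - c • u N false ∈ FF u N`, `w' - c' • u N false ∈ FF u N`.
* `c, c'` both nonzero: any `f`, the coordinate at `N` is nonzero for both.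
* `c = c' = 0`: induction hypothesis.
* `c ≠ 0`, `c' = 0` (or symmetric): `N > 0` (for `N = 0`, `w' ∈ FF u 0 = ⊥`).  The vectors
  `w - c • u N false` and `w - c • u N true` of `FF u N` differ by
  `c • (u N false - u N true) ≠ 0`, so one of them, `w₁ = w - c • u N b`, is nonzero.  Apply the
  induction hypothesis to `w₁, w'` and put `f N = b`, `α N = c`, `α' N = 0`.
-/

namespace RC

open Submodule Module Finset

variable {V : Type} [AddCommGroup V] [Module ℚ V]

theorem FF_succ (u : ℕ → Bool → V) (N : ℕ) : FF u (N + 1) = FF u N ⊔ span ℚ {u N false} := by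
  unfold FF
  rw [← span_union]
  congr 1
  ext w
  simp only [Set.mem_setOf_eq, Set.mem_union, Set.mem_singleton_iff]
  constructor
  · rintro ⟨j, hj, rfl⟩
    rcases Nat.lt_succ_iff_lt_or_eq.mp hj with h | h
    · exact Or.inl ⟨j, h, rfl⟩
    · exact Or.inr (by rw [h])
  · rintro (⟨j, hj, rfl⟩ | rfl)
    · exact ⟨j, by omega, rfl⟩
    · exact ⟨N, by omega, rfl⟩

theorem FF_mono (u : ℕ → Bool → V) {i j : ℕ} (h : i ≤ j) : FF u i ≤ FF u j := by
  apply span_mono
  rintro w ⟨k, hk, rfl⟩
  exact ⟨k, by omega, rfl⟩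

private theorem cu_pred {X : Set V} {u : ℕ → Bool → V} {N : ℕ} (h : Chain X u (N + 1)) :
    Chain X u N where
  mem := fun i hi b => h.mem i (by omega) b
  ind := fun i hi => h.ind i (by omega)
  dif := fun i hi => h.dif i (by omega)
  dne := fun i hi h0 => h.dne i (by omega) h0

private theorem cu_dif {X : Set V} {u : ℕ → Bool → V} {N : ℕ} (h : Chain X u N) {i : ℕ}
    (hi : i < N) (b : Bool) : u i false - u i b ∈ FF u i := by
  cases b
  · simp
  · exact h.dif i hi

private theorem cu_self (u : ℕ → Bool → V) {i N : ℕ} (hi : i < N) : u i false ∈ FF u N :=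
  subset_span ⟨i, hi, rfl⟩

private theorem cu_mem {X : Set V} {u : ℕ → Bool → V} {N : ℕ} (h : Chain X u N) {i : ℕ}
    (hi : i < N) (b : Bool) : u i b ∈ FF u N := by
  have h1 := FF_mono u (le_of_lt hi) (cu_dif h hi b)
  have h2 := sub_mem (cu_self u hi) h1
  simpa using h2

private theorem cu_sum (u : ℕ → Bool → V) (N : ℕ) (f : ℕ → Bool) (α : ℕ → ℚ) (c : ℚ) (b : Bool)
    (w y : V) (hy : y = ∑ i ∈ range N, α i • u i (f i)) (hw : w = y + c • u N b) :
    w = ∑ i ∈ range (N + 1), (Function.update α N c) i • u i ((Function.update f N b) i) := by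
  rw [sum_range_succ, hw, hy, Function.update_self, Function.update_self]
  congr 1
  apply sum_congr rfl
  intro i hi
  have : i ≠ N := by
    have := mem_range.mp hi
    omega
  rw [Function.update_of_ne this, Function.update_of_ne this]

private theorem cu_split (u : ℕ → Bool → V) (N : ℕ) {w : V} (hw : w ∈ FF u (N + 1)) :
    ∃ y ∈ FF u N, ∃ c : ℚ, w = y + c • u N false := by
  rw [FF_succ] at hw
  obtain ⟨y, hy, z, hz, rfl⟩ := mem_sup.mp hw
  obtain ⟨c, rfl⟩ := mem_span_singleton.mp hz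
  exact ⟨y, hy, c, rfl⟩

private theorem cu_zero (u : ℕ → Bool → V) {w : V} (hw : w ∈ FF u 0) : w = 0 := by
  unfold FF at hw
  simpa using hw

theorem chain_expand {X : Set V} {u : ℕ → Bool → V} {N : ℕ} (h : Chain X u N) (f : ℕ → Bool)
    {w : V} (hw : w ∈ FF u N) : ∃ α : ℕ → ℚ, w = ∑ i ∈ range N, α i • u i (f i) := by
  induction N generalizing w with
  | zero => exact ⟨fun _ => 0, by simpa using cu_zero u hw⟩
  | succ N ih =>
    obtain ⟨y, hy, c, rfl⟩ := cu_split u N hw
    have hd := cu_dif h (Nat.lt_succ_self N) (f N)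
    obtain ⟨α, hα⟩ := ih (cu_pred h) (w := y + c • (u N false - u N (f N)))
      (add_mem hy (smul_mem _ _ hd))
    refine ⟨Function.update α N c, ?_⟩
    have := cu_sum u N f α c (f N) (y + c • u N false) (y + c • (u N false - u N (f N))) hα
      (by module)
    simpa using this

theorem chain_li {X : Set V} {u : ℕ → Bool → V} {N : ℕ} (h : Chain X u N) (f : ℕ → Bool) :
    LinearIndepOn ℚ (fun i => u i (f i)) (range N : Set ℕ) := by
  induction N with
  | zero => simp
  | succ N ih =>
    have ih' := ih (cu_pred h)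
    rw [linearIndepOn_finset_iff] at ih' ⊢
    intro g hg
    rw [sum_range_succ] at hg
    have hmem : ∑ i ∈ range N, g i • u i (f i) ∈ FF u N :=
      sum_mem fun i hi => smul_mem _ _ (cu_mem (cu_pred h) (mem_range.mp hi) _)
    have hN : g N = 0 := by
      by_contra hne
      apply h.ind N (Nat.lt_succ_self N)
      have h1 : g N • u N (f N) ∈ FF u N := by
        have : g N • u N (f N) = - ∑ i ∈ range N, g i • u i (f i) := by
          rw [eq_neg_iff_add_eq_zero, add_comm]; exact hg
        rw [this]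
        exact neg_mem hmem
      have h2 : u N (f N) ∈ FF u N := by
        have := smul_mem (FF u N) (g N)⁻¹ h1
        rwa [smul_smul, inv_mul_cancel₀ hne, one_smul] at this
      have h3 := add_mem (cu_dif h (Nat.lt_succ_self N) (f N)) h2
      simpa using h3
    rw [hN, zero_smul, add_zero] at hg
    intro i hi
    rcases Nat.lt_succ_iff_lt_or_eq.mp (mem_range.mp hi) with h1 | h1
    · exact ih' g hg i (mem_range.mpr h1)
    · rw [h1]; exact hN

theorem chain_mem {X : Set V} {u : ℕ → Bool → V} {N : ℕ} (h : Chain X u N) (f : ℕ → Bool)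
    (α : ℕ → ℚ) : ∑ i ∈ range N, α i • u i (f i) ∈ FF u N := by
  exact sum_mem fun i hi => smul_mem _ _ (cu_mem h (mem_range.mp hi) _)

private theorem cu_lift (u : ℕ → Bool → V) (N : ℕ) {w w' y y' : V} (c c' : ℚ) (b : Bool)
    (hw : w = y + c • u N b) (hw' : w' = y' + c' • u N b)
    (h : ∃ (f : ℕ → Bool) (α α' : ℕ → ℚ), y = ∑ i ∈ range N, α i • u i (f i) ∧
      y' = ∑ i ∈ range N, α' i • u i (f i) ∧ ∃ i < N, α i ≠ 0 ∧ α' i ≠ 0) :
    ∃ (f : ℕ → Bool) (α α' : ℕ → ℚ), w = ∑ i ∈ range (N + 1), α i • u i (f i) ∧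
      w' = ∑ i ∈ range (N + 1), α' i • u i (f i) ∧ ∃ i < N + 1, α i ≠ 0 ∧ α' i ≠ 0 := by
  obtain ⟨f, α, α', h1, h2, i, hi, h3, h4⟩ := h
  refine ⟨Function.update f N b, Function.update α N c, Function.update α' N c',
    cu_sum u N f α c b w y h1 hw, cu_sum u N f α' c' b w' y' h2 hw', i, by omega, ?_, ?_⟩
  · rwa [Function.update_of_ne (by omega)]
  · rwa [Function.update_of_ne (by omega)]

private theorem cu_one {X : Set V} {u : ℕ → Bool → V} {N : ℕ} (h : Chain X u (N + 1))
    (ih : ∀ {w w' : V}, w ∈ FF u N → w' ∈ FF u N → w ≠ 0 → w' ≠ 0 →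
      ∃ (f : ℕ → Bool) (α α' : ℕ → ℚ), w = ∑ i ∈ range N, α i • u i (f i) ∧
      w' = ∑ i ∈ range N, α' i • u i (f i) ∧ ∃ i < N, α i ≠ 0 ∧ α' i ≠ 0)
    {y y' : V} (hy : y ∈ FF u N) (hy' : y' ∈ FF u N) {c : ℚ} (hc : c ≠ 0) (h0' : y' ≠ 0) :
    ∃ (f : ℕ → Bool) (α α' : ℕ → ℚ), y + c • u N false = ∑ i ∈ range (N + 1), α i • u i (f i) ∧
      y' = ∑ i ∈ range (N + 1), α' i • u i (f i) ∧ ∃ i < N + 1, α i ≠ 0 ∧ α' i ≠ 0 := by
  have hN : 0 < N := by
    rcases Nat.eq_zero_or_pos N with rfl | hN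
    · exact absurd (cu_zero u hy') h0'
    · exact hN
  have hne := h.dne N (Nat.lt_succ_self N) hN
  by_cases hy0 : y = 0
  · have hmem : y + c • (u N false - u N true) ∈ FF u N :=
      add_mem hy (smul_mem _ _ (h.dif N (Nat.lt_succ_self N)))
    have hne0 : y + c • (u N false - u N true) ≠ 0 := by
      rw [hy0, zero_add]
      exact smul_ne_zero hc (sub_ne_zero.mpr hne)
    exact cu_lift u N c 0 true (by module) (by module) (ih hmem hy' hne0 h0')
  · exact cu_lift u N c 0 false (by module) (by module) (ih hy hy' hy0 h0')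

theorem chain_cross {X : Set V} {u : ℕ → Bool → V} {N : ℕ} (h : Chain X u N) {w w' : V}
    (hw : w ∈ FF u N) (hw' : w' ∈ FF u N) (h0 : w ≠ 0) (h0' : w' ≠ 0) :
    ∃ (f : ℕ → Bool) (α α' : ℕ → ℚ), w = ∑ i ∈ range N, α i • u i (f i) ∧
      w' = ∑ i ∈ range N, α' i • u i (f i) ∧ ∃ i < N, α i ≠ 0 ∧ α' i ≠ 0 := by
  induction N generalizing w w' with
  | zero => exact absurd (cu_zero u hw) h0
  | succ N ih =>
    have ih' := fun {w w' : V} => ih (w := w) (w' := w') (cu_pred h)
    obtain ⟨y, hy, c, rfl⟩ := cu_split u N hw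
    obtain ⟨y', hy', c', rfl⟩ := cu_split u N hw'
    by_cases hc : c = 0
    · subst hc
      by_cases hc' : c' = 0
      · subst hc'
        simp only [zero_smul, add_zero] at h0 h0'
        exact cu_lift u N 0 0 false rfl rfl (ih' hy hy' h0 h0')
      · simp only [zero_smul, add_zero] at h0 ⊢
        obtain ⟨f, α, α', h1, h2, i, hi, h3, h4⟩ := cu_one h ih' hy' hy hc' h0
        exact ⟨f, α', α, h2, h1, i, hi, h4, h3⟩
    · by_cases hc' : c' = 0
      · subst hc'
        simp only [zero_smul, add_zero] at h0' ⊢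
        exact cu_one h ih' hy hy' hc h0'
      · obtain ⟨α, hα⟩ := chain_expand (cu_pred h) (fun _ => false) hy
        obtain ⟨α', hα'⟩ := chain_expand (cu_pred h) (fun _ => false) hy'
        refine ⟨Function.update (fun _ => false) N false, Function.update α N c,
          Function.update α' N c', cu_sum u N _ α c false _ y hα rfl,
          cu_sum u N _ α' c' false _ y' hα' rfl, N, Nat.lt_succ_self N, ?_, ?_⟩
        · rwa [Function.update_self]
        · rwa [Function.update_self]

end RC
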