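import Pool.Agent.Helper59.RC.UniBasic

/-!
Module RC-U8.  Cographic sets are unimodular.

Let `s ⊆ X` be finite and independent, `x = ∑ c a • a ∈ X`.  Choose `e a` with `u (e a) = a`
(`a ∈ s`) and `e x` with `u (e x) = x`.  If `x ∈ s` the coordinates are `1` at `x` and `0`
elsewhere.  Otherwise `e x` differs from all `e a`, and the function `b : E → ℚ` with
`b (e x) = -1`, `b (e a) = c a`, `0` elsewhere, satisfies `∑ b e • u e = 0`, so
`b e = π (hd e) - π (tl e)`.  Let `θ = π (tl (e x))`, so `π (hd (e x)) = θ - 1`, and let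
`χ w = 1` if `π w ≥ θ`, else `0`; `b' e = χ (hd e) - χ (tl e)`.  By `dep` (with the potential
`χ`) `∑ b' e • u e = 0`, `b' e = 0` whenever `b e = 0`, `b' (e x) = -1`, all values of `b'` are
`0, 1, -1`.  So `b - b'` is a dependency supported on the `e a`, hence `b = b'` there by the
independence of `s`.  Thus `c a = b' (e a)`.
-/

namespace RC

open Submodule Module

variable {V : Type} [AddCommGroup V] [Module ℚ V]

theorem uni_cographic_eq {s : Finset V} (hind : LinearIndepOn ℚ id (s : Set V)) (c d : V → ℚ)
    (h : ∑ a ∈ s, c a • a = ∑ a ∈ s, d a • a) : ∀ a ∈ s, c a = d a := by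
  intro a ha
  have h1 := linearIndepOn_finset_iff.1 hind (fun a => c a - d a) (by
    simp only [sub_smul, Finset.sum_sub_distrib, id]
    rw [h, sub_self]) a ha
  exact sub_eq_zero.1 h1

theorem uni_cographic (X : Set V) (E W : Type) [Fintype E] [Fintype W] (u : E → V)
    (hd tl : E → W)
    (dep : ∀ a : E → ℚ, ∑ e, a e • u e = 0 ↔ ∃ π : W → ℚ, ∀ e, a e = π (hd e) - π (tl e))
    (cov : ∀ x ∈ X, ∃ e, x = u e) : Uni X := by
  classical
  intro s c hs hind hx
  set x := ∑ a ∈ s, c a • a with hxdef
  by_cases hxs : x ∈ s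
  · intro a ha
    have h1 : ∑ a ∈ s, c a • a = ∑ a ∈ s, (if a = x then (1 : ℚ) else 0) • a := by
      rw [← hxdef]
      simp [ite_smul, Finset.sum_ite_eq', hxs]
    have h2 := uni_cographic_eq hind c _ h1 a ha
    rw [h2]
    split_ifs <;> simp
  · have : Nonempty E := ⟨(cov x hx).choose⟩
    choose! e he using cov
    have hex : x = u (e x) := he x hx
    have hea : ∀ a ∈ s, a = u (e a) := fun a ha => he a (hs ha)
    have hinj : Set.InjOn e (s : Set V) := by
      intro a ha b hb hab
      rw [hea a ha, hea b hb, hab]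
    have hne : ∀ a ∈ s, e a ≠ e x := by
      intro a ha hab
      apply hxs
      rw [hex, ← hab, ← hea a ha]
      exact ha
    let b : E → ℚ := fun f => (∑ a ∈ s, if e a = f then c a else 0) - if e x = f then 1 else 0
    have hbx : b (e x) = -1 := by
      simp only [b]
      rw [Finset.sum_eq_zero]
      · simp
      · intro a ha
        rw [if_neg (hne a ha)]
    have hba : ∀ a ∈ s, b (e a) = c a := by
      intro a ha
      simp only [b]
      rw [if_neg (fun h => hne a ha h.symm), sub_zero]
      rw [Finset.sum_eq_single a]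
      · simp
      · intro a' ha' hne'
        rw [if_neg]
        intro h
        exact hne' (hinj ha' ha h)
      · intro h
        exact absurd ha h
    have hb0 : ∀ f, f ≠ e x → (∀ a ∈ s, e a ≠ f) → b f = 0 := by
      intro f hf hfa
      simp only [b]
      rw [if_neg (fun h => hf h.symm), sub_zero]
      apply Finset.sum_eq_zero
      intro a ha
      rw [if_neg (hfa a ha)]
    -- general summation formula
    have hsum : ∀ g : E → ℚ, (∀ f, f ≠ e x → (∀ a ∈ s, e a ≠ f) → g f = 0) →
        ∑ f, g f • u f = ∑ a ∈ s, g (e a) • a + g (e x) • x := by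
      intro g hg
      have h1 : ∑ f, g f • u f = ∑ f ∈ insert (e x) (s.image e), g f • u f := by
        symm
        apply Finset.sum_subset (Finset.subset_univ _)
        intro f _ hf
        rw [Finset.mem_insert, not_or] at hf
        rw [hg f hf.1, zero_smul]
        intro a ha h
        exact hf.2 (Finset.mem_image.2 ⟨a, ha, h⟩)
      rw [h1, Finset.sum_insert, Finset.sum_image hinj, ← hex, add_comm]
      · congr 1
        apply Finset.sum_congr rfl
        intro a ha
        rw [← hea a ha]
      · intro h
        obtain ⟨a, ha, h⟩ := Finset.mem_image.1 h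
        exact hne a ha h
    have hbs : ∑ f, b f • u f = 0 := by
      rw [hsum b hb0, hbx]
      have : ∑ a ∈ s, b (e a) • a = x := by
        rw [hxdef]
        apply Finset.sum_congr rfl
        intro a ha
        rw [hba a ha]
      rw [this]
      simp
    obtain ⟨π, hπ⟩ := (dep b).1 hbs
    let χ : W → ℚ := fun w => if π (tl (e x)) ≤ π w then 1 else 0
    let b' : E → ℚ := fun f => χ (hd f) - χ (tl f)
    have hb's : ∑ f, b' f • u f = 0 := (dep b').2 ⟨χ, fun f => rfl⟩
    have hb'0 : ∀ f, b f = 0 → b' f = 0 := by
      intro f hf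
      have h1 := hπ f
      rw [hf] at h1
      have h2 : π (hd f) = π (tl f) := by linarith
      simp only [b', χ, h2, sub_self]
    have hb'x : b' (e x) = -1 := by
      have h1 := hπ (e x)
      rw [hbx] at h1
      simp only [b', χ]
      rw [if_neg (by linarith), if_pos le_rfl]
      norm_num
    have hval : ∀ f, b' f = 0 ∨ b' f = 1 ∨ b' f = -1 := by
      intro f
      simp only [b', χ]
      split_ifs <;> simp
    have h3 := hsum b' (fun f h1 h2 => hb'0 f (hb0 f h1 h2))
    rw [hb's, hb'x] at h3
    have h4 : ∑ a ∈ s, c a • a = ∑ a ∈ s, b' (e a) • a := by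
      rw [← hxdef]
      have : (0 : V) = ∑ a ∈ s, b' (e a) • a - x := by
        rw [h3]
        simp [sub_eq_add_neg]
      exact (sub_eq_zero.1 this.symm).symm
    intro a ha
    rw [uni_cographic_eq hind c _ h4 a ha]
    exact hval _

end RC
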