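import Pool.Agent.Helper59.RC.UniGraph

/-!
Module RC-U9.  `R10` is unimodular.

`r10_del`: deleting element `j` leaves the graph `K_{3,3}`.  Matrices (rows = the six vertices,
each row a functional on `Fin 5 → ℚ`), found by computer; `i : (a, b)` means
`φ (R10 i) = single a 1 - single b 1`:
del 0 [[1,1,0,0,0],[1,0,0,0,1],[-1,-1,0,1,0],[-1,0,1,0,-1],[-1,0,0,0,0],[1,0,-1,-1,0]]
  1:(0,2) 2:(3,5) 3:(2,5) 4:(1,3) 5:(4,5) 6:(1,4) 7:(0,3) 8:(1,2) 9:(0,4)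
del 1 [[1,1,0,0,0],[-1,-1,0,1,0],[0,1,0,-1,-1],[0,-1,-1,0,1],[0,1,1,0,0],[0,-1,0,0,0]]
  0:(0,1) 2:(4,3) 3:(1,2) 4:(3,2) 5:(4,5) 6:(5,2) 7:(0,5) 8:(4,1) 9:(0,3)
del 2 [[0,0,1,0,0],[0,1,1,0,-1],[1,0,-1,0,1],[0,-1,-1,0,0],[0,0,-1,-1,0],[-1,0,1,1,0]]
  0:(2,5) 1:(1,3) 3:(5,4) 4:(2,1) 5:(5,3) 6:(0,4) 7:(2,0) 8:(0,3) 9:(1,4)
del 3 [[0,0,0,1,0],[1,1,0,-1,0],[0,-1,0,1,1],[0,0,0,-1,-1],[0,0,-1,-1,0],[-1,0,1,1,0]]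
  0:(1,5) 1:(1,2) 2:(5,4) 4:(2,3) 5:(5,3) 6:(2,4) 7:(0,3) 8:(1,0) 9:(0,4)
del 4 [[0,0,0,0,1],[-1,0,0,0,-1],[0,-1,0,1,1],[0,1,1,0,-1],[1,0,-1,0,1],[0,0,0,-1,-1]]
  0:(4,1) 1:(3,2) 2:(3,4) 3:(2,5) 5:(0,5) 6:(2,1) 7:(4,5) 8:(0,1) 9:(3,0)
del 5 [[0,0,0,0,1],[0,-1,-1,0,0],[0,0,0,-1,-1],[1,0,0,0,0],[-1,0,1,1,0],[0,1,0,0,0]]
  0:(3,4) 1:(5,1) 2:(4,1) 3:(4,2) 4:(0,2) 6:(3,5) 7:(5,2) 8:(0,1) 9:(3,0)
del 6 [[0,0,1,0,0],[-1,0,0,0,-1],[0,-1,0,1,1],[0,0,-1,-1,0],[1,0,0,0,0],[0,1,0,0,0]]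
  0:(4,1) 1:(5,2) 2:(0,3) 3:(2,3) 4:(2,1) 5:(5,4) 7:(5,0) 8:(0,1) 9:(4,3)
del 7 [[1,1,0,0,0],[0,0,0,-1,0],[0,0,-1,0,0],[-1,0,1,0,-1],[0,0,0,1,1],[0,-1,0,0,0]]
  0:(0,3) 1:(0,5) 2:(3,2) 3:(4,1) 4:(4,3) 5:(4,5) 6:(5,2) 8:(1,2) 9:(0,1)
del 8 [[0,0,0,1,0],[0,0,0,0,1],[0,0,1,0,0],[-1,0,0,0,-1],[1,1,0,-1,0],[0,-1,-1,0,0]]
  0:(4,3) 1:(4,5) 2:(2,5) 3:(0,4) 4:(1,3) 5:(1,5) 6:(2,3) 7:(0,2) 9:(0,1)
del 9 [[1,1,0,0,0],[0,0,0,-1,0],[0,0,0,0,-1],[0,-1,-1,0,1],[0,0,1,1,0],[-1,0,0,0,0]]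
  0:(0,5) 1:(0,3) 2:(4,3) 3:(4,1) 4:(3,2) 5:(5,2) 6:(4,5) 7:(0,1) 8:(1,2)
Use `Matrix.toLin'` or `Matrix.mulVecLin` of these matrices; injectivity: rank 5, solve.

`uni_r10`: by `uni_of_map`, `uni_mono` it suffices that `Set.range R10` is unimodular.  If `s` is
a finite independent subset and `x` in the range then `s` has at most 5 elements, so
`s ∪ {x}` has at most 6 and some `R10 j` is not in it; `s ∪ {x}` is a subset of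
`R10 '' {i | i ≠ j}`, which is unimodular by `r10_del` and `uni_graphic`.
-/

namespace RC

open Submodule Module

/-- The ten matrices. -/
def r10MZ : Fin 10 → Fin 6 → Fin 5 → ℤ :=
  ![![![1, 1, 0, 0, 0], ![1, 0, 0, 0, 1], ![-1, -1, 0, 1, 0], ![-1, 0, 1, 0, -1], ![-1, 0, 0, 0, 0], ![1, 0, -1, -1, 0]],
    ![![1, 1, 0, 0, 0], ![-1, -1, 0, 1, 0], ![0, 1, 0, -1, -1], ![0, -1, -1, 0, 1], ![0, 1, 1, 0, 0], ![0, -1, 0, 0, 0]],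
    ![![0, 0, 1, 0, 0], ![0, 1, 1, 0, -1], ![1, 0, -1, 0, 1], ![0, -1, -1, 0, 0], ![0, 0, -1, -1, 0], ![-1, 0, 1, 1, 0]],
    ![![0, 0, 0, 1, 0], ![1, 1, 0, -1, 0], ![0, -1, 0, 1, 1], ![0, 0, 0, -1, -1], ![0, 0, -1, -1, 0], ![-1, 0, 1, 1, 0]],
    ![![0, 0, 0, 0, 1], ![-1, 0, 0, 0, -1], ![0, -1, 0, 1, 1], ![0, 1, 1, 0, -1], ![1, 0, -1, 0, 1], ![0, 0, 0, -1, -1]],
    ![![0, 0, 0, 0, 1], ![0, -1, -1, 0, 0], ![0, 0, 0, -1, -1], ![1, 0, 0, 0, 0], ![-1, 0, 1, 1, 0], ![0, 1, 0, 0, 0]],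
    ![![0, 0, 1, 0, 0], ![-1, 0, 0, 0, -1], ![0, -1, 0, 1, 1], ![0, 0, -1, -1, 0], ![1, 0, 0, 0, 0], ![0, 1, 0, 0, 0]],
    ![![1, 1, 0, 0, 0], ![0, 0, 0, -1, 0], ![0, 0, -1, 0, 0], ![-1, 0, 1, 0, -1], ![0, 0, 0, 1, 1], ![0, -1, 0, 0, 0]],
    ![![0, 0, 0, 1, 0], ![0, 0, 0, 0, 1], ![0, 0, 1, 0, 0], ![-1, 0, 0, 0, -1], ![1, 1, 0, -1, 0], ![0, -1, -1, 0, 0]],
    ![![1, 1, 0, 0, 0], ![0, 0, 0, -1, 0], ![0, 0, 0, 0, -1], ![0, -1, -1, 0, 1], ![0, 0, 1, 1, 0], ![-1, 0, 0, 0, 0]]]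

/-- Left inverses. -/
def r10LZ : Fin 10 → Fin 5 → Fin 6 → ℤ :=
  ![![![0, 0, 0, 0, -1, 0], ![1, 0, 0, 0, 1, 0], ![0, 1, 0, 1, 0, 0], ![1, 0, 1, 0, 0, 0], ![0, 1, 0, 0, 1, 0]],
    ![![0, -1, -1, -1, -1, 0], ![1, 1, 1, 1, 1, 0], ![-1, -1, -1, -1, 0, 0], ![1, 1, 0, 0, 0, 0], ![0, 0, 0, 1, 1, 0]],
    ![![1, 1, 1, 1, 0, 0], ![-1, 0, 0, -1, 0, 0], ![1, 0, 0, 0, 0, 0], ![-1, 0, 0, 0, -1, 0], ![0, -1, 0, -1, 0, 0]],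
    ![![1, 1, 1, 1, 0, 0], ![0, 0, -1, -1, 0, 0], ![-1, 0, 0, 0, -1, 0], ![1, 0, 0, 0, 0, 0], ![-1, 0, 0, -1, 0, 0]],
    ![![-1, -1, 0, 0, 0, 0], ![1, 1, 0, 1, 1, 0], ![0, -1, 0, 0, -1, 0], ![0, 1, 1, 1, 1, 0], ![1, 0, 0, 0, 0, 0]],
    ![![0, 0, 0, 1, 0, 0], ![-1, -1, -1, -1, -1, 0], ![1, 0, 1, 1, 1, 0], ![-1, 0, -1, 0, 0, 0], ![1, 0, 0, 0, 0, 0]],
    ![![0, 0, 0, 0, 1, 0], ![-1, -1, -1, -1, -1, 0], ![1, 0, 0, 0, 0, 0], ![-1, 0, 0, -1, 0, 0], ![0, -1, 0, 0, -1, 0]],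
    ![![0, -1, -1, -1, -1, 0], ![1, 1, 1, 1, 1, 0], ![0, 0, -1, 0, 0, 0], ![0, -1, 0, 0, 0, 0], ![0, 1, 0, 0, 1, 0]],
    ![![0, -1, 0, -1, 0, 0], ![1, 1, 0, 1, 1, 0], ![0, 0, 1, 0, 0, 0], ![1, 0, 0, 0, 0, 0], ![0, 1, 0, 0, 0, 0]],
    ![![1, 1, 1, 1, 1, 0], ![0, -1, -1, -1, -1, 0], ![0, 1, 0, 0, 1, 0], ![0, -1, 0, 0, 0, 0], ![0, 0, -1, 0, 0, 0]]]

/-- Integral form of `R10`. -/
def r10RZ : Fin 10 → Fin 5 → ℤ :=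
  ![![1, 0, 0, 0, 0], ![0, 1, 0, 0, 0], ![0, 0, 1, 0, 0], ![0, 0, 0, 1, 0], ![0, 0, 0, 0, 1], ![-1, 1, 0, 0, 1], ![1, -1, 1, 0, 0], ![0, 1, -1, 1, 0], ![0, 0, 1, -1, 1], ![1, 0, 0, 1, -1]]

/-- Heads. -/
def r10AZ : Fin 10 → Fin 10 → Fin 6 :=
  ![![0, 0, 3, 2, 1, 4, 1, 0, 1, 0],
    ![0, 0, 4, 1, 3, 4, 5, 0, 4, 0],
    ![2, 1, 0, 5, 2, 5, 0, 2, 0, 1],
    ![1, 1, 5, 0, 2, 5, 2, 0, 1, 0],
    ![4, 3, 3, 2, 0, 0, 2, 4, 0, 3],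
    ![3, 5, 4, 4, 0, 0, 3, 5, 0, 3],
    ![4, 5, 0, 2, 2, 5, 0, 5, 0, 4],
    ![0, 0, 3, 4, 4, 4, 5, 0, 1, 0],
    ![4, 4, 2, 0, 1, 1, 2, 0, 0, 0],
    ![0, 0, 4, 4, 3, 5, 4, 0, 1, 0]]

/-- Tails. -/
def r10BZ : Fin 10 → Fin 10 → Fin 6 :=
  ![![0, 2, 5, 5, 3, 5, 4, 3, 2, 4],
    ![1, 0, 3, 2, 2, 5, 2, 5, 1, 3],
    ![5, 3, 0, 4, 1, 3, 4, 0, 3, 4],
    ![5, 2, 4, 0, 3, 3, 4, 3, 0, 4],
    ![1, 2, 4, 5, 0, 5, 1, 5, 1, 0],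
    ![4, 1, 1, 2, 2, 0, 5, 2, 1, 0],
    ![1, 2, 3, 3, 1, 4, 0, 0, 1, 3],
    ![3, 5, 2, 1, 3, 5, 2, 0, 2, 1],
    ![3, 5, 5, 4, 3, 5, 3, 2, 0, 1],
    ![5, 3, 3, 1, 2, 2, 5, 1, 2, 0]]

theorem r10_colZ : ∀ j i : Fin 10, i ≠ j → ∀ k : Fin 6, ∑ l : Fin 5, r10MZ j k l * r10RZ i l =
    (if k = r10AZ j i then 1 else 0) - (if k = r10BZ j i then 1 else 0) := by decide +kernel

theorem r10_invZ : ∀ j : Fin 10, ∀ r l : Fin 5, ∑ k : Fin 6, r10LZ j r k * r10MZ j k l =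
    if r = l then 1 else 0 := by decide +kernel

theorem r10_injZ : ∀ i i' : Fin 10, r10RZ i = r10RZ i' → i = i' := by decide +kernel

theorem r10_R10_eq (i : Fin 10) (l : Fin 5) : R10 i l = (r10RZ i l : ℚ) := by
  fin_cases i <;> fin_cases l <;> simp [R10, r10RZ]

theorem r10_R10_inj : Function.Injective R10 := by
  intro i i' h
  apply r10_injZ
  funext l
  have h2 := congrFun h l
  rw [r10_R10_eq, r10_R10_eq] at h2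
  exact_mod_cast h2

theorem r10_del (j : Fin 10) : ∃ φ : (Fin 5 → ℚ) →ₗ[ℚ] (Fin 6 → ℚ), (∀ y, φ y = 0 → y = 0) ∧
    ∀ i, i ≠ j → ∃ a b, φ (R10 i) = Pi.single a 1 - Pi.single b 1 := by
  refine ⟨Matrix.mulVecLin (Matrix.of fun k l => (r10MZ j k l : ℚ)), ?_, ?_⟩
  · intro y hy
    have h1 : (Matrix.of fun r k => (r10LZ j r k : ℚ)) * (Matrix.of fun k l => (r10MZ j k l : ℚ)) = 1 := by
      ext r l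
      rw [Matrix.mul_apply]
      have h2 := r10_invZ j r l
      simp only [Matrix.of_apply, Matrix.one_apply]
      exact_mod_cast h2
    rw [Matrix.mulVecLin_apply] at hy
    have h3 : (Matrix.of fun r k => (r10LZ j r k : ℚ)).mulVec
        ((Matrix.of fun k l => (r10MZ j k l : ℚ)).mulVec y) = y := by
      rw [Matrix.mulVec_mulVec, h1, Matrix.one_mulVec]
    rw [← h3, hy, Matrix.mulVec_zero]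
  · intro i hi
    refine ⟨r10AZ j i, r10BZ j i, ?_⟩
    ext k
    have h2 := r10_colZ j i hi k
    rw [Matrix.mulVecLin_apply, Matrix.mulVec, dotProduct, Pi.sub_apply, Pi.single_apply,
      Pi.single_apply]
    simp only [Matrix.of_apply, r10_R10_eq]
    exact_mod_cast h2

theorem uni_r10 {V : Type} [AddCommGroup V] [Module ℚ V] (X : Set V)
    (φ : V →ₗ[ℚ] (Fin 5 → ℚ)) (inj : ∀ y ∈ span ℚ X, φ y = 0 → y = 0)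
    (col : ∀ x ∈ X, ∃ j, φ x = R10 j) : Uni X := by
  classical
  apply uni_of_map φ inj
  have hR : Uni (Set.range R10) := by
    intro s c hs hli hx a ha
    have hcard : s.card ≤ 5 := by
      have h1 : LinearIndependent ℚ (fun z : (s : Set (Fin 5 → ℚ)) => (z : Fin 5 → ℚ)) := hli
      have h2 := h1.fintype_card_le_finrank
      simpa using h2
    obtain ⟨j, hj⟩ : ∃ j, R10 j ∉ insert (∑ a ∈ s, c a • a) s := by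
      by_contra hcon
      push Not at hcon
      have h1 : (Finset.univ.image R10) ⊆ insert (∑ a ∈ s, c a • a) s := by
        intro z hz
        obtain ⟨j, -, rfl⟩ := Finset.mem_image.1 hz
        exact hcon j
      have h2 := Finset.card_le_card h1
      rw [Finset.card_image_of_injective _ r10_R10_inj, Finset.card_univ, Fintype.card_fin] at h2
      have h3 := Finset.card_insert_le (∑ a ∈ s, c a • a) s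
      omega
    rw [Finset.mem_insert, not_or] at hj
    obtain ⟨ψ, hψ, he⟩ := r10_del j
    have hU : Uni (R10 '' {i | i ≠ j}) := by
      apply uni_graphic _ (Fin 6) ψ (fun y _ hy => hψ y hy)
      rintro x ⟨i, hi, rfl⟩
      exact he i hi
    refine hU s c ?_ hli ?_ a ha
    · intro z hz
      obtain ⟨i, rfl⟩ := hs hz
      refine ⟨i, ?_, rfl⟩
      rintro rfl
      exact hj.2 hz
    · obtain ⟨i, hi⟩ := hx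
      refine ⟨i, ?_, hi⟩
      rintro rfl
      exact hj.1 hi
  apply uni_mono hR
  rintro x ⟨y, hy, rfl⟩
  obtain ⟨j, hj⟩ := col y hy
  exact Or.inr (Or.inl ⟨j, hj.symm⟩)

end RC
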