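import Pool.Agent.Helper59.RC.Claw
import Pool.Agent.Helper59.RC.UniR10
import Pool.Agent.Helper59.RC.UniCograph

/-!
Module RC-D1.  First properties of `Dec`.

`dec_uni`: induction on the derivation; `uni_graphic`, `uni_cographic`, `uni_r10`; for `emb` use
`uni_mono` (in `V'`) for `f '' X` and `uni_of_map`; for `sum` use `uni_glue` and `uni_mono`
(the hypotheses are literally those of `uni_glue`).

`dec_mono`: `Dec.emb` with `f = id`.
`dec_map`: `Dec.emb` with a map `k : W → V`, `k (f y) = y` on `span X` (`exists_factor` with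
`g = id`); `span (f '' X) = (span X).map f`.
`dec_mkQ`: `Dec.emb` with `k : W → V / span {x}`, `k (f y) = mkQ y` on `span X`
(`exists_factor`); `k (f y) = 0` means `y ∈ span {x}`, so `f y = 0`.
`dec_claw`: `Dec.sum` in `V × ℚ` with `A = inl '' X`, `B = clawSet p q`, `p' = (p,0)`,
`q' = (q,0)` (independent), span condition `claw_span`; `Dec (A ∪ {p', q', p' + q'})` by `emb`
with `f = LinearMap.fst`; `Dec (B ∪ ...)` is `Dec.graphic` with `claw_graphic`.
-/

namespace RC

open Submodule Module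

variable {V W : Type} [AddCommGroup V] [Module ℚ V] [AddCommGroup W] [Module ℚ W]

theorem dec_uni {X : Set V} (h : Dec V X) : Uni X := by
  induction h with
  | graphic X W φ inj edge => exact uni_graphic X W φ inj edge
  | cographic X E W u hd tl dep cov => exact uni_cographic X E W u hd tl dep cov
  | r10 X φ inj col => exact uni_r10 X φ inj col
  | emb X Y f inj sub h ih =>
    refine uni_of_map f inj (uni_mono ih ?_)
    rintro _ ⟨x, hx, rfl⟩
    exact sub x hx
  | sum A B p q hpq h hA hB ihA ihB =>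
    exact uni_mono (uni_glue hpq ihA ihB h) (fun x hx => Or.inr (Or.inl (Or.inl hx)))

theorem dec_mono {X Y : Set V} (hY : Dec V Y) (h : ∀ x ∈ X, x = 0 ∨ x ∈ Y ∨ -x ∈ Y) :
    Dec V X :=
  Dec.emb X Y LinearMap.id (fun _ _ h0 => h0) (fun x hx => h x hx) hY

theorem dec_map (f : V →ₗ[ℚ] W) {X : Set V} (hX : Dec V X)
    (hk : ∀ y ∈ span ℚ X, f y = 0 → y = 0) : Dec W (f '' X) := by
  obtain ⟨k, hkf⟩ := exists_factor f (LinearMap.id : V →ₗ[ℚ] V) (span ℚ X)
    (fun y hy h0 => hk y hy h0)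
  refine Dec.emb (f '' X) X k ?_ ?_ hX
  · intro y hy h0
    rw [← Submodule.map_span] at hy
    obtain ⟨z, hz, rfl⟩ := hy
    have hz0 : z = 0 := by
      have := hkf z hz
      rw [h0] at this
      exact this.symm
    rw [hz0, map_zero]
  · rintro _ ⟨x, hx, rfl⟩
    refine Or.inr (Or.inl ?_)
    rw [hkf x (subset_span hx)]
    exact hx

theorem dec_mkQ (f : V →ₗ[ℚ] W) {X : Set V} {x : V} (hx : x ∈ X) (h0 : f x = 0)
    (hk : ∀ y ∈ span ℚ X, f y = 0 → y ∈ span ℚ {x})
    (h : Dec (V ⧸ span ℚ {x}) ((span ℚ {x}).mkQ '' X)) : Dec W (f '' X) := by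
  obtain ⟨k, hkf⟩ := exists_factor f ((span ℚ {x}).mkQ) (span ℚ X) (fun y hy h1 => by
    rw [Submodule.mkQ_apply, Submodule.Quotient.mk_eq_zero]
    exact hk y hy h1)
  refine Dec.emb (f '' X) ((span ℚ {x}).mkQ '' X) k ?_ ?_ h
  · intro y hy h1
    rw [← Submodule.map_span] at hy
    obtain ⟨z, hz, rfl⟩ := hy
    have hz0 : z ∈ span ℚ {x} := by
      have h2 := hkf z hz
      rw [h1, Submodule.mkQ_apply] at h2
      exact (Submodule.Quotient.mk_eq_zero _).1 h2.symm
    obtain ⟨t, rfl⟩ := Submodule.mem_span_singleton.1 hz0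
    rw [map_smul, h0, smul_zero]
  · rintro _ ⟨y, hy, rfl⟩
    refine Or.inr (Or.inl ?_)
    rw [hkf y (subset_span hy)]
    exact ⟨y, hy, rfl⟩

theorem dec_claw {X : Set V} {p q : V} (hX : Dec V X) (hp : p ∈ X) (hq : q ∈ X)
    (hs : p + q ∈ X) (li : LinearIndependent ℚ ![p, q]) :
    Dec (V × ℚ)
      ((fun x : V => (x, (0 : ℚ))) '' X ∪ {((0 : V), (1 : ℚ)), (p, 1), (-q, 1)}) := by
  have hpq' : ((p, (0 : ℚ)) : V × ℚ) + (q, (0 : ℚ)) = (p + q, (0 : ℚ)) := by
    rw [Prod.mk_add_mk, add_zero]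
  have key := Dec.sum (V := V × ℚ) ((fun x : V => (x, (0 : ℚ))) '' X) (clawSet p q)
    ((p, (0 : ℚ)) : V × ℚ) ((q, (0 : ℚ)) : V × ℚ) ?_
    (claw_span X p q (subset_span hp) (subset_span hq)) ?_ ?_
  · exact key
  · left
    have h1 := li.map' (LinearMap.inl ℚ V ℚ)
      (LinearMap.ker_eq_bot.2 LinearMap.inl_injective)
    have h2 : (⇑(LinearMap.inl ℚ V ℚ) ∘ ![p, q]) =
        ![((p, (0 : ℚ)) : V × ℚ), (q, (0 : ℚ))] := by
      funext i
      fin_cases i <;> rfl
    rw [h2] at h1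
    exact h1
  · rw [hpq']
    refine Dec.emb _ X (LinearMap.fst ℚ V ℚ) ?_ ?_ hX
    · intro y hy h0
      have hle : span ℚ ((fun x : V => (x, (0 : ℚ))) '' X ∪
          {((p : V), (0 : ℚ)), (q, 0), (p + q, 0)}) ≤ LinearMap.ker (LinearMap.snd ℚ V ℚ) := by
        rw [Submodule.span_le]
        rintro z hz
        rw [SetLike.mem_coe, LinearMap.mem_ker, LinearMap.snd_apply]
        rcases hz with ⟨x, -, rfl⟩ | hz
        · rfl
        · rcases hz with rfl | rfl | rfl <;> rfl
      have h2 := hle hy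
      rw [LinearMap.mem_ker, LinearMap.snd_apply] at h2
      rw [LinearMap.fst_apply] at h0
      exact Prod.ext h0 h2
    · rintro z hz
      refine Or.inr (Or.inl ?_)
      rw [LinearMap.fst_apply]
      rcases hz with ⟨x, hx, rfl⟩ | hz
      · exact hx
      · rcases hz with rfl | rfl | rfl
        · exact hp
        · exact hq
        · exact hs
  · rw [hpq']
    obtain ⟨φ, h1, h2⟩ := claw_graphic li
    exact Dec.graphic _ (Fin 4) φ h1 h2

end RC
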