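import Pool.Agent.Helper59.RC.ConGraph
import Pool.Agent.Helper59.RC.ConCograph
import Pool.Agent.Helper59.RC.ConR10
import Pool.Agent.Helper59.RC.ConSum

/-!
Module RC-D6.  `Dec` is a class in the sense of `Cls`.

`dec_con`: induction on the derivation (statement: for all `x ∈ X`).  Cases `graphic`,
`cographic`, `r10`, `sum`: `con_graphic`, `con_cographic`, `con_r10`, `con_sum`.
Case `emb` (`g : V → V'` injective on `span X`, `g '' X` inside `Y` up to sign and `0`):
let `x ∈ X`.  If `g x = 0` then `x = 0`, `mkQ` is injective and `dec_map` applies to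
`Dec V X` (from `Dec.emb`).  Otherwise `y₀ = g x` or `y₀ = - g x` is in `Y`; by the induction
hypothesis `Dec (V' / span {y₀}) (mkQ '' Y)`.  The map `V / span {x} → V' / span {y₀}` induced
by `g` (`Submodule.mapQ` or `liftQ`) is injective on `span (mkQ '' X)`: `g y ∈ span {y₀}` =
`span {g x}` gives `y - t • x ∈ ker g ⊓ span X = ⊥`.  Use `Dec.emb`.

`cls_dec`: `uni = dec_uni`, `mono = dec_mono`, `map = dec_map`, `con`: `dec_mkQ` and
`dec_con`, `claw = dec_claw`.
-/

namespace RC

open Submodule Module

theorem dec_con {V : Type} [AddCommGroup V] [Module ℚ V] {X : Set V} (h : Dec V X) :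
    ∀ x ∈ X, Dec (V ⧸ span ℚ {x}) ((span ℚ {x}).mkQ '' X) := by
  induction h with
  | graphic X W φ inj edge => exact fun x hx => con_graphic X W φ inj edge hx
  | cographic X E W u hd tl dep cov => exact fun x hx => con_cographic X E W u hd tl dep cov hx
  | r10 X φ inj col => exact fun x hx => con_r10 X φ inj col hx
  | sum A B p q hpq h hA hB ihA ihB =>
    exact fun x hx => con_sum A B p q hpq h hA hB ihA ihB hx
  | emb X Y f inj sub h ih =>
    intro x hx
    have hxs : x ∈ span ℚ X := subset_span hx
    by_cases hf : f x = 0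
    · have hx0 : x = 0 := inj x hxs hf
      refine dec_map _ (Dec.emb X Y f inj sub h) ?_
      intro y hy h0
      rw [Submodule.mkQ_apply, Submodule.Quotient.mk_eq_zero, hx0,
        Submodule.mem_span_singleton] at h0
      obtain ⟨t, rfl⟩ := h0
      rw [smul_zero]
    · have hy : ∃ y₀ ∈ Y, span ℚ {y₀} = span ℚ {f x} := by
        rcases sub x hx with h1 | h1 | h1
        · exact absurd h1 hf
        · exact ⟨_, h1, rfl⟩
        · refine ⟨_, h1, ?_⟩
          rw [← Set.neg_singleton, Submodule.span_neg]
      obtain ⟨y₀, hy₀, hspan⟩ := hy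
      have hle : span ℚ {x} ≤ (span ℚ {y₀}).comap f := by
        rw [Submodule.span_le, Set.singleton_subset_iff, SetLike.mem_coe, Submodule.mem_comap,
          hspan]
        exact Submodule.mem_span_singleton_self _
      refine Dec.emb _ ((span ℚ {y₀}).mkQ '' Y) (Submodule.mapQ _ _ f hle) ?_ ?_ (ih y₀ hy₀)
      · intro y hy h0
        rw [← Submodule.map_span] at hy
        obtain ⟨z, hz, rfl⟩ := hy
        rw [Submodule.mkQ_apply, Submodule.mapQ_apply, Submodule.Quotient.mk_eq_zero, hspan,
          Submodule.mem_span_singleton] at h0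
        obtain ⟨t, ht⟩ := h0
        rw [Submodule.mkQ_apply, Submodule.Quotient.mk_eq_zero, Submodule.mem_span_singleton]
        refine ⟨t, ?_⟩
        have h2 := inj (t • x - z) (Submodule.sub_mem _ (Submodule.smul_mem _ t hxs) hz)
          (by rw [map_sub, map_smul, ht, sub_self])
        exact sub_eq_zero.1 h2
      · rintro _ ⟨y, hy, rfl⟩
        rw [Submodule.mkQ_apply, Submodule.mapQ_apply]
        rcases sub y hy with h1 | h1 | h1
        · left
          rw [h1]
          rfl
        · right
          left
          exact ⟨_, h1, rfl⟩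
        · right
          right
          exact ⟨_, h1, by rw [Submodule.mkQ_apply, Submodule.Quotient.mk_neg]⟩

theorem cls_dec : Cls (fun V _ _ X => Dec V X) := by
  exact
    { uni := fun h => dec_uni h
      mono := fun hY h => dec_mono hY h
      map := fun f _ hX hk => dec_map f hX hk
      con := fun f _ _ hX hx h0 hk => dec_mkQ f hx h0 hk (dec_con hX _ hx)
      claw := fun hX hp hq hs li => dec_claw hX hp hq hs li }

end RC
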