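import Pool.Agent.Helper59.RC.Defs

/-!
The number of colours, with any decidability instance.
-/

namespace RC

theorem nc_image {ι κ : Type} [inst : DecidableEq κ] (c : ι → κ) (S : Finset ι) :
    nc c S = (S.image c).card := by
  unfold nc
  have h : inst = fun a b => Classical.propDecidable (a = b) := Subsingleton.elim _ _
  subst h
  rfl

end RC
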