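import Pool.Agent.Helper59.RC.ShortLib
import Pool.Agent.Helper59.RC.NcEq

/-!
From systems of vectors to matroids.
-/

namespace RC

open Submodule Module

theorem rainbow_of_GC {C : ClsT} (hC : Cls C) {n : ℕ} (hG : GC C n) {E V : Type} [Finite E]
    [AddCommGroup V] [Module ℚ V] (v : E → V) (hv : C V (Set.range v)) (M : Matroid E)
    (hME : M.E = Set.univ) (hM : ∀ S : Set E, M.Indep S ↔ LinearIndepOn ℚ v S)
    (hs : ∀ D, M.IsCircuit D → 3 ≤ D.encard) (hr : M.eRank + 1 ≤ (n : ℕ∞)) (c : E → Fin n)
    (hc : ∀ i, ∃ e f, e ≠ f ∧ c e = i ∧ c f = i) :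
    ∃ D, M.IsCircuit D ∧ Set.InjOn c D ∧ D.encard ≤ ((n + 1) / 2 : ℕ) := by
  classical
  have := Fintype.ofFinite E
  have hsmall : ∀ S : Set E, S.encard < 3 → M.Indep S := by
    intro S hS
    by_contra hcon
    have hdep : M.Dep S := ⟨hcon, by rw [hME]; exact Set.subset_univ _⟩
    obtain ⟨D, hDS, hD⟩ := hdep.exists_isCircuit_subset
    have h1 := hs D hD
    have h2 := Set.encard_le_encard hDS
    exact absurd (lt_of_le_of_lt (h1.trans h2) hS) (lt_irrefl _)
  have hne : ∀ e, v e ≠ 0 := by
    intro e
    have h1 := (hM {e}).1 (hsmall {e} (by rw [Set.encard_singleton]; norm_num))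
    have h2 := h1.ne_zero (Set.mem_singleton e)
    exact h2
  have hpar : ∀ e f, e ≠ f → LinearIndependent ℚ ![v e, v f] := by
    intro e f hef
    have h1 := (hM {e, f}).1 (hsmall {e, f} (by rw [Set.encard_pair hef]; norm_num))
    rw [LinearIndependent.pair_iff]
    have h2 := (LinearIndepOn.pair_iff v hef).1 h1
    exact h2
  choose a b hab ha hb using hc
  let E0 : Finset E := (Finset.univ.image a) ∪ (Finset.univ.image b)
  have hE0 : ∀ e, e ∈ E0 ↔ (e = a (c e) ∨ e = b (c e)) := by
    intro e
    simp only [E0, Finset.mem_union, Finset.mem_image, Finset.mem_univ, true_and]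
    constructor
    · rintro (⟨i, rfl⟩ | ⟨i, rfl⟩)
      · left; rw [ha]
      · right; rw [hb]
    · rintro (h | h)
      · exact Or.inl ⟨_, h.symm⟩
      · exact Or.inr ⟨_, h.symm⟩
  have hnc : nc c E0 = n := by
    rw [nc_image]
    have hcu : ∀ i, i ∈ Finset.image c E0 := by
      intro i
      rw [Finset.mem_image]
      exact ⟨a i, (hE0 _).2 (Or.inl (by rw [ha])), ha i⟩
    have h2 := Finset.eq_univ_iff_forall.2 hcu
    have h3 := congrArg Finset.card h2
    rw [Finset.card_univ, Fintype.card_fin] at h3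
    exact h3
  have hcard : E0.card = 2 * n := by
    have h1 : Disjoint (Finset.univ.image a) (Finset.univ.image b) := by
      rw [Finset.disjoint_left]
      intro e he he'
      obtain ⟨i, -, rfl⟩ := Finset.mem_image.1 he
      obtain ⟨j, -, hj⟩ := Finset.mem_image.1 he'
      have hij : j = i := by rw [← hb j, hj, ha]
      subst hij
      exact hab _ hj.symm
    have ia : Function.Injective a := fun i j h => by rw [← ha i, h, ha]
    have ib : Function.Injective b := fun i j h => by rw [← hb i, h, hb]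
    rw [Finset.card_union_of_disjoint h1, Finset.card_image_of_injective _ ia,
      Finset.card_image_of_injective _ ib, Finset.card_univ, Fintype.card_fin]
    ring
  have hrk : rk v E0 + 1 ≤ n := by
    unfold rk
    obtain ⟨t, ht, -, htspan, htli⟩ := exists_linearIndepOn_extension
      (K := ℚ) (v := v) (s := ∅) (t := (E0 : Set E)) (linearIndepOn_empty ℚ v) (Set.empty_subset _)
    have htf : Fintype t := Fintype.ofFinite t
    have h1 : span ℚ (v '' (E0 : Set E)) = span ℚ (Set.range fun x : t => v x) := by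
      apply le_antisymm
      · rw [span_le, ← Set.image_eq_range]
        exact htspan
      · rw [← Set.image_eq_range]
        exact span_mono (Set.image_mono ht)
    rw [h1, finrank_span_eq_card htli]
    have h2 := ((hM t).2 htli).encard_le_eRank
    have h3 : t.encard = (Fintype.card t : ℕ∞) := by
      rw [Set.encard_eq_coe_toFinset_card, Set.toFinset_card]
    rw [h3] at h2
    have h4 : ((Fintype.card t : ℕ) : ℕ∞) + 1 ≤ (n : ℕ∞) := le_trans (by gcongr) hr
    exact_mod_cast h4
  have hsys : Sys C v c E0 := by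
    refine ⟨hC.mono hv ?_, fun e _ => hne e, ?_, fun e _ f _ _ hef => hpar e f hef, ?_⟩
    · rintro _ ⟨e, _, rfl⟩
      exact Or.inr (Or.inl ⟨e, rfl⟩)
    · intro e he f hf g hg hef heg
      have h1 := (hE0 e).1 he
      have h2 := (hE0 f).1 hf
      have h3 := (hE0 g).1 hg
      rw [← hef] at h2
      rw [← heg] at h3
      rcases h1 with h1 | h1 <;> rcases h2 with h2 | h2 <;> rcases h3 with h3 | h3
      · left; rw [h1, ← h2]
      · left; rw [h1, ← h2]
      · right; left; rw [h1, ← h3]
      · right; right; rw [h2, ← h3]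
      · right; right; rw [h2, ← h3]
      · right; left; rw [h1, ← h3]
      · left; rw [h1, ← h2]
      · left; rw [h1, ← h2]
    · rw [hnc]; exact hrk
  obtain ⟨T, hT, hTc, hinj, hdep⟩ := hG E (Fin n) V v c E0 hsys hnc
  have hbd : bd n E0.card = (n + 1) / 2 := by
    rw [hcard]; unfold bd; rw [if_pos rfl]
  rw [hbd] at hTc
  have hdepM : M.Dep (T : Set E) := ⟨fun h => hdep ((hM _).1 h), by rw [hME]; exact Set.subset_univ _⟩
  obtain ⟨D, hDT, hD⟩ := hdepM.exists_isCircuit_subset
  refine ⟨D, hD, hinj.mono hDT, ?_⟩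
  refine (Set.encard_le_encard hDT).trans ?_
  rw [Set.encard_coe_eq_coe_finsetCard]
  exact_mod_cast hTc

end RC
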