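import Pool.Agent.Helper59.RC.UniBasic

/-!
Module RC-U5.  The columns of a totally unimodular matrix form a unimodular set.

Let `s` be a finite independent set of columns, `x = ∑ c a • a` a column.  Choose column indices
`e a` for `a ∈ s` and `e x`.  The `m × s` matrix of the columns in `s` has rank `|s|`, so there
are `|s|` rows with nonzero determinant (for instance `Matrix.exists_submatrix...` or: the row
space of the `m × s` matrix is everything, choose a basis among the rows).  This determinant is
`1` or `-1`.  By Cramer's rule (`Matrix.mulVec_cramer`, `Matrix.cramer_apply`) `c a` is the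
quotient of the determinant of a square submatrix (column `a` replaced by column `x`; it is a
submatrix up to repeated columns, when it is `0`) and `± 1`.
-/

namespace RC

open Submodule Module

theorem uni_of_TU {m E : Type} [Fintype m] (A : Matrix m E ℚ) (hA : A.IsTotallyUnimodular) :
    Uni (Set.range fun e => (fun i => A i e : m → ℚ)) := by
  classical
  intro s c hs hli hx a0 ha0
  have hcol : ∀ a : s, ∃ e : E, (fun i => A i e) = (a : m → ℚ) := fun a => hs a.2
  choose g hg using hcol
  obtain ⟨gx, hgx⟩ := hx
  have hli' : LinearIndependent ℚ (fun a : s => (a : m → ℚ)) := hli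
  set B : Matrix m s ℚ := fun i a => (a : m → ℚ) i with hB
  have hr1 : B.transpose.rank = Fintype.card s :=
    LinearIndependent.rank_matrix (M := B.transpose) hli'
  have hspan : span ℚ (Set.range B.row) = ⊤ := by
    apply Submodule.eq_top_of_finrank_eq
    rw [Matrix.rank_eq_finrank_span_cols] at hr1
    rw [Module.finrank_pi]
    exact hr1
  obtain ⟨κ, r, hrinj, hrspan, hrli⟩ := exists_linearIndependent' ℚ B.row
  rw [hspan] at hrspan
  have hfk : Finite κ := Finite.of_injective r hrinj
  have : Fintype κ := Fintype.ofFinite κ
  have hcard : Fintype.card κ = Fintype.card s := by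
    have h1 := finrank_span_eq_card hrli
    rw [hrspan, finrank_top, Module.finrank_pi] at h1
    exact h1.symm
  let eq : s ≃ κ := (Fintype.equivOfCardEq hcard).symm
  set f : s → m := fun j => r (eq j) with hf
  set M : Matrix s s ℚ := fun j a => A (f j) (g a) with hM
  have hAB : ∀ i (a : s), A i (g a) = B i a := fun i a => congrFun (hg a) i
  have hMrow : LinearIndependent ℚ M.row := by
    have h1 : M.row = (B.row ∘ r) ∘ eq := by
      funext j a
      exact hAB (f j) a
    rw [h1]
    exact hrli.comp _ eq.injective
  have hMu : IsUnit M := Matrix.linearIndependent_rows_iff_isUnit.1 hMrow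
  have hdet : M.det ≠ 0 := ((Matrix.isUnit_iff_isUnit_det M).1 hMu).ne_zero
  rw [Matrix.isTotallyUnimodular_iff_fintype] at hA
  have hd1 : M.det ∈ Set.range SignType.cast := hA s f g
  set cv : s → ℚ := fun a => c a with hcv
  have hb : M.mulVec cv = fun j => A (f j) gx := by
    funext j
    have h1 : A (f j) gx = (∑ a ∈ s, c a • a) (f j) := congrFun hgx (f j)
    rw [h1, ← Finset.sum_coe_sort s (fun a => c a • a), Finset.sum_apply]
    simp only [Matrix.mulVec, dotProduct, hcv, hM]
    refine Finset.sum_congr rfl fun a _ => ?_
    rw [hAB]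
    simp [hB, mul_comm]
  have hcr : M.det * cv ⟨a0, ha0⟩ = (M.updateCol ⟨a0, ha0⟩ (fun j => A (f j) gx)).det := by
    rw [← Matrix.cramer_apply, ← hb, Matrix.cramer_eq_adjugate_mulVec, Matrix.mulVec_mulVec,
      Matrix.adjugate_mul, Matrix.smul_mulVec, Matrix.one_mulVec]
    rfl
  have hup : M.updateCol ⟨a0, ha0⟩ (fun j => A (f j) gx)
      = A.submatrix f (Function.update g ⟨a0, ha0⟩ gx) := by
    ext j a
    by_cases h : a = ⟨a0, ha0⟩
    · subst h
      simp
    · simp [h, hM]
  have hd2 : (M.updateCol ⟨a0, ha0⟩ (fun j => A (f j) gx)).det ∈ Set.range SignType.cast := by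
    rw [hup]
    exact hA s f _
  rw [← hcr] at hd2
  have hc : cv ⟨a0, ha0⟩ = c a0 := rfl
  rw [hc] at hd2
  obtain ⟨t1, ht1⟩ := hd1
  obtain ⟨t2, ht2⟩ := hd2
  rw [← ht1] at ht2 hdet
  rcases t1 with _ | _ | _
  · exact absurd (by simp) hdet
  · rcases t2 with _ | _ | _
    · left
      simpa using ht2.symm
    · right; left
      have h3 : (-1 : ℚ) = -c a0 := by simpa using ht2
      linarith
    · right; right
      have h3 : (1 : ℚ) = -c a0 := by simpa using ht2
      linarith
  · rcases t2 with _ | _ | _
    · left
      simpa using ht2.symm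
    · right; right
      have h3 : (-1 : ℚ) = c a0 := by simpa using ht2
      linarith
    · right; left
      have h3 : (1 : ℚ) = c a0 := by simpa using ht2
      linarith

end RC
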