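import Pool.Agent.Helper59.RC.ShortLib
import Pool.Agent.Helper59.RC.NcEq
import Pool.Agent.Helper59.RC.UniTU

/-!
From systems of vectors to matroids on arbitrary types; from totally unimodular matrices over the
reals to unimodular sets of rational vectors.
-/

namespace RC

open Submodule Module

/-- The theorem for matroids, from the theorem for systems of vectors. -/
theorem rainbow_gen {C : ClsT} (hC : Cls C) {n : ℕ} (hG : GC C n) {α : Type*} {V : Type}
    [AddCommGroup V] [Module ℚ V] (v : α → V) (M : Matroid α) (hv : C V (v '' M.E))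
    (hM : ∀ S ⊆ M.E, (M.Indep S ↔ LinearIndepOn ℚ v S))
    (hs : ∀ D, M.IsCircuit D → 3 ≤ D.encard) (hr : M.eRank + 1 ≤ (n : ℕ∞)) (c : α → Fin n)
    (hc : ∀ i, ∃ e ∈ M.E, ∃ f ∈ M.E, e ≠ f ∧ c e = i ∧ c f = i) :
    ∃ D, M.IsCircuit D ∧ Set.InjOn c D ∧ D.encard ≤ ((n + 1) / 2 : ℕ) := by
  classical
  have hsmall : ∀ S : Set α, S ⊆ M.E → S.encard < 3 → M.Indep S := by
    intro S hSE hS
    by_contra hcon
    have hdep : M.Dep S := ⟨hcon, hSE⟩
    obtain ⟨D, hDS, hD⟩ := hdep.exists_isCircuit_subset
    have h1 := hs D hD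
    have h2 := Set.encard_le_encard hDS
    exact absurd (lt_of_le_of_lt (h1.trans h2) hS) (lt_irrefl _)
  choose a haE b hbE hab ha hb using hc
  let g : Fin n × Bool → α := fun x => if x.2 then b x.1 else a x.1
  have hgE : ∀ x, g x ∈ M.E := by
    rintro ⟨i, t⟩
    cases t
    · exact haE i
    · exact hbE i
  have hgc : ∀ x, c (g x) = x.1 := by
    rintro ⟨i, t⟩
    cases t
    · exact ha i
    · exact hb i
  have hginj : Function.Injective g := by
    rintro ⟨i, t⟩ ⟨j, s⟩ h
    have h1 : i = j := by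
      have := congrArg c h
      rwa [hgc, hgc] at this
    subst h1
    cases t <;> cases s
    · rfl
    · exact absurd h (hab i)
    · exact absurd h.symm (hab i)
    · rfl
  have hne : ∀ x, v (g x) ≠ 0 := by
    intro x
    have h1 := (hM {g x} (by simpa using hgE x)).1
      (hsmall {g x} (by simpa using hgE x) (by rw [Set.encard_singleton]; norm_num))
    exact h1.ne_zero (Set.mem_singleton _)
  have hpar : ∀ x y, x ≠ y → LinearIndependent ℚ ![v (g x), v (g y)] := by
    intro x y hxy
    have hsub : ({g x, g y} : Set α) ⊆ M.E := by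
      rintro z (rfl | rfl)
      · exact hgE x
      · exact hgE y
    have hne' : g x ≠ g y := fun h => hxy (hginj h)
    have h1 := (hM {g x, g y} hsub).1
      (hsmall _ hsub (by rw [Set.encard_pair hne']; norm_num))
    rw [LinearIndependent.pair_iff]
    exact (LinearIndepOn.pair_iff v hne').1 h1
  have hcard : (Finset.univ : Finset (Fin n × Bool)).card = 2 * n := by
    rw [Finset.card_univ, Fintype.card_prod, Fintype.card_fin, Fintype.card_bool, mul_comm]
  have hnc : nc (fun x : Fin n × Bool => x.1) Finset.univ = n := by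
    rw [nc_image]
    have h1 : ∀ i, i ∈ Finset.image (fun x : Fin n × Bool => x.1) Finset.univ := by
      intro i
      rw [Finset.mem_image]
      exact ⟨(i, false), Finset.mem_univ _, rfl⟩
    have h2 := Finset.eq_univ_iff_forall.2 h1
    rw [h2, Finset.card_univ, Fintype.card_fin]
  have hrk : rk (fun x => v (g x)) Finset.univ + 1 ≤ n := by
    unfold rk
    obtain ⟨t, -, -, htspan, htli⟩ := exists_linearIndepOn_extension
      (K := ℚ) (v := fun x => v (g x)) (s := ∅) (t := (Finset.univ : Finset (Fin n × Bool)))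
      (linearIndepOn_empty ℚ _) (Set.empty_subset _)
    have htf : Fintype t := Fintype.ofFinite t
    have h1 : span ℚ ((fun x => v (g x)) '' ((Finset.univ : Finset (Fin n × Bool)) : Set _)) =
        span ℚ (Set.range fun x : t => v (g x)) := by
      apply le_antisymm
      · rw [span_le]
        refine htspan.trans ?_
        rw [Set.image_eq_range]
      · apply span_mono
        rintro _ ⟨x, rfl⟩
        exact ⟨x, by simp, rfl⟩
    rw [h1, finrank_span_eq_card htli]
    have hli : LinearIndepOn ℚ v (g '' t) := by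
      have h5 : LinearIndepOn ℚ (v ∘ g) t := htli
      exact h5.image_of_comp
    have hsub : g '' t ⊆ M.E := by
      rintro _ ⟨x, -, rfl⟩
      exact hgE x
    have h2 := ((hM _ hsub).2 hli).encard_le_eRank
    rw [hginj.injOn.encard_image] at h2
    have h3 : t.encard = (Fintype.card t : ℕ∞) := by
      rw [Set.encard_eq_coe_toFinset_card, Set.toFinset_card]
    rw [h3] at h2
    have h4 : ((Fintype.card t : ℕ) : ℕ∞) + 1 ≤ (n : ℕ∞) := le_trans (by gcongr) hr
    exact_mod_cast h4
  have hsys : Sys C (fun x => v (g x)) (fun x : Fin n × Bool => x.1) Finset.univ := by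
    refine ⟨hC.mono hv ?_, fun x _ => hne x, ?_, fun x _ y _ _ hxy => hpar x y hxy, ?_⟩
    · rintro _ ⟨x, _, rfl⟩
      exact Or.inr (Or.inl ⟨g x, hgE x, rfl⟩)
    · rintro ⟨i, t⟩ _ ⟨j, s⟩ _ ⟨k, r⟩ _ h1 h2
      simp only at h1 h2
      subst h1 h2
      cases t <;> cases s <;> cases r <;> simp
    · rw [hnc]; exact hrk
  obtain ⟨T, hT, hTc, hinj, hdep⟩ := hG (Fin n × Bool) (Fin n) V _ _ _ hsys hnc
  have hbd : bd n (Finset.univ : Finset (Fin n × Bool)).card = (n + 1) / 2 := by
    rw [hcard]; unfold bd; rw [if_pos rfl]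
  rw [hbd] at hTc
  have hsub : g '' (T : Set (Fin n × Bool)) ⊆ M.E := by
    rintro _ ⟨x, -, rfl⟩
    exact hgE x
  have hdepM : M.Dep (g '' (T : Set (Fin n × Bool))) := by
    refine ⟨fun h => hdep ?_, hsub⟩
    have h1 := (hM _ hsub).1 h
    exact h1.comp_of_image hginj.injOn
  obtain ⟨D, hDT, hD⟩ := hdepM.exists_isCircuit_subset
  refine ⟨D, hD, ?_, ?_⟩
  · intro x hx y hy hxy
    obtain ⟨x', hx', rfl⟩ := hDT hx
    obtain ⟨y', hy', rfl⟩ := hDT hy
    rw [hgc, hgc] at hxy
    rw [hinj hx' hy' hxy]
  · refine (Set.encard_le_encard hDT).trans ?_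
    refine (Set.encard_image_le _ _).trans ?_
    rw [Set.encard_coe_eq_coe_finsetCard]
    exact_mod_cast hTc

/-- Linear independence of rational vectors over the reals and over the rationals. -/
theorem li_real_iff {ι : Type*} {m : ℕ} (w : ι → Fin m → ℚ) :
    LinearIndependent ℝ (fun i j => ((w i j : ℚ) : ℝ)) ↔ LinearIndependent ℚ w := by
  classical
  constructor
  · intro h
    rw [linearIndependent_iff'] at h ⊢
    intro s g hg i hi
    have h1 := h s (fun i => ((g i : ℚ) : ℝ)) (by
      funext j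
      have h2 := congrFun hg j
      rw [Finset.sum_apply] at h2 ⊢
      simp only [Pi.smul_apply, smul_eq_mul, Pi.zero_apply] at h2 ⊢
      exact_mod_cast h2) i hi
    exact_mod_cast h1
  · intro h
    rw [linearIndependent_iff'] at ⊢
    intro s g hg i hi
    have hs : LinearIndependent ℚ (fun x : s => w x) := h.comp _ Subtype.val_injective
    have hinj := linearIndependent_iff_injective_fintypeLinearCombination.1 hs
    obtain ⟨f, hf⟩ := LinearMap.exists_leftInverse_of_injective
      (Fintype.linearCombination ℚ (fun x : s => w x)) (LinearMap.ker_eq_bot.2 hinj)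
    have hfw : ∀ x : s, f (w x) = Pi.single x 1 := by
      intro x
      have h1 := LinearMap.congr_fun hf (Pi.single x (1 : ℚ))
      simpa [Fintype.linearCombination_apply_single] using h1
    -- the coordinates of `f`
    let F : Fin m → ℚ := fun j => f (Pi.single j 1) ⟨i, hi⟩
    have hF : ∀ x : s, ∑ j, F j * w x j = if x = ⟨i, hi⟩ then 1 else 0 := by
      intro x
      have h1 : w x = ∑ j, w x j • (Pi.single j (1 : ℚ) : Fin m → ℚ) := by
        funext k
        rw [Finset.sum_apply, Finset.sum_eq_single k]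
        · simp
        · intro b _ hb
          simp [Pi.single_eq_of_ne' hb]
        · intro hk
          exact absurd (Finset.mem_univ k) hk
      have h2 := congrFun (hfw x) ⟨i, hi⟩
      rw [h1, map_sum, Finset.sum_apply] at h2
      simp only [map_smul, Pi.smul_apply, smul_eq_mul] at h2
      have h3 : (∑ j, F j * w x j) = ∑ j, w x j * f (Pi.single j 1) ⟨i, hi⟩ :=
        Finset.sum_congr rfl fun j _ => by rw [mul_comm]
      rw [h3, h2]
      by_cases hx : x = ⟨i, hi⟩
      · rw [if_pos hx, hx, Pi.single_eq_same]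
      · rw [if_neg hx, Pi.single_eq_of_ne (fun h => hx h.symm)]
    have h4 : ∑ j, (F j : ℝ) * (∑ x ∈ s, g x • (fun j => ((w x j : ℚ) : ℝ)) : Fin m → ℝ) j = 0 := by
      rw [hg]
      simp
    simp only [Finset.sum_apply, Pi.smul_apply, smul_eq_mul, Finset.mul_sum] at h4
    rw [Finset.sum_comm] at h4
    have h5 : ∀ x ∈ s, ∑ j, (F j : ℝ) * (g x * ((w x j : ℚ) : ℝ)) =
        if x = i then g x else 0 := by
      intro x hx
      have h6 := hF ⟨x, hx⟩
      have h7 : ∑ j, (F j : ℝ) * (g x * ((w x j : ℚ) : ℝ)) =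
          g x * ((∑ j, F j * w x j : ℚ) : ℝ) := by
        push_cast
        rw [Finset.mul_sum]
        exact Finset.sum_congr rfl fun j _ => by ring
      rw [h7, h6]
      by_cases hxi : x = i
      · subst hxi
        simp
      · rw [if_neg (fun h => hxi (congrArg Subtype.val h)), if_neg hxi]
        simp
    rw [Finset.sum_congr rfl h5, Finset.sum_ite_eq' s i, if_pos hi] at h4
    exact h4

/-- A real totally unimodular matrix is rational. -/
theorem exists_rat {m : ℕ} {α : Type*} (A : Matrix (Fin m) α ℝ) (hA : A.IsTotallyUnimodular) :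
    ∃ B : Matrix (Fin m) α ℚ, B.IsTotallyUnimodular ∧ ∀ i e, A i e = ((B i e : ℚ) : ℝ) := by
  classical
  have h1 : ∀ i e, ∃ q : ℚ, A i e = (q : ℝ) := by
    intro i e
    obtain ⟨s, hs⟩ := hA.apply i e
    refine ⟨(s : ℚ), ?_⟩
    rw [← hs]
    cases s <;> simp
  obtain ⟨B, hB⟩ : ∃ B : Matrix (Fin m) α ℚ, ∀ i e, A i e = ((B i e : ℚ) : ℝ) :=
    ⟨fun i e => Classical.choose (h1 i e), fun i e => Classical.choose_spec (h1 i e)⟩
  refine ⟨B, ?_, hB⟩
  intro k f g hf hg
  obtain ⟨s, hs⟩ := hA k f g hf hg
  refine ⟨s, ?_⟩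
  have h2 : (A.submatrix f g).det = (((B.submatrix f g).det : ℚ) : ℝ) := by
    have h3 : A.submatrix f g = (B.submatrix f g).map (algebraMap ℚ ℝ) := by
      ext i j
      simp only [Matrix.submatrix_apply, Matrix.map_apply]
      rw [hB]
      rfl
    rw [h3, ← RingHom.mapMatrix_apply, ← RingHom.map_det]
    rfl
  rw [h2] at hs
  have h4 : ((s : ℚ) : ℝ) = (s : ℝ) := by cases s <;> simp
  rw [← h4] at hs
  exact_mod_cast hs

end RC
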