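import Pool.Agent.Helper59.RC.StrAll
import Pool.Agent.Helper59.RC.Fin

/-!
The theorem for decomposable sets of vectors.
-/

namespace RC

open Submodule Module

theorem gc_dec (n : ℕ) : GC (fun V _ _ X => Dec V X) n := by
  refine Red.GC_of_noBad cls_dec ?_ n
  intro h ι κ V _ _ v c E e0 hb
  exact (Str.nb_dec hb.sys.cls).1 h ι κ v c E e0 hb (Str.dom_refl _)

theorem rainbow_dec {n : ℕ} (hn : 2 ≤ n) {E V : Type} [Finite E] [AddCommGroup V] [Module ℚ V]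
    (v : E → V) (hv : Dec V (Set.range v)) (M : Matroid E) (hME : M.E = Set.univ)
    (hM : ∀ S : Set E, M.Indep S ↔ LinearIndepOn ℚ v S)
    (hs : ∀ D, M.IsCircuit D → 3 ≤ D.encard) (hr : M.eRank = ((n - 1 : ℕ) : ℕ∞)) (c : E → Fin n)
    (hc : ∀ i, 2 ≤ (c ⁻¹' {i}).encard) :
    ∃ D, M.IsCircuit D ∧ Set.InjOn c D ∧ D.encard ≤ ((n + 1) / 2 : ℕ) := by
  refine rainbow_of_GC cls_dec (gc_dec n) v hv M hME hM hs ?_ c ?_
  · rw [hr]
    have h1 : (n - 1 : ℕ) + 1 = n := by omega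
    exact_mod_cast h1.le
  · intro i
    obtain ⟨e, f, he, hf, hef⟩ := Set.one_lt_encard_iff.1
      (lt_of_lt_of_le (by norm_num : (1 : ℕ∞) < 2) (hc i))
    exact ⟨e, f, hef, by simpa using he, by simpa using hf⟩

end RC
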