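import Pool.Agent.Helper59.RC.ChainQuot

/-!
Module RC-R6.  Lifting short sets from the contracted system.

`lift_short`: take a minimal dependent rainbow set `T₁ ⊆ rest` of the contracted family
(`short_min`), `T₁.card ≤ k`, nonempty; pick `e ∈ T₁`, `T = T₁.erase e`.  `T` is independent
modulo `GG v ε N` and `v e ∈ GG v ε N ⊔ span (v '' T)` (coefficient of `e` nonzero).  `cost_TQ`:
`T.card + 1 + (N+1)/2 = T₁.card + (N + 1)/2`.
`loop_short`: `cost_TQ` with `T = ∅`.
`loop2_short`: `cost_TP` with `T = ∅`, `s = 1` (both vectors are in `GG v ε N`).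
-/

namespace RC.Red

open Submodule Module

variable {ι κ V : Type} [AddCommGroup V] [Module ℚ V]

theorem lift_short {C : ClsT} (hC : Cls C) {v : ι → V} {c : ι → κ} {E : Finset ι}
    (h : Sys C v c E) {ε : ℕ → Bool → ι} {N : ℕ} (hN : 1 ≤ N) (hch : CCh v c E ε N) {k : ℕ}
    (hs : Short (fun e => (GG v ε N).mkQ (v e)) c (rest c E ε N) k) :
    Short v c E (k + (N + 1) / 2) := by
  classical
  obtain ⟨T₁, hT₁, hcard, hinj, hdep, hmin⟩ := short_min hs
  have hne : T₁.Nonempty := by
    by_contra hemp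
    rw [Finset.not_nonempty_iff_eq_empty] at hemp
    apply hdep
    rw [hemp]
    simp
  obtain ⟨e, he⟩ := hne
  have hsub : ∀ x ∈ T₁, x ∈ E ∧ ∀ i < N, c x ≠ c (ε i false) := by
    intro x hx
    have := hT₁ hx
    simpa [rest] using this
  have hTi : ∀ μ : ι → ℚ, ∑ t ∈ T₁.erase e, μ t • v t ∈ GG v ε N →
      ∀ t ∈ T₁.erase e, μ t = 0 := by
    intro μ hμ
    have hli := hmin e he
    rw [linearIndepOn_finset_iff] at hli
    apply hli
    have := (Submodule.Quotient.mk_eq_zero (GG v ε N)).2 hμ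
    rw [← Submodule.mkQ_apply, map_sum] at this
    simpa only [map_smul] using this
  have hmem : v e ∈ GG v ε N ⊔ span ℚ (v '' ((T₁.erase e : Finset ι) : Set ι)) := by
    rw [linearIndepOn_finset_iff] at hdep
    push Not at hdep
    obtain ⟨μ, hμ, t0, ht0, hne0⟩ := hdep
    have hμ' : ∑ t ∈ T₁, μ t • v t ∈ GG v ε N := by
      rw [← Submodule.Quotient.mk_eq_zero, ← Submodule.mkQ_apply, map_sum]
      simpa only [map_smul] using hμ
    have hsplit : ∑ t ∈ T₁, μ t • v t = μ e • v e + ∑ t ∈ T₁.erase e, μ t • v t :=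
      (Finset.add_sum_erase _ _ he).symm
    have hμe : μ e ≠ 0 := by
      intro h0
      rw [hsplit, h0, zero_smul, zero_add] at hμ'
      by_cases h1 : t0 = e
      · exact hne0 (h1 ▸ h0)
      · exact hne0 (hTi μ hμ' t0 (Finset.mem_erase.2 ⟨h1, ht0⟩))
    have h2 : v e = (μ e)⁻¹ • ((∑ t ∈ T₁, μ t • v t) - ∑ t ∈ T₁.erase e, μ t • v t) := by
      rw [hsplit, add_sub_cancel_right, smul_smul, inv_mul_cancel₀ hμe, one_smul]
    rw [h2]
    refine Submodule.smul_mem _ _ (Submodule.sub_mem _ (Submodule.mem_sup_left hμ') ?_)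
    refine Submodule.mem_sup_right (Submodule.sum_mem _ fun t ht => Submodule.smul_mem _ _ ?_)
    exact Submodule.subset_span ⟨t, ht, rfl⟩
  have key := cost_TQ (hC.uni h.cls) h.par hch hN (T₁.erase e)
    (fun x hx => (hsub x (Finset.mem_of_mem_erase hx)).1)
    (hinj.mono (by exact_mod_cast Finset.erase_subset _ _))
    (fun t ht => (hsub t (Finset.mem_of_mem_erase ht)).2) hTi (hsub e he).1
    (fun t ht hct => (Finset.ne_of_mem_erase ht)
      (hinj (by exact_mod_cast Finset.mem_of_mem_erase ht) (by exact_mod_cast he) hct.symm))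
    (hsub e he).2 hmem
  refine short_mono key (Finset.Subset.refl _) ?_
  have := Finset.card_erase_add_one he
  omega

theorem loop_short {C : ClsT} (hC : Cls C) {v : ι → V} {c : ι → κ} {E : Finset ι}
    (h : Sys C v c E) {ε : ℕ → Bool → ι} {N : ℕ} (hN : 1 ≤ N) (hch : CCh v c E ε N) {e : ι}
    (he : e ∈ rest c E ε N) (hl : v e ∈ GG v ε N) : Short v c E (1 + (N + 1) / 2) := by
  classical
  have hsub : e ∈ E ∧ ∀ i < N, c e ≠ c (ε i false) := by simpa [rest] using he
  have key := cost_TQ (hC.uni h.cls) h.par hch hN ∅ (by simp) (by simp) (by simp)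
    (by simp) hsub.1 (by simp) hsub.2 (Submodule.mem_sup_left hl)
  simpa using key

theorem loop2_short {C : ClsT} (hC : Cls C) {v : ι → V} {c : ι → κ} {E : Finset ι}
    (h : Sys C v c E) {ε : ℕ → Bool → ι} {N : ℕ} (hN : 1 ≤ N) (hch : CCh v c E ε N) {e e' : ι}
    (he : e ∈ rest c E ε N) (he' : e' ∈ rest c E ε N) (hee : e ≠ e') (hc : c e = c e')
    (hl : v e ∈ GG v ε N) (hl' : v e' ∈ GG v ε N) : Short v c E (1 + N / 2) := by
  classical
  have hsub : e ∈ E ∧ ∀ i < N, c e ≠ c (ε i false) := by simpa [rest] using he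
  have hsub' : e' ∈ E ∧ ∀ i < N, c e' ≠ c (ε i false) := by simpa [rest] using he'
  have key := cost_TP (hC.uni h.cls) h.par hch hN ∅ (by simp) (by simp) (by simp)
    (by simp) hsub.1 hsub'.1 hee hc (by simp) hsub.2 (s := 1) (Or.inl rfl)
    (by rw [one_smul]; exact Submodule.sub_mem _ hl hl') (Submodule.mem_sup_left hl)
  simpa using key

end RC.Red
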