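import Pool.Agent.Helper59.RC.RedLift

/-!
Module RC-R7.  The main reduction.  `n` colours, `a = 2 n - |E| ≥ 1` of size one (one of them is
that of `e0`), `b = |E| - n` of size two; `rk v E + 1 = n`; `N` levels, `m = N - 1 ≤ b`.
Suppose `¬ Short v c E (bd n |E|)`, `bd n |E| = a + b / 2`.
Take the maximal chain of `exists_chain`.  `m ≤ b`: the levels `1..m` are colours of size two.
(1) Loops: suppose `e ∈ rest`, `v e ∈ GG v ε N`.  `loop_short`: `Short (2 + m / 2)` (note
    `1 + (N + 1)/2 = 2 + m/2`).  If `a ≥ 2`: `2 + m/2 ≤ a + b/2`.  If `a = 1`: `e` is not alone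
    in its colour (only `e0` is), let `e' ∈ rest` be its partner, so `m ≤ b - 1`.  If
    `v e' ∈ GG v ε N`: `loop2_short`: `1 + (m+1)/2 ≤ 1 + b/2`.  Otherwise
    `span (v '' E)` contains `GG v ε N` and `v e'`, so `N + 1 ≤ rk v E = n - 1 = b` (`a = 1`:
    `n = b + 1`), that is `m ≤ b - 2`, and `2 + m/2 ≤ 1 + b/2`.  All contradictions.
(2) No loops: `rest_sys`, `rest_nc`: `nc (rest) = n - N < n`, `ih` gives
    `Short (bd (n - N) |rest|)` in the quotient, `|rest| = |E| - (2N - 1)`, that is `a - 1`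
    colours of size one and `b - m` of size two.  `lift_short`:
    `Short v c E (bd (n-N) |rest| + (N+1)/2)`, `(N + 1)/2 = m/2 + 1`.
    `a ≥ 2`: `(a-1) + (b-m)/2 + m/2 + 1 ≤ a + b/2`, contradiction.
    `a = 1`: `(b - m + 1)/2 + m/2 + 1 ≤ 1 + b/2` unless `b` is odd and `m` is even.
    (`n - N = b - m` here.)
So `a = 1` (`|E| + 1 = 2 n`), `n = b + 1` even, `N = m + 1` odd.
-/

namespace RC.Red

open Submodule Module

variable {ι κ V : Type} [AddCommGroup V] [Module ℚ V]

private theorem card_le_aux {c : ι → κ} {F : Finset ι}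
    (h : ∀ e ∈ F, ∀ e' ∈ F, ∀ e'' ∈ F, c e = c e' → c e = c e'' → e = e' ∨ e = e'' ∨ e' = e'') :
    F.card ≤ 2 * nc c F := by
  classical
  unfold nc
  convert Finset.card_le_mul_card_image (f := c) F 2 (fun a _ => ?_)
  by_contra hlt
  rw [not_le, Finset.two_lt_card] at hlt
  obtain ⟨x, hx, y, hy, z, hz, hxy, hxz, hyz⟩ := hlt
  rw [Finset.mem_filter] at hx hy hz
  rcases h x hx.1 y hy.1 z hz.1 (hx.2.trans hy.2.symm) (hx.2.trans hz.2.symm) with h1 | h1 | h1
  · exact hxy h1
  · exact hxz h1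
  · exact hyz h1

private theorem card_lt_aux {c : ι → κ} {F : Finset ι}
    (h : ∀ e ∈ F, ∀ e' ∈ F, ∀ e'' ∈ F, c e = c e' → c e = c e'' → e = e' ∨ e = e'' ∨ e' = e'')
    {e : ι} (he : e ∈ F) (hs : ∀ x ∈ F, c x = c e → x = e) : F.card + 1 ≤ 2 * nc c F := by
  classical
  have h1 : (F.erase e).image c = (F.image c).erase (c e) := by
    ext a
    simp only [Finset.mem_image, Finset.mem_erase]
    constructor
    · rintro ⟨x, ⟨hne, hx⟩, rfl⟩
      exact ⟨fun hc => hne (hs x hx hc), x, hx, rfl⟩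
    · rintro ⟨hne, x, hx, rfl⟩
      exact ⟨x, ⟨fun hc => hne (by rw [hc]), hx⟩, rfl⟩
  have h2 : nc c F = (F.image c).card := by
    unfold nc
    congr
  have h3 : nc c (F.erase e) = ((F.erase e).image c).card := by
    unfold nc
    congr
  have h4 : (F.erase e).card ≤ 2 * nc c (F.erase e) := card_le_aux
    (fun x hx y hy z hz => h x (Finset.mem_of_mem_erase hx) y (Finset.mem_of_mem_erase hy) z
      (Finset.mem_of_mem_erase hz))
  have h5 : c e ∈ F.image c := Finset.mem_image_of_mem c he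
  rw [h3, h1, Finset.card_erase_of_mem h5, Finset.card_erase_of_mem he, ← h2] at h4
  have h6 : 0 < F.card := Finset.card_pos.2 ⟨e, he⟩
  have h7 : 0 < nc c F := by
    rw [h2]
    exact Finset.card_pos.2 ⟨_, h5⟩
  omega

theorem red_main {C : ClsT} (hC : Cls C) {n : ℕ} (ih : ∀ n' < n, GC C n') {v : ι → V}
    {c : ι → κ} {E : Finset ι} (h : Sys C v c E) (hn : nc c E = n) (hr : rk v E + 1 = n)
    {e0 : ι} (he0 : e0 ∈ E) (hs : ∀ e ∈ E, c e = c e0 → e = e0)
    (hno : ¬ Short v c E (bd n E.card)) :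
    E.card + 1 = 2 * n ∧ Even n ∧ ∃ (N : ℕ) (ε : ℕ → Bool → ι), Odd N ∧ ε 0 false = e0 ∧
      CCh v c E ε N ∧
      (∀ e ∈ E, ∀ e' ∈ E, e ≠ e' → c e = c e' → (∀ i < N, c e ≠ c (ε i false)) →
        v e ∉ GG v ε N → ∀ s : ℚ, (s = 1 ∨ s = -1) → v e - s • v e' ∉ GG v ε N) ∧
      (∀ e ∈ rest c E ε N, v e ∉ GG v ε N) := by
  obtain ⟨N, ε, hN, hε0, hch, hcl⟩ := exists_chain h he0
  have hs' : ∀ e ∈ E, c e = c (ε 0 false) → e = ε 0 false := by
    rw [hε0]
    exact hs
  have hnc := rest_nc hch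
  have hcard := rest_card h hN hch hs'
  have hrk := chain_le_rank hch
  have hsub : rest c E ε N ⊆ E := by
    classical
    unfold rest
    exact Finset.filter_subset _ _
  have htwo : ∀ e ∈ rest c E ε N, ∀ e' ∈ rest c E ε N, ∀ e'' ∈ rest c E ε N, c e = c e' →
      c e = c e'' → e = e' ∨ e = e'' ∨ e' = e'' :=
    fun e he e' he' e'' he'' => h.two e (hsub he) e' (hsub he') e'' (hsub he'')
  have hc1 := sys_card h
  have hc2 : nc c (rest c E ε N) ≤ (rest c E ε N).card := by
    classical
    unfold nc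
    convert Finset.card_image_le (s := rest c E ε N) (f := c)
  have hc3 : (rest c E ε N).card ≤ 2 * nc c (rest c E ε N) := card_le_aux htwo
  rw [hn] at hnc hc1
  have hbd : bd n E.card = (2 * n - E.card) + (E.card - n) / 2 := by
    unfold bd
    rw [if_neg]
    omega
  -- no loops
  have hl : ∀ e ∈ rest c E ε N, v e ∉ GG v ε N := by
    intro e he hmem
    have hsh := loop_short hC h hN hch he hmem
    by_cases ha : E.card + 1 = 2 * n
    · have hex : ∃ x ∈ rest c E ε N, c x = c e ∧ x ≠ e := by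
        by_contra hcon
        push Not at hcon
        have := card_lt_aux htwo he hcon
        omega
      obtain ⟨x, hx, hcx, hxe⟩ := hex
      by_cases hmx : v x ∈ GG v ε N
      · have hsh2 := loop2_short hC h hN hch he hx (Ne.symm hxe) hcx.symm hmem hmx
        refine hno (short_mono hsh2 (Finset.Subset.refl E) ?_)
        rw [hbd]
        omega
      · have hr1 := rest_rank hch {x} (Finset.singleton_subset_iff.2 (hsub hx))
        have hr2 : rk (fun e => (GG v ε N).mkQ (v e)) {x} = 1 := by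
          unfold rk
          rw [Finset.coe_singleton, Set.image_singleton]
          apply finrank_span_singleton
          intro h0
          apply hmx
          rwa [Submodule.mkQ_apply, Submodule.Quotient.mk_eq_zero] at h0
        refine hno (short_mono hsh (Finset.Subset.refl E) ?_)
        rw [hbd]
        omega
    · refine hno (short_mono hsh (Finset.Subset.refl E) ?_)
      rw [hbd]
      omega
  have hsys := rest_sys hC h hN hch hcl hl
  have hnN : n - N < n := by omega
  have hS := ih (n - N) hnN _ _ _ _ c _ hsys (by omega)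
  have hL := lift_short hC h hN hch hS
  have hbig : ¬ bd (n - N) (rest c E ε N).card + (N + 1) / 2 ≤ bd n E.card := by
    intro hle
    exact hno (short_mono hL (Finset.Subset.refl E) hle)
  rw [hbd] at hbig
  unfold bd at hbig
  have key : E.card + 1 = 2 * n ∧ n % 2 = 0 ∧ N % 2 = 1 := by
    split_ifs at hbig with h1
    · omega
    · omega
  refine ⟨key.1, Nat.even_iff.2 key.2.1, N, ε, Nat.odd_iff.2 key.2.2, hε0, hch, hcl, hl⟩

end RC.Red
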