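import Pool.Agent.Helper59.RC.RedLift

/-!
Module RC-R8.  Chains of odd length `N ≥ 3` in type `(1, n - 1)`, `n` even: `Short (n / 2)`.

Let `N' = N - 1` (even, `≥ 2`), `g = mkQ (GG v ε N')`, `x = ε N' false`, `y = ε N' true`,
`E'' = rest c E ε N ∪ {x}`.  `(v, c, E'')` contracted by `GG v ε N'` is a system: `cls` by
`cls_mkQ`, `hC.mono`; `ne`: elements of `rest` are not even in `GG v ε N`, `x` by `CCh.ind`;
`par`: pairs in `rest` are independent modulo `GG v ε N` (see `rest_sys`), hence modulo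
`GG v ε N'`; `x` is alone in its colour; rank: `rest_rank` for the chain of length `N'`:
`rk ≤ rk v E - N' = n - 1 - N'`, `nc c E'' = nc (rest) + 1 = n - N + 1 = n - N'`.
`|E''| = |rest| + 1 = |E| - 2 N + 2 = 2 (n - N') - 1`.
`ih` (`n - N' < n`): `Short (bd (n - N') (2 (n-N') - 1)) = Short (1 + (n - N' - 1)/2)`, and as
`n` and `N'` are even this is `(n - N')/2`.  Take a minimal such set `T₁` (`short_min`).
* `x ∉ T₁`: `cost_TQ` for the chain of length `N'` (as in `lift_short`):
  `T₁.card + (N' + 1)/2 ≤ (n - N')/2 + N'/2 = n/2`.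
* `x ∈ T₁`: `T = T₁.erase x` is independent modulo `GG v ε N'` and
  `v x ∈ GG v ε N' ⊔ span (v '' T)`; `v x - s • v y ∈ GG v ε N'` (`CCh.dif`, `N' > 0`);
  `cost_TP` for the chain of length `N'`, `e = x`, `e' = y`:
  `T.card + 1 + N'/2 ≤ (n - N')/2 + N'/2 = n/2`.
(`CCh v c E ε N'` from `CCh v c E ε N`.)
-/

namespace RC.Red

open Submodule Module

variable {ι κ V : Type} [AddCommGroup V] [Module ℚ V]

private theorem gg_mono (v : ι → V) (ε : ℕ → Bool → ι) {i j : ℕ} (h : i ≤ j) :
    GG v ε i ≤ GG v ε j := by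
  unfold GG
  refine span_mono ?_
  rintro w ⟨k, hk, rfl⟩
  exact ⟨k, lt_of_lt_of_le hk h, rfl⟩

private theorem cch_mono {v : ι → V} {c : ι → κ} {E : Finset ι} {ε : ℕ → Bool → ι} {N N' : ℕ}
    (h : CCh v c E ε N) (hN : N' ≤ N) : CCh v c E ε N' where
  mem := fun i hi => h.mem i (lt_of_lt_of_le hi hN)
  zero := h.zero
  col := fun i hi => h.col i (lt_of_lt_of_le hi hN)
  inj := fun i hi j hj => h.inj i (lt_of_lt_of_le hi hN) j (lt_of_lt_of_le hj hN)
  ind := fun i hi => h.ind i (lt_of_lt_of_le hi hN)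
  dif := fun i hi => h.dif i (lt_of_lt_of_le hi hN)

private theorem gg_finset {v : ι → V} {c : ι → κ} {E : Finset ι} {ε : ℕ → Bool → ι} {N : ℕ}
    (h : CCh v c E ε N) : ∃ T : Finset V, (T : Set V) ⊆ v '' (E : Set ι) ∧
      span ℚ (T : Set V) = GG v ε N := by
  classical
  refine ⟨(Finset.range N).image (fun j => v (ε j false)), ?_, ?_⟩
  · intro w hw
    rw [Finset.mem_coe, Finset.mem_image] at hw
    obtain ⟨j, hj, rfl⟩ := hw
    exact ⟨_, h.mem j (Finset.mem_range.1 hj) false, rfl⟩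
  · unfold GG
    congr 1
    ext w
    rw [Finset.mem_coe, Finset.mem_image]
    constructor
    · rintro ⟨j, hj, rfl⟩
      exact ⟨j, Finset.mem_range.1 hj, rfl⟩
    · rintro ⟨j, hj, rfl⟩
      exact ⟨j, Finset.mem_range.2 hj, rfl⟩

private theorem ext_aux [DecidableEq ι] (G : Submodule ℚ V) (v : ι → V) (T : Finset ι)
    (hd : ¬ LinearIndepOn ℚ (fun e => G.mkQ (v e)) (T : Set ι))
    (hm : ∀ e ∈ T, LinearIndepOn ℚ (fun e => G.mkQ (v e)) ((T.erase e : Finset ι) : Set ι))
    {e : ι} (he : e ∈ T) :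
    (∀ μ : ι → ℚ, ∑ t ∈ T.erase e, μ t • v t ∈ G → ∀ t ∈ T.erase e, μ t = 0) ∧
      v e ∈ G ⊔ span ℚ (v '' ((T.erase e : Finset ι) : Set ι)) := by
  have h1 := linearIndepOn_finset_iff.1 (hm e he)
  have hq : ∀ (S : Finset ι) (μ : ι → ℚ),
      ∑ t ∈ S, μ t • G.mkQ (v t) = G.mkQ (∑ t ∈ S, μ t • v t) := by
    intro S μ
    rw [map_sum]
    exact Finset.sum_congr rfl fun t _ => by rw [map_smul]
  refine ⟨fun μ hμ => h1 μ ?_, ?_⟩
  · rw [hq]
    exact (Submodule.Quotient.mk_eq_zero G).2 hμ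
  · rw [linearIndepOn_finset_iff] at hd
    push Not at hd
    obtain ⟨f, hf, i, hi, hfi⟩ := hd
    have hfe : f e ≠ 0 := by
      intro h0
      have h2 : ∑ t ∈ T.erase e, f t • G.mkQ (v t) = 0 := by
        rw [← Finset.add_sum_erase T _ he, h0, zero_smul, zero_add] at hf
        exact hf
      have h3 := h1 f h2
      by_cases hie : i = e
      · exact hfi (hie ▸ h0)
      · exact hfi (h3 i (Finset.mem_erase.2 ⟨hie, hi⟩))
    have h4 : ∑ t ∈ T, f t • v t ∈ G := by
      rw [hq] at hf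
      exact (Submodule.Quotient.mk_eq_zero G).1 hf
    rw [← Finset.add_sum_erase T _ he] at h4
    have h5 : v e = (f e)⁻¹ • (f e • v e + ∑ t ∈ T.erase e, f t • v t)
        + (-(f e)⁻¹) • ∑ t ∈ T.erase e, f t • v t := by
      rw [smul_add, smul_smul, inv_mul_cancel₀ hfe, one_smul, neg_smul, add_neg_cancel_right]
    rw [h5]
    refine Submodule.add_mem_sup (G.smul_mem _ h4) (Submodule.smul_mem _ _ ?_)
    exact Submodule.sum_mem _ fun t ht =>
      Submodule.smul_mem _ _ (subset_span ⟨t, Finset.mem_coe.2 ht, rfl⟩)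

theorem red_top {C : ClsT} (hC : Cls C) {n : ℕ} (ih : ∀ n' < n, GC C n') {v : ι → V}
    {c : ι → κ} {E : Finset ι} (h : Sys C v c E) (hn : nc c E = n) (hr : rk v E + 1 = n)
    (hE : E.card + 1 = 2 * n) (hev : Even n)
    {N : ℕ} {ε : ℕ → Bool → ι} (hN : 3 ≤ N) (hodd : Odd N)
    (hs : ∀ e ∈ E, c e = c (ε 0 false) → e = ε 0 false) (hch : CCh v c E ε N)
    (hcl : ∀ e ∈ E, ∀ e' ∈ E, e ≠ e' → c e = c e' → (∀ i < N, c e ≠ c (ε i false)) →
        v e ∉ GG v ε N → ∀ s : ℚ, (s = 1 ∨ s = -1) → v e - s • v e' ∉ GG v ε N)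
    (hl : ∀ e ∈ rest c E ε N, v e ∉ GG v ε N) : Short v c E (n / 2) := by
  classical
  obtain ⟨N', rfl⟩ : ∃ N', N = N' + 1 := ⟨N - 1, by omega⟩
  have hN' : 2 ≤ N' := by omega
  have hN'ev : Even N' := by
    rcases Nat.even_or_odd N' with h1 | h1
    · exact h1
    · exact absurd hodd (Nat.not_odd_iff_even.2 h1.add_one)
  have hch' : CCh v c E ε N' := cch_mono hch (Nat.le_succ N')
  have hlt : N' < N' + 1 := Nat.lt_succ_self N'
  set x := ε N' false with hx
  set y := ε N' true with hy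
  obtain ⟨hxy, s, hs1, hdif⟩ := hch.dif N' hlt (by omega)
  have hxE : x ∈ E := hch.mem N' hlt false
  have hyE : y ∈ E := hch.mem N' hlt true
  have hcxy : c x = c y := hch.col N' hlt
  have hxG : v x ∉ GG v ε N' := hch.ind N' hlt
  have hrestE : rest c E ε (N' + 1) ⊆ E := by
    unfold rest
    exact Finset.filter_subset _ _
  have hrestc : ∀ e ∈ rest c E ε (N' + 1), ∀ i < N' + 1, c e ≠ c (ε i false) := by
    intro e he
    unfold rest at he
    exact (Finset.mem_filter.1 he).2
  have hxr : x ∉ rest c E ε (N' + 1) := fun h1 => hrestc x h1 N' hlt rfl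
  have hcxr : ∀ e ∈ rest c E ε (N' + 1), c e ≠ c x := fun e he => hrestc e he N' hlt
  set E' := insert x (rest c E ε (N' + 1)) with hE'
  have hE'E : E' ⊆ E := by
    intro e he
    rw [hE', Finset.mem_insert] at he
    rcases he with rfl | he
    · exact hxE
    · exact hrestE he
  have hcxi : ∀ i < N', c x ≠ c (ε i false) := by
    intro i hi h1
    have := hch.inj N' hlt i (by omega) h1
    omega
  have hE'c : ∀ e ∈ E', ∀ i < N', c e ≠ c (ε i false) := by
    intro e he i hi
    rw [hE', Finset.mem_insert] at he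
    rcases he with rfl | he
    · exact hcxi i hi
    · exact hrestc e he i (by omega)
  -- counting
  have hnc : nc c E' = nc c (rest c E ε (N' + 1)) + 1 := by
    unfold nc
    rw [hE', Finset.image_insert, Finset.card_insert_of_notMem]
    intro h1
    obtain ⟨e, he, hce⟩ := Finset.mem_image.1 h1
    exact hcxr e he hce
  have hnr := rest_nc hch
  have hcr := rest_card h (by omega : 1 ≤ N' + 1) hch hs
  have hcard : E'.card = (rest c E ε (N' + 1)).card + 1 := by
    rw [hE', Finset.card_insert_of_notMem hxr]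
  have hrk := rest_rank hch' E' hE'E
  -- the contracted system
  obtain ⟨TT, hTT, hsp⟩ := gg_finset hch'
  have hcls0 : C (V ⧸ GG v ε N') ((GG v ε N').mkQ '' (v '' (E : Set ι))) := by
    have h1 := cls_mkQ hC TT hTT h.cls
    rw [hsp] at h1
    exact h1
  have hsub : ∀ z ∈ (fun e => (GG v ε N').mkQ (v e)) '' (E' : Set ι),
      z ∈ (GG v ε N').mkQ '' (v '' (E : Set ι)) := by
    rintro z ⟨e, he, rfl⟩
    exact ⟨v e, ⟨e, hE'E he, rfl⟩, rfl⟩
  have hsys : Sys C (fun e => (GG v ε N').mkQ (v e)) c E' := by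
    have hne : ∀ e ∈ E', (GG v ε N').mkQ (v e) ≠ 0 := by
      intro e he h0
      have h1 : v e ∈ GG v ε N' := (Submodule.Quotient.mk_eq_zero _).1 h0
      rw [hE', Finset.mem_insert] at he
      rcases he with rfl | he
      · exact hxG h1
      · exact hl e he (gg_mono v ε (Nat.le_succ N') h1)
    refine ⟨hC.mono hcls0 fun z hz => Or.inr (Or.inl (hsub z hz)), hne,
      fun e he e' he' e'' he'' => h.two e (hE'E he) e' (hE'E he') e'' (hE'E he''), ?_, ?_⟩
    · intro e he e' he' hcc hee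
      rcases Finset.mem_insert.1 he with hex | her
      · rcases Finset.mem_insert.1 he' with hex' | her'
        · exact absurd (hex.trans hex'.symm) hee
        · exact absurd (by rw [← hcc, hex]) (hcxr e' her')
      · rcases Finset.mem_insert.1 he' with hex' | her'
        · exact absurd (by rw [hcc, hex']) (hcxr e her)
        · by_contra hli
          have hU : Uni ((GG v ε N').mkQ '' (v '' (E : Set ι))) := hC.uni hcls0
          have h1 := uni_par hU (hsub _ ⟨e, he, rfl⟩) (hsub _ ⟨e', he', rfl⟩) (hne e he)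
            (hne e' he') hli
          have h2 : ∀ s : ℚ, (s = 1 ∨ s = -1) → v e - s • v e' ∉ GG v ε (N' + 1) :=
            hcl e (hE'E he) e' (hE'E he') hee hcc (hrestc e her) (hl e her)
          rcases h1 with h1 | h1
          · refine h2 1 (Or.inl rfl) (gg_mono v ε (Nat.le_succ N') ?_)
            rw [one_smul]
            apply (Submodule.Quotient.mk_eq_zero _).1
            change (GG v ε N').mkQ (v e - v e') = 0
            rw [map_sub]
            exact sub_eq_zero.2 h1.symm
          · refine h2 (-1) (Or.inr rfl) (gg_mono v ε (Nat.le_succ N') ?_)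
            rw [neg_one_smul, sub_neg_eq_add]
            apply (Submodule.Quotient.mk_eq_zero _).1
            change (GG v ε N').mkQ (v e + v e') = 0
            rw [map_add]
            have h3 : (GG v ε N').mkQ (v e') = -(GG v ε N').mkQ (v e) := h1
            rw [h3, add_neg_cancel]
    · omega
  have hn' : nc c E' = n - N' := by omega
  have hn'lt : n - N' < n := by omega
  have hn'ev : Even (n - N') := by
    obtain ⟨a, ha⟩ := hev
    obtain ⟨b, hb⟩ := hN'ev
    exact ⟨a - b, by omega⟩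
  obtain ⟨m, hm⟩ := hn'ev
  obtain ⟨m', hm'⟩ := hN'ev
  have hshort := ih (n - N') hn'lt _ _ _ _ _ _ hsys hn'
  obtain ⟨T, hTE, hTcard, hTc, hTd, hTm⟩ := short_min hshort
  have hbd : bd (n - N') E'.card = (n - N') / 2 := by
    unfold bd
    rw [if_neg (by omega)]
    omega
  rw [hbd] at hTcard
  have hcol : ∀ e ∈ T, ∀ t ∈ T.erase e, c e ≠ c t := by
    intro e he t ht hct
    rw [Finset.mem_erase] at ht
    exact ht.1 (hTc (Finset.mem_coe.2 ht.2) (Finset.mem_coe.2 he) hct.symm)
  have hsubT : ∀ e : ι, T.erase e ⊆ E := fun e =>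
    (Finset.erase_subset e T).trans (hTE.trans hE'E)
  have hinj : ∀ e : ι, Set.InjOn c ((T.erase e : Finset ι) : Set ι) := fun e =>
    hTc.mono (by exact_mod_cast Finset.erase_subset e T)
  have hUE : Uni (v '' (E : Set ι)) := hC.uni h.cls
  by_cases hxT : x ∈ T
  · obtain ⟨hi, hmem⟩ := ext_aux (GG v ε N') v T hTd hTm hxT
    have h1 := cost_TP hUE h.par hch' (by omega) (T.erase x) (hsubT x) (hinj x)
      (fun t ht => hE'c t (hTE (Finset.mem_of_mem_erase ht))) hi hxE hyE hxy hcxy
      (hcol x hxT) hcxi hs1 hdif hmem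
    rw [Finset.card_erase_add_one hxT] at h1
    exact short_mono h1 (Finset.Subset.refl E) (by omega)
  · have hne : T.Nonempty := by
      rw [Finset.nonempty_iff_ne_empty]
      rintro rfl
      apply hTd
      rw [Finset.coe_empty]
      exact linearIndepOn_empty _ _
    obtain ⟨e, he⟩ := hne
    obtain ⟨hi, hmem⟩ := ext_aux (GG v ε N') v T hTd hTm he
    have h1 := cost_TQ hUE h.par hch' (by omega) (T.erase e) (hsubT e) (hinj e)
      (fun t ht => hE'c t (hTE (Finset.mem_of_mem_erase ht))) hi (hE'E (hTE he))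
      (hcol e he) (hE'c e (hTE he)) hmem
    rw [Finset.card_erase_add_one he] at h1
    exact short_mono h1 (Finset.Subset.refl E) (by omega)

end RC.Red
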