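import Pool.Agent.Helper59.RC.RedMain
import Pool.Agent.Helper59.RC.RedTop
import Pool.Agent.Helper59.RC.NcEq

/-!
Module RC-R9.  Reduction of `GC C n` to bad systems.

`bad_of_not`: if `Sys C v c E`, `nc c E = n`, `e0 ∈ E` alone in its colour, `ih` below `n`, and
`¬ Short v c E (bd n E.card)`, then `n = 2 h` and `Bad C h v c E e0`:
* `rk v E + 1 = n`: otherwise `short_drop`.
* `red_main`: `E.card + 1 = 2 n`, `n = 2 h` even, `bd n E.card = 1 + (n - 1)/2 = h` (`h ≥ 1`);
  if `N ≥ 3` then `red_top` gives `Short v c E (n/2)`, contradiction; so `N = 1`.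
* `partner`: only one colour class of size one: `E.card = 2 n - 1`, class sizes are 1 or 2
  (`Sys.two`), so all others have size 2.
* `tri`: `e, e'` of the same colour, `e ≠ e'` (so both are `≠ e0` and in `rest`).  `v e, v e'` are
  not in `GG v ε 1 = span {v e0}`.  Suppose `v e0, v e, v e'` dependent.  Any two of them are
  independent (`Sys.par` for `e, e'`; no loops for the others), so the set is a minimal
  dependent set and by `uni_circ` all coefficients are `± t`: `v e - s • v e' ∈ span {v e0}`
  with `s = ± 1`, excluded by the closure property.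
`GC_of_noBad`: strong induction on `n`.  Let `Sys C v c E`, `nc c E = n`.
* If some colour has exactly one element `e0` (`E.card ≠ 2 n`): `bad_of_not`.
* Otherwise all colours have two elements, `E.card = 2 n`, `bd n (2 n) = (n + 1)/2`.  `n ≥ 1`
  (`Sys.rank`), take `e, e' ∈ E` of one colour and `E' = E.erase e'`: `Sys C v c E'`
  (`nc c E' = n`), `e` is alone in its colour, so `Short v c E' (bd n (2 n - 1))` by
  `bad_of_not`, and `bd n (2 n - 1) = 1 + (n - 1)/2 = (n + 1)/2`.  `short_mono`.
-/

namespace RC.Red

open Submodule Module

theorem reduce_fiber_le {ι κ : Type} [DecidableEq ι] [DecidableEq κ] {c : ι → κ} {E : Finset ι}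
    (h : ∀ e ∈ E, ∀ e' ∈ E, ∀ e'' ∈ E, c e = c e' → c e = c e'' → e = e' ∨ e = e'' ∨ e' = e'') :
    E.card ≤ 2 * (E.image c).card := by
  refine Finset.card_le_mul_card_image E 2 fun a _ => ?_
  by_contra hcon
  push Not at hcon
  rw [Finset.two_lt_card] at hcon
  obtain ⟨x, hx, y, hy, z, hz, h1, h2, h3⟩ := hcon
  rw [Finset.mem_filter] at hx hy hz
  rcases h x hx.1 y hy.1 z hz.1 (by rw [hx.2, hy.2]) (by rw [hx.2, hz.2]) with h4 | h4 | h4
  · exact h1 h4
  · exact h2 h4
  · exact h3 h4

theorem reduce_nc_eq {ι κ : Type} [DecidableEq κ] (c : ι → κ) (E : Finset ι) :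
    nc c E = (E.image c).card :=
  nc_image c E

theorem bad_of_not {C : ClsT} (hC : Cls C) {n : ℕ} (ih : ∀ n' < n, GC C n')
    {ι κ V : Type} [AddCommGroup V] [Module ℚ V] {v : ι → V} {c : ι → κ} {E : Finset ι}
    (h : Sys C v c E) (hn : nc c E = n) {e0 : ι} (he0 : e0 ∈ E)
    (hs : ∀ e ∈ E, c e = c e0 → e = e0) (hno : ¬ Short v c E (bd n E.card)) :
    ∃ h' : ℕ, n = 2 * h' ∧ Bad C h' v c E e0 := by
  classical
  -- rank
  have hr : rk v E + 1 = n := by
    by_contra hcon
    have h1 := h.rank
    rw [hn] at h1
    exact hno (short_drop hC ih h hn (by omega))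
  obtain ⟨hcard, hev, N, ε, hodd, hε0, hch, hcl, hl⟩ := red_main hC ih h hn hr he0 hs hno
  obtain ⟨k, hk⟩ := hev
  have hEpos : 0 < E.card := Finset.card_pos.2 ⟨e0, he0⟩
  have hkpos : 0 < k := by omega
  have hbd : bd n E.card = k := by
    unfold bd
    rw [if_neg (by omega)]
    omega
  have hN1 : N = 1 := by
    by_contra hcon
    have h3 : 3 ≤ N := by
      obtain ⟨r, hr'⟩ := hodd
      omega
    have h4 := red_top hC ih h hn hr hcard ⟨k, hk⟩ h3 hodd (by rw [hε0]; exact hs) hch hcl hl
    rw [hbd] at hno
    have e1 : n / 2 = k := by omega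
    rw [e1] at h4
    exact hno h4
  subst hN1
  have hGG : GG v ε 1 = span ℚ {v e0} := by
    unfold GG
    congr 1
    ext w
    simp only [Set.mem_ofPred_eq, Set.mem_singleton_iff]
    constructor
    · rintro ⟨j, hj, rfl⟩
      have : j = 0 := by omega
      rw [this, hε0]
    · rintro rfl
      exact ⟨0, by omega, by rw [hε0]⟩
  refine ⟨k, by omega, ?_⟩
  refine ⟨?_, h, by omega, by omega, he0, hs, ?_, by omega, ?_, ?_⟩
  · intro n' hn'
    exact ih n' (by omega)
  · -- partners
    intro e he hne
    by_contra hcon
    push Not at hcon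
    have halone : ∀ x ∈ E, c x = c e → x = e := by
      intro x hx hcx
      by_contra hxe
      exact hcon x hx hxe hcx
    have h1 : ((E.erase e0).erase e).card ≤ 2 * (((E.erase e0).erase e).image c).card := by
      refine reduce_fiber_le ?_
      intro x hx y hy z hz
      exact h.two x (Finset.mem_of_mem_erase (Finset.mem_of_mem_erase hx)) y
        (Finset.mem_of_mem_erase (Finset.mem_of_mem_erase hy)) z
        (Finset.mem_of_mem_erase (Finset.mem_of_mem_erase hz))
    have h2 : ((E.erase e0).erase e).card + 2 = E.card := by
      have a1 : (E.erase e0).card + 1 = E.card := Finset.card_erase_add_one he0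
      have a2 : ((E.erase e0).erase e).card + 1 = (E.erase e0).card :=
        Finset.card_erase_add_one (Finset.mem_erase.2 ⟨hne, he⟩)
      omega
    have h3 : (((E.erase e0).erase e).image c).card + 2 ≤ nc c E := by
      rw [reduce_nc_eq]
      have b1 : c e ∉ ((E.erase e0).erase e).image c := by
        rw [Finset.mem_image]
        rintro ⟨x, hx, hcx⟩
        rw [Finset.mem_erase, Finset.mem_erase] at hx
        exact hx.1 (halone x hx.2.2 hcx)
      have b2 : c e0 ∉ insert (c e) (((E.erase e0).erase e).image c) := by
        rw [Finset.mem_insert, Finset.mem_image]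
        rintro (hh | ⟨x, hx, hcx⟩)
        · exact hne (hs e he hh.symm)
        · rw [Finset.mem_erase, Finset.mem_erase] at hx
          exact hx.2.1 (hs x hx.2.2 hcx)
      have b3 : insert (c e0) (insert (c e) (((E.erase e0).erase e).image c)) ⊆ E.image c := by
        intro x hx
        rw [Finset.mem_insert, Finset.mem_insert] at hx
        rcases hx with rfl | rfl | hx
        · exact Finset.mem_image_of_mem c he0
        · exact Finset.mem_image_of_mem c he
        · rw [Finset.mem_image] at hx
          obtain ⟨y, hy, rfl⟩ := hx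
          exact Finset.mem_image_of_mem c
            (Finset.mem_of_mem_erase (Finset.mem_of_mem_erase hy))
      have b4 := Finset.card_le_card b3
      rw [Finset.card_insert_of_notMem b2, Finset.card_insert_of_notMem b1] at b4
      exact b4
    omega
  · -- independence
    intro e he e' he' hce hne
    have hce0 : c e ≠ c e0 := by
      intro hh
      have h1 := hs e he hh
      have h2 := hs e' he' (by rw [← hce, hh])
      exact hne (h1.trans h2.symm)
    have hrest : ∀ x ∈ E, c x ≠ c e0 → x ∈ rest c E ε 1 := by
      intro x hx hcx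
      unfold rest
      rw [Finset.mem_filter]
      refine ⟨hx, fun i hi => ?_⟩
      have : i = 0 := by omega
      rw [this, hε0]
      exact hcx
    have hve : v e ∉ span ℚ {v e0} := by
      rw [← hGG]
      exact hl e (hrest e he hce0)
    have hve' : v e' ∉ span ℚ {v e0} := by
      rw [← hGG]
      exact hl e' (hrest e' he' (by rw [← hce]; exact hce0))
    have hcl' : ∀ s : ℚ, (s = 1 ∨ s = -1) → v e - s • v e' ∉ span ℚ {v e0} := by
      intro s hs'
      rw [← hGG]
      refine hcl e he e' he' hne hce ?_ ?_ s hs'
      · intro i hi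
        have : i = 0 := by omega
        rw [this, hε0]
        exact hce0
      · rw [hGG]
        exact hve
    have hpar := h.par e he e' he' hce hne
    have hpar2 : ∀ a b : ℚ, a • v e + b • v e' = 0 → a = 0 ∧ b = 0 := by
      rw [LinearIndependent.pair_iff] at hpar
      exact hpar
    have hv0 : v e0 ≠ 0 := h.ne e0 he0
    rw [Fintype.linearIndependent_iff]
    intro g hg
    rw [Fin.sum_univ_three] at hg
    simp only [Matrix.cons_val_zero, Matrix.cons_val_one, Matrix.cons_val] at hg
    have hmem0 : ∀ a : ℚ, a • v e0 ∈ span ℚ {v e0} := fun a =>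
      Submodule.smul_mem _ _ (Submodule.mem_span_singleton_self _)
    by_cases ha : g 0 = 0
    · rw [ha, zero_smul, zero_add] at hg
      obtain ⟨h1, h2⟩ := hpar2 _ _ hg
      intro i
      fin_cases i
      · exact ha
      · exact h1
      · exact h2
    · exfalso
      have hb : g 1 ≠ 0 := by
        intro hb
        rw [hb, zero_smul, add_zero] at hg
        have hd : g 2 ≠ 0 := by
          intro hd
          rw [hd, zero_smul, add_zero] at hg
          exact (smul_ne_zero ha hv0) hg
        apply hve'
        have e1 : v e' = (-(g 0 / g 2)) • v e0 := by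
          have e2 : g 2 • v e' = -(g 0 • v e0) := by
            rw [eq_neg_iff_add_eq_zero, add_comm]
            exact hg
          have e3 : v e' = (g 2)⁻¹ • (g 2 • v e') := by
            rw [smul_smul, inv_mul_cancel₀ hd, one_smul]
          rw [e3, e2, smul_neg, smul_smul, neg_smul, div_eq_inv_mul]
        rw [e1]
        exact hmem0 _
      have e1 : v e0 = (-(g 1 / g 0)) • v e + (-(g 2 / g 0)) • v e' := by
        have e2 : g 0 • v e0 = -(g 1 • v e + g 2 • v e') := by
          rw [eq_neg_iff_add_eq_zero, ← add_assoc]
          exact hg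
        have e3 : v e0 = (g 0)⁻¹ • (g 0 • v e0) := by
          rw [smul_smul, inv_mul_cancel₀ ha, one_smul]
        rw [e3, e2, smul_neg, smul_add, smul_smul, smul_smul, neg_smul, neg_smul,
          div_eq_inv_mul, div_eq_inv_mul, neg_add]
      have hU := hC.uni h.cls
      have hco := uni_coord hU ![v e, v e'] Finset.univ ?_ ?_ ![-(g 1 / g 0), -(g 2 / g 0)] ?_
      · have h1 := hco 0 (Finset.mem_univ _)
        have h2 := hco 1 (Finset.mem_univ _)
        simp only [Matrix.cons_val_zero, Matrix.cons_val_one] at h1 h2
        have h1' : g 1 / g 0 = 1 ∨ g 1 / g 0 = -1 := by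
          have h3 : g 1 / g 0 ≠ 0 := div_ne_zero hb ha
          rcases h1 with h1 | h1 | h1
          · exact absurd (by linarith) h3
          · right; linarith
          · left; linarith
        have h2' : g 2 / g 0 = 0 ∨ g 2 / g 0 = 1 ∨ g 2 / g 0 = -1 := by
          rcases h2 with h2 | h2 | h2
          · left; linarith
          · right; right; linarith
          · right; left; linarith
        rcases h2' with h2' | h2'
        · -- then v e in the span
          apply hve
          rw [h2', neg_zero, zero_smul, add_zero] at e1
          have e4 : v e = (-(g 0 / g 1)) • v e0 := by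
            rw [e1, smul_smul]
            have : -(g 0 / g 1) * -(g 1 / g 0) = 1 := by
              field_simp
            rw [this, one_smul]
          rw [e4]
          exact hmem0 _
        · -- coefficients are signs
          have e5 : v e - (-(g 2 / g 1)) • v e' = (-(g 0 / g 1)) • v e0 := by
            rw [e1, smul_add, smul_smul, smul_smul]
            have r1 : -(g 0 / g 1) * -(g 1 / g 0) = 1 := by
              field_simp
            have r2 : -(g 0 / g 1) * -(g 2 / g 0) = g 2 / g 1 := by
              field_simp
            rw [r1, r2, one_smul, neg_smul, sub_neg_eq_add]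
          refine hcl' (-(g 2 / g 1)) ?_ (by rw [e5]; exact hmem0 _)
          have r3 : g 2 / g 1 = (g 2 / g 0) / (g 1 / g 0) := by
            field_simp
          rw [r3]
          rcases h1' with h1' | h1' <;> rcases h2' with h2' | h2' <;> rw [h1', h2'] <;> norm_num
      · intro i _
        fin_cases i
        · exact ⟨e, he, rfl⟩
        · exact ⟨e', he', rfl⟩
      · rw [Finset.coe_univ, linearIndepOn_univ_iff]
        exact hpar
      · rw [Fin.sum_univ_two]
        simp only [Matrix.cons_val_zero, Matrix.cons_val_one]
        rw [← e1]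
        exact ⟨e0, he0, rfl⟩
  · rw [hbd] at hno
    exact hno

theorem GC_of_noBad {C : ClsT} (hC : Cls C)
    (hB : ∀ (h : ℕ) (ι κ V : Type) [AddCommGroup V] [Module ℚ V] (v : ι → V) (c : ι → κ)
      (E : Finset ι) (e0 : ι), ¬ Bad C h v c E e0) (n : ℕ) : GC C n := by
  classical
  induction n using Nat.strong_induction_on with
  | _ n ih =>
    intro ι κ V _ _ v c E h hn
    by_contra hno
    by_cases hA : ∃ e0 ∈ E, ∀ e ∈ E, c e = c e0 → e = e0
    · obtain ⟨e0, he0, hs⟩ := hA
      obtain ⟨h', -, hbad⟩ := bad_of_not hC ih h hn he0 hs hno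
      exact hB h' ι κ V v c E e0 hbad
    · push Not at hA
      have hrank := h.rank
      rw [hn] at hrank
      have hle : E.card ≤ 2 * n := by
        have := reduce_fiber_le (c := c) (E := E) h.two
        rw [← reduce_nc_eq, hn] at this
        exact this
      have hge : 2 * n ≤ E.card := by
        rw [← hn, reduce_nc_eq]
        refine Finset.mul_card_image_le_card E 2 fun a ha => ?_
        rw [Finset.mem_image] at ha
        obtain ⟨x, hx, rfl⟩ := ha
        obtain ⟨y, hy, hcy, hxy⟩ := hA x hx
        have : ({x, y} : Finset ι) ⊆ E.filter (fun z => c z = c x) := by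
          intro z hz
          rw [Finset.mem_insert, Finset.mem_singleton] at hz
          rw [Finset.mem_filter]
          rcases hz with rfl | rfl
          · exact ⟨hx, rfl⟩
          · exact ⟨hy, hcy⟩
        have h2 := Finset.card_le_card this
        rw [Finset.card_pair (Ne.symm hxy)] at h2
        exact h2
      have hE : E.card = 2 * n := le_antisymm hle hge
      have hne : E.Nonempty := by
        rw [← Finset.card_pos]
        omega
      obtain ⟨e, he⟩ := hne
      obtain ⟨e', he', hce, hee⟩ := hA e he
      have hnc : nc c (E.erase e') = n := by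
        rw [← hn, reduce_nc_eq, reduce_nc_eq]
        congr 1
        ext a
        rw [Finset.mem_image, Finset.mem_image]
        constructor
        · rintro ⟨x, hx, rfl⟩
          exact ⟨x, Finset.mem_of_mem_erase hx, rfl⟩
        · rintro ⟨x, hx, rfl⟩
          by_cases hx' : x = e'
          · exact ⟨e, Finset.mem_erase.2 ⟨Ne.symm hee, he⟩, by rw [hx', hce]⟩
          · exact ⟨x, Finset.mem_erase.2 ⟨hx', hx⟩, rfl⟩
      have hsys : Sys C v c (E.erase e') := by
        refine sys_sub hC h (Finset.erase_subset _ _) ?_
        rw [hnc]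
        have := rk_mono (v := v) (Finset.erase_subset e' E)
        omega
      have hcard : (E.erase e').card = 2 * n - 1 := by
        rw [Finset.card_erase_of_mem he', hE]
      have hal : ∀ x ∈ E.erase e', c x = c e → x = e := by
        intro x hx hcx
        rw [Finset.mem_erase] at hx
        rcases h.two e he e' he' x hx.2 hce.symm hcx.symm with h1 | h1 | h1
        · exact absurd h1.symm hee
        · exact h1.symm
        · exact absurd h1.symm hx.1
      have hshort : Short v c (E.erase e') (bd n (E.erase e').card) := by
        by_contra hcon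
        obtain ⟨h', -, hbad⟩ := bad_of_not hC ih hsys hnc
          (Finset.mem_erase.2 ⟨Ne.symm hee, he⟩) hal hcon
        exact hB h' ι κ V v c _ e hbad
      refine hno (short_mono hshort (Finset.erase_subset _ _) ?_)
      rw [hcard, hE]
      unfold bd
      rw [if_neg (by omega), if_pos rfl]
      omega

end RC.Red
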