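import Pool.Agent.Helper59.RC.StrDefs

/-!
Elementary properties of `Dom`, `NB0`, `NB1`.
-/

namespace RC.Str

open Submodule Module

variable {V : Type} [AddCommGroup V] [Module ℚ V]

theorem dom_of_subset {X Y : Set V} (h : X ⊆ Y) : Dom X Y := fun x hx => Or.inr (Or.inl (h hx))

theorem dom_refl (X : Set V) : Dom X X := dom_of_subset subset_rfl

theorem dom_trans {X Y Z : Set V} (h : Dom X Y) (h' : Dom Y Z) : Dom X Z := by
  intro x hx
  rcases h x hx with h0 | h0 | h0
  · exact Or.inl h0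
  · exact h' x h0
  · rcases h' _ h0 with h1 | h1 | h1
    · exact Or.inl (neg_eq_zero.1 h1)
    · exact Or.inr (Or.inr h1)
    · exact Or.inr (Or.inl (by rwa [neg_neg] at h1))

theorem dom_union {X Y Z : Set V} (h : Dom X Z) (h' : Dom Y Z) : Dom (X ∪ Y) Z := by
  rintro x (hx | hx)
  · exact h x hx
  · exact h' x hx

theorem dom_union_left {X Y : Set V} (Z : Set V) (h : Dom X Y) : Dom X (Y ∪ Z) :=
  dom_trans h (dom_of_subset Set.subset_union_left)

theorem dom_union_right {X Y : Set V} (Z : Set V) (h : Dom X Y) : Dom X (Z ∪ Y) :=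
  dom_trans h (dom_of_subset Set.subset_union_right)

theorem dom_image {W : Type} [AddCommGroup W] [Module ℚ W] (f : V →ₗ[ℚ] W) {X Y : Set V}
    (h : Dom X Y) : Dom (f '' X) (f '' Y) := by
  rintro _ ⟨x, hx, rfl⟩
  rcases h x hx with h0 | h0 | h0
  · exact Or.inl (by rw [h0, map_zero])
  · exact Or.inr (Or.inl ⟨x, h0, rfl⟩)
  · exact Or.inr (Or.inr ⟨-x, h0, by rw [map_neg]⟩)

theorem dom_inl {X Y : Set V} (h : Dom X Y) :
    Dom ((fun x : V => (x, (0 : ℚ))) '' X) ((fun x : V => (x, (0 : ℚ))) '' Y) :=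
  dom_image (LinearMap.inl ℚ V ℚ) h

theorem dom_span {X Y : Set V} (h : Dom X Y) : span ℚ X ≤ span ℚ Y := by
  rw [span_le]
  intro x hx
  rcases h x hx with h0 | h0 | h0
  · rw [h0]; exact zero_mem _
  · exact subset_span h0
  · have := neg_mem (subset_span h0 : -x ∈ span ℚ Y)
    rwa [neg_neg] at this

theorem dec_dom {X Y : Set V} (hY : Dec V Y) (h : Dom X Y) : Dec V X := by
  refine Dec.emb X Y LinearMap.id (fun y _ hy => hy) ?_ hY
  intro x hx
  exact h x hx

theorem nb0_dom {X Y : Set V} (hY : NB0 Y) (h : Dom X Y) : NB0 X := by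
  intro m ι κ v c E e0 hb hd
  exact hY m ι κ v c E e0 hb (dom_trans hd h)

theorem nb1_dom {X Y : Set V} (hY : NB1 Y) (h : Dom X Y) : NB1 X := by
  intro p q li hd
  refine nb0_dom (hY p q li (dom_trans hd h)) ?_
  exact dom_union (dom_union_left _ (dom_inl h)) (dom_union_right _ (dom_refl _))

theorem inl_mem_span {X : Set V} {y : V × ℚ}
    (h : y ∈ span ℚ ((fun x : V => (x, (0 : ℚ))) '' X)) : y.1 ∈ span ℚ X ∧ y.2 = 0 := by
  have hle : span ℚ ((fun x : V => (x, (0 : ℚ))) '' X) ≤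
      (span ℚ X).comap (LinearMap.fst ℚ V ℚ) ⊓ LinearMap.ker (LinearMap.snd ℚ V ℚ) := by
    rw [span_le]
    rintro _ ⟨x, hx, rfl⟩
    exact ⟨subset_span hx, rfl⟩
  have := hle h
  exact ⟨this.1, this.2⟩

theorem mem_span_inl {X : Set V} {y : V} (h : y ∈ span ℚ X) :
    (y, (0 : ℚ)) ∈ span ℚ ((fun x : V => (x, (0 : ℚ))) '' X) := by
  have := Submodule.mem_map_of_mem (f := LinearMap.inl ℚ V ℚ) h
  rw [LinearMap.map_span] at this
  exact this

/-- Elements of the span of `inl '' X` with a claw on a triangle in `span X`. -/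
theorem fst_mem_span {X : Set V} {p q : V} (hp : p ∈ span ℚ X) (hq : q ∈ span ℚ X) {y : V × ℚ}
    (h : y ∈ span ℚ ((fun x : V => (x, (0 : ℚ))) '' X ∪ clawSet p q)) : y.1 ∈ span ℚ X := by
  have hle : span ℚ ((fun x : V => (x, (0 : ℚ))) '' X ∪ clawSet p q) ≤
      (span ℚ X).comap (LinearMap.fst ℚ V ℚ) := by
    rw [span_le]
    rintro x (⟨x, hx, rfl⟩ | (rfl | rfl | rfl))
    · exact subset_span hx
    · exact zero_mem (span ℚ X)
    · exact hp
    · exact neg_mem hq
  exact hle h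

end RC.Str
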