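import Pool.Agent.Helper59.RC.StrMap
import Pool.Agent.Helper59.RC.StrDom
import Pool.Agent.Helper73.RCS.Cocircuit

/-!
Module RC-P8.  Bad systems dominated by `inl '' Y` with a claw.

Let `D = E.filter (fun e => (v e).2 ≠ 0)`.  For `e ∈ D`, `v e` is not in `± inl '' Y`, so it is
`±` one of the three vectors of `clawSet p q`; for distinct `e` these vectors are distinct
(`Bad.par'`), so `D` has at most three elements.
`claw_card`: suppose `D` is nonempty.  The functional `snd` vanishes on `v '' (E \ D)` and not on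
`v '' E`, so `rk v (E \ D) + 1 ≤ rk v E`, that is `rk v (E \ D) + 2 ≤ 2 h`.  If `e0 ∉ D` then
`RC.coc_notin` gives `4 ≤ D.card`, contradiction; so `e0 ∈ D` and `RC.coc_in` gives
`3 ≤ D.card`.

`claw_empty`: if `D = ∅`, then all vectors have second coordinate `0`, `bad_fst` gives a bad
system in `V`, and it is dominated by `Y`: an element `±(y, 0)` with `y ∈ Y` has first
coordinate in `± Y`, and an element of `± clawSet p q` has second coordinate `±1 ≠ 0`.
-/

namespace RC.Str

open Submodule Module

variable {V : Type} [AddCommGroup V] [Module ℚ V]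

/-- The second coordinate of an element of `± claw`. -/
private theorem claw_snd {p q : V} {x : V × ℚ} (hx : x ∈ clawSet p q) : x.2 = 1 := by
  rcases hx with rfl | rfl | rfl <;> rfl

/-- An element dominated by `inl '' Y ∪ claw` with nonzero second coordinate. -/
private theorem claw_elt {Y : Set V} {p q : V} {x : V × ℚ} (h2 : x.2 ≠ 0)
    (hd : x = 0 ∨ x ∈ (fun x : V => (x, (0 : ℚ))) '' Y ∪ clawSet p q ∨
      -x ∈ (fun x : V => (x, (0 : ℚ))) '' Y ∪ clawSet p q) :
    (x.2 = 1 ∧ x ∈ clawSet p q) ∨ (x.2 = -1 ∧ -x ∈ clawSet p q) := by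
  rcases hd with h | h | h
  · exact absurd (by rw [h]; rfl) h2
  · rcases h with ⟨y, _, rfl⟩ | h
    · exact absurd rfl h2
    · exact Or.inl ⟨claw_snd h, h⟩
  · rcases h with ⟨y, _, hy⟩ | h
    · have h3 : (-x).2 = 0 := by rw [← hy]
      rw [Prod.snd_neg, neg_eq_zero] at h3
      exact absurd h3 h2
    · have h3 := claw_snd h
      rw [Prod.snd_neg] at h3
      exact Or.inr ⟨by linarith, h⟩

open Classical in
private theorem claw_le (p q : V) :
    ({((0 : V), (1 : ℚ)), (p, 1), (-q, 1)} : Finset (V × ℚ)).card ≤ 3 := by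
  refine (Finset.card_insert_le _ _).trans ?_
  have := Finset.card_insert_le (p, (1 : ℚ)) ({(-q, 1)} : Finset (V × ℚ))
  rw [Finset.card_singleton] at this
  omega

private theorem not_li_eq {W : Type} [AddCommGroup W] [Module ℚ W] {x y : W}
    (hli : LinearIndependent ℚ ![x, y]) : x ≠ y ∧ x ≠ -y := by
  rw [LinearIndependent.pair_iff] at hli
  constructor
  · intro h
    have := (hli 1 (-1) (by rw [h, one_smul, neg_smul, one_smul, add_neg_cancel])).1
    exact one_ne_zero this
  · intro h
    have := (hli 1 1 (by rw [h, one_smul, one_smul, neg_add_cancel])).1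
    exact one_ne_zero this

open Classical in
theorem claw_card (hC : Cls DecC) {Y : Set V} {p q : V} {h : ℕ} {ι κ : Type} {v : ι → V × ℚ}
    {c : ι → κ} {E : Finset ι} {e0 : ι} (hb : Bad DecC h v c E e0)
    (hd : Dom (v '' (E : Set ι)) ((fun x : V => (x, (0 : ℚ))) '' Y ∪ clawSet p q)) :
    (∀ e ∈ E, (v e).2 = 0) ∨
      ((v e0).2 ≠ 0 ∧ (E.filter (fun e => (v e).2 ≠ 0)).card = 3) := by
  by_cases h0 : ∀ e ∈ E, (v e).2 = 0
  · exact Or.inl h0
  right
  push Not at h0
  obtain ⟨e1, he1, hne1⟩ := h0
  have helt : ∀ e ∈ E.filter (fun e => (v e).2 ≠ 0),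
      ((v e).2 = 1 ∧ v e ∈ clawSet p q) ∨ ((v e).2 = -1 ∧ -(v e) ∈ clawSet p q) := by
    intro e he
    rw [Finset.mem_filter] at he
    exact claw_elt he.2 (hd (v e) ⟨e, he.1, rfl⟩)
  have hcard : (E.filter (fun e => (v e).2 ≠ 0)).card ≤ 3 := by
    refine le_trans ?_ (claw_le p q)
    refine Finset.card_le_card_of_injOn (fun e => (v e).2 • v e) ?_ ?_
    · intro e he
      have hh := helt e he
      simp only [Finset.coe_insert, Finset.coe_singleton]
      rcases hh with ⟨h1, h2⟩ | ⟨h1, h2⟩
      · show (v e).2 • v e ∈ _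
        rw [h1, one_smul]
        exact h2
      · show (v e).2 • v e ∈ _
        rw [h1, neg_smul, one_smul]
        exact h2
    · intro e he e' he' hee
      by_contra hne
      have hE := (Finset.mem_filter.1 (Finset.mem_coe.1 he)).1
      have hE' := (Finset.mem_filter.1 (Finset.mem_coe.1 he')).1
      obtain ⟨n1, n2⟩ := not_li_eq (hb.par' hE hE' hne)
      have hee' : (v e).2 • v e = (v e').2 • v e' := hee
      rcases helt e he with ⟨h1, _⟩ | ⟨h1, _⟩ <;> rcases helt e' he' with ⟨h3, _⟩ | ⟨h3, _⟩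
      · rw [h1, h3, one_smul, one_smul] at hee'
        exact n1 hee'
      · rw [h1, h3, one_smul, neg_smul, one_smul] at hee'
        exact n2 hee'
      · rw [h1, h3, one_smul, neg_smul, one_smul] at hee'
        exact n2 (by rw [← hee', neg_neg])
      · rw [h1, h3, neg_smul, neg_smul, one_smul, one_smul] at hee'
        exact n1 (neg_injective hee')
  have hsub : E.filter (fun e => (v e).2 ≠ 0) ⊆ E := Finset.filter_subset _ _
  have hr : rk v (E \ E.filter (fun e => (v e).2 ≠ 0)) + 2 ≤ 2 * h := by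
    have hlt : rk v (E \ E.filter (fun e => (v e).2 ≠ 0)) < rk v E := by
      unfold rk
      have hf : FiniteDimensional ℚ (span ℚ (v '' (E : Set ι))) :=
        FiniteDimensional.span_of_finite ℚ ((Finset.finite_toSet E).image v)
      refine Submodule.finrank_lt_finrank_of_lt (lt_of_le_of_ne ?_ ?_)
      · refine span_mono (Set.image_mono ?_)
        exact_mod_cast Finset.sdiff_subset
      · intro heq
        have hle : span ℚ (v '' ((E \ E.filter (fun e => (v e).2 ≠ 0) : Finset ι) : Set ι)) ≤
            LinearMap.ker (LinearMap.snd ℚ V ℚ) := by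
          rw [span_le]
          rintro x ⟨e, he, rfl⟩
          rw [Finset.mem_coe, Finset.mem_sdiff, Finset.mem_filter, not_and, not_not] at he
          have := he.2 he.1
          simpa using this
        rw [heq] at hle
        have h5 := hle (subset_span ⟨e1, he1, rfl⟩)
        apply hne1
        simpa using h5
    have := hb.rank
    omega
  by_cases he0 : e0 ∈ E.filter (fun e => (v e).2 ≠ 0)
  · have h6 := (coc_in hC hb hsub he0 hr).1
    exact ⟨(Finset.mem_filter.1 he0).2, by omega⟩
  · have h6 := coc_notin hC hb hsub he0 hr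
    omega

theorem claw_empty (hC : Cls DecC) {Y : Set V} (hY : NB0 Y) {p q : V} {h : ℕ} {ι κ : Type}
    {v : ι → V × ℚ} {c : ι → κ} {E : Finset ι} {e0 : ι} (hb : Bad DecC h v c E e0)
    (hd : Dom (v '' (E : Set ι)) ((fun x : V => (x, (0 : ℚ))) '' Y ∪ clawSet p q))
    (h0 : ∀ e ∈ E, (v e).2 = 0) : False := by
  refine hY h ι κ (fun e => (v e).1) c E e0 (bad_fst hC hb h0) ?_
  rintro _ ⟨e, he, rfl⟩
  have h1 := hd (v e) ⟨e, he, rfl⟩
  have h2 := h0 e he
  rcases h1 with h1 | h1 | h1
  · left
    show (v e).1 = 0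
    rw [h1]
    rfl
  · rcases h1 with ⟨y, hy, hye⟩ | h1
    · right; left
      show (v e).1 ∈ Y
      rw [← hye]
      exact hy
    · rw [claw_snd h1] at h2
      exact absurd h2 one_ne_zero
  · rcases h1 with ⟨y, hy, hye⟩ | h1
    · right; right
      show -(v e).1 ∈ Y
      rw [← Prod.fst_neg, ← hye]
      exact hy
    · have h3 := claw_snd h1
      rw [Prod.snd_neg, h2, neg_zero] at h3
      exact absurd h3 zero_ne_one

end RC.Str
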