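import Pool.Agent.Helper59.RC.StrDom
import Pool.Agent.Helper59.RC.BaseCograph
import Pool.Agent.Helper59.RC.ConCograph

/-!
Module RC-P5.  Cographic sets, first part.

`nb0_cographic`: let `v, E0` be a bad system dominated by `Set.range u`.  For `i ∈ E0`:
`v i ≠ 0`, so there are `f i : E` and a sign `s i = 1` or `-1` with `v i = s i • u (f i)`.  `f` is
injective on `E0`: `f i = f j`, `i ≠ j` would make `v i` and `v j` proportional, against `Bad.par'`.
Let `P e := e ∈ f '' E0`.  By `cographic_restrict` there is a graph `W₁, hd₁, tl₁` for the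
restriction of `u` to `{e // P e}`.  `f` induces a bijection `E0 ≃ {e // P e}`.  For `a : ι → ℚ`,
`∑ i ∈ E0, a i • v i = ∑ e : {e // P e}, b e • u e` with `b (f i) = s i * a i`.  So it vanishes
iff there is `π` with `s i * a i = π (hd₁ (f i)) - π (tl₁ (f i))` for `i ∈ E0`.  Put
`hd' i = hd₁ (f i)`, `tl' i = tl₁ (f i)` if `s i = 1` and exchange them if `s i = -1` (for
`i ∉ E0` take any element of `W₁`, which is nonempty since `e0 ∈ E0`); apply
`RC.Base.bad_not_cographic`.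
-/

namespace RC.Str

open Submodule Module

theorem nb0_cographic (hC : Cls DecC) {V E W : Type} [AddCommGroup V] [Module ℚ V] [Fintype E]
    [Fintype W] (u : E → V) (hd tl : E → W)
    (dep : ∀ a : E → ℚ, ∑ e, a e • u e = 0 ↔ ∃ π : W → ℚ, ∀ e, a e = π (hd e) - π (tl e)) :
    NB0 (Set.range u) := by
  classical
  intro h ι κ v c E0 e0 hb hdom
  have hex : ∀ i ∈ E0, ∃ (e : E) (s : ℚ), (s = 1 ∨ s = -1) ∧ v i = s • u e := by
    intro i hi
    rcases hdom (v i) ⟨i, hi, rfl⟩ with h0 | ⟨e, he⟩ | ⟨e, he⟩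
    · exact absurd h0 (hb.sys.ne i hi)
    · exact ⟨e, 1, Or.inl rfl, by rw [one_smul, he]⟩
    · exact ⟨e, -1, Or.inr rfl, by rw [he, neg_smul, one_smul, neg_neg]⟩
  have hE : Nonempty E := by
    obtain ⟨e, -⟩ := hex e0 hb.mem0
    exact ⟨e⟩
  choose! f s hs hv using hex
  have hinj : ∀ i ∈ E0, ∀ j ∈ E0, f i = f j → i = j := by
    intro i hi j hj hij
    by_contra hne
    have hli := hb.par' hi hj hne
    rw [LinearIndependent.pair_iff] at hli
    have h1 : s j • v i + (- s i) • v j = 0 := by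
      rw [hv i hi, hv j hj, hij, smul_smul, smul_smul, ← add_smul]
      have h2 : s j * s i + -s i * s j = 0 := by ring
      rw [h2, zero_smul]
    have h3 := (hli _ _ h1).1
    rcases hs j hj with h4 | h4 <;> rw [h4] at h3 <;> norm_num at h3
  set P : E → Prop := fun e => ∃ i ∈ E0, f i = e with hP
  obtain ⟨W₁, hW₁, hd₁, tl₁, dep₁⟩ := cographic_restrict E W u hd tl dep P
  have hg : ∀ e : {e : E // P e}, ∃ i ∈ E0, f i = e.1 := fun e => e.2
  choose g hgE hgf using hg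
  have hgi : ∀ i (hi : i ∈ E0), g ⟨f i, i, hi, rfl⟩ = i := fun i hi =>
    hinj _ (hgE _) i hi (hgf ⟨f i, i, hi, rfl⟩)
  have hsum : ∀ a : ι → ℚ, ∑ i ∈ E0, a i • v i =
      ∑ e : {e : E // P e}, (s (g e) * a (g e)) • u e.1 := by
    intro a
    refine Finset.sum_bij (fun i hi => (⟨f i, i, hi, rfl⟩ : {e : E // P e})) (fun i hi =>
      Finset.mem_univ _) (fun i hi j hj hij => hinj i hi j hj (congrArg Subtype.val hij)) ?_ ?_
    · rintro ⟨e, i, hi, hie⟩ -
      exact ⟨i, hi, Subtype.ext hie⟩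
    · intro i hi
      rw [hgi i hi, mul_comm, mul_smul]
      change a i • v i = a i • s i • u (f i)
      rw [← hv i hi]
  set hd' : ι → W₁ := fun i => if hi : i ∈ E0 then
    (if s i = 1 then hd₁ ⟨f i, i, hi, rfl⟩ else tl₁ ⟨f i, i, hi, rfl⟩)
    else hd₁ ⟨f e0, e0, hb.mem0, rfl⟩ with hhd'
  set tl' : ι → W₁ := fun i => if hi : i ∈ E0 then
    (if s i = 1 then tl₁ ⟨f i, i, hi, rfl⟩ else hd₁ ⟨f i, i, hi, rfl⟩)
    else hd₁ ⟨f e0, e0, hb.mem0, rfl⟩ with htl'
  have hkey : ∀ (π : W₁ → ℚ) (i : ι) (hi : i ∈ E0), π (hd' i) - π (tl' i) =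
      s i * (π (hd₁ ⟨f i, i, hi, rfl⟩) - π (tl₁ ⟨f i, i, hi, rfl⟩)) := by
    intro π i hi
    rw [hhd', htl']
    simp only [dif_pos hi]
    rcases hs i hi with h1 | h1
    · rw [if_pos h1, if_pos h1, h1, one_mul]
    · have h2 : ¬ s i = 1 := by rw [h1]; norm_num
      rw [if_neg h2, if_neg h2, h1]
      ring
  have hss : ∀ i ∈ E0, s i * s i = 1 := by
    intro i hi
    rcases hs i hi with h1 | h1 <;> rw [h1] <;> norm_num
  refine RC.Base.bad_not_cographic hC hb W₁ hd' tl' fun a => ?_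
  rw [hsum a, dep₁ (fun e => s (g e) * a (g e))]
  constructor
  · rintro ⟨π, hπ⟩
    refine ⟨π, fun i hi => ?_⟩
    have h1 := hπ ⟨f i, i, hi, rfl⟩
    rw [hgi i hi] at h1
    rw [hkey π i hi, ← h1, ← mul_assoc, hss i hi, one_mul]
  · rintro ⟨π, hπ⟩
    refine ⟨π, ?_⟩
    rintro ⟨e, i, hi, rfl⟩
    rw [hgi i hi, hπ i hi, hkey π i hi, ← mul_assoc, hss i hi, one_mul]

end RC.Str
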