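import Pool.Agent.Helper59.RC.StrCut
import Pool.Agent.Helper59.RC.StrCog0

/-!
Module RC-P7.  Replacing one side of a three-edge cut by a triangle.

Let `K = {e // ¬ (hd e ∈ X ∧ tl e ∈ X)}` (the edges `e1, e2, e3` and the edges outside `X`).

`cog_const`: let `π` be a potential with `π (hd e) = π (tl e)` for all `e` with both ends in `X`.
Then `π (hd e1) = π (hd e2) = π (hd e3)`.  Proof: let `π' = π` on `X` and `π' = 0` outside `X`;
its difference is `0` at all edges except `e1, e2, e3`, where it is `π (hd e)`.  So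
`π (hd e1) • p + π (hd e2) • q - π (hd e3) • (p + q) = 0`, and `p, q` are independent.

`cog_claw`: the family `K ⊕ Fin 3 → V × ℚ` given by `e ↦ (u e, 0)`, `0 ↦ (0, 1)`,
`1 ↦ (p, 1)`, `2 ↦ (-q, 1)` is cographic with the graph with vertex set
`{w // w ∉ X} ⊕ Fin 3`: an edge outside `X` keeps its ends; `e1, e2, e3` have the heads
`inr 0, inr 1, inr 2` and their old tails; the three new edges are (hd, tl):
`0 : (inr 0, inr 1)`, `1 : (inr 2, inr 0)`, `2 : (inr 1, inr 2)`.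
Proof: let `a : K → ℚ`, `α : Fin 3 → ℚ`.  `∑ a e • (u e, 0) + α 0 • (0,1) + α 1 • (p,1)`
`+ α 2 • (-q,1) = 0` iff `α 0 + α 1 + α 2 = 0` and `∑ a e • u e + α 1 • p - α 2 • q = 0` iff
`α 0 + α 1 + α 2 = 0` and there is `π : W → ℚ` with `0 = π (hd e) - π (tl e)` inside `X`,
`a e = π (hd e) - π (tl e)` for `e` outside `X`, `a e1 + α 1 = π (hd e1) - π (tl e1)`,
`a e2 - α 2 = π (hd e2) - π (tl e2)`, `a e3 = π (hd e3) - π (tl e3)`.
Given such `π`, let `s` be the common value of `π (hd ei)` (`cog_const`) and put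
`ρ = π` on `{w // w ∉ X}`, `ρ (inr 0) = s - α 1`, `ρ (inr 1) = s + α 2`, `ρ (inr 2) = s`:
`ρ (inr 0) - π (tl e1) = a e1`, `ρ (inr 1) - π (tl e2) = a e2`, `ρ (inr 2) - π (tl e3) = a e3`,
`ρ (inr 0) - ρ (inr 1) = - α 1 - α 2 = α 0`, `ρ (inr 2) - ρ (inr 0) = α 1`,
`ρ (inr 1) - ρ (inr 2) = α 2`.
Conversely, given `ρ`, put `π = ρ` outside `X` and `π = ρ (inr 2)` on `X`.

`nb0_cog_claw`: `nb0_cographic` for the family of `cog_claw` and `nb0_dom`.
-/

namespace RC.Str

open Submodule Module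

variable {V E W : Type} [AddCommGroup V] [Module ℚ V] [Fintype E] [Fintype W]

private theorem cog_ne {u : E → V} {hd tl : E → W} {X : Set W} {p q : V} {e1 e2 e3 : E}
    (h : CogCut u hd tl X p q e1 e2 e3) : e1 ≠ e2 ∧ e1 ≠ e3 ∧ e2 ≠ e3 := by
  have hli := LinearIndependent.pair_iff.1 h.li
  refine ⟨?_, ?_, ?_⟩
  · intro he
    have h1 : p = q := by rw [← h.u1, ← h.u2, he]
    have h2 := hli 1 (-1) (by rw [h1]; module)
    exact one_ne_zero h2.1
  · intro he
    have h1 : p = -(p + q) := by rw [← h.u3, ← he, h.u1]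
    have h2 := hli 2 1 (by
      have h3 : p + (p + q) = 0 := by nth_rewrite 1 [h1]; exact neg_add_cancel _
      rw [← h3]; module)
    exact one_ne_zero h2.2
  · intro he
    have h1 : q = -(p + q) := by rw [← h.u3, ← he, h.u2]
    have h2 := hli 1 2 (by
      have h3 : q + (p + q) = 0 := by nth_rewrite 1 [h1]; exact neg_add_cancel _
      rw [← h3]; module)
    exact one_ne_zero h2.1

private theorem sum_three {u : E → V} {a : E → ℚ} {e1 e2 e3 : E} (h12 : e1 ≠ e2) (h13 : e1 ≠ e3)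
    (h23 : e2 ≠ e3) (h0 : ∀ e, e ≠ e1 → e ≠ e2 → e ≠ e3 → a e = 0) :
    ∑ e, a e • u e = a e1 • u e1 + a e2 • u e2 + a e3 • u e3 := by
  classical
  have h1 : ∑ e, a e • u e = ∑ e ∈ ({e1, e2, e3} : Finset E), a e • u e := by
    symm
    apply Finset.sum_subset (Finset.subset_univ _)
    intro e _ he
    simp only [Finset.mem_insert, Finset.mem_singleton, not_or] at he
    rw [h0 e he.1 he.2.1 he.2.2, zero_smul]
  rw [h1, Finset.sum_insert (by simp [h12, h13]), Finset.sum_insert (by simp [h23]),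
    Finset.sum_singleton, add_assoc]

theorem cog_const {u : E → V} {hd tl : E → W} {X : Set W} {p q : V} {e1 e2 e3 : E}
    (h : CogCut u hd tl X p q e1 e2 e3) (π : W → ℚ)
    (hπ : ∀ e, hd e ∈ X → tl e ∈ X → π (hd e) = π (tl e)) :
    π (hd e1) = π (hd e3) ∧ π (hd e2) = π (hd e3) := by
  classical
  obtain ⟨h12, h13, h23⟩ := cog_ne h
  set π' : W → ℚ := fun w => if w ∈ X then π w else 0 with hπ'
  set a : E → ℚ := fun e => π' (hd e) - π' (tl e) with ha
  have h0 : ∀ e, e ≠ e1 → e ≠ e2 → e ≠ e3 → a e = 0 := by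
    intro e he1 he2 he3
    have hc := h.cut e he1 he2 he3
    by_cases hX : hd e ∈ X
    · have hX' := hc.1 hX
      simp only [ha, hπ', hX, hX', if_true]
      rw [hπ e hX hX', sub_self]
    · have hX' : tl e ∉ X := fun h' => hX (hc.2 h')
      simp only [ha, hπ', hX, hX', if_false, sub_self]
  have hs := (h.dep a).2 ⟨π', fun e => rfl⟩
  rw [sum_three h12 h13 h23 h0, h.u1, h.u2, h.u3] at hs
  have a1 : a e1 = π (hd e1) := by simp only [ha, hπ', h.h1, h.t1, if_true, if_false, sub_zero]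
  have a2 : a e2 = π (hd e2) := by simp only [ha, hπ', h.h2, h.t2, if_true, if_false, sub_zero]
  have a3 : a e3 = π (hd e3) := by simp only [ha, hπ', h.h3, h.t3, if_true, if_false, sub_zero]
  have hli := LinearIndependent.pair_iff.1 h.li (a e1 - a e3) (a e2 - a e3) (by
    rw [← hs]; module)
  rw [a1, a2, a3] at hli
  exact ⟨sub_eq_zero.1 hli.1, sub_eq_zero.1 hli.2⟩

private theorem cog_claw (hC : Cls DecC) {u : E → V} {hd tl : E → W} {X : Set W} {p q : V}
    {e1 e2 e3 : E} (h : CogCut u hd tl X p q e1 e2 e3) :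
    ∃ w : {e // ¬ (hd e ∈ X ∧ tl e ∈ X)} ⊕ Fin 3 → V × ℚ,
      (∀ e, w (Sum.inl e) = (u e.1, 0)) ∧ w (Sum.inr 0) = (0, 1) ∧ w (Sum.inr 1) = (p, 1) ∧
      w (Sum.inr 2) = (-q, 1) ∧ NB0 (Set.range w) := by
  classical
  obtain ⟨h12, h13, h23⟩ := cog_ne h
  -- edges outside `X` other than the three
  have htl : ∀ e : {e // ¬ (hd e ∈ X ∧ tl e ∈ X)}, tl e.1 ∉ X := by
    intro e hX
    by_cases he1 : e.1 = e1
    · exact h.t1 (he1 ▸ hX)
    by_cases he2 : e.1 = e2
    · exact h.t2 (he2 ▸ hX)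
    by_cases he3 : e.1 = e3
    · exact h.t3 (he3 ▸ hX)
    exact e.2 ⟨(h.cut e.1 he1 he2 he3).2 hX, hX⟩
  have hk1 : ¬ (hd e1 ∈ X ∧ tl e1 ∈ X) := fun h' => h.t1 h'.2
  have hk2 : ¬ (hd e2 ∈ X ∧ tl e2 ∈ X) := fun h' => h.t2 h'.2
  have hk3 : ¬ (hd e3 ∈ X ∧ tl e3 ∈ X) := fun h' => h.t3 h'.2
  set w : {e // ¬ (hd e ∈ X ∧ tl e ∈ X)} ⊕ Fin 3 → V × ℚ :=
    Sum.elim (fun e => (u e.1, 0)) ![(0, 1), (p, 1), (-q, 1)] with hw
  set hd' : {e // ¬ (hd e ∈ X ∧ tl e ∈ X)} ⊕ Fin 3 → {w // w ∉ X} ⊕ Fin 3 :=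
    Sum.elim (fun e => if e.1 = e1 then Sum.inr 0 else if e.1 = e2 then Sum.inr 1 else
      if hX : hd e.1 ∈ X then Sum.inr 2 else Sum.inl ⟨hd e.1, hX⟩)
      ![Sum.inr 0, Sum.inr 2, Sum.inr 1] with hhd'
  set tl' : {e // ¬ (hd e ∈ X ∧ tl e ∈ X)} ⊕ Fin 3 → {w // w ∉ X} ⊕ Fin 3 :=
    Sum.elim (fun e => Sum.inl ⟨tl e.1, htl e⟩) ![Sum.inr 1, Sum.inr 0, Sum.inr 2] with htl'
  refine ⟨w, fun e => rfl, rfl, rfl, rfl, ?_⟩
  apply nb0_cographic hC w hd' tl'
  intro b
  set a : E → ℚ := fun e =>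
    (if hK : ¬ (hd e ∈ X ∧ tl e ∈ X) then b (Sum.inl ⟨e, hK⟩) else 0) +
      (if e = e1 then b (Sum.inr 1) else 0) - (if e = e2 then b (Sum.inr 2) else 0) with ha
  have haK : ∀ (e : E) (hK : ¬ (hd e ∈ X ∧ tl e ∈ X)), a e = b (Sum.inl ⟨e, hK⟩) +
      (if e = e1 then b (Sum.inr 1) else 0) - (if e = e2 then b (Sum.inr 2) else 0) := by
    intro e hK
    simp only [ha]
    rw [dif_pos hK]
  have hsum1 : ∑ e, (if hK : ¬ (hd e ∈ X ∧ tl e ∈ X) then b (Sum.inl ⟨e, hK⟩) else 0) • u e =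
      ∑ e : {e // ¬ (hd e ∈ X ∧ tl e ∈ X)}, b (Sum.inl e) • u e.1 := by
    rw [← Finset.sum_filter_of_ne (p := fun e => ¬ (hd e ∈ X ∧ tl e ∈ X))]
    · rw [Finset.sum_subtype (p := fun e => ¬ (hd e ∈ X ∧ tl e ∈ X)) _ (by simp)]
      apply Finset.sum_congr rfl
      intro e _
      rw [dif_pos e.2]
    · intro e _ hne hK
      apply hne
      rw [dif_neg (not_not.2 hK), zero_smul]
  have hsumu : ∑ e, a e • u e =
      ∑ e : {e // ¬ (hd e ∈ X ∧ tl e ∈ X)}, b (Sum.inl e) • u e.1 + b (Sum.inr 1) • p -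
        b (Sum.inr 2) • q := by
    rw [← hsum1]
    simp only [ha, sub_smul, add_smul, Finset.sum_sub_distrib, Finset.sum_add_distrib, ite_smul,
      zero_smul, Finset.sum_ite_eq', Finset.mem_univ, if_true, h.u1, h.u2]
  have hsum : ∑ i, b i • w i = (∑ e, a e • u e, b (Sum.inr 0) + b (Sum.inr 1) + b (Sum.inr 2)) := by
    rw [Fintype.sum_sum_type, Fin.sum_univ_three, hsumu]
    have h1 : ∑ x : {e // ¬ (hd e ∈ X ∧ tl e ∈ X)}, b (Sum.inl x) • w (Sum.inl x) =
        (∑ e : {e // ¬ (hd e ∈ X ∧ tl e ∈ X)}, b (Sum.inl e) • u e.1, 0) := by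
      have h2 : ∀ x : {e // ¬ (hd e ∈ X ∧ tl e ∈ X)}, b (Sum.inl x) • w (Sum.inl x) =
          LinearMap.inl ℚ V ℚ (b (Sum.inl x) • u x.1) := by
        intro x
        simp [hw]
      rw [Finset.sum_congr rfl (fun x _ => h2 x), ← map_sum]
      rfl
    rw [h1]
    have h3 : w (Sum.inr 0) = (0, 1) := rfl
    have h4 : w (Sum.inr 1) = (p, 1) := rfl
    have h5 : w (Sum.inr 2) = (-q, 1) := rfl
    rw [h3, h4, h5]
    ext
    · simp [sub_eq_add_neg, add_assoc]
    · simp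
  rw [hsum, Prod.mk_eq_zero]
  constructor
  · rintro ⟨h1, h2⟩
    obtain ⟨π, hπ⟩ := (h.dep a).1 h1
    have hin : ∀ e, hd e ∈ X → tl e ∈ X → π (hd e) = π (tl e) := by
      intro e hX hX'
      have h3 := hπ e
      have hn1 : e ≠ e1 := fun he => h.t1 (he ▸ hX')
      have hn2 : e ≠ e2 := fun he => h.t2 (he ▸ hX')
      simp only [ha, hX, hX', and_self, not_true_eq_false, dite_false, hn1, hn2, if_false] at h3
      linarith
    obtain ⟨c1, c2⟩ := cog_const h π hin
    refine ⟨Sum.elim (fun w => π w.1)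
      ![π (hd e3) - b (Sum.inr 1), π (hd e3) + b (Sum.inr 2), π (hd e3)], ?_⟩
    rintro (e | i)
    · have h3 := hπ e.1
      by_cases he1 : e.1 = e1
      · obtain ⟨e, hK⟩ := e
        dsimp only at he1 h3
        subst he1
        have hn2 : e ≠ e2 := h12
        simp only [ha, hK, not_false_eq_true, dite_true, hn2, if_false, if_true] at h3
        simp only [hhd', htl', Sum.elim_inl, Sum.elim_inr, if_true, Matrix.cons_val_zero]
        rw [← c1]
        linarith
      by_cases he2 : e.1 = e2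
      · obtain ⟨e, hK⟩ := e
        dsimp only at he2 h3 he1
        subst he2
        simp only [ha, hK, not_false_eq_true, dite_true, he1, if_false, if_true] at h3
        simp only [hhd', htl', Sum.elim_inl, Sum.elim_inr, if_true, he1, if_false,
          Matrix.cons_val_one, Matrix.cons_val_zero]
        rw [← c2]
        linarith
      obtain ⟨e, hK⟩ := e
      dsimp only at he2 h3 he1
      simp only [ha, hK, not_false_eq_true, dite_true, he1, he2, if_false, add_zero,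
        sub_zero] at h3
      by_cases hX : hd e ∈ X
      · have he3 : e = e3 := by
          by_contra he3
          exact hK ⟨hX, (h.cut e he1 he2 he3).1 hX⟩
        simp only [hhd', htl', Sum.elim_inl, Sum.elim_inr, he1, he2, if_false, hX, dite_true,
          Matrix.cons_val_two, Matrix.cons_val_zero, Matrix.tail_cons, Matrix.head_cons,
          Matrix.cons_val]
        rw [h3, he3]
      · simp only [hhd', htl', Sum.elim_inl, he1, he2, if_false, hX, dite_false]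
        exact h3
    · fin_cases i
      · simp [hhd', htl']
        linarith
      · simp [hhd', htl']
      · simp [hhd', htl']
  · rintro ⟨ρ, hρ⟩
    have g0 : b (Sum.inr 0) = ρ (Sum.inr 0) - ρ (Sum.inr 1) := hρ (Sum.inr 0)
    have g1 : b (Sum.inr 1) = ρ (Sum.inr 2) - ρ (Sum.inr 0) := hρ (Sum.inr 1)
    have g2 : b (Sum.inr 2) = ρ (Sum.inr 1) - ρ (Sum.inr 2) := hρ (Sum.inr 2)
    refine ⟨?_, by rw [g0, g1, g2]; ring⟩
    rw [h.dep]
    refine ⟨fun w => if hX : w ∈ X then ρ (Sum.inr 2) else ρ (Sum.inl ⟨w, hX⟩), ?_⟩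
    intro e
    by_cases hK : hd e ∈ X ∧ tl e ∈ X
    · have hn1 : e ≠ e1 := fun he => h.t1 (he ▸ hK.2)
      have hn2 : e ≠ e2 := fun he => h.t2 (he ▸ hK.2)
      simp [ha, hK, hn1, hn2]
    · have ht := htl ⟨e, hK⟩
      have h3 := hρ (Sum.inl ⟨e, hK⟩)
      by_cases he1 : e = e1
      · subst he1
        simp only [hhd', htl', Sum.elim_inl, if_true] at h3
        rw [haK _ hK, h3, g1]
        simp only [h12, if_true, if_false, h.h1, h.t1, dite_true, dite_false]
        ring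
      by_cases he2 : e = e2
      · subst he2
        simp only [hhd', htl', Sum.elim_inl, he1, if_false, if_true] at h3
        rw [haK _ hK, h3, g2]
        simp only [he1, if_true, if_false, h.h2, h.t2, dite_true, dite_false]
        ring
      by_cases hX : hd e ∈ X
      · simp only [hhd', htl', Sum.elim_inl, he1, he2, if_false, hX, dite_true] at h3
        rw [haK _ hK, h3]
        simp only [he1, he2, if_false, hX, ht, dite_true, dite_false]
        ring
      · simp only [hhd', htl', Sum.elim_inl, he1, he2, if_false, hX, dite_false] at h3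
        rw [haK _ hK, h3]
        simp only [he1, he2, if_false, hX, ht, dite_true, dite_false]
        ring

theorem nb0_cog_claw (hC : Cls DecC) {u : E → V} {hd tl : E → W} {X : Set W} {p q : V}
    {e1 e2 e3 : E} (h : CogCut u hd tl X p q e1 e2 e3) :
    NB0 ((fun x : V => (x, (0 : ℚ))) '' (u '' {e | ¬ (hd e ∈ X ∧ tl e ∈ X)}) ∪
      clawSet p q) := by
  obtain ⟨w, hw, w0, w1, w2, hN⟩ := cog_claw hC h
  refine nb0_dom hN (dom_of_subset ?_)
  rintro x (⟨_, ⟨e, he, rfl⟩, rfl⟩ | (rfl | rfl | rfl))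
  · exact ⟨Sum.inl ⟨e, he⟩, hw _⟩
  · exact ⟨Sum.inr 0, w0⟩
  · exact ⟨Sum.inr 1, w1⟩
  · exact ⟨Sum.inr 2, w2⟩

end RC.Str
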