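import Pool.Agent.Helper59.RC.Claw

/-!
Definitions for the structure induction: no bad system is dominated by a decomposable set, nor by
a decomposable set with one additional claw.
-/

namespace RC.Str

open Submodule Module

/-- `X` is contained in `Y` up to zero vectors and signs. -/
def Dom {V : Type} [AddCommGroup V] (X Y : Set V) : Prop :=
  ∀ x ∈ X, x = 0 ∨ x ∈ Y ∨ -x ∈ Y

/-- The class `Dec` as a class of vector sets. -/
abbrev DecC : ClsT := fun V _ _ X => Dec V X

/-- No bad system is dominated by `Y`. -/
def NB0 {V : Type} [AddCommGroup V] [Module ℚ V] (Y : Set V) : Prop :=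
  ∀ (h : ℕ) (ι κ : Type) (v : ι → V) (c : ι → κ) (E : Finset ι) (e0 : ι),
    Bad DecC h v c E e0 → ¬ Dom (v '' (E : Set ι)) Y

/-- No bad system is dominated by `Y` with a claw on the triangle `p, q, p + q`. -/
def NB1 {V : Type} [AddCommGroup V] [Module ℚ V] (Y : Set V) : Prop :=
  ∀ (p q : V), LinearIndependent ℚ ![p, q] → Dom {p, q, p + q} Y →
    NB0 ((fun x : V => (x, (0 : ℚ))) '' Y ∪ clawSet p q)

end RC.Str
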