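import Pool.Agent.Helper59.RC.UniPlane
import Pool.Agent.Helper59.RC.StrDefs
import Pool.Agent.Helper73.RCS.Cocircuit

/-!
Module RC-P3.  Small sides of separations of a bad system.

Notation: `L = span {p, q}`, `B' = B.filter (v e ∉ L)`, `F = E \ B'`.
`span (v '' F) ≤ span (v '' A ∪ {p, q})` (elements of `B \ B'` are in `L`).

`small_card`: assume `B'` nonempty.
(a) `rk v F + 2 ≤ 2 h`: otherwise `rk v F = rk v E`, `span (v '' F) = span (v '' E)`, so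
    `v b ∈ span (v '' A ∪ {p,q}) ⊓ span (v '' B ∪ {p,q}) = L` for `b ∈ B'`, contradiction.
(b) `RC.coc_notin`, `RC.coc_in` for `D = B'` (at most 3 elements): `B' = {e0, x, y}`, `c x = c y`.
(c) For `b ∈ B'` and `D = B'.erase b` (two elements) `RC.coc_notin`, `RC.coc_in` show that
    `rk v (E \ D) + 2 ≤ 2 h` is false, so `v b ∉ span (v '' F)` and
    `span (v '' E) = span (v '' F) ⊔ span {v b}`, `rk v F + 1 = rk v E`.
(d) There is a linear `ψ : V → ℚ` that vanishes on `span (v '' F)` with `ψ (v e0) = 1`; then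
    `ψ (v b) ≠ 0` for all `b ∈ B'`, and every `w ∈ span (v '' B')` with `ψ w = 0` is in
    `span (v '' F) ⊓ span (v '' B) ≤ L`.  (`w ∈ span (v '' E)`, `ψ w = 0` implies
    `w ∈ span (v '' F)` by (c).)

`small_claw`: by `Bad.tri` `v e0, v x, v y` are independent.  `w1 = ψ (v x) • v e0 - v x`,
`w2 = ψ (v y) • v e0 - v y` are independent elements of `L`; so `L` is a plane (`p, q`
independent, because `q = 0` gives dimension at most 1), `L = span {w1, w2}`, `ψ` vanishes on `L`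
and `L ≤ span (v '' B')`.
The coordinates of `p`, `q`, `p + q` in the basis `v e0, v x, v y` are `0, 1, -1` (`uni_coord`
for `v '' B ∪ {p, q, p + q}`, `Uni` from `hC.uni hB`); since `ψ p = 0` and all `ψ (v b) ≠ 0` each of
`p`, `q`, `p + q` has at least two nonzero coordinates.  Combinatorics: none of the three has three
nonzero coordinates (if `p` has, then `q i ∈ {0, - p i}` for all `i` because
`p i + q i ∈ {0,1,-1}`, and `q`, `p + q` have complementary supports, one has at most one element;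
the same for `q`, and for `p + q` with `- q`); `p` and `q` do not have the same support (then
`p + q` or `p - q`... : `q i ∈ {0, -p i}` or `q i = p i` gives `2 p i`; so `q = -p` on the
support, dependent).  So the supports of `p, q` are `{k, 1}`, `{k, 2}` with `{k, 1, 2}` = the three
elements, and `p k = - q k`.  Let `b_k, b_1, b_2` be the elements and put
`β = q k • v b_k`; then `p = p 1 • v b_1 - β`, `q = β + q 2 • v b_2`; that is
`p 1 • v b_1 = β + p`, `- (q 2 • v b_2) = β - q`.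
`ψ β ≠ 0` and `ψ (β + p) = ψ β = ψ (β - q)`.  Let `ψ' = (ψ β)⁻¹ • ψ` and
`Φ w = (w - ψ' w • β, ψ' w)`.  `Φ` is injective, `Φ (v e) = (v e, 0)` for `e ∈ F`,
`Φ β = (0, 1)`, `Φ (β + p) = (p, 1)`, `Φ (β - q) = (-q, 1)`.
-/

namespace RC.Str

open Submodule Module

private theorem span_eq_of_rk {V ι : Type} [AddCommGroup V] [Module ℚ V] {v : ι → V}
    {S T : Finset ι} (hST : S ⊆ T) (h : rk v T ≤ rk v S) :
    span ℚ (v '' (S : Set ι)) = span ℚ (v '' (T : Set ι)) := by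
  have : FiniteDimensional ℚ (span ℚ (v '' (T : Set ι))) :=
    FiniteDimensional.span_of_finite ℚ ((Finset.finite_toSet T).image v)
  exact Submodule.eq_of_le_of_finrank_le
    (span_mono (Set.image_mono (Finset.coe_subset.2 hST))) h

open Classical in
theorem small_card {C : ClsT} (hC : Cls C) {V : Type} [AddCommGroup V] [Module ℚ V] {h : ℕ}
    {ι κ : Type} {v : ι → V} {c : ι → κ} {E : Finset ι} {e0 : ι} (hb : Bad C h v c E e0)
    (A B : Finset ι) (hAB : A ∪ B = E) (hd : Disjoint A B) (p q : V)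
    (hsp : span ℚ (v '' (A : Set ι) ∪ {p, q}) ⊓ span ℚ (v '' (B : Set ι) ∪ {p, q}) =
      span ℚ {p, q})
    (h3 : (B.filter (fun e => v e ∉ span ℚ {p, q})).card ≤ 3)
    (hne : (B.filter (fun e => v e ∉ span ℚ {p, q})).Nonempty) :
    ∃ x y : ι, x ≠ y ∧ x ≠ e0 ∧ y ≠ e0 ∧ c x = c y ∧
      B.filter (fun e => v e ∉ span ℚ {p, q}) = {e0, x, y} ∧
      ∃ ψ : V →ₗ[ℚ] ℚ, (∀ e ∈ E, e ≠ e0 → e ≠ x → e ≠ y → ψ (v e) = 0) ∧
        ψ (v e0) = 1 ∧ ψ (v x) ≠ 0 ∧ ψ (v y) ≠ 0 ∧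
        ∀ w ∈ span ℚ {v e0, v x, v y}, ψ w = 0 → w ∈ span ℚ {p, q} := by
  set L : Submodule ℚ V := span ℚ {p, q} with hL
  set B' : Finset ι := B.filter (fun e => v e ∉ L) with hB'
  have hBE : B ⊆ E := by rw [← hAB]; exact Finset.subset_union_right
  have hB'B : B' ⊆ B := Finset.filter_subset _ _
  have hB'E : B' ⊆ E := hB'B.trans hBE
  have memB' : ∀ e, e ∈ B' ↔ e ∈ B ∧ v e ∉ L := fun e => by rw [hB', Finset.mem_filter]
  -- the span of the complement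
  have hFA : span ℚ (v '' ((E \ B' : Finset ι) : Set ι)) ≤
      span ℚ (v '' (A : Set ι) ∪ {p, q}) := by
    rw [span_le]
    rintro _ ⟨e, he, rfl⟩
    rw [Finset.mem_coe, Finset.mem_sdiff] at he
    obtain ⟨heE, heB⟩ := he
    rw [← hAB, Finset.mem_union] at heE
    rcases heE with h1 | h1
    · exact subset_span (Or.inl ⟨e, Finset.mem_coe.2 h1, rfl⟩)
    · have h2 : v e ∈ L := by
        by_contra h3
        exact heB ((memB' e).2 ⟨h1, h3⟩)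
      exact span_mono Set.subset_union_right h2
  have hvB : ∀ e ∈ B, v e ∈ span ℚ (v '' (B : Set ι) ∪ {p, q}) := fun e he =>
    subset_span (Or.inl ⟨e, Finset.mem_coe.2 he, rfl⟩)
  -- (a)
  have hEr := hb.rank
  have ha : rk v (E \ B') + 2 ≤ 2 * h := by
    by_contra hcon
    have h1 : rk v E ≤ rk v (E \ B') := by omega
    have h2 := span_eq_of_rk (Finset.sdiff_subset : E \ B' ⊆ E) h1
    obtain ⟨b, hbB⟩ := hne
    obtain ⟨hb1, hb2⟩ := (memB' b).1 hbB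
    apply hb2
    rw [← hsp]
    refine ⟨hFA ?_, hvB b hb1⟩
    rw [h2]
    exact subset_span ⟨b, Finset.mem_coe.2 (hBE hb1), rfl⟩
  -- (b)
  have he0 : e0 ∈ B' := by
    by_contra hcon
    have := coc_notin hC hb hB'E hcon ha
    omega
  obtain ⟨hc3, hc4⟩ := coc_in hC hb hB'E he0 ha
  obtain ⟨x, hx, y, hy, hxy, hx0, hy0, hcxy, hall⟩ := hc4 (le_antisymm h3 hc3)
  have hcard : B'.card = 3 := le_antisymm h3 hc3
  -- (c)
  have hcc : ∀ b ∈ B', span ℚ (v '' (E : Set ι)) =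
      span ℚ (v '' ((E \ B' : Finset ι) : Set ι)) ⊔ span ℚ {v b} := by
    intro b hbB
    have hD : B'.erase b ⊆ E := (Finset.erase_subset _ _).trans hB'E
    have hDc : (B'.erase b).card = 2 := by rw [Finset.card_erase_of_mem hbB, hcard]
    have h1 : ¬ rk v (E \ B'.erase b) + 2 ≤ 2 * h := by
      intro h2
      by_cases h3 : e0 ∈ B'.erase b
      · have := (coc_in hC hb hD h3 h2).1
        omega
      · have := coc_notin hC hb hD h3 h2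
        omega
    have h1' : rk v E ≤ rk v (E \ B'.erase b) := by omega
    have h2 := span_eq_of_rk (Finset.sdiff_subset : E \ B'.erase b ⊆ E) h1'
    rw [← h2, ← span_union]
    congr 1
    ext w
    constructor
    · rintro ⟨e, he, rfl⟩
      rw [Finset.mem_coe, Finset.mem_sdiff] at he
      by_cases heb : e = b
      · right; rw [heb]; rfl
      · left
        refine ⟨e, ?_, rfl⟩
        rw [Finset.mem_coe, Finset.mem_sdiff]
        exact ⟨he.1, fun h4 => he.2 (Finset.mem_erase.2 ⟨heb, h4⟩)⟩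
    · rintro (⟨e, he, rfl⟩ | h4)
      · refine ⟨e, ?_, rfl⟩
        rw [Finset.mem_coe, Finset.mem_sdiff] at he ⊢
        exact ⟨he.1, fun h4 => he.2 (Finset.mem_of_mem_erase h4)⟩
      · rw [Set.mem_singleton_iff] at h4
        rw [h4]
        refine ⟨b, ?_, rfl⟩
        rw [Finset.mem_coe, Finset.mem_sdiff]
        exact ⟨hB'E hbB, Finset.notMem_erase _ _⟩
  have hmemE : ∀ e ∈ E, v e ∈ span ℚ (v '' (E : Set ι)) := fun e he =>
    subset_span ⟨e, Finset.mem_coe.2 he, rfl⟩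
  have he0F : v e0 ∉ span ℚ (v '' ((E \ B' : Finset ι) : Set ι)) := by
    intro h1
    have h2 := hcc e0 he0
    rw [sup_eq_left.2 ((span_singleton_le_iff_mem _ _).2 h1)] at h2
    have h4 : rk v E = rk v (E \ B') := by
      unfold rk
      rw [h2]
    omega
  -- (d)
  obtain ⟨ψ0, hψ0, hker⟩ := Submodule.exists_le_ker_of_notMem he0F
  set ψ : V →ₗ[ℚ] ℚ := (ψ0 (v e0))⁻¹ • ψ0 with hψ
  have hψF : ∀ w ∈ span ℚ (v '' ((E \ B' : Finset ι) : Set ι)), ψ w = 0 := by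
    intro w hw
    have h1 : ψ0 w = 0 := hker hw
    rw [hψ, LinearMap.smul_apply, h1, smul_zero]
  have hψe : ψ (v e0) = 1 := by
    rw [hψ, LinearMap.smul_apply, smul_eq_mul, inv_mul_cancel₀ hψ0]
  have hψb : ∀ b ∈ B', ψ (v b) ≠ 0 := by
    intro b hbB h1
    have h2 := hmemE e0 (hB'E he0)
    rw [hcc b hbB] at h2
    obtain ⟨f, hf, g, hg, hfg⟩ := Submodule.mem_sup.1 h2
    obtain ⟨t, rfl⟩ := mem_span_singleton.1 hg
    have h4 : ψ (v e0) = 0 := by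
      rw [← hfg, map_add, map_smul, hψF f hf, h1, smul_zero, add_zero]
    rw [h4] at hψe
    exact zero_ne_one hψe
  have hB'eq : B' = {e0, x, y} := by
    ext e
    simp only [Finset.mem_insert, Finset.mem_singleton]
    constructor
    · exact hall e
    · rintro (rfl | rfl | rfl) <;> assumption
  refine ⟨x, y, hxy, hx0, hy0, hcxy, hB'eq, ψ, ?_, hψe, hψb x hx, hψb y hy, ?_⟩
  · intro e he h0 h1 h2
    apply hψF
    apply subset_span
    refine ⟨e, ?_, rfl⟩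
    rw [Finset.mem_coe, Finset.mem_sdiff]
    refine ⟨he, fun h4 => ?_⟩
    rcases hall e h4 with h5 | h5 | h5
    · exact h0 h5
    · exact h1 h5
    · exact h2 h5
  · intro w hw hw0
    have hwE : w ∈ span ℚ (v '' (E : Set ι)) := by
      refine span_mono ?_ hw
      intro z hz
      simp only [Set.mem_insert_iff, Set.mem_singleton_iff] at hz
      rcases hz with rfl | rfl | rfl
      · exact ⟨e0, Finset.mem_coe.2 (hB'E he0), rfl⟩
      · exact ⟨x, Finset.mem_coe.2 (hB'E hx), rfl⟩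
      · exact ⟨y, Finset.mem_coe.2 (hB'E hy), rfl⟩
    have hwF : w ∈ span ℚ (v '' ((E \ B' : Finset ι) : Set ι)) := by
      rw [hcc e0 he0] at hwE
      obtain ⟨f, hf, g, hg, hfg⟩ := Submodule.mem_sup.1 hwE
      obtain ⟨t, rfl⟩ := mem_span_singleton.1 hg
      have h4 : t = 0 := by
        rw [← hfg, map_add, map_smul, hψF f hf, hψe, zero_add, smul_eq_mul, mul_one] at hw0
        exact hw0
      rw [h4, zero_smul, add_zero] at hfg
      rw [← hfg]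
      exact hf
    have hwB : w ∈ span ℚ (v '' (B : Set ι) ∪ {p, q}) := by
      refine span_mono ?_ hw
      intro z hz
      simp only [Set.mem_insert_iff, Set.mem_singleton_iff] at hz
      left
      rcases hz with rfl | rfl | rfl
      · exact ⟨e0, Finset.mem_coe.2 (hB'B he0), rfl⟩
      · exact ⟨x, Finset.mem_coe.2 (hB'B hx), rfl⟩
      · exact ⟨y, Finset.mem_coe.2 (hB'B hy), rfl⟩
    rw [← hsp]
    exact ⟨hFA hwF, hwB⟩

private theorem claw_sign {V : Type} [AddCommGroup V] [Module ℚ V] {p q u : V} {s : ℚ}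
    (hs : s = 1 ∨ s = -1) (Φ : V →ₗ[ℚ] V × ℚ) {z : V × ℚ} (hz : z ∈ clawSet p q)
    (h : Φ (s • u) = z ∨ Φ (-(s • u)) = z) : Φ u ∈ clawSet p q ∨ -Φ u ∈ clawSet p q := by
  rcases hs with rfl | rfl <;> rcases h with h | h
  · left; rw [one_smul] at h; rw [h]; exact hz
  · right; rw [one_smul, map_neg] at h; rw [h]; exact hz
  · right; rw [neg_one_smul, map_neg] at h; rw [h]; exact hz
  · left; rw [neg_one_smul, neg_neg] at h; rw [h]; exact hz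

private theorem small_mk {V : Type} [AddCommGroup V] [Module ℚ V] {ι : Type} {v : ι → V}
    {E B' : Finset ι} {p q : V} (bk b1 b2 : ι) {sk s1 s2 : ℚ} (hk : sk = 1 ∨ sk = -1)
    (h1 : s1 = 1 ∨ s1 = -1) (h2 : s2 = 1 ∨ s2 = -1)
    (hp : p = s1 • v b1 - sk • v bk) (hq : q = sk • v bk + s2 • v b2)
    (hB : ∀ e ∈ B', e = bk ∨ e = b1 ∨ e = b2) (ψ : V →ₗ[ℚ] ℚ)
    (h0 : ∀ e ∈ E, e ∉ B' → ψ (v e) = 0) (hψ : ψ (v bk) ≠ 0) (hψp : ψ p = 0) (hψq : ψ q = 0) :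
    ∃ Φ : V →ₗ[ℚ] V × ℚ, (∀ w, Φ w = 0 → w = 0) ∧
      (∀ e ∈ E, e ∉ B' → Φ (v e) = (v e, 0)) ∧
      ∀ e ∈ B', Φ (v e) ∈ clawSet p q ∨ -Φ (v e) ∈ clawSet p q := by
  obtain ⟨β, hβ⟩ : ∃ β : V, β = sk • v bk := ⟨_, rfl⟩
  have hsk : sk ≠ 0 := by rcases hk with rfl | rfl <;> norm_num
  have hβ0 : ψ β ≠ 0 := by
    rw [hβ, map_smul, smul_eq_mul]
    exact mul_ne_zero hsk hψ
  obtain ⟨ψ', hψ'⟩ : ∃ ψ' : V →ₗ[ℚ] ℚ, ψ' = (ψ β)⁻¹ • ψ := ⟨_, rfl⟩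
  have e1 : ψ' β = 1 := by rw [hψ', LinearMap.smul_apply, smul_eq_mul, inv_mul_cancel₀ hβ0]
  have e2 : ∀ w, ψ w = 0 → ψ' w = 0 := fun w hw => by
    rw [hψ', LinearMap.smul_apply, hw, smul_zero]
  obtain ⟨Φ, hΦ⟩ : ∃ Φ : V →ₗ[ℚ] V × ℚ, ∀ w, Φ w = (w - ψ' w • β, ψ' w) :=
    ⟨(LinearMap.id - ψ'.smulRight β).prod ψ', fun w => rfl⟩
  refine ⟨Φ, ?_, ?_, ?_⟩
  · intro w hw
    rw [hΦ] at hw
    have h3 : ψ' w = 0 := congrArg Prod.snd hw
    have h4 : w - ψ' w • β = 0 := congrArg Prod.fst hw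
    rwa [h3, zero_smul, sub_zero] at h4
  · intro e he heB
    rw [hΦ, e2 _ (h0 e he heB), zero_smul, sub_zero]
  · intro e he
    have m1 : ((0 : V), (1 : ℚ)) ∈ clawSet p q := Or.inl rfl
    have m2 : (p, (1 : ℚ)) ∈ clawSet p q := Or.inr (Or.inl rfl)
    have m3 : (-q, (1 : ℚ)) ∈ clawSet p q := Or.inr (Or.inr rfl)
    rcases hB e he with h5 | h5 | h5
    · refine claw_sign hk Φ m1 (Or.inl ?_)
      rw [h5, ← hβ, hΦ, e1, one_smul, sub_self]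
    · refine claw_sign h1 Φ m2 (Or.inl ?_)
      have h6 : s1 • v e = p + β := by rw [hp, hβ, h5]; abel
      rw [h6, hΦ, map_add, e2 p hψp, e1, zero_add, one_smul, add_sub_cancel_right]
    · refine claw_sign h2 Φ m3 (Or.inr ?_)
      have h6 : -(s2 • v e) = β - q := by rw [hq, hβ, h5]; abel
      rw [h6, hΦ, map_sub, e2 q hψq, e1, sub_zero, one_smul]
      congr 1
      abel

private theorem coord_type {P Q : ℚ} (hP : P = 0 ∨ P = 1 ∨ P = -1) (hQ : Q = 0 ∨ Q = 1 ∨ Q = -1)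
    (hR : P + Q = 0 ∨ P + Q = 1 ∨ P + Q = -1) :
    (P = 0 ∧ Q = 0 ∧ P + Q = 0) ∨ ((P = 1 ∨ P = -1) ∧ Q = 0) ∨ (P = 0 ∧ (Q = 1 ∨ Q = -1)) ∨
      ((Q = 1 ∨ Q = -1) ∧ P = -Q ∧ P + Q = 0) := by
  rcases hP with rfl | rfl | rfl <;> rcases hQ with rfl | rfl | rfl
  · left; norm_num
  · right; right; left; norm_num
  · right; right; left; norm_num
  · right; left; norm_num
  · exfalso; norm_num at hR
  · right; right; right; norm_num
  · right; left; norm_num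
  · right; right; right; norm_num
  · exfalso; norm_num at hR

/-- the distribution of the types -/
private def Good3 (Pk Qk P1 Q1 P2 Q2 : ℚ) : Prop :=
  ((Qk = 1 ∨ Qk = -1) ∧ Pk = -Qk) ∧ ((P1 = 1 ∨ P1 = -1) ∧ Q1 = 0) ∧ (P2 = 0 ∧ (Q2 = 1 ∨ Q2 = -1))

private theorem comb3 {P0 P1 P2 Q0 Q1 Q2 : ℚ}
    (t0 : (P0 = 0 ∧ Q0 = 0 ∧ P0 + Q0 = 0) ∨ ((P0 = 1 ∨ P0 = -1) ∧ Q0 = 0) ∨
      (P0 = 0 ∧ (Q0 = 1 ∨ Q0 = -1)) ∨ ((Q0 = 1 ∨ Q0 = -1) ∧ P0 = -Q0 ∧ P0 + Q0 = 0))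
    (t1 : (P1 = 0 ∧ Q1 = 0 ∧ P1 + Q1 = 0) ∨ ((P1 = 1 ∨ P1 = -1) ∧ Q1 = 0) ∨
      (P1 = 0 ∧ (Q1 = 1 ∨ Q1 = -1)) ∨ ((Q1 = 1 ∨ Q1 = -1) ∧ P1 = -Q1 ∧ P1 + Q1 = 0))
    (t2 : (P2 = 0 ∧ Q2 = 0 ∧ P2 + Q2 = 0) ∨ ((P2 = 1 ∨ P2 = -1) ∧ Q2 = 0) ∨
      (P2 = 0 ∧ (Q2 = 1 ∨ Q2 = -1)) ∨ ((Q2 = 1 ∨ Q2 = -1) ∧ P2 = -Q2 ∧ P2 + Q2 = 0))
    (p01 : ¬ (P0 = 0 ∧ P1 = 0)) (p02 : ¬ (P0 = 0 ∧ P2 = 0)) (p12 : ¬ (P1 = 0 ∧ P2 = 0))
    (q01 : ¬ (Q0 = 0 ∧ Q1 = 0)) (q02 : ¬ (Q0 = 0 ∧ Q2 = 0)) (q12 : ¬ (Q1 = 0 ∧ Q2 = 0))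
    (r01 : ¬ (P0 + Q0 = 0 ∧ P1 + Q1 = 0)) (r02 : ¬ (P0 + Q0 = 0 ∧ P2 + Q2 = 0))
    (r12 : ¬ (P1 + Q1 = 0 ∧ P2 + Q2 = 0)) :
    Good3 P0 Q0 P1 Q1 P2 Q2 ∨ Good3 P0 Q0 P2 Q2 P1 Q1 ∨ Good3 P1 Q1 P0 Q0 P2 Q2 ∨
      Good3 P1 Q1 P2 Q2 P0 Q0 ∨ Good3 P2 Q2 P0 Q0 P1 Q1 ∨ Good3 P2 Q2 P1 Q1 P0 Q0 := by
  rcases t0 with ⟨a1, a2, a3⟩ | ⟨a1, a2⟩ | ⟨a1, a2⟩ | ⟨a1, a2, a3⟩ <;>
    rcases t1 with ⟨b1, b2, b3⟩ | ⟨b1, b2⟩ | ⟨b1, b2⟩ | ⟨b1, b2, b3⟩ <;>
    rcases t2 with ⟨c1, c2, c3⟩ | ⟨c1, c2⟩ | ⟨c1, c2⟩ | ⟨c1, c2, c3⟩ <;>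
    first
      | exact (p01 ⟨a1, b1⟩).elim
      | exact (p02 ⟨a1, c1⟩).elim
      | exact (p12 ⟨b1, c1⟩).elim
      | exact (q01 ⟨a2, b2⟩).elim
      | exact (q02 ⟨a2, c2⟩).elim
      | exact (q12 ⟨b2, c2⟩).elim
      | exact (r01 ⟨a3, b3⟩).elim
      | exact (r02 ⟨a3, c3⟩).elim
      | exact (r12 ⟨b3, c3⟩).elim
      | exact Or.inl ⟨⟨a1, a2⟩, ⟨b1, b2⟩, ⟨c1, c2⟩⟩
      | exact Or.inr (Or.inl ⟨⟨a1, a2⟩, ⟨c1, c2⟩, ⟨b1, b2⟩⟩)
      | exact Or.inr (Or.inr (Or.inl ⟨⟨b1, b2⟩, ⟨a1, a2⟩, ⟨c1, c2⟩⟩))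
      | exact Or.inr (Or.inr (Or.inr (Or.inl ⟨⟨b1, b2⟩, ⟨c1, c2⟩, ⟨a1, a2⟩⟩)))
      | exact Or.inr (Or.inr (Or.inr (Or.inr (Or.inl ⟨⟨c1, c2⟩, ⟨a1, a2⟩, ⟨b1, b2⟩⟩))))
      | exact Or.inr (Or.inr (Or.inr (Or.inr (Or.inr ⟨⟨c1, c2⟩, ⟨b1, b2⟩, ⟨a1, a2⟩⟩))))

private theorem no_two {a1 a2 P0 P1 P2 : ℚ} (h1 : a1 ≠ 0) (h2 : a2 ≠ 0)
    (h : P0 + P1 * a1 + P2 * a2 = 0) (hne : ¬ (P0 = 0 ∧ P1 = 0 ∧ P2 = 0)) :
    ¬ (P0 = 0 ∧ P1 = 0) ∧ ¬ (P0 = 0 ∧ P2 = 0) ∧ ¬ (P1 = 0 ∧ P2 = 0) := by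
  refine ⟨?_, ?_, ?_⟩
  · rintro ⟨rfl, rfl⟩
    have : P2 * a2 = 0 := by linarith
    exact hne ⟨rfl, rfl, (mul_eq_zero.1 this).resolve_right h2⟩
  · rintro ⟨rfl, rfl⟩
    have : P1 * a1 = 0 := by linarith
    exact hne ⟨rfl, (mul_eq_zero.1 this).resolve_right h1, rfl⟩
  · rintro ⟨rfl, rfl⟩
    exact hne ⟨by linarith, rfl, rfl⟩

open Classical in
theorem small_claw {C : ClsT} (hC : Cls C) {V : Type} [AddCommGroup V] [Module ℚ V] {h : ℕ}
    {ι κ : Type} {v : ι → V} {c : ι → κ} {E : Finset ι} {e0 : ι} (hb : Bad C h v c E e0)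
    (A B : Finset ι) (hAB : A ∪ B = E) (hd : Disjoint A B) (p q : V)
    (hpq : LinearIndependent ℚ ![p, q] ∨ q = 0)
    (hsp : span ℚ (v '' (A : Set ι) ∪ {p, q}) ⊓ span ℚ (v '' (B : Set ι) ∪ {p, q}) =
      span ℚ {p, q})
    (hB : C V (v '' (B : Set ι) ∪ {p, q, p + q}))
    (h3 : (B.filter (fun e => v e ∉ span ℚ {p, q})).card ≤ 3) :
    B.filter (fun e => v e ∉ span ℚ {p, q}) = ∅ ∨
      (LinearIndependent ℚ ![p, q] ∧ e0 ∈ B ∧ v e0 ∉ span ℚ {p, q} ∧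
        (B.filter (fun e => v e ∉ span ℚ {p, q})).card = 3 ∧
        ∃ Φ : V →ₗ[ℚ] V × ℚ, (∀ w, Φ w = 0 → w = 0) ∧
          (∀ e ∈ E, e ∉ B.filter (fun e => v e ∉ span ℚ {p, q}) → Φ (v e) = (v e, 0)) ∧
          ∀ e ∈ B.filter (fun e => v e ∉ span ℚ {p, q}),
            Φ (v e) ∈ clawSet p q ∨ -Φ (v e) ∈ clawSet p q) := by
  by_cases hne : (B.filter (fun e => v e ∉ span ℚ {p, q})).Nonempty
  swap
  · left; exact Finset.not_nonempty_iff_eq_empty.1 hne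
  right
  obtain ⟨x, y, hxy, hx0, hy0, hcxy, hBeq, ψ, hψF, hψ0, hψx, hψy, hψL⟩ :=
    small_card hC hb A B hAB hd p q hsp h3 hne
  have hBE : B ⊆ E := by rw [← hAB]; exact Finset.subset_union_right
  have hmem : ∀ e, e ∈ B.filter (fun e => v e ∉ span ℚ {p, q}) ↔ e = e0 ∨ e = x ∨ e = y := by
    intro e
    rw [hBeq, Finset.mem_insert, Finset.mem_insert, Finset.mem_singleton]
  have h0B := (Finset.mem_filter.1 ((hmem e0).2 (Or.inl rfl)))
  have hxB := (Finset.mem_filter.1 ((hmem x).2 (Or.inr (Or.inl rfl))))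
  have hyB := (Finset.mem_filter.1 ((hmem y).2 (Or.inr (Or.inr rfl))))
  have hli := hb.tri x (hBE hxB.1) y (hBE hyB.1) hcxy hxy
  have key : ∀ c0 c1 c2 : ℚ, c0 • v e0 + c1 • v x + c2 • v y = 0 → c0 = 0 ∧ c1 = 0 ∧ c2 = 0 := by
    intro c0 c1 c2 h1
    have h2 := Fintype.linearIndependent_iff.1 hli ![c0, c1, c2]
      (by simpa [Fin.sum_univ_three] using h1)
    exact ⟨h2 0, h2 1, h2 2⟩
  have hs0 : v e0 ∈ span ℚ {v e0, v x, v y} := subset_span (by simp)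
  have hs1 : v x ∈ span ℚ {v e0, v x, v y} := subset_span (by simp)
  have hs2 : v y ∈ span ℚ {v e0, v x, v y} := subset_span (by simp)
  have hw1 : ψ (v x) • v e0 - v x ∈ span ℚ {p, q} := by
    apply hψL
    · exact Submodule.sub_mem _ (Submodule.smul_mem _ _ hs0) hs1
    · rw [map_sub, map_smul, hψ0, smul_eq_mul, mul_one, sub_self]
  have hw2 : ψ (v y) • v e0 - v y ∈ span ℚ {p, q} := by
    apply hψL
    · exact Submodule.sub_mem _ (Submodule.smul_mem _ _ hs0) hs2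
    · rw [map_sub, map_smul, hψ0, smul_eq_mul, mul_one, sub_self]
  obtain ⟨α1, β1, e1⟩ := mem_span_pair.1 hw1
  obtain ⟨α2, β2, e2⟩ := mem_span_pair.1 hw2
  -- `p`, `q` are independent
  have lipq : LinearIndependent ℚ ![p, q] := by
    rcases hpq with h1 | h1
    · exact h1
    · exfalso
      rw [h1, smul_zero, add_zero] at e1 e2
      have h2 := key (α2 * ψ (v x) - α1 * ψ (v y)) (-α2) α1 (by
        have h4 : α2 • (α1 • p) - α1 • (α2 • p) = 0 := by module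
        rw [e1, e2] at h4
        rw [← h4]
        module)
      have h5 := key (ψ (v x)) (-1) 0 (by
        rw [h2.2.2, zero_smul] at e1
        rw [e1]
        module)
      exact absurd h5.2.1 (by norm_num)
  -- the determinant
  have hdet : α1 * β2 - α2 * β1 ≠ 0 := by
    intro h1
    have h2 := key (β2 * ψ (v x) - β1 * ψ (v y)) (-β2) β1 (by
      have h4 : β2 • (α1 • p + β1 • q) - β1 • (α2 • p + β2 • q) = (α1 * β2 - α2 * β1) • p := by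
        module
      rw [e1, e2, h1, zero_smul] at h4
      rw [← h4]
      module)
    have h3 := key (α2 * ψ (v x) - α1 * ψ (v y)) (-α2) α1 (by
      have h4 : α2 • (α1 • p + β1 • q) - α1 • (α2 • p + β2 • q) = -((α1 * β2 - α2 * β1) • q) := by
        module
      rw [e1, e2, h1, zero_smul, neg_zero] at h4
      rw [← h4]
      module)
    have h5 := key (ψ (v x)) (-1) 0 (by
      rw [h3.2.2, h2.2.2, zero_smul, zero_smul, add_zero] at e1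
      rw [e1]
      module)
    exact absurd h5.2.1 (by norm_num)
  set d := α1 * β2 - α2 * β1 with hddef
  obtain ⟨P0, P1, P2, hp, hPψ⟩ : ∃ P0 P1 P2 : ℚ, p = P0 • v e0 + P1 • v x + P2 • v y ∧
      P0 + P1 * ψ (v x) + P2 * ψ (v y) = 0 := by
    refine ⟨d⁻¹ * (β2 * ψ (v x) - β1 * ψ (v y)), d⁻¹ * (-β2), d⁻¹ * β1, ?_, by ring⟩
    have h4 : β2 • (α1 • p + β1 • q) - β1 • (α2 • p + β2 • q) = d • p := by
      rw [hddef]; module
    rw [e1, e2] at h4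
    have h5 : p = d⁻¹ • (d • p) := by rw [smul_smul, inv_mul_cancel₀ hdet, one_smul]
    rw [h5, ← h4]
    module
  obtain ⟨Q0, Q1, Q2, hq, hQψ⟩ : ∃ Q0 Q1 Q2 : ℚ, q = Q0 • v e0 + Q1 • v x + Q2 • v y ∧
      Q0 + Q1 * ψ (v x) + Q2 * ψ (v y) = 0 := by
    refine ⟨d⁻¹ * (α1 * ψ (v y) - α2 * ψ (v x)), d⁻¹ * α2, d⁻¹ * (-α1), ?_, by ring⟩
    have h4 : α1 • (α2 • p + β2 • q) - α2 • (α1 • p + β1 • q) = d • q := by
      rw [hddef]; module
    rw [e1, e2] at h4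
    have h5 : q = d⁻¹ • (d • q) := by rw [smul_smul, inv_mul_cancel₀ hdet, one_smul]
    rw [h5, ← h4]
    module
  have hψp : ψ p = 0 := by
    rw [hp, map_add, map_add, map_smul, map_smul, map_smul, hψ0, smul_eq_mul, smul_eq_mul,
      smul_eq_mul, mul_one]
    exact hPψ
  have hψq : ψ q = 0 := by
    rw [hq, map_add, map_add, map_smul, map_smul, map_smul, hψ0, smul_eq_mul, smul_eq_mul,
      smul_eq_mul, mul_one]
    exact hQψ
  -- coordinates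
  have hcoord : ∀ c0 c1 c2 : ℚ,
      c0 • v e0 + c1 • v x + c2 • v y ∈ v '' (B : Set ι) ∪ {p, q, p + q} →
      (c0 = 0 ∨ c0 = 1 ∨ c0 = -1) ∧ (c1 = 0 ∨ c1 = 1 ∨ c1 = -1) ∧
        (c2 = 0 ∨ c2 = 1 ∨ c2 = -1) := by
    intro c0 c1 c2 h1
    have h2 := uni_coord (hC.uni hB) ![v e0, v x, v y] Finset.univ
      (by
        intro i _
        left
        fin_cases i
        · exact ⟨e0, Finset.mem_coe.2 h0B.1, rfl⟩
        · exact ⟨x, Finset.mem_coe.2 hxB.1, rfl⟩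
        · exact ⟨y, Finset.mem_coe.2 hyB.1, rfl⟩)
      (by rw [Finset.coe_univ, linearIndepOn_univ_iff]; exact hli) ![c0, c1, c2]
      (by simpa [Fin.sum_univ_three] using h1)
    exact ⟨h2 0 (Finset.mem_univ _), h2 1 (Finset.mem_univ _), h2 2 (Finset.mem_univ _)⟩
  obtain ⟨cp0, cp1, cp2⟩ := hcoord P0 P1 P2 (by rw [← hp]; right; simp)
  obtain ⟨cq0, cq1, cq2⟩ := hcoord Q0 Q1 Q2 (by rw [← hq]; right; simp)
  obtain ⟨cr0, cr1, cr2⟩ := hcoord (P0 + Q0) (P1 + Q1) (P2 + Q2) (by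
    have h1 : (P0 + Q0) • v e0 + (P1 + Q1) • v x + (P2 + Q2) • v y = p + q := by
      rw [hp, hq]; module
    rw [h1]; right; simp)
  have hpq' := LinearIndependent.pair_iff.1 lipq
  obtain ⟨np01, np02, np12⟩ := no_two hψx hψy hPψ (by
    rintro ⟨h1, h2, h4⟩
    have h5 := hpq' 1 0 (by rw [hp, h1, h2, h4]; simp)
    exact one_ne_zero h5.1)
  obtain ⟨nq01, nq02, nq12⟩ := no_two hψx hψy hQψ (by
    rintro ⟨h1, h2, h4⟩
    have h5 := hpq' 0 1 (by rw [hq, h1, h2, h4]; simp)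
    exact one_ne_zero h5.2)
  obtain ⟨nr01, nr02, nr12⟩ := no_two (P0 := P0 + Q0) (P1 := P1 + Q1) (P2 := P2 + Q2) hψx hψy
    (by linarith) (by
    rintro ⟨h1, h2, h4⟩
    have h6 : (P0 + Q0) • v e0 + (P1 + Q1) • v x + (P2 + Q2) • v y = p + q := by
      rw [hp, hq]; module
    have h5 := hpq' 1 1 (by rw [one_smul, one_smul, ← h6, h1, h2, h4]; simp)
    exact one_ne_zero h5.1)
  refine ⟨lipq, h0B.1, h0B.2, ?_, ?_⟩
  · rw [hBeq]
    exact Finset.card_eq_three.2 ⟨e0, x, y, hx0.symm, hy0.symm, hxy, rfl⟩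
  have hF0 : ∀ e ∈ E, e ∉ B.filter (fun e => v e ∉ span ℚ {p, q}) → ψ (v e) = 0 := by
    intro e he h1
    rw [hmem] at h1
    push Not at h1
    exact hψF e he h1.1 h1.2.1 h1.2.2
  have hψe : ψ (v e0) ≠ 0 := by rw [hψ0]; exact one_ne_zero
  rcases comb3 (coord_type cp0 cq0 cr0) (coord_type cp1 cq1 cr1) (coord_type cp2 cq2 cr2)
    np01 np02 np12 nq01 nq02 nq12 nr01 nr02 nr12 with g | g | g | g | g | g
  · obtain ⟨⟨g1, g2⟩, ⟨g3, g4⟩, ⟨g5, g6⟩⟩ := g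
    refine small_mk e0 x y g1 g3 g6 ?_ ?_ (fun e he => ?_) ψ hF0 hψe hψp hψq
    · rw [hp, g2, g5]; module
    · rw [hq, g4]; module
    · rcases (hmem e).1 he with h | h | h
      · exact Or.inl h
      · exact Or.inr (Or.inl h)
      · exact Or.inr (Or.inr h)
  · obtain ⟨⟨g1, g2⟩, ⟨g3, g4⟩, ⟨g5, g6⟩⟩ := g
    refine small_mk e0 y x g1 g3 g6 ?_ ?_ (fun e he => ?_) ψ hF0 hψe hψp hψq
    · rw [hp, g2, g5]; module
    · rw [hq, g4]; module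
    · rcases (hmem e).1 he with h | h | h
      · exact Or.inl h
      · exact Or.inr (Or.inr h)
      · exact Or.inr (Or.inl h)
  · obtain ⟨⟨g1, g2⟩, ⟨g3, g4⟩, ⟨g5, g6⟩⟩ := g
    refine small_mk x e0 y g1 g3 g6 ?_ ?_ (fun e he => ?_) ψ hF0 hψx hψp hψq
    · rw [hp, g2, g5]; module
    · rw [hq, g4]; module
    · rcases (hmem e).1 he with h | h | h
      · exact Or.inr (Or.inl h)
      · exact Or.inl h
      · exact Or.inr (Or.inr h)
  · obtain ⟨⟨g1, g2⟩, ⟨g3, g4⟩, ⟨g5, g6⟩⟩ := g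
    refine small_mk x y e0 g1 g3 g6 ?_ ?_ (fun e he => ?_) ψ hF0 hψx hψp hψq
    · rw [hp, g2, g5]; module
    · rw [hq, g4]; module
    · rcases (hmem e).1 he with h | h | h
      · exact Or.inr (Or.inr h)
      · exact Or.inl h
      · exact Or.inr (Or.inl h)
  · obtain ⟨⟨g1, g2⟩, ⟨g3, g4⟩, ⟨g5, g6⟩⟩ := g
    refine small_mk y e0 x g1 g3 g6 ?_ ?_ (fun e he => ?_) ψ hF0 hψy hψp hψq
    · rw [hp, g2, g5]; module
    · rw [hq, g4]; module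
    · rcases (hmem e).1 he with h | h | h
      · exact Or.inr (Or.inl h)
      · exact Or.inr (Or.inr h)
      · exact Or.inl h
  · obtain ⟨⟨g1, g2⟩, ⟨g3, g4⟩, ⟨g5, g6⟩⟩ := g
    refine small_mk y x e0 g1 g3 g6 ?_ ?_ (fun e he => ?_) ψ hF0 hψy hψp hψq
    · rw [hp, g2, g5]; module
    · rw [hq, g4]; module
    · rcases (hmem e).1 he with h | h | h
      · exact Or.inr (Or.inr h)
      · exact Or.inr (Or.inl h)
      · exact Or.inl h

end RC.Str
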