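import Pool.Agent.Helper59.RC.StrSep
import Pool.Agent.Helper59.RC.StrSmall
import Pool.Agent.Helper59.RC.StrCogClaw
import Pool.Agent.Helper59.RC.StrClawCard

/-!
Module RC-P9.  Cographic sets, second part: `NB1`.

Let `p, q` be independent, `{p, q, p + q}` dominated by `Set.range u`.  By `cog_cut` we may
replace `u` by `u'` (same set up to signs; `NB0` of the set with claw is transferred with
`nb0_dom`, `dom_inl`), so let `CogCut u hd tl X p q e1 e2 e3` hold.  Let `v, E0` be a bad system in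
`V × ℚ` dominated by `inl '' range u ∪ clawSet p q`.  `p' = (p, 0)`, `q' = (q, 0)`,
`L = span {p', q'}`.  By `claw_card`, `claw_empty` (with `nb0_cographic`) and the case
distinction there, `(v e0).2 ≠ 0` and `D = E0.filter ((v e).2 ≠ 0)` has three elements.

`cog_half`: suppose that every `e ∈ E0` for which `v e = ± (u i, 0)` for some `i` with both ends in
`X` has `v e ∈ L`.  Then there is a contradiction: every such `v e` is `± p'`, `± q'` or
`± (p' + q')` (`uni_plane`, `Uni` of `v '' E0 ∪ {p', q', p' + q'}` from `Dec`), so the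
system is dominated by `inl '' (u '' {e | ¬ (hd e ∈ X ∧ tl e ∈ X)}) ∪ clawSet p q`
(`e1, e2, e3` are in this set of edges); `nb0_cog_claw`.

Main proof: let `A` be the set of `e ∈ E0` for which `v e = ± (u i, 0)` for some `i` with both ends
in `X`, `B = E0 \ A`.  For `e ∈ B`: `v e` is `± (u i, 0)` with both ends of `i` outside `X`, or
`± p', ± q', ± (p' + q')`, or in `± clawSet p q`.  Hypothesis `hsp` of `sep_gen`: let `y` be in
the intersection.  By the first part `y.2 = 0` and `y.1 ∈ span (u '' {inside X} ∪ {p, q})`.  The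
second part: `y = b + (α p + β q, t)` with `b ∈ span (inl '' (u '' {outside X}))` (the vectors
of the claw are of the form `(α p + β q, t)`), so `y.1 ∈ span (u '' {outside X} ∪ {p, q})`.  By
`cog_sep` `y.1 ∈ span {p, q}`, so `y ∈ L`.
`hA`, `hB` of `sep_gen`: `v '' A ∪ {p', q', p' + q'}` and `v '' B ∪ {p', q', p' + q'}` are
dominated by `inl '' range u ∪ clawSet p q`, which is in `DecC` (`Dec.cographic`, `hC.claw` for
`range u ∪ {p, q, p + q}`, and `dec_dom`).
`sep_gen` gives: `A` or `B` has at most three elements outside `L`.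
* `A`: `small_claw` with `A` as the small side: since `e0 ∉ A` (`(v e0).2 ≠ 0`), no element of `A`
  is outside `L`; `cog_half`.
* `B`: `D` is contained in the set of elements of `B` outside `L` and has three elements, so they
  are equal; all `e ∈ B` with `(v e).2 = 0` have `v e ∈ L`.  So the hypothesis of `cog_half` holds
  for `h.symm` (complement of `X`): if `v e = ± (u i, 0)`, `i` with both ends outside `X`, and
  `e ∈ A` then also `v e = ± (u i', 0)` with `i'` inside `X`, and `(v e).1` is in both spans of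
  `cog_sep`, so `v e ∈ L`; if `e ∈ B` then `v e ∈ L` as just seen.
-/

namespace RC.Str

open Submodule Module

section aux

variable {V E W : Type} [AddCommGroup V] [Module ℚ V] [Fintype E] [Fintype W]

private theorem sc1_li {p q : V} (li : LinearIndependent ℚ ![p, q]) :
    LinearIndependent ℚ ![((p : V), (0 : ℚ)), (q, 0)] := by
  rw [LinearIndependent.pair_iff] at li ⊢
  intro s t hst
  apply li s t
  simpa using congrArg Prod.fst hst

/-- the elements of the plane -/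
private theorem sc1_mem {p q : V} {y : V × ℚ} (h1 : y.1 ∈ span ℚ {p, q}) (h2 : y.2 = 0) :
    y ∈ span ℚ {((p : V), (0 : ℚ)), (q, 0)} := by
  obtain ⟨α, β, h⟩ := mem_span_pair.1 h1
  rw [mem_span_pair]
  refine ⟨α, β, ?_⟩
  apply Prod.ext
  · simpa using h
  · simpa using h2.symm

private theorem sc1_snd {p q : V} {y : V × ℚ}
    (h : y ∈ span ℚ {((p : V), (0 : ℚ)), (q, 0)}) : y.2 = 0 := by
  obtain ⟨α, β, h⟩ := mem_span_pair.1 h
  rw [← h]
  simp

/-- the triangle is dominated by the range -/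
private theorem sc1_tri {u : E → V} {hd tl : E → W} {X : Set W} {p q : V} {e1 e2 e3 : E}
    (h : CogCut u hd tl X p q e1 e2 e3) : Dom {p, q, p + q} (Set.range u) := by
  rintro x (rfl | rfl | rfl)
  · exact Or.inr (Or.inl ⟨e1, h.u1⟩)
  · exact Or.inr (Or.inl ⟨e2, h.u2⟩)
  · exact Or.inr (Or.inr ⟨e3, h.u3⟩)

/-- the lifted set is decomposable -/
private theorem sc1_dec (hC : Cls DecC) {u : E → V} {hd tl : E → W} {X : Set W} {p q : V}
    {e1 e2 e3 : E} (h : CogCut u hd tl X p q e1 e2 e3) :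
    Dec (V × ℚ) ((fun x : V => (x, (0 : ℚ))) '' Set.range u ∪ clawSet p q) := by
  have h1 : Dec V (Set.range u) :=
    Dec.cographic (Set.range u) E W u hd tl h.dep (by rintro _ ⟨e, rfl⟩; exact ⟨e, rfl⟩)
  have h2 : Dec V (Set.range u ∪ {p, q, p + q}) :=
    dec_dom h1 (dom_union (dom_refl _) (sc1_tri h))
  have h3 := hC.claw (X := Set.range u ∪ {p, q, p + q}) (p := p) (q := q) h2
    (Or.inr (by simp)) (Or.inr (by simp)) (Or.inr (by simp)) h.li
  refine dec_dom h3 (dom_of_subset ?_)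
  exact Set.union_subset_union (Set.image_mono Set.subset_union_left) (le_refl _)

/-- the lifted triangle is dominated -/
private theorem sc1_tri' {u : E → V} {hd tl : E → W} {X : Set W} {p q : V} {e1 e2 e3 : E}
    (h : CogCut u hd tl X p q e1 e2 e3) :
    Dom {((p : V), (0 : ℚ)), (q, 0), ((p : V), (0 : ℚ)) + (q, 0)}
      ((fun x : V => (x, (0 : ℚ))) '' Set.range u ∪ clawSet p q) := by
  have h1 := dom_union_left (clawSet p q) (dom_inl (sc1_tri h))
  refine dom_trans (dom_of_subset ?_) h1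
  rintro x (rfl | rfl | rfl)
  · exact ⟨p, by simp, rfl⟩
  · exact ⟨q, by simp, rfl⟩
  · exact ⟨p + q, by simp, by simp⟩

private theorem sc1_half (hC : Cls DecC) {u : E → V} {hd tl : E → W} {X : Set W} {p q : V}
    {e1 e2 e3 : E} (h : CogCut u hd tl X p q e1 e2 e3) {m : ℕ} {ι κ : Type} {v : ι → V × ℚ}
    {c : ι → κ} {E0 : Finset ι} {e0 : ι} (hb : Bad DecC m v c E0 e0)
    (hdom : Dom (v '' (E0 : Set ι)) ((fun x : V => (x, (0 : ℚ))) '' Set.range u ∪ clawSet p q))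
    (hin : ∀ e ∈ E0, (∃ i, hd i ∈ X ∧ tl i ∈ X ∧ (v e = (u i, 0) ∨ v e = -(u i, 0))) →
      v e ∈ span ℚ {((p : V), (0 : ℚ)), (q, 0)}) : False := by
  have hU : Uni (v '' (E0 : Set ι) ∪
      {((p : V), (0 : ℚ)), (q, 0), ((p : V), (0 : ℚ)) + (q, 0)}) :=
    hC.uni (show DecC (V × ℚ) _ from dec_dom (sc1_dec hC h) (dom_union hdom (sc1_tri' h)))
  -- membership of the triangle
  have k1 : ((p : V), (0 : ℚ)) ∈ (fun x : V => (x, (0 : ℚ))) ''
      (u '' {e | ¬ (hd e ∈ X ∧ tl e ∈ X)}) :=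
    ⟨p, ⟨e1, fun hh => h.t1 hh.2, h.u1⟩, rfl⟩
  have k2 : ((q : V), (0 : ℚ)) ∈ (fun x : V => (x, (0 : ℚ))) ''
      (u '' {e | ¬ (hd e ∈ X ∧ tl e ∈ X)}) :=
    ⟨q, ⟨e2, fun hh => h.t2 hh.2, h.u2⟩, rfl⟩
  have k3 : -(((p : V), (0 : ℚ)) + (q, 0)) ∈ (fun x : V => (x, (0 : ℚ))) ''
      (u '' {e | ¬ (hd e ∈ X ∧ tl e ∈ X)}) :=
    ⟨-(p + q), ⟨e3, fun hh => h.t3 hh.2, h.u3⟩, by simp⟩
  have hplane : ∀ e ∈ E0, v e ∈ span ℚ {((p : V), (0 : ℚ)), (q, 0)} →
      v e = 0 ∨ v e ∈ ((fun x : V => (x, (0 : ℚ))) '' (u '' {e | ¬ (hd e ∈ X ∧ tl e ∈ X)}) ∪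
        clawSet p q) ∨ -v e ∈ ((fun x : V => (x, (0 : ℚ))) ''
          (u '' {e | ¬ (hd e ∈ X ∧ tl e ∈ X)}) ∪ clawSet p q) := by
    intro e he hL
    rcases uni_plane hU (p := ((p : V), (0 : ℚ))) (q := ((q : V), (0 : ℚ))) (x := v e)
      (Or.inr (by simp)) (Or.inr (by simp)) (Or.inr (by simp)) (sc1_li h.li)
      (Or.inl ⟨e, he, rfl⟩) hL with h0 | h0 | h0 | h0 | h0 | h0 | h0
    · exact Or.inl h0
    · exact Or.inr (Or.inl (Or.inl (by rw [h0]; exact k1)))
    · exact Or.inr (Or.inr (Or.inl (by rw [h0, neg_neg]; exact k1)))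
    · exact Or.inr (Or.inl (Or.inl (by rw [h0]; exact k2)))
    · exact Or.inr (Or.inr (Or.inl (by rw [h0, neg_neg]; exact k2)))
    · exact Or.inr (Or.inr (Or.inl (by rw [h0]; exact k3)))
    · exact Or.inr (Or.inl (Or.inl (by rw [h0]; exact k3)))
  refine nb0_cog_claw hC h m ι κ v c E0 e0 hb ?_
  rintro _ ⟨e, he, rfl⟩
  rcases hdom (v e) ⟨e, he, rfl⟩ with h0 | (⟨_, ⟨i, rfl⟩, h0⟩ | h0) | (⟨_, ⟨i, rfl⟩, h0⟩ | h0)
  · exact Or.inl h0
  · have h0' : v e = (u i, 0) := h0.symm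
    by_cases hi : hd i ∈ X ∧ tl i ∈ X
    · exact hplane e he (hin e he ⟨i, hi.1, hi.2, Or.inl h0'⟩)
    · exact Or.inr (Or.inl (Or.inl ⟨u i, ⟨i, hi, rfl⟩, h0⟩))
  · exact Or.inr (Or.inl (Or.inr h0))
  · have h0' : v e = -(u i, 0) := by
      have h00 : ((u i : V), (0 : ℚ)) = -v e := h0
      rw [h00, neg_neg]
    by_cases hi : hd i ∈ X ∧ tl i ∈ X
    · exact hplane e he (hin e he ⟨i, hi.1, hi.2, Or.inr h0'⟩)
    · exact Or.inr (Or.inr (Or.inl ⟨u i, ⟨i, hi, rfl⟩, h0⟩))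
  · exact Or.inr (Or.inr (Or.inr h0))

open Classical in
private theorem sc1_main (hC : Cls DecC) {u : E → V} {hd tl : E → W} {X : Set W} {p q : V}
    {e1 e2 e3 : E} (h : CogCut u hd tl X p q e1 e2 e3) :
    NB0 ((fun x : V => (x, (0 : ℚ))) '' Set.range u ∪ clawSet p q) := by
  intro m ι κ v c E0 e0 hb hdom
  rcases claw_card hC hb hdom with h0 | ⟨he0, hcard⟩
  · exact claw_empty hC (nb0_cographic hC u hd tl h.dep) hb hdom h0
  set L : Submodule ℚ (V × ℚ) := span ℚ {((p : V), (0 : ℚ)), (q, 0)} with hL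
  set P : ι → Prop := fun e => ∃ i, hd i ∈ X ∧ tl i ∈ X ∧ (v e = (u i, 0) ∨ v e = -(u i, 0))
    with hP
  set A : Finset ι := E0.filter P with hA
  set B : Finset ι := E0.filter (fun e => ¬ P e) with hB
  have hAB : A ∪ B = E0 := Finset.filter_union_filter_not_eq _ _
  have hdis : Disjoint A B := Finset.disjoint_filter_filter_not _ _ _
  have hPsnd : ∀ e, P e → (v e).2 = 0 := by
    rintro e ⟨i, -, -, h1 | h1⟩
    · rw [h1]
    · rw [h1]; simp
  have hAE : (v '' (A : Set ι)) ⊆ v '' (E0 : Set ι) := by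
    refine Set.image_mono ?_
    intro e he
    exact (Finset.mem_filter.1 (Finset.mem_coe.1 he)).1
  have hBE : (v '' (B : Set ι)) ⊆ v '' (E0 : Set ι) := by
    refine Set.image_mono ?_
    intro e he
    exact (Finset.mem_filter.1 (Finset.mem_coe.1 he)).1
  have hdA : DecC (V × ℚ) (v '' (A : Set ι) ∪
      {((p : V), (0 : ℚ)), (q, 0), ((p : V), (0 : ℚ)) + (q, 0)}) :=
    dec_dom (sc1_dec hC h) (dom_union (dom_trans (dom_of_subset hAE) hdom) (sc1_tri' h))
  have hdB : DecC (V × ℚ) (v '' (B : Set ι) ∪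
      {((p : V), (0 : ℚ)), (q, 0), ((p : V), (0 : ℚ)) + (q, 0)}) :=
    dec_dom (sc1_dec hC h) (dom_union (dom_trans (dom_of_subset hBE) hdom) (sc1_tri' h))
  -- the two spans
  have hin : ∀ y ∈ span ℚ (v '' (A : Set ι) ∪ {((p : V), (0 : ℚ)), (q, 0)}),
      y.1 ∈ span ℚ (u '' {e | hd e ∈ X ∧ tl e ∈ X} ∪ {p, q}) ∧ y.2 = 0 := by
    intro y hy
    have hle : span ℚ (v '' (A : Set ι) ∪ {((p : V), (0 : ℚ)), (q, 0)}) ≤
        (span ℚ (u '' {e | hd e ∈ X ∧ tl e ∈ X} ∪ {p, q})).comap (LinearMap.fst ℚ V ℚ) ⊓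
          LinearMap.ker (LinearMap.snd ℚ V ℚ) := by
      rw [span_le]
      rintro x (⟨e, he, rfl⟩ | (rfl | rfl))
      · obtain ⟨i, hi1, hi2, hi3⟩ := (Finset.mem_filter.1 (Finset.mem_coe.1 he)).2
        have hu : u i ∈ span ℚ (u '' {e | hd e ∈ X ∧ tl e ∈ X} ∪ {p, q}) :=
          subset_span (Or.inl ⟨i, ⟨hi1, hi2⟩, rfl⟩)
        rcases hi3 with h1 | h1
        · rw [h1]
          exact ⟨hu, rfl⟩
        · rw [h1]
          exact ⟨neg_mem hu, neg_zero⟩
      · exact ⟨show p ∈ span ℚ _ from subset_span (Or.inr (by simp)), rfl⟩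
      · exact ⟨show q ∈ span ℚ _ from subset_span (Or.inr (by simp)), rfl⟩
    exact ⟨(hle hy).1, (hle hy).2⟩
  have hp' : p ∈ span ℚ (u '' {e | hd e ∉ X ∧ tl e ∉ X} ∪ {p, q}) :=
    subset_span (Or.inr (by simp))
  have hq' : q ∈ span ℚ (u '' {e | hd e ∉ X ∧ tl e ∉ X} ∪ {p, q}) :=
    subset_span (Or.inr (by simp))
  have hout0 : ∀ i, ¬ (hd i ∈ X ∧ tl i ∈ X) →
      u i ∈ span ℚ (u '' {e | hd e ∉ X ∧ tl e ∉ X} ∪ {p, q}) := by
    intro i hi
    by_cases i1 : i = e1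
    · rw [i1, h.u1]; exact hp'
    by_cases i2 : i = e2
    · rw [i2, h.u2]; exact hq'
    by_cases i3 : i = e3
    · rw [i3, h.u3]; exact neg_mem (add_mem hp' hq')
    have hc := h.cut i i1 i2 i3
    refine subset_span (Or.inl ⟨i, ⟨fun h1 => hi ⟨h1, hc.1 h1⟩, fun h1 => hi ⟨hc.2 h1, h1⟩⟩, rfl⟩)
  have hout : ∀ y ∈ span ℚ (v '' (B : Set ι) ∪ {((p : V), (0 : ℚ)), (q, 0)}),
      y.1 ∈ span ℚ (u '' {e | hd e ∉ X ∧ tl e ∉ X} ∪ {p, q}) := by
    intro y hy
    have hle : span ℚ (v '' (B : Set ι) ∪ {((p : V), (0 : ℚ)), (q, 0)}) ≤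
        (span ℚ (u '' {e | hd e ∉ X ∧ tl e ∉ X} ∪ {p, q})).comap (LinearMap.fst ℚ V ℚ) := by
      rw [span_le]
      rintro x (⟨e, he, rfl⟩ | (rfl | rfl))
      · have heB := Finset.mem_filter.1 (Finset.mem_coe.1 he)
        have hclaw : ∀ w ∈ clawSet p q, w.1 ∈
            span ℚ (u '' {e | hd e ∉ X ∧ tl e ∉ X} ∪ {p, q}) := by
          rintro w (rfl | rfl | rfl)
          · exact zero_mem _
          · exact hp'
          · exact neg_mem hq'
        show (v e).1 ∈ span ℚ (u '' {e | hd e ∉ X ∧ tl e ∉ X} ∪ {p, q})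
        rcases hdom (v e) ⟨e, heB.1, rfl⟩ with h1 | (⟨_, ⟨i, rfl⟩, h1⟩ | h1) |
          (⟨_, ⟨i, rfl⟩, h1⟩ | h1)
        · rw [h1]; exact zero_mem _
        · have h1' : v e = (u i, 0) := h1.symm
          rw [h1']
          exact hout0 i fun hi => heB.2 ⟨i, hi.1, hi.2, Or.inl h1'⟩
        · exact hclaw _ h1
        · have h1' : v e = -(u i, 0) := by
            have h00 : ((u i : V), (0 : ℚ)) = -v e := h1
            rw [h00, neg_neg]
          rw [h1']
          exact neg_mem (hout0 i fun hi => heB.2 ⟨i, hi.1, hi.2, Or.inr h1'⟩)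
        · have h2 := neg_mem (hclaw _ h1)
          rwa [Prod.fst_neg, neg_neg] at h2
      · exact hp'
      · exact hq'
    exact hle hy
  have hsep := cog_sep h
  have hLmem : ∀ y : V × ℚ, y.1 ∈ span ℚ (u '' {e | hd e ∈ X ∧ tl e ∈ X} ∪ {p, q}) →
      y.1 ∈ span ℚ (u '' {e | hd e ∉ X ∧ tl e ∉ X} ∪ {p, q}) → y.2 = 0 → y ∈ L := by
    intro y h1 h2 h3
    refine sc1_mem ?_ h3
    rw [← hsep]
    exact ⟨h1, h2⟩
  have hsp : span ℚ (v '' (A : Set ι) ∪ {((p : V), (0 : ℚ)), (q, 0)}) ⊓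
      span ℚ (v '' (B : Set ι) ∪ {((p : V), (0 : ℚ)), (q, 0)}) =
      span ℚ {((p : V), (0 : ℚ)), (q, 0)} := by
    apply le_antisymm
    · rintro y ⟨h1, h2⟩
      exact hLmem y (hin y h1).1 (hout y h2) (hin y h1).2
    · exact le_inf (span_mono Set.subset_union_right) (span_mono Set.subset_union_right)
  rcases sep_gen hC hb A B hAB hdis _ _ (Or.inl (sc1_li h.li)) hsp hdA hdB with h3 | h3
  · -- the inner side is small
    have hs := small_claw hC hb B A (by rw [Finset.union_comm]; exact hAB) hdis.symm _ _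
      (Or.inl (sc1_li h.li)) (by rw [inf_comm]; exact hsp) hdA h3
    rcases hs with h4 | ⟨-, h4, -⟩
    · refine sc1_half hC h hb hdom ?_
      intro e he hPe
      by_contra hcon
      have : e ∈ A.filter (fun e => v e ∉ span ℚ {((p : V), (0 : ℚ)), (q, 0)}) :=
        Finset.mem_filter.2 ⟨Finset.mem_filter.2 ⟨he, hPe⟩, hcon⟩
      rw [h4] at this
      exact absurd this (Finset.notMem_empty _)
    · exact he0 (hPsnd e0 (Finset.mem_filter.1 h4).2)
  · -- the outer side is small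
    have hDsub : E0.filter (fun e => (v e).2 ≠ 0) ⊆
        B.filter (fun e => v e ∉ span ℚ {((p : V), (0 : ℚ)), (q, 0)}) := by
      intro e he
      obtain ⟨h4, h5⟩ := Finset.mem_filter.1 he
      refine Finset.mem_filter.2 ⟨Finset.mem_filter.2 ⟨h4, fun h6 => h5 (hPsnd e h6)⟩, ?_⟩
      intro h6
      exact h5 (sc1_snd h6)
    have hDeq : E0.filter (fun e => (v e).2 ≠ 0) =
        B.filter (fun e => v e ∉ span ℚ {((p : V), (0 : ℚ)), (q, 0)}) :=
      Finset.eq_of_subset_of_card_le hDsub (by rw [hcard]; exact h3)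
    refine sc1_half hC h.symm hb hdom ?_
    rintro e he ⟨i, hi1, hi2, hi3⟩
    have hsnd : (v e).2 = 0 := by
      rcases hi3 with h4 | h4
      · rw [h4]
      · rw [h4]; simp
    by_cases hPe : P e
    · refine hLmem (v e) ?_ ?_ hsnd
      · exact (hin (v e) (subset_span (Or.inl
          ⟨e, Finset.mem_coe.2 (Finset.mem_filter.2 ⟨he, hPe⟩), rfl⟩))).1
      · have hu := hout0 i fun hh => hi2 hh.1
        rcases hi3 with h4 | h4
        · rw [h4]; exact hu
        · rw [h4]; exact neg_mem hu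
    · by_contra hcon
      have : e ∈ B.filter (fun e => v e ∉ span ℚ {((p : V), (0 : ℚ)), (q, 0)}) :=
        Finset.mem_filter.2 ⟨Finset.mem_filter.2 ⟨he, hPe⟩, hcon⟩
      rw [← hDeq] at this
      exact (Finset.mem_filter.1 this).2 hsnd

end aux

theorem nb1_cographic (hC : Cls DecC) {V E W : Type} [AddCommGroup V] [Module ℚ V] [Fintype E]
    [Fintype W] (u : E → V) (hd tl : E → W)
    (dep : ∀ a : E → ℚ, ∑ e, a e • u e = 0 ↔ ∃ π : W → ℚ, ∀ e, a e = π (hd e) - π (tl e)) :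
    NB1 (Set.range u) := by
  intro p q li hD
  obtain ⟨u', hd', tl', X, e1, e2, e3, hs, h⟩ := cog_cut u hd tl dep li hD
  refine nb0_dom (sc1_main hC h) ?_
  refine dom_union (dom_union_left _ (dom_inl ?_)) (dom_union_right _ (dom_refl _))
  rintro _ ⟨e, rfl⟩
  rcases hs e with h1 | h1
  · exact Or.inr (Or.inl ⟨e, h1⟩)
  · exact Or.inr (Or.inr ⟨e, h1⟩)

end RC.Str
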