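import Pool.Agent.Helper59.RC.StrDom
import Pool.Agent.Helper59.RC.UniR10
import Pool.Agent.Helper73.RCS.Rank2
import Pool.Agent.Helper73.RCS.Sub

/-!
Module RC-P10.  The set `R10`.

`nb0_r10`: let `v, E` be a bad system dominated by `Y`.  For `e ∈ E`: `v e ≠ 0`, so
`φ (v e) = R10 (j e)` or `φ (v e) = - R10 (j e)` for some `j e : Fin 10`.  `j` is injective on `E`:
if `j e = j e'` then `φ (v e) = ± φ (v e')`, so `v e = ± v e'` (`φ` is injective on `span Y`), and
`e = e'` by `Bad.par'`.  So `E.card ≤ 10`; `Bad.card`, `Bad.two_le` give `h = 2`, `E.card = 7`,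
`rk v E = 3`.  `RC.rank_three` for an enumeration `u : Fin 7 → V` of `v '' E`
(`hpar` = `Bad.par'`, `hX` = `dec_uni` of `hb.sys.cls`) is a contradiction.

`r10_no_triangle`: a finite check with the integer table `r10RZ` (`RC.r10_R10_eq`): for all
`i j k : Fin 10` and signs `s t : {1, -1}` it is not true that `R i + s * R j = t * R k`
(`decide +kernel` on integers, or use that the first differences are never columns).

`nb1_r10`: `p, q, p + q` are nonzero, so they are mapped to `± R10 i, ± R10 j, ± R10 k`,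
contradiction to `r10_no_triangle`.
-/

namespace RC.Str

open Submodule Module

theorem sr10_sign {V : Type} [AddCommGroup V] [Module ℚ V] {Y : Set V}
    {φ : V →ₗ[ℚ] (Fin 5 → ℚ)} (col : ∀ x ∈ Y, ∃ j, φ x = R10 j) {x : V} (hx0 : x ≠ 0)
    (hx : x = 0 ∨ x ∈ Y ∨ -x ∈ Y) :
    ∃ (j : Fin 10) (e : ℚ), (e = 1 ∨ e = -1) ∧ φ x = e • R10 j := by
  rcases hx with hx | hx | hx
  · exact absurd hx hx0
  · obtain ⟨j, hj⟩ := col x hx
    exact ⟨j, 1, Or.inl rfl, by rw [hj, one_smul]⟩
  · obtain ⟨j, hj⟩ := col _ hx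
    refine ⟨j, -1, Or.inr rfl, ?_⟩
    rw [← hj, map_neg, neg_smul, one_smul, neg_neg]

theorem sr10_a : ∀ i j k : Fin 10, ∃ l : Fin 5, r10RZ i l + r10RZ j l ≠ r10RZ k l := by
  decide +kernel

theorem sr10_b : ∀ i j k : Fin 10, ∃ l : Fin 5, r10RZ i l + r10RZ j l ≠ - r10RZ k l := by
  decide +kernel

theorem sr10_c : ∀ i j k : Fin 10, ∃ l : Fin 5, r10RZ i l - r10RZ j l ≠ r10RZ k l := by
  decide +kernel

theorem sr10_d : ∀ i j k : Fin 10, ∃ l : Fin 5, r10RZ i l - r10RZ j l ≠ - r10RZ k l := by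
  decide +kernel

theorem nb0_r10 {V : Type} [AddCommGroup V] [Module ℚ V] (Y : Set V) (φ : V →ₗ[ℚ] (Fin 5 → ℚ))
    (inj : ∀ y ∈ span ℚ Y, φ y = 0 → y = 0) (col : ∀ x ∈ Y, ∃ j, φ x = R10 j) : NB0 Y := by
  classical
  intro m ι κ v c E e0 hb hd
  have hE : ∀ e : ι, e ∈ E → v e = 0 ∨ v e ∈ Y ∨ -v e ∈ Y := fun e he =>
    hd (v e) ⟨e, Finset.mem_coe.2 he, rfl⟩
  have hsg : ∀ e : E, ∃ (j : Fin 10) (s : ℚ), (s = 1 ∨ s = -1) ∧ φ (v e) = s • R10 j := fun e =>
    sr10_sign col (hb.sys.ne e e.2) (hE e e.2)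
  choose j s hs hφ using hsg
  have hspan : ∀ e : E, v e ∈ span ℚ Y := by
    intro e
    rcases hE e e.2 with h0 | h0 | h0
    · rw [h0]; exact zero_mem _
    · exact subset_span h0
    · have := neg_mem (subset_span h0 : -v e ∈ span ℚ Y)
      rwa [neg_neg] at this
  have hinj : Function.Injective j := by
    intro e e' hee
    by_contra hne
    have hne' : (e : ι) ≠ e' := fun h => hne (Subtype.ext h)
    have hli := hb.par' e.2 e'.2 hne'
    have h1 : s e' • v e - s e • v e' = 0 := by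
      apply inj _ (sub_mem (Submodule.smul_mem _ _ (hspan e)) (Submodule.smul_mem _ _ (hspan e')))
      rw [map_sub, map_smul, map_smul, hφ, hφ, hee, smul_smul, smul_smul, mul_comm, sub_self]
    have h2 : s e' • v e + (-s e) • v e' = 0 := by
      rw [neg_smul, ← sub_eq_add_neg]; exact h1
    have h3 := (LinearIndependent.pair_iff.1 hli _ _ h2).1
    rcases hs e' with h4 | h4 <;> rw [h4] at h3 <;> norm_num at h3
  have hcard : E.card ≤ 10 := by
    have := Fintype.card_le_of_injective j hinj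
    rwa [Fintype.card_coe, Fintype.card_fin] at this
  have h1 := hb.card
  have h2 := hb.two_le
  have h3 := hb.rank
  have hm : m = 2 := by omega
  subst hm
  have h7 : E.card = 7 := by omega
  let f : Fin 7 ≃ E := (Finset.equivFinOfCardEq h7).symm
  have hrange : Set.range (fun i : Fin 7 => v (f i)) = v '' (E : Set ι) := by
    ext x
    constructor
    · rintro ⟨i, rfl⟩
      exact ⟨f i, Finset.mem_coe.2 (f i).2, rfl⟩
    · rintro ⟨e, he, rfl⟩
      refine ⟨f.symm ⟨e, Finset.mem_coe.1 he⟩, ?_⟩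
      simp
  refine rank_three (uni_r10 Y φ inj col) (fun i : Fin 7 => ((if v (f i) ∈ Y then (1 : ℚ) else -1) • v (f i)))
    ?_ ?_ ?_
  · intro i
    split_ifs with h4
    · rw [one_smul]; exact h4
    · rcases hE _ (f i).2 with h5 | h5 | h5
      · exact absurd h5 (hb.sys.ne _ (f i).2)
      · exact absurd h5 h4
      · rw [neg_smul, one_smul]; exact h5
  · intro i i' hii
    have hne' : ((f i : E) : ι) ≠ f i' := fun h => hii (f.injective (Subtype.ext h))
    have hli := hb.par' (f i).2 (f i').2 hne'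
    rw [LinearIndependent.pair_iff] at hli ⊢
    intro a b hab
    rw [smul_smul, smul_smul] at hab
    have h4 := hli _ _ hab
    constructor
    · have h5 := h4.1
      split_ifs at h5
      · simpa using h5
      · simpa using h5
    · have h5 := h4.2
      split_ifs at h5
      · simpa using h5
      · simpa using h5
  · have hf : FiniteDimensional ℚ (span ℚ (v '' (E : Set ι))) :=
      FiniteDimensional.span_of_finite ℚ ((Finset.finite_toSet E).image v)
    have hle : span ℚ (Set.range (fun i : Fin 7 =>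
        ((if v (f i) ∈ Y then (1 : ℚ) else -1) • v (f i)))) ≤ span ℚ (v '' (E : Set ι)) := by
      rw [span_le]
      rintro _ ⟨i, rfl⟩
      exact Submodule.smul_mem _ _ (subset_span ⟨f i, Finset.mem_coe.2 (f i).2, rfl⟩)
    have h4 := LinearMap.finrank_le_finrank_of_injective (Submodule.inclusion_injective hle)
    unfold rk at h3
    omega

theorem r10_no_triangle (i j k : Fin 10) (s t : ℚ) (hs : s = 1 ∨ s = -1) (ht : t = 1 ∨ t = -1) :
    R10 i + s • R10 j ≠ t • R10 k := by
  intro h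
  have hl : ∀ l : Fin 5, (r10RZ i l : ℚ) + s * (r10RZ j l : ℚ) = t * (r10RZ k l : ℚ) := by
    intro l
    have h1 := congrFun h l
    rw [Pi.add_apply, Pi.smul_apply, Pi.smul_apply, smul_eq_mul, smul_eq_mul, r10_R10_eq,
      r10_R10_eq, r10_R10_eq] at h1
    exact h1
  rcases hs with rfl | rfl <;> rcases ht with rfl | rfl
  · obtain ⟨l, hl'⟩ := sr10_a i j k
    apply hl'
    have h1 := hl l
    rw [one_mul, one_mul] at h1
    exact_mod_cast h1
  · obtain ⟨l, hl'⟩ := sr10_b i j k
    apply hl'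
    have h1 := hl l
    rw [one_mul, neg_one_mul] at h1
    exact_mod_cast h1
  · obtain ⟨l, hl'⟩ := sr10_c i j k
    apply hl'
    have h1 := hl l
    rw [one_mul, neg_one_mul, ← sub_eq_add_neg] at h1
    exact_mod_cast h1
  · obtain ⟨l, hl'⟩ := sr10_d i j k
    apply hl'
    have h1 := hl l
    rw [neg_one_mul, neg_one_mul, ← sub_eq_add_neg] at h1
    exact_mod_cast h1

theorem nb1_r10 {V : Type} [AddCommGroup V] [Module ℚ V] (Y : Set V) (φ : V →ₗ[ℚ] (Fin 5 → ℚ))
    (inj : ∀ y ∈ span ℚ Y, φ y = 0 → y = 0) (col : ∀ x ∈ Y, ∃ j, φ x = R10 j) : NB1 Y := by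
  intro p q li hd
  exfalso
  have hp0 : p ≠ 0 := by
    have := li.ne_zero 0
    simpa using this
  have hq0 : q ≠ 0 := by
    have := li.ne_zero 1
    simpa using this
  have hpq0 : p + q ≠ 0 := by
    intro h
    have h1 := (LinearIndependent.pair_iff.1 li 1 1 (by rw [one_smul, one_smul]; exact h)).1
    norm_num at h1
  obtain ⟨i, a, ha, hi⟩ := sr10_sign col hp0 (hd p (by simp))
  obtain ⟨j, b, hb, hj⟩ := sr10_sign col hq0 (hd q (by simp))
  obtain ⟨k, c, hc, hk⟩ := sr10_sign col hpq0 (hd (p + q) (by simp))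
  have h1 : a • R10 i + b • R10 j = c • R10 k := by rw [← hi, ← hj, ← hk, map_add]
  have haa : a * a = 1 := by rcases ha with rfl | rfl <;> norm_num
  have h2 : R10 i + (a * b) • R10 j = (a * c) • R10 k := by
    have h3 := congrArg (fun x => a • x) h1
    simp only [smul_add, smul_smul, haa, one_smul] at h3
    exact h3
  refine r10_no_triangle i j k (a * b) (a * c) ?_ ?_ h2
  · rcases ha with rfl | rfl <;> rcases hb with rfl | rfl <;> norm_num
  · rcases ha with rfl | rfl <;> rcases hc with rfl | rfl <;> norm_num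

end RC.Str
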