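import Pool.Agent.Helper59.RC.StrSum0
import Pool.Agent.Helper59.RC.StrClawCard

/-!
Module RC-P13.  Sums, `NB1`.  `Δ = {p, q, p + q}`, `inl x = (x, 0)`, `p' = (p, 0)`, `q' = (q, 0)`,
`L = span {p', q'}`.

`sum1_half`: assume that the triangle `{p1, q1, p1 + q1}` is dominated by `A ∪ Δ`.  Let `v, E` be a
bad system in `V × ℚ` dominated by `inl '' (A ∪ B) ∪ clawSet p1 q1`.
`claw_card`, `claw_empty` (with `nb0_sum`): we may assume `(v e0).2 ≠ 0` and that
`D = E.filter ((v e).2 ≠ 0)` has three elements.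
Let `A' = inl '' A ∪ clawSet p1 q1`, `B' = inl '' B`, `EA` = the set of `e ∈ E` with `v e ∈ ± A'`,
`EB = E \ EA`, so `v '' EA` is dominated by `A'`, `v '' EB` by `B'`, and `D ⊆ EA`, `e0 ∈ EA`.
(1) `span (A' ∪ {p', q'}) ⊓ span (B' ∪ {p', q'}) = L`: an element `y` of the intersection has
    `y.2 = 0` and `y.1 ∈ span (B ∪ {p, q})` by the second part; by the first part
    `y.1 ∈ span (A ∪ {p, q})`, because `p1, q1 ∈ span (A ∪ Δ) = span (A ∪ {p, q})`; use `hsp`.
    (`p', q'` independent or `q' = 0`, from `hpq`.)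
(2) `A' ∪ {p', q', p' + q'}` is in `DecC`: `hC.claw` for `A ∪ Δ ∪ {p1, q1, p1 + q1}` (`dec_dom`
    from `hA`).  `B' ∪ {p', q', p' + q'}` is in `DecC`: `hC.map` for `LinearMap.inl`.
(3) `sep_gen` for `EA, EB, p', q'` (subsets: `dom_span`, `dec_dom`).
(3a) At most three elements of `EB` are outside `L`: by `small_claw` (small side `EB`), as
    `e0 ∉ EB`, none is.  By `line_dom` (in `B' ∪ {p', q', p' + q'}`) `v '' E` is dominated by
    `A' ∪ {p', q', p' + q'}`, that is by `inl '' (A ∪ Δ) ∪ clawSet p1 q1`; contradiction to `a1`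
    for the triangle `p1, q1`.
(3b) At most three elements of `EA` are outside `L`: `D` is contained in this set and has three
    elements, so it is this set; so `(v e).2 = 0` for `e ∈ E \ D`.  `small_claw` with small side
    `EA` (not empty): `p', q'` are independent (so `p, q` are), and there is
    `Φ : V × ℚ → (V × ℚ) × ℚ`.  `Φ ∘ v` is a bad system (`bad_map`).  Let
    `g ((y, t), s) = (y, s)`.  For `e ∈ E \ D`, `g (Φ (v e)) = ((v e).1, 0)`; for `e ∈ D`
    `Φ (v e)` is in `± clawSet p' q'` and `g (Φ (v e))` in `± clawSet p q`.  `g` is injective on the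
    span of the `Φ (v e)`, because all these vectors have the form `((y, 0), s)`.  By `bad_map`
    `g ∘ Φ ∘ v` is a bad system; it is dominated by `inl '' (B ∪ Δ) ∪ clawSet p q`: `e ∈ EB`:
    `(v e).1 ∈ ± B`; `e ∈ EA`, `e ∉ D`: `v e ∈ L`, so `± v e` is in `{p', q', p' + q'}` by `line_dom`
    in the set of (2).  Contradiction to `b1` for the triangle `p, q`.

`nb1_sum`: let `p1, q1` be independent, `{p1, q1, p1 + q1}` dominated by `A ∪ B`.  Each of the three
vectors is nonzero and in `± A` or in `± B`.  So two of the three are in `± A` or two are in `± B`;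
by symmetry (`Set.union_comm`) let two be in `± A`.  Then all three are in `span A`.  If
the third is not in `± A` it is in `± B`, so in `span (A ∪ {p, q}) ⊓ span (B ∪ {p, q})`
`= span {p, q}`, and by `line_dom` in `B ∪ Δ` it is dominated by `Δ`.  So the triangle is
dominated by `A ∪ Δ`; `sum1_half`.
-/

namespace RC.Str

open Submodule Module

variable {V : Type} [AddCommGroup V] [Module ℚ V]

private theorem tri_span (A : Set V) (p q : V) :
    span ℚ (A ∪ {p, q, p + q}) ≤ span ℚ (A ∪ {p, q}) := by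
  have hp : p ∈ span ℚ (A ∪ {p, q}) := subset_span (Or.inr (Or.inl rfl))
  have hq : q ∈ span ℚ (A ∪ {p, q}) := subset_span (Or.inr (Or.inr rfl))
  rw [span_le]
  rintro x (hx | hx | hx | hx)
  · exact subset_span (Or.inl hx)
  · rw [hx]; exact hp
  · rw [hx]; exact hq
  · rw [hx]; exact add_mem hp hq

private theorem inl_indep {p q : V} (h : LinearIndependent ℚ ![p, q] ∨ q = 0) :
    LinearIndependent ℚ ![((p, 0) : V × ℚ), (q, 0)] ∨ ((q, 0) : V × ℚ) = 0 := by
  rcases h with h | h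
  · left
    have := h.map' (LinearMap.inl ℚ V ℚ) (LinearMap.ker_eq_bot.2 LinearMap.inl_injective)
    have he : ![((p, 0) : V × ℚ), (q, 0)] = ⇑(LinearMap.inl ℚ V ℚ) ∘ ![p, q] := by
      funext i
      fin_cases i <;> rfl
    rw [he]
    exact this
  · right
    rw [h]
    rfl

private theorem snd_of_mem_pair {p q : V} {x : V × ℚ}
    (h : x ∈ span ℚ {((p, 0) : V × ℚ), (q, 0)}) : x.2 = 0 := by
  have hle : span ℚ {((p, 0) : V × ℚ), (q, 0)} ≤ LinearMap.ker (LinearMap.snd ℚ V ℚ) := by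
    rw [span_le]
    rintro x (rfl | rfl)
    · rfl
    · rfl
  exact hle h

/-- The span identity of step (1). -/
private theorem sum1_span {A B : Set V} {p q : V}
    (hsp : span ℚ (A ∪ {p, q}) ⊓ span ℚ (B ∪ {p, q}) = span ℚ {p, q}) {p1 q1 : V}
    (hp1 : p1 ∈ span ℚ (A ∪ {p, q})) (hq1 : q1 ∈ span ℚ (A ∪ {p, q}))
    {X Y : Set (V × ℚ)} (hX : Dom X ((fun x : V => (x, (0 : ℚ))) '' A ∪ clawSet p1 q1))
    (hY : Dom Y ((fun x : V => (x, (0 : ℚ))) '' B)) :
    span ℚ (X ∪ {(p, 0), (q, 0)}) ⊓ span ℚ (Y ∪ {(p, 0), (q, 0)}) =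
      span ℚ {((p, 0) : V × ℚ), (q, 0)} := by
  apply le_antisymm
  · rintro y ⟨hy1, hy2⟩
    have h1 : y ∈ span ℚ ((fun x : V => (x, (0 : ℚ))) '' (A ∪ {p, q}) ∪ clawSet p1 q1) := by
      refine dom_span ?_ hy1
      refine dom_union ?_ ?_
      · refine dom_trans hX (dom_of_subset ?_)
        rintro x (⟨z, hz, rfl⟩ | hx)
        · exact Or.inl ⟨z, Or.inl hz, rfl⟩
        · exact Or.inr hx
      · apply dom_of_subset
        rintro x (rfl | rfl)
        · exact Or.inl ⟨p, Or.inr (Or.inl rfl), rfl⟩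
        · exact Or.inl ⟨q, Or.inr (Or.inr rfl), rfl⟩
    have h2 : y ∈ span ℚ ((fun x : V => (x, (0 : ℚ))) '' (B ∪ {p, q})) := by
      refine dom_span ?_ hy2
      refine dom_union ?_ ?_
      · refine dom_trans hY (dom_of_subset ?_)
        rintro x ⟨z, hz, rfl⟩
        exact ⟨z, Or.inl hz, rfl⟩
      · apply dom_of_subset
        rintro x (rfl | rfl)
        · exact ⟨p, Or.inr (Or.inl rfl), rfl⟩
        · exact ⟨q, Or.inr (Or.inr rfl), rfl⟩
    have h3 := fst_mem_span hp1 hq1 h1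
    obtain ⟨h4, h5⟩ := inl_mem_span h2
    have h6 : y.1 ∈ span ℚ {p, q} := by
      rw [← hsp]
      exact ⟨h3, h4⟩
    have h7 := mem_span_inl h6
    have h8 : y = (y.1, (0 : ℚ)) := Prod.ext rfl h5
    rw [h8]
    have h9 : (fun x : V => (x, (0 : ℚ))) '' {p, q} = {((p, 0) : V × ℚ), (q, 0)} := by
      rw [Set.image_pair]
    rw [← h9]
    exact h7
  · exact le_inf (span_mono Set.subset_union_right) (span_mono Set.subset_union_right)

omit [Module ℚ V] in
private theorem claw_image {p q : V} {w : (V × ℚ) × ℚ}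
    (h : w ∈ clawSet ((p, 0) : V × ℚ) (q, 0)) : w.1.2 = 0 ∧ (w.1.1, w.2) ∈ clawSet p q := by
  rcases h with rfl | rfl | rfl
  · exact ⟨rfl, Or.inl rfl⟩
  · exact ⟨rfl, Or.inr (Or.inl rfl)⟩
  · exact ⟨by simp, Or.inr (Or.inr (by simp))⟩

theorem sum1_half (hC : Cls DecC) {A B : Set V} {p q : V}
    (hpq : LinearIndependent ℚ ![p, q] ∨ q = 0)
    (hsp : span ℚ (A ∪ {p, q}) ⊓ span ℚ (B ∪ {p, q}) = span ℚ {p, q})
    (hA : Dec V (A ∪ {p, q, p + q})) (hB : Dec V (B ∪ {p, q, p + q}))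
    (a0 : NB0 (A ∪ {p, q, p + q})) (a1 : NB1 (A ∪ {p, q, p + q}))
    (b0 : NB0 (B ∪ {p, q, p + q})) (b1 : NB1 (B ∪ {p, q, p + q})) {p1 q1 : V}
    (li : LinearIndependent ℚ ![p1, q1]) (hD : Dom {p1, q1, p1 + q1} (A ∪ {p, q, p + q})) :
    NB0 ((fun x : V => (x, (0 : ℚ))) '' (A ∪ B) ∪ clawSet p1 q1) := by
  classical
  intro h ι κ v c E e0 hb hd
  rcases claw_card hC hb hd with h0 | ⟨h0, h3⟩
  · exact claw_empty hC (nb0_sum hC hpq hsp hA hB a0 a1 b0 b1) hb hd h0
  have hp1 : p1 ∈ span ℚ (A ∪ {p, q}) :=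
    tri_span A p q (dom_span hD (subset_span (Or.inl rfl)))
  have hq1 : q1 ∈ span ℚ (A ∪ {p, q}) :=
    tri_span A p q (dom_span hD (subset_span (Or.inr (Or.inl rfl))))
  obtain ⟨A', hA'⟩ : ∃ A' : Set (V × ℚ),
    A' = (fun x : V => (x, (0 : ℚ))) '' A ∪ clawSet p1 q1 := ⟨_, rfl⟩
  obtain ⟨B', hB'⟩ : ∃ B' : Set (V × ℚ), B' = (fun x : V => (x, (0 : ℚ))) '' B := ⟨_, rfl⟩
  obtain ⟨P, hP⟩ : ∃ P : V × ℚ, P = (p, 0) := ⟨_, rfl⟩
  obtain ⟨Q, hQ⟩ : ∃ Q : V × ℚ, Q = (q, 0) := ⟨_, rfl⟩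
  have hPQs : P + Q = (p + q, (0 : ℚ)) := by rw [hP, hQ]; simp
  -- every element is in `± A'` or in `± B'`
  have hcase : ∀ e ∈ E, (v e ∈ A' ∨ -v e ∈ A') ∨ (v e ∈ B' ∨ -v e ∈ B') := by
    have hsub : (fun x : V => (x, (0 : ℚ))) '' (A ∪ B) ∪ clawSet p1 q1 ⊆ A' ∪ B' := by
      rintro x (⟨z, hz | hz, rfl⟩ | hx)
      · left; rw [hA']; exact Or.inl ⟨z, hz, rfl⟩
      · right; rw [hB']; exact ⟨z, hz, rfl⟩
      · left; rw [hA']; exact Or.inr hx
    intro e he
    rcases hd (v e) ⟨e, he, rfl⟩ with h1 | h1 | h1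
    · exact absurd h1 (hb.sys.ne e he)
    · rcases hsub h1 with h2 | h2
      · exact Or.inl (Or.inl h2)
      · exact Or.inr (Or.inl h2)
    · rcases hsub h1 with h2 | h2
      · exact Or.inl (Or.inr h2)
      · exact Or.inr (Or.inr h2)
  have hB0 : ∀ x ∈ B', x.2 = 0 := by
    rw [hB']
    rintro _ ⟨z, hz, rfl⟩
    rfl
  obtain ⟨EA, hEA⟩ : ∃ EA : Finset ι, EA = E.filter (fun e => v e ∈ A' ∨ -v e ∈ A') := ⟨_, rfl⟩
  obtain ⟨EB, hEB⟩ : ∃ EB : Finset ι, EB = E.filter (fun e => ¬ (v e ∈ A' ∨ -v e ∈ A')) :=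
    ⟨_, rfl⟩
  have hE : EA ∪ EB = E := by
    rw [hEA, hEB]
    exact Finset.filter_union_filter_not_eq _ E
  have hdis : Disjoint EA EB := by
    rw [hEA, hEB]
    exact Finset.disjoint_filter_filter_not _ _ _
  have memA : ∀ e, e ∈ EA ↔ e ∈ E ∧ (v e ∈ A' ∨ -v e ∈ A') := by
    intro e; rw [hEA, Finset.mem_filter]
  have memB : ∀ e ∈ EB, e ∈ E ∧ (v e ∈ B' ∨ -v e ∈ B') := by
    intro e he
    rw [hEB, Finset.mem_filter] at he
    exact ⟨he.1, (hcase e he.1).resolve_left he.2⟩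
  have snd_mem : ∀ e ∈ E, (v e).2 ≠ 0 → e ∈ EA := by
    intro e he hne
    rcases hcase e he with h1 | h1 | h1
    · exact (memA e).2 ⟨he, h1⟩
    · exact absurd (hB0 _ h1) hne
    · have := hB0 _ h1
      rw [Prod.snd_neg, neg_eq_zero] at this
      exact absurd this hne
  have e0A : e0 ∈ EA := snd_mem e0 hb.mem0 h0
  have e0B : e0 ∉ EB := fun h1 => Finset.disjoint_left.1 hdis e0A h1
  have dA : Dom (v '' (EA : Set ι)) A' := by
    rintro _ ⟨e, he, rfl⟩
    exact Or.inr ((memA e).1 he).2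
  have dB : Dom (v '' (EB : Set ι)) B' := by
    rintro _ ⟨e, he, rfl⟩
    exact Or.inr (memB e he).2
  -- (1)
  have hspan : span ℚ (v '' (EA : Set ι) ∪ {P, Q}) ⊓ span ℚ (v '' (EB : Set ι) ∪ {P, Q}) =
      span ℚ {P, Q} := by
    rw [hP, hQ]
    rw [hA'] at dA
    rw [hB'] at dB
    exact sum1_span hsp hp1 hq1 dA dB
  have hPQ : LinearIndependent ℚ ![P, Q] ∨ Q = 0 := by
    rw [hP, hQ]
    exact inl_indep hpq
  -- (2)
  have hDA : DecC (V × ℚ) (A' ∪ {P, Q, P + Q}) := by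
    have h1 : Dec V (A ∪ {p, q, p + q} ∪ {p1, q1, p1 + q1}) :=
      dec_dom hA (dom_union (dom_refl _) hD)
    have h2 := hC.claw h1 (Or.inr (Or.inl rfl)) (Or.inr (Or.inr (Or.inl rfl)))
      (Or.inr (Or.inr (Or.inr rfl))) li
    refine dec_dom h2 (dom_of_subset ?_)
    rw [hPQs, hP, hQ, hA']
    rintro x ((⟨z, hz, rfl⟩ | hx) | (rfl | rfl | rfl))
    · exact Or.inl ⟨z, Or.inl (Or.inl hz), rfl⟩
    · exact Or.inr hx
    · exact Or.inl ⟨p, Or.inl (Or.inr (Or.inl rfl)), rfl⟩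
    · exact Or.inl ⟨q, Or.inl (Or.inr (Or.inr (Or.inl rfl))), rfl⟩
    · exact Or.inl ⟨p + q, Or.inl (Or.inr (Or.inr (Or.inr rfl))), rfl⟩
  have hDB : DecC (V × ℚ) (B' ∪ {P, Q, P + Q}) := by
    have h2 := hC.map (LinearMap.inl ℚ V ℚ) hB
      (fun y _ hy => (LinearMap.inl_injective (R := ℚ) (M := V) (M₂ := ℚ)) (by rw [hy, map_zero]))
    refine dec_dom h2 (dom_of_subset ?_)
    rw [hPQs, hP, hQ, hB']
    rintro x (⟨z, hz, rfl⟩ | (rfl | rfl | rfl))
    · exact ⟨z, Or.inl hz, rfl⟩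
    · exact ⟨p, Or.inr (Or.inl rfl), rfl⟩
    · exact ⟨q, Or.inr (Or.inr (Or.inl rfl)), rfl⟩
    · exact ⟨p + q, Or.inr (Or.inr (Or.inr rfl)), rfl⟩
  have hDA' : DecC (V × ℚ) (v '' (EA : Set ι) ∪ {P, Q, P + Q}) :=
    dec_dom hDA (dom_union (dom_union_left _ dA) (dom_union_right _ (dom_refl _)))
  have hDB' : DecC (V × ℚ) (v '' (EB : Set ι) ∪ {P, Q, P + Q}) :=
    dec_dom hDB (dom_union (dom_union_left _ dB) (dom_union_right _ (dom_refl _)))
  -- vectors in the plane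
  have hline : ∀ (Y : Set (V × ℚ)), DecC (V × ℚ) (Y ∪ {P, Q, P + Q}) → ∀ x : V × ℚ,
      (x ∈ Y ∨ -x ∈ Y) → x ∈ span ℚ {P, Q} → Dom {x} {P, Q, P + Q} := by
    intro Y hY x hx hxs
    have hun := hC.uni hY
    rcases hx with hx | hx
    · exact line_dom hun (Or.inr (Or.inl rfl)) (Or.inr (Or.inr (Or.inl rfl)))
        (Or.inr (Or.inr (Or.inr rfl))) hPQ (Or.inl hx) hxs
    · have h1 := line_dom hun (Or.inr (Or.inl rfl)) (Or.inr (Or.inr (Or.inl rfl)))
        (Or.inr (Or.inr (Or.inr rfl))) hPQ (Or.inl hx) (neg_mem hxs)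
      rintro _ rfl
      rcases h1 _ rfl with h2 | h2 | h2
      · exact Or.inl (neg_eq_zero.1 h2)
      · exact Or.inr (Or.inr h2)
      · exact Or.inr (Or.inl (by rwa [neg_neg] at h2))
  rcases sep_gen hC hb EA EB hE hdis P Q hPQ hspan hDA' hDB' with h4 | h4
  · -- (3b)
    have hsub : E.filter (fun e => (v e).2 ≠ 0) ⊆ EA.filter (fun e => v e ∉ span ℚ {P, Q}) := by
      intro e he
      rw [Finset.mem_filter] at he ⊢
      refine ⟨snd_mem e he.1 he.2, fun hs => he.2 ?_⟩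
      rw [hP, hQ] at hs
      exact snd_of_mem_pair hs
    have heq := Finset.eq_of_subset_of_card_le hsub (by rw [h3]; exact h4)
    have hmem : ∀ e, e ∈ EA.filter (fun e => v e ∉ span ℚ {P, Q}) ↔ e ∈ E ∧ (v e).2 ≠ 0 := by
      intro e
      rw [← heq, Finset.mem_filter]
    rcases small_claw hC hb EB EA (by rw [Finset.union_comm]; exact hE) hdis.symm P Q hPQ
      (by rw [inf_comm]; exact hspan) hDA' h4 with h5 | ⟨hli, _, _, _, Φ, hΦ0, hΦ1, hΦ2⟩
    · rw [← heq] at h5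
      rw [h5] at h3
      simp at h3
    · have hlpq : LinearIndependent ℚ ![p, q] := by
        rcases hpq with h6 | h6
        · exact h6
        · exfalso
          have := hli.ne_zero 1
          apply this
          rw [hQ, h6]
          rfl
      obtain ⟨g, hg⟩ : ∃ g : ((V × ℚ) × ℚ) →ₗ[ℚ] (V × ℚ), ∀ w, g w = (w.1.1, w.2) :=
        ⟨(LinearMap.fst ℚ V ℚ).prodMap LinearMap.id, fun w => rfl⟩
      have hz : ∀ y ∈ span ℚ (v '' (E : Set ι)), (Φ y).1.2 = 0 := by
        have hle : span ℚ (v '' (E : Set ι)) ≤ LinearMap.ker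
            ((LinearMap.snd ℚ V ℚ).comp ((LinearMap.fst ℚ (V × ℚ) ℚ).comp Φ)) := by
          rw [span_le]
          rintro _ ⟨e, he, rfl⟩
          change (Φ (v e)).1.2 = 0
          by_cases hs : e ∈ EA.filter (fun e => v e ∉ span ℚ {P, Q})
          · have h6 := hΦ2 e hs
            rw [hP, hQ] at h6
            rcases h6 with h7 | h7
            · exact (claw_image h7).1
            · have := (claw_image h7).1
              rw [Prod.fst_neg, Prod.snd_neg, neg_eq_zero] at this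
              exact this
          · rw [hΦ1 e he hs]
            by_contra h8
            exact hs ((hmem e).2 ⟨he, h8⟩)
        intro y hy
        exact hle hy
      have hbad : Bad DecC h (fun e => (g.comp Φ) (v e)) c E e0 := by
        refine bad_map hC (g.comp Φ) hb ?_
        intro y hy hy0
        rw [LinearMap.comp_apply, hg] at hy0
        apply hΦ0
        have h6 := hz y hy
        have h7 : (Φ y).1.1 = 0 := congrArg Prod.fst hy0
        have h8 : (Φ y).2 = 0 := congrArg Prod.snd hy0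
        exact Prod.ext (Prod.ext h7 h6) h8
      refine b1 p q hlpq (dom_of_subset Set.subset_union_right) h ι κ _ c E e0 hbad ?_
      rintro _ ⟨e, he, rfl⟩
      change (g (Φ (v e)) : V × ℚ) = 0 ∨ g (Φ (v e)) ∈ _ ∨ -g (Φ (v e)) ∈ _
      by_cases hs : e ∈ EA.filter (fun e => v e ∉ span ℚ {P, Q})
      · right
        have h6 := hΦ2 e hs
        rw [hP, hQ] at h6
        rw [← map_neg]
        rcases h6 with h7 | h7
        · left; right; rw [hg]; exact (claw_image h7).2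
        · right; right; rw [hg]; exact (claw_image h7).2
      · have h6 : (v e).2 = 0 := by
          by_contra h8
          exact hs ((hmem e).2 ⟨he, h8⟩)
        rw [hΦ1 e he hs, hg]
        have h7 : ((v e).1, (0 : ℚ)) = v e := Prod.ext rfl h6.symm
        change ((v e).1, (0 : ℚ)) = 0 ∨ ((v e).1, (0 : ℚ)) ∈ _ ∨ -((v e).1, (0 : ℚ)) ∈ _
        rw [h7]
        have h8 : Dom {v e} ((fun x : V => (x, (0 : ℚ))) '' (B ∪ {p, q, p + q})) := by
          have h9 : e ∈ EA ∨ e ∈ EB := by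
            rw [← Finset.mem_union, hE]; exact he
          rcases h9 with h9 | h9
          · have h10 : v e ∈ span ℚ {P, Q} := by
              by_contra h11
              exact hs (Finset.mem_filter.2 ⟨h9, h11⟩)
            refine dom_trans (hline A' hDA (v e) ((memA e).1 h9).2 h10) (dom_of_subset ?_)
            rw [hPQs, hP, hQ]
            rintro x (rfl | rfl | rfl)
            · exact ⟨p, Or.inr (Or.inl rfl), rfl⟩
            · exact ⟨q, Or.inr (Or.inr (Or.inl rfl)), rfl⟩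
            · exact ⟨p + q, Or.inr (Or.inr (Or.inr rfl)), rfl⟩
          · refine dom_trans (Y := B') ?_ (dom_of_subset ?_)
            · rintro _ rfl
              exact Or.inr (memB e h9).2
            · rw [hB']
              rintro _ ⟨z, hz, rfl⟩
              exact ⟨z, Or.inl hz, rfl⟩
        exact dom_union_left _ h8 (v e) rfl
  · -- (3a)
    rcases small_claw hC hb EA EB hE hdis P Q hPQ hspan hDB' h4 with h5 | ⟨_, h5, _⟩
    · refine a1 p1 q1 li hD h ι κ v c E e0 hb ?_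
      have h6 : Dom (v '' (E : Set ι)) (A' ∪ {P, Q, P + Q}) := by
        rintro _ ⟨e, he, rfl⟩
        have h9 : e ∈ EA ∨ e ∈ EB := by
          rw [← Finset.mem_union, hE]; exact he
        rcases h9 with h9 | h9
        · exact dom_union_left _ dA (v e) ⟨e, h9, rfl⟩
        · have h10 : v e ∈ span ℚ {P, Q} := by
            by_contra h11
            have : e ∈ EB.filter (fun e => v e ∉ span ℚ {P, Q}) :=
              Finset.mem_filter.2 ⟨h9, h11⟩
            rw [h5] at this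
            simp at this
          exact dom_union_right _ (hline B' hDB (v e) (memB e h9).2 h10) (v e) rfl
      refine dom_trans h6 (dom_of_subset ?_)
      rw [hPQs, hP, hQ, hA']
      rintro x ((⟨z, hz, rfl⟩ | hx) | (rfl | rfl | rfl))
      · exact Or.inl ⟨z, Or.inl hz, rfl⟩
      · exact Or.inr hx
      · exact Or.inl ⟨p, Or.inr (Or.inl rfl), rfl⟩
      · exact Or.inl ⟨q, Or.inr (Or.inr (Or.inl rfl)), rfl⟩
      · exact Or.inl ⟨p + q, Or.inr (Or.inr (Or.inr rfl)), rfl⟩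
    · exact e0B h5

/-- If the triangle is in the span of `A`, it is dominated by `A` and `p, q, p + q`. -/
private theorem tri_dom {A B : Set V} {p q : V}
    (hpq : LinearIndependent ℚ ![p, q] ∨ q = 0)
    (hsp : span ℚ (A ∪ {p, q}) ⊓ span ℚ (B ∪ {p, q}) = span ℚ {p, q})
    (hB : Uni (B ∪ {p, q, p + q})) {T : Set V} (hT : Dom T (A ∪ B))
    (hs : ∀ x ∈ T, x ∈ span ℚ A) : Dom T (A ∪ {p, q, p + q}) := by
  have key : ∀ x ∈ T, ∀ y ∈ B, (y = x ∨ y = -x) → Dom {y} {p, q, p + q} := by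
    intro x hx y hy hxy
    have h1 : y ∈ span ℚ A := by
      rcases hxy with rfl | rfl
      · exact hs _ hx
      · exact neg_mem (hs _ hx)
    refine line_dom hB (Or.inr (Or.inl rfl)) (Or.inr (Or.inr (Or.inl rfl)))
        (Or.inr (Or.inr (Or.inr rfl))) hpq (Or.inl hy) ?_
    rw [← hsp]
    exact ⟨span_mono Set.subset_union_left h1, subset_span (Or.inl hy)⟩
  intro x hx
  rcases hT x hx with h1 | (h1 | h1) | (h1 | h1)
  · exact Or.inl h1
  · exact Or.inr (Or.inl (Or.inl h1))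
  · exact dom_union_right _ (key x hx x h1 (Or.inl rfl)) x rfl
  · exact Or.inr (Or.inr (Or.inl h1))
  · rcases key x hx (-x) h1 (Or.inr rfl) (-x) rfl with h2 | h2 | h2
    · exact Or.inl (neg_eq_zero.1 h2)
    · exact Or.inr (Or.inr (Or.inr h2))
    · exact Or.inr (Or.inl (Or.inr (by rwa [neg_neg] at h2)))

theorem nb1_sum (hC : Cls DecC) {A B : Set V} {p q : V}
    (hpq : LinearIndependent ℚ ![p, q] ∨ q = 0)
    (hsp : span ℚ (A ∪ {p, q}) ⊓ span ℚ (B ∪ {p, q}) = span ℚ {p, q})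
    (hA : Dec V (A ∪ {p, q, p + q})) (hB : Dec V (B ∪ {p, q, p + q}))
    (a0 : NB0 (A ∪ {p, q, p + q})) (a1 : NB1 (A ∪ {p, q, p + q}))
    (b0 : NB0 (B ∪ {p, q, p + q})) (b1 : NB1 (B ∪ {p, q, p + q})) : NB1 (A ∪ B) := by
  intro p1 q1 li hD
  have hsp' : span ℚ (B ∪ {p, q}) ⊓ span ℚ (A ∪ {p, q}) = span ℚ {p, q} := by
    rw [inf_comm]; exact hsp
  have memAB : ∀ x ∈ ({p1, q1, p1 + q1} : Set V), x ∈ span ℚ A ∨ x ∈ span ℚ B := by
    intro x hx
    rcases hD x hx with h1 | (h1 | h1) | (h1 | h1)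
    · left; rw [h1]; exact zero_mem _
    · exact Or.inl (subset_span h1)
    · exact Or.inr (subset_span h1)
    · left
      have := neg_mem (subset_span h1 : -x ∈ span ℚ A)
      rwa [neg_neg] at this
    · right
      have := neg_mem (subset_span h1 : -x ∈ span ℚ B)
      rwa [neg_neg] at this
  have two : ∀ S : Submodule ℚ V, (p1 ∈ S ∧ q1 ∈ S ∨ p1 ∈ S ∧ p1 + q1 ∈ S ∨
      q1 ∈ S ∧ p1 + q1 ∈ S) → ∀ x ∈ ({p1, q1, p1 + q1} : Set V), x ∈ S := by
    intro S hS
    have hS' : p1 ∈ S ∧ q1 ∈ S := by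
      rcases hS with h1 | h1 | h1
      · exact h1
      · refine ⟨h1.1, ?_⟩
        have := sub_mem h1.2 h1.1
        rwa [add_sub_cancel_left] at this
      · refine ⟨?_, h1.1⟩
        have := sub_mem h1.2 h1.1
        rwa [add_sub_cancel_right] at this
    rintro x (rfl | rfl | rfl)
    · exact hS'.1
    · exact hS'.2
    · exact add_mem hS'.1 hS'.2
  have hall : (∀ x ∈ ({p1, q1, p1 + q1} : Set V), x ∈ span ℚ A) ∨
      (∀ x ∈ ({p1, q1, p1 + q1} : Set V), x ∈ span ℚ B) := by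
    rcases memAB p1 (Or.inl rfl) with h1 | h1 <;>
      rcases memAB q1 (Or.inr (Or.inl rfl)) with h2 | h2 <;>
      rcases memAB (p1 + q1) (Or.inr (Or.inr rfl)) with h3 | h3
    · exact Or.inl (two _ (Or.inl ⟨h1, h2⟩))
    · exact Or.inl (two _ (Or.inl ⟨h1, h2⟩))
    · exact Or.inl (two _ (Or.inr (Or.inl ⟨h1, h3⟩)))
    · exact Or.inr (two _ (Or.inr (Or.inr ⟨h2, h3⟩)))
    · exact Or.inl (two _ (Or.inr (Or.inr ⟨h2, h3⟩)))
    · exact Or.inr (two _ (Or.inr (Or.inl ⟨h1, h3⟩)))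
    · exact Or.inr (two _ (Or.inl ⟨h1, h2⟩))
    · exact Or.inr (two _ (Or.inl ⟨h1, h2⟩))
  rcases hall with hs | hs
  · exact sum1_half hC hpq hsp hA hB a0 a1 b0 b1 li (tri_dom hpq hsp (hC.uni hB) hD hs)
  · have hD' : Dom {p1, q1, p1 + q1} (B ∪ A) := by rw [Set.union_comm]; exact hD
    have := sum1_half hC hpq hsp' hB hA b0 b1 a0 a1 li (tri_dom hpq hsp' (hC.uni hA) hD' hs)
    rw [Set.union_comm A B]
    exact this

end RC.Str
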