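import Pool.Agent.Helper59.RC.StrGraph
import Pool.Agent.Helper59.RC.StrCog1
import Pool.Agent.Helper59.RC.StrR10
import Pool.Agent.Helper59.RC.StrSum1
import Pool.Agent.Helper59.RC.Reduce
import Pool.Agent.Helper59.RC.DecClass

/-!
The theorem for decomposable sets.
-/

namespace RC.Str

open Submodule Module

theorem nb_dec {V : Type} [AddCommGroup V] [Module ℚ V] {Y : Set V} (h : Dec V Y) :
    NB0 Y ∧ NB1 Y := by
  have hC : Cls DecC := cls_dec
  induction h with
  | graphic X W φ inj edge => exact ⟨nb0_graphic hC X W φ inj edge, nb1_graphic hC X W φ inj edge⟩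
  | cographic X E W u hd tl dep cov =>
    have hdom : Dom X (Set.range u) := by
      intro x hx
      obtain ⟨e, he⟩ := cov x hx
      exact Or.inr (Or.inl ⟨e, he.symm⟩)
    exact ⟨nb0_dom (nb0_cographic hC u hd tl dep) hdom,
      nb1_dom (nb1_cographic hC u hd tl dep) hdom⟩
  | r10 X φ inj col => exact ⟨nb0_r10 X φ inj col, nb1_r10 X φ inj col⟩
  | emb X Y f inj sub _ ih =>
    have hdom : Dom (f '' X) Y := by
      rintro _ ⟨x, hx, rfl⟩
      exact sub x hx
    exact ⟨nb0_emb hC f inj hdom ih.1, nb1_emb hC f inj hdom ih.2⟩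
  | sum A B p q hpq h hA hB ihA ihB =>
    exact ⟨nb0_sum hC hpq h hA hB ihA.1 ihA.2 ihB.1 ihB.2,
      nb1_sum hC hpq h hA hB ihA.1 ihA.2 ihB.1 ihB.2⟩

end RC.Str
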