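import Pool.Agent.Helper59.RC.StrDom

/-!
Module RC-P6.  Triangles of a cographic set are three-edge cuts of the graph.

`CogCut u hd tl X p q e1 e2 e3`: the linear dependencies of `u` are the potential differences of
the graph `hd, tl`; `u e1 = p`, `u e2 = q`, `u e3 = - (p + q)`; the edges `e1, e2, e3` lead from
outside `X` into `X`, all other edges have both ends in `X` or both outside `X`.

`CogCut.symm`: replace `X` by its complement and exchange `hd` and `tl` (potential `- π`).

`cog_cut`: each of `p, q, p + q` is nonzero and is `± u e` for some `e`; choose `e1, e2, e3` with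
`p = ± u e1`, `q = ± u e2`, `p + q = ± u e3`.  They are distinct since `p, q, p + q` are pairwise
nonproportional.  Let `u' = u` except that the sign is changed at `e1, e2, e3` if
necessary, so that `u' e1 = p`, `u' e2 = q`, `u' e3 = -(p + q)`, and exchange `hd` and `tl`
for the edges whose sign is changed.  The dependencies of `u'` are the potential differences
for `hd', tl'`.  Since `u' e1 + u' e2 + u' e3 = 0` there is `π0 : W → ℚ` with
`π0 (hd' e) - π0 (tl' e) = 1` for `e = e1, e2, e3` and `= 0` for all other `e`.  Let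
`X = {w | π0 (hd' e1) ≤ π0 w}` and `χ` its indicator function.  For `e ≠ e1, e2, e3`,
`hd' e ∈ X ↔ tl' e ∈ X`.  `hd' e1 ∈ X`, `tl' e1 ∉ X`.  For `e = e2, e3`:
`χ (hd' e) - χ (tl' e)` is `0` or `1` (if `tl' e ∈ X` then `hd' e ∈ X`).  The dependency of `χ` is
`p + x • q - y • (p + q) = 0` with `x, y ∈ {0, 1}`; since `p, q` are independent `y = 1`, `x = y`.
So `hd' e ∈ X`, `tl' e ∉ X` for `e = e1, e2, e3`.

`cog_sep`: let `y` be in the intersection.  The left side gives
`y = ∑_{e inside X} a e • u e + α • p + β • q` and the right side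
`y = ∑_{e outside X} b e • u e + α' • p + β' • q`.  So
`a - b + (α - α') e1 + (β - β') e2` is a dependency, the difference of a potential `π`.  Let
`π' = π` on `X` and `π' = 0` outside `X`.  Its dependency has coefficient `a e` at `e` inside `X`,
`0` outside `X` and `π (hd e)` at `e = e1, e2, e3`; so
`∑_{e inside X} a e • u e = - ∑_{e = e1, e2, e3} π (hd e) • u e ∈ span {p, q}`, and
`y ∈ span {p, q}`.  The other inclusion is clear.
-/

namespace RC.Str

open Submodule Module

variable {V E W : Type} [AddCommGroup V] [Module ℚ V] [Fintype E] [Fintype W]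

/-- A triangle of a cographic family as a three-edge cut. -/
structure CogCut (u : E → V) (hd tl : E → W) (X : Set W) (p q : V) (e1 e2 e3 : E) : Prop where
  dep : ∀ a : E → ℚ, ∑ e, a e • u e = 0 ↔ ∃ π : W → ℚ, ∀ e, a e = π (hd e) - π (tl e)
  li : LinearIndependent ℚ ![p, q]
  u1 : u e1 = p
  u2 : u e2 = q
  u3 : u e3 = -(p + q)
  h1 : hd e1 ∈ X
  h2 : hd e2 ∈ X
  h3 : hd e3 ∈ X
  t1 : tl e1 ∉ X
  t2 : tl e2 ∉ X
  t3 : tl e3 ∉ X
  cut : ∀ e, e ≠ e1 → e ≠ e2 → e ≠ e3 → (hd e ∈ X ↔ tl e ∈ X)

theorem CogCut.symm {u : E → V} {hd tl : E → W} {X : Set W} {p q : V} {e1 e2 e3 : E}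
    (h : CogCut u hd tl X p q e1 e2 e3) : CogCut u tl hd Xᶜ p q e1 e2 e3 := by
  refine ⟨fun a => ?_, h.li, h.u1, h.u2, h.u3, h.t1, h.t2, h.t3, fun hh => hh h.h1,
    fun hh => hh h.h2, fun hh => hh h.h3, fun e n1 n2 n3 => ?_⟩
  · rw [h.dep a]
    constructor
    · rintro ⟨π, hπ⟩
      refine ⟨fun w => -π w, fun e => ?_⟩
      rw [hπ e]
      ring
    · rintro ⟨π, hπ⟩
      refine ⟨fun w => -π w, fun e => ?_⟩
      rw [hπ e]
      ring
  · exact (not_congr (h.cut e n1 n2 n3)).symm

open Classical in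
/-- a function with support in three points -/
private noncomputable def tri (e1 e2 e3 : E) (x y z : ℚ) (e : E) : ℚ :=
  if e = e1 then x else if e = e2 then y else if e = e3 then z else 0

private theorem tri_sum (u : E → V) {e1 e2 e3 : E} (h12 : e1 ≠ e2) (h13 : e1 ≠ e3)
    (h23 : e2 ≠ e3) (x y z : ℚ) :
    ∑ e, tri e1 e2 e3 x y z e • u e = x • u e1 + y • u e2 + z • u e3 := by
  classical
  have h : ∀ e, tri e1 e2 e3 x y z e • u e = (if e = e1 then x • u e1 else 0) +
      (if e = e2 then y • u e2 else 0) + (if e = e3 then z • u e3 else 0) := by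
    intro e
    unfold tri
    by_cases a1 : e = e1
    · subst a1
      simp [h12, h13]
    · by_cases a2 : e = e2
      · subst a2
        simp [a1, h23]
      · by_cases a3 : e = e3
        · subst a3
          simp [a1, a2]
        · simp [a1, a2, a3]
  rw [Finset.sum_congr rfl fun e _ => h e, Finset.sum_add_distrib, Finset.sum_add_distrib]
  simp

private theorem tri_1 (e1 e2 e3 : E) (x y z : ℚ) : tri e1 e2 e3 x y z e1 = x := by
  unfold tri
  simp

private theorem tri_2 {e1 e2 : E} (e3 : E) (h12 : e1 ≠ e2) (x y z : ℚ) :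
    tri e1 e2 e3 x y z e2 = y := by
  unfold tri
  simp [h12.symm]

private theorem tri_3 {e1 e2 e3 : E} (h13 : e1 ≠ e3) (h23 : e2 ≠ e3) (x y z : ℚ) :
    tri e1 e2 e3 x y z e3 = z := by
  unfold tri
  simp [h13.symm, h23.symm]

private theorem tri_0 {e1 e2 e3 e : E} (h1 : e ≠ e1) (h2 : e ≠ e2) (h3 : e ≠ e3) (x y z : ℚ) :
    tri e1 e2 e3 x y z e = 0 := by
  unfold tri
  simp [h1, h2, h3]

/-- change of signs -/
private theorem dep_flip (u : E → V) (hd tl : E → W)
    (dep : ∀ a : E → ℚ, ∑ e, a e • u e = 0 ↔ ∃ π : W → ℚ, ∀ e, a e = π (hd e) - π (tl e))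
    (b : E → Bool) (a : E → ℚ) :
    ∑ e, a e • (if b e then -u e else u e) = 0 ↔
      ∃ π : W → ℚ, ∀ e, a e = π (if b e then tl e else hd e) - π (if b e then hd e else tl e) := by
  have h1 : ∑ e, a e • (if b e then -u e else u e) = ∑ e, (if b e then -a e else a e) • u e := by
    refine Finset.sum_congr rfl fun e _ => ?_
    cases b e <;> simp
  rw [h1, dep]
  refine exists_congr fun π => forall_congr' fun e => ?_
  cases b e
  · simp
  · simp only [if_true]
    constructor <;> intro h <;> linarith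

theorem cog_cut (u : E → V) (hd tl : E → W)
    (dep : ∀ a : E → ℚ, ∑ e, a e • u e = 0 ↔ ∃ π : W → ℚ, ∀ e, a e = π (hd e) - π (tl e))
    {p q : V} (li : LinearIndependent ℚ ![p, q]) (hD : Dom {p, q, p + q} (Set.range u)) :
    ∃ (u' : E → V) (hd' tl' : E → W) (X : Set W) (e1 e2 e3 : E),
      (∀ e, u' e = u e ∨ u' e = -u e) ∧ CogCut u' hd' tl' X p q e1 e2 e3 := by
  classical
  have li' := LinearIndependent.pair_iff.1 li
  have hp : p ≠ 0 := by
    rintro rfl
    have := (li' 1 0 (by simp)).1
    exact one_ne_zero this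
  have hq : q ≠ 0 := by
    rintro rfl
    have := (li' 0 1 (by simp)).2
    exact one_ne_zero this
  have hpq : p + q ≠ 0 := by
    intro h
    have := (li' 1 1 (by simpa using h)).1
    exact one_ne_zero this
  have key : ∀ x ∈ ({p, q, p + q} : Set V), x ≠ 0 →
      ∃ (e : E) (b : Bool), (if b then -u e else u e) = x := by
    intro x hx hx0
    rcases hD x hx with h | ⟨e, h⟩ | ⟨e, h⟩
    · exact absurd h hx0
    · exact ⟨e, false, by simpa using h⟩
    · exact ⟨e, true, by simp [h]⟩
  obtain ⟨e1, b1, hb1⟩ := key p (by simp) hp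
  obtain ⟨e2, b2, hb2⟩ := key q (by simp) hq
  obtain ⟨e3, b3, hb3⟩ := key (p + q) (by simp) hpq
  have sgn : ∀ (b : Bool) (x : V), (if b then -x else x) = (if b then (-1 : ℚ) else 1) • x := by
    intro b x
    cases b <;> simp
  have sgn0 : ∀ b : Bool, (if b then (-1 : ℚ) else 1) ≠ 0 := by
    intro b
    cases b <;> simp
  have h12 : e1 ≠ e2 := by
    rintro rfl
    rw [sgn] at hb1 hb2
    have := (li' (if b2 then (-1 : ℚ) else 1) (-(if b1 then (-1 : ℚ) else 1)) (by
      rw [← hb1, ← hb2, smul_smul, smul_smul, ← add_smul]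
      have : (if b2 then (-1 : ℚ) else 1) * (if b1 then (-1 : ℚ) else 1) +
        -(if b1 then (-1 : ℚ) else 1) * (if b2 then (-1 : ℚ) else 1) = 0 := by ring
      rw [this, zero_smul])).1
    exact sgn0 _ this
  have h13 : e1 ≠ e3 := by
    rintro rfl
    rw [sgn] at hb1 hb3
    have := (li' ((if b1 then (-1 : ℚ) else 1) - (if b3 then (-1 : ℚ) else 1))
      (if b1 then (-1 : ℚ) else 1) (by
      have e : ((if b1 then (-1 : ℚ) else 1) - (if b3 then (-1 : ℚ) else 1)) • p +
          (if b1 then (-1 : ℚ) else 1) • q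
          = (if b1 then (-1 : ℚ) else 1) • (p + q) - (if b3 then (-1 : ℚ) else 1) • p := by
        rw [sub_smul, smul_add]
        abel
      rw [e, ← hb3, ← hb1, smul_smul, smul_smul, mul_comm, sub_self])).2
    exact sgn0 _ this
  have h23 : e2 ≠ e3 := by
    rintro rfl
    rw [sgn] at hb2 hb3
    have := (li' (if b2 then (-1 : ℚ) else 1)
      ((if b2 then (-1 : ℚ) else 1) - (if b3 then (-1 : ℚ) else 1)) (by
      have e : (if b2 then (-1 : ℚ) else 1) • p +
          ((if b2 then (-1 : ℚ) else 1) - (if b3 then (-1 : ℚ) else 1)) • q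
          = (if b2 then (-1 : ℚ) else 1) • (p + q) - (if b3 then (-1 : ℚ) else 1) • q := by
        rw [sub_smul, smul_add]
        abel
      rw [e, ← hb3, ← hb2, smul_smul, smul_smul, mul_comm, sub_self])).1
    exact sgn0 _ this
  set b : E → Bool := fun e => if e = e1 then b1 else if e = e2 then b2 else
    if e = e3 then !b3 else false with hb
  set u' : E → V := fun e => if b e then -u e else u e with hu'
  set hd' : E → W := fun e => if b e then tl e else hd e with hhd'
  set tl' : E → W := fun e => if b e then hd e else tl e with htl'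
  have dep' : ∀ a : E → ℚ, ∑ e, a e • u' e = 0 ↔
      ∃ π : W → ℚ, ∀ e, a e = π (hd' e) - π (tl' e) := fun a => dep_flip u hd tl dep b a
  have be1 : b e1 = b1 := by simp [hb]
  have be2 : b e2 = b2 := by simp [hb, h12.symm]
  have be3 : b e3 = !b3 := by simp [hb, h13.symm, h23.symm]
  have u1 : u' e1 = p := by
    simp only [hu', be1]
    exact hb1
  have u2 : u' e2 = q := by
    simp only [hu', be2]
    exact hb2
  have u3 : u' e3 = -(p + q) := by
    simp only [hu', be3]
    rw [← hb3]
    cases b3 <;> simp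
  have dep3 : ∀ x y z : ℚ, ∑ e, tri e1 e2 e3 x y z e • u' e = (x - z) • p + (y - z) • q := by
    intro x y z
    rw [tri_sum u' h12 h13 h23, u1, u2, u3, sub_smul, sub_smul, smul_neg, smul_add]
    abel
  obtain ⟨π0, hπ0⟩ := (dep' (tri e1 e2 e3 1 1 1)).1 (by rw [dep3]; simp)
  set X : Set W := {w | π0 (hd' e1) ≤ π0 w} with hX
  set χ : W → ℚ := fun w => if w ∈ X then 1 else 0 with hχ
  have cut : ∀ e, e ≠ e1 → e ≠ e2 → e ≠ e3 → (hd' e ∈ X ↔ tl' e ∈ X) := by
    intro e n1 n2 n3
    have h := hπ0 e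
    rw [tri_0 n1 n2 n3] at h
    have h' : π0 (hd' e) = π0 (tl' e) := by linarith
    change π0 (hd' e1) ≤ π0 (hd' e) ↔ π0 (hd' e1) ≤ π0 (tl' e)
    rw [h']
  have m1 : hd' e1 ∈ X := le_refl (π0 (hd' e1))
  have n1 : tl' e1 ∉ X := by
    have h := hπ0 e1
    rw [tri_1] at h
    intro hh
    have hh' : π0 (hd' e1) ≤ π0 (tl' e1) := hh
    linarith
  have hdep : ∀ e, tri e1 e2 e3 1 (χ (hd' e2) - χ (tl' e2)) (χ (hd' e3) - χ (tl' e3)) e
      = χ (hd' e) - χ (tl' e) := by
    intro e
    by_cases a1 : e = e1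
    · subst a1
      rw [tri_1]
      simp only [hχ, if_pos m1, if_neg n1]
      norm_num
    · by_cases a2 : e = e2
      · subst a2
        rw [tri_2 e3 h12]
      · by_cases a3 : e = e3
        · subst a3
          rw [tri_3 h13 h23]
        · rw [tri_0 a1 a2 a3]
          by_cases hm : hd' e ∈ X
          · have hm' := (cut e a1 a2 a3).1 hm
            simp only [hχ, if_pos hm, if_pos hm']
            norm_num
          · have hm' := fun hh => hm ((cut e a1 a2 a3).2 hh)
            simp only [hχ, if_neg hm, if_neg hm']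
            norm_num
  have hz := (dep' _).2 ⟨χ, hdep⟩
  rw [dep3] at hz
  obtain ⟨z1, z2⟩ := li' _ _ hz
  have hval : ∀ x y : W, χ x - χ y = 1 → x ∈ X ∧ y ∉ X := by
    intro x y h
    by_cases hx : x ∈ X
    · refine ⟨hx, fun hy => ?_⟩
      simp only [hχ, if_pos hx, if_pos hy] at h
      norm_num at h
    · exfalso
      by_cases hy : y ∈ X
      · simp only [hχ, if_neg hx, if_pos hy] at h
        norm_num at h
      · simp only [hχ, if_neg hx, if_neg hy] at h
        norm_num at h
  have v3 : χ (hd' e3) - χ (tl' e3) = 1 := by linarith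
  have v2 : χ (hd' e2) - χ (tl' e2) = 1 := by linarith
  refine ⟨u', hd', tl', X, e1, e2, e3, fun e => ?_, ⟨dep', li, u1, u2, u3, m1, (hval _ _ v2).1,
    (hval _ _ v3).1, n1, (hval _ _ v2).2, (hval _ _ v3).2, cut⟩⟩
  simp only [hu']
  cases b e <;> simp

private theorem rep_span (u : E → V) (A : Set E) {y : V} (h : y ∈ span ℚ (u '' A)) :
    ∃ a : E → ℚ, (∀ e, e ∉ A → a e = 0) ∧ y = ∑ e, a e • u e := by
  classical
  induction h using Submodule.span_induction with
  | mem x hx =>
    obtain ⟨e, he, rfl⟩ := hx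
    refine ⟨Pi.single e 1, fun e' he' => ?_, ?_⟩
    · rw [Pi.single_eq_of_ne]
      rintro rfl
      exact he' he
    · rw [Finset.sum_eq_single e]
      · simp
      · intro e' _ hne
        rw [Pi.single_eq_of_ne hne, zero_smul]
      · intro hh
        exact absurd (Finset.mem_univ e) hh
  | zero => exact ⟨fun _ => 0, fun _ _ => rfl, by simp⟩
  | add x y _ _ hx hy =>
    obtain ⟨a, ha, rfl⟩ := hx
    obtain ⟨b, hb, rfl⟩ := hy
    refine ⟨fun e => a e + b e, fun e he => by simp [ha e he, hb e he], ?_⟩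
    rw [← Finset.sum_add_distrib]
    exact Finset.sum_congr rfl fun e _ => (add_smul _ _ _).symm
  | smul c x _ hx =>
    obtain ⟨a, ha, rfl⟩ := hx
    refine ⟨fun e => c * a e, fun e he => by simp [ha e he], ?_⟩
    rw [Finset.smul_sum]
    exact Finset.sum_congr rfl fun e _ => by rw [smul_smul]

theorem cog_sep {u : E → V} {hd tl : E → W} {X : Set W} {p q : V} {e1 e2 e3 : E}
    (h : CogCut u hd tl X p q e1 e2 e3) :
    span ℚ (u '' {e | hd e ∈ X ∧ tl e ∈ X} ∪ {p, q}) ⊓
      span ℚ (u '' {e | hd e ∉ X ∧ tl e ∉ X} ∪ {p, q}) = span ℚ {p, q} := by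
  classical
  have li' := LinearIndependent.pair_iff.1 h.li
  have h12 : e1 ≠ e2 := by
    rintro rfl
    have := (li' 1 (-1) (by rw [← h.u1, ← h.u2]; simp)).1
    exact one_ne_zero this
  have h13 : e1 ≠ e3 := by
    rintro rfl
    have := (li' 2 1 (by
      have e : p = -(p + q) := by rw [← h.u3, h.u1]
      have e' : (2 : ℚ) • p + (1 : ℚ) • q = p - (-(p + q)) := by
        rw [two_smul, one_smul]
        abel
      rw [e', ← e, sub_self])).2
    exact one_ne_zero this
  have h23 : e2 ≠ e3 := by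
    rintro rfl
    have := (li' 1 2 (by
      have e : q = -(p + q) := by rw [← h.u3, h.u2]
      have e' : (1 : ℚ) • p + (2 : ℚ) • q = q - (-(p + q)) := by
        rw [two_smul, one_smul]
        abel
      rw [e', ← e, sub_self])).1
    exact one_ne_zero this
  apply le_antisymm
  · rintro y ⟨hy1, hy2⟩
    rw [SetLike.mem_coe, span_union, mem_sup] at hy1 hy2
    obtain ⟨yA, hyA, z, hz, hyz⟩ := hy1
    obtain ⟨yB, hyB, z', hz', hyz'⟩ := hy2
    obtain ⟨a, ha, rfl⟩ := rep_span u _ hyA
    obtain ⟨b, hb, rfl⟩ := rep_span u _ hyB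
    obtain ⟨α, β, hαβ⟩ := mem_span_pair.1 hz
    obtain ⟨α', β', hαβ'⟩ := mem_span_pair.1 hz'
    have hc : ∑ e, (a e - b e + tri e1 e2 e3 (α - α') (β - β') 0 e) • u e = 0 := by
      have e1' : ∑ e, (a e - b e + tri e1 e2 e3 (α - α') (β - β') 0 e) • u e
          = ∑ e, a e • u e - ∑ e, b e • u e +
            ∑ e, tri e1 e2 e3 (α - α') (β - β') 0 e • u e := by
        rw [← Finset.sum_sub_distrib, ← Finset.sum_add_distrib]
        exact Finset.sum_congr rfl fun e _ => by rw [add_smul, sub_smul]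
      rw [e1', tri_sum u h12 h13 h23, h.u1, h.u2, zero_smul, add_zero]
      have e2' : ∑ e, a e • u e = y - z := by rw [← hyz]; abel
      have e3' : ∑ e, b e • u e = y - z' := by rw [← hyz']; abel
      rw [e2', e3', ← hαβ, ← hαβ', sub_smul, sub_smul]
      abel
    obtain ⟨π, hπ⟩ := (h.dep _).1 hc
    have hs : ∑ e, (a e + tri e1 e2 e3 (π (hd e1)) (π (hd e2)) (π (hd e3)) e) • u e = 0 := by
      refine (h.dep _).2 ⟨fun w => if w ∈ X then π w else 0, fun e => ?_⟩
      change _ = (if hd e ∈ X then π (hd e) else 0) - (if tl e ∈ X then π (tl e) else 0)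
      by_cases a1 : e = e1
      · subst a1
        rw [tri_1, ha e (fun hh => h.t1 hh.2), if_pos h.h1, if_neg h.t1]
        ring
      · by_cases a2 : e = e2
        · subst a2
          rw [tri_2 e3 h12, ha e (fun hh => h.t2 hh.2), if_pos h.h2, if_neg h.t2]
          ring
        · by_cases a3 : e = e3
          · subst a3
            rw [tri_3 h13 h23, ha e (fun hh => h.t3 hh.2), if_pos h.h3, if_neg h.t3]
            ring
          · rw [tri_0 a1 a2 a3]
            by_cases hm : hd e ∈ X
            · have hm' := (h.cut e a1 a2 a3).1 hm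
              have h5 := hπ e
              rw [tri_0 a1 a2 a3, hb e (fun hh => hh.1 hm)] at h5
              rw [if_pos hm, if_pos hm', ← h5]
              ring
            · have hm' := fun hh => hm ((h.cut e a1 a2 a3).2 hh)
              rw [if_neg hm, if_neg hm', ha e (fun hh => hm hh.1)]
              ring
    have hs' : ∑ e, a e • u e = -(π (hd e1) • p + π (hd e2) • q + π (hd e3) • -(p + q)) := by
      have e1' : ∑ e, (a e + tri e1 e2 e3 (π (hd e1)) (π (hd e2)) (π (hd e3)) e) • u e
          = ∑ e, a e • u e + ∑ e, tri e1 e2 e3 (π (hd e1)) (π (hd e2)) (π (hd e3)) e • u e := by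
        rw [← Finset.sum_add_distrib]
        exact Finset.sum_congr rfl fun e _ => add_smul _ _ _
      rw [e1', tri_sum u h12 h13 h23, h.u1, h.u2, h.u3] at hs
      exact eq_neg_of_add_eq_zero_left hs
    have hp : p ∈ span ℚ ({p, q} : Set V) := subset_span (by simp)
    have hq : q ∈ span ℚ ({p, q} : Set V) := subset_span (by simp)
    rw [← hyz, hs']
    exact add_mem (neg_mem (add_mem (add_mem (smul_mem _ _ hp) (smul_mem _ _ hq))
      (smul_mem _ _ (neg_mem (add_mem hp hq))))) hz
  · exact le_inf (span_mono Set.subset_union_right) (span_mono Set.subset_union_right)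

end RC.Str
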