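import Pool.Agent.Helper59.RC.StrDefs
import Pool.Agent.Helper59.RC.ShortLib

/-!
Module RC-P1.  Bad systems under injective linear maps.  Every field of `Bad` is invariant:
`sys.cls` by `hC.map` (`(f ∘ v) '' E = f '' (v '' E)`), `ne`, `par`, `tri` because `f` is
injective on `span (v '' E)`, `rank` (`rk_map`), `short` (`short_map`).
`bad_fst`: for a system in `V × ℚ` all of whose vectors have second coordinate `0`, `f = fst`.
-/

namespace RC.Str

open Submodule Module

theorem bad_map {C : ClsT} (hC : Cls C) {V W : Type} [AddCommGroup V] [Module ℚ V]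
    [AddCommGroup W] [Module ℚ W] (f : V →ₗ[ℚ] W) {h : ℕ} {ι κ : Type} {v : ι → V} {c : ι → κ}
    {E : Finset ι} {e0 : ι} (hb : Bad C h v c E e0)
    (hf : ∀ y ∈ span ℚ (v '' (E : Set ι)), f y = 0 → y = 0) :
    Bad C h (fun e => f (v e)) c E e0 := by
  have himg : (fun e => f (v e)) '' (E : Set ι) = f '' (v '' (E : Set ι)) := by
    rw [Set.image_image]
  have hmem : ∀ e ∈ E, v e ∈ span ℚ (v '' (E : Set ι)) := fun e he =>
    subset_span ⟨e, he, rfl⟩
  have hinj : Set.InjOn f (span ℚ (v '' (E : Set ι)) : Set V) := by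
    intro x hx y hy hxy
    exact sub_eq_zero.1 (hf (x - y) (sub_mem hx hy) (by rw [map_sub, hxy, sub_self]))
  have hr := Red.rk_map f (v := v) (E := E) hf
  have hs := fun k => Red.short_map f (v := v) (c := c) (E := E) (k := k) hf
  have hpar : ∀ e ∈ E, ∀ e' ∈ E, LinearIndependent ℚ ![v e, v e'] →
      LinearIndependent ℚ ![f (v e), f (v e')] := by
    intro e he e' he' hli
    have hle : span ℚ (Set.range ![v e, v e']) ≤ span ℚ (v '' (E : Set ι)) := by
      rw [span_le]
      rintro x ⟨i, rfl⟩
      fin_cases i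
      · exact hmem e he
      · exact hmem e' he'
    have := hli.map_injOn f (hinj.mono hle)
    convert this using 1
    ext i
    fin_cases i <;> rfl
  refine
    { ih := hb.ih
      sys := ⟨?_, ?_, hb.sys.two, ?_, ?_⟩
      nc_eq := hb.nc_eq
      card := hb.card
      mem0 := hb.mem0
      single := hb.single
      partner := hb.partner
      rank := ?_
      tri := ?_
      short := ?_ }
  · rw [himg]
    exact hC.map f hb.sys.cls hf
  · intro e he h0
    exact hb.sys.ne e he (hf _ (hmem e he) h0)
  · intro e he e' he' hce hne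
    exact hpar e he e' he' (hb.sys.par e he e' he' hce hne)
  · rw [hr]
    exact hb.sys.rank
  · rw [hr]
    exact hb.rank
  · intro e he e' he' hce hne
    have hli := hb.tri e he e' he' hce hne
    have hle : span ℚ (Set.range ![v e0, v e, v e']) ≤ span ℚ (v '' (E : Set ι)) := by
      rw [span_le]
      rintro x ⟨i, rfl⟩
      fin_cases i
      · exact hmem e0 hb.mem0
      · exact hmem e he
      · exact hmem e' he'
    have := hli.map_injOn f (hinj.mono hle)
    convert this using 1
    ext i
    fin_cases i <;> rfl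
  · intro hsh
    exact hb.short ((hs h).1 hsh)

theorem bad_fst {C : ClsT} (hC : Cls C) {V : Type} [AddCommGroup V] [Module ℚ V] {h : ℕ}
    {ι κ : Type} {v : ι → V × ℚ} {c : ι → κ} {E : Finset ι} {e0 : ι}
    (hb : Bad C h v c E e0) (h0 : ∀ e ∈ E, (v e).2 = 0) :
    Bad C h (fun e => (v e).1) c E e0 := by
  refine bad_map hC (LinearMap.fst ℚ V ℚ) hb ?_
  intro y hy hy0
  have hle : span ℚ (v '' (E : Set ι)) ≤ LinearMap.ker (LinearMap.snd ℚ V ℚ) := by
    rw [span_le]
    rintro x ⟨e, he, rfl⟩
    simpa using h0 e he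
  have h2 : y.2 = 0 := by
    have := hle hy
    simpa using this
  have h1 : y.1 = 0 := by simpa using hy0
  exact Prod.ext h1 h2

end RC.Str
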