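import Pool.Agent.Helper59.RC.StrDom
import Pool.Agent.Helper59.RC.StrMap

/-!
Module RC-P11.  `NB0` and `NB1` under injective linear maps.

`nb0_emb`: let `v, E` be a bad system dominated by `X`.  `span (v '' E) ≤ span X` (`dom_span`), so
`f` is injective on it; by `bad_map` `f ∘ v` is a bad system, and it is dominated by `Y`
(`dom_image`, `dom_trans` with `sub`).

`nb1_emb`: let `p, q` be independent, `{p, q, p + q}` dominated by `X`.  `p, q ∈ span X`, so
`f p, f q` are independent (`s • f p + t • f q = f (s • p + t • q) = 0` implies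
`s • p + t • q = 0`), and `{f p, f q, f p + f q}` is dominated by `Y`.  `NB0` for
`inl '' X ∪ clawSet p q` follows from `NB0` of `inl '' Y ∪ clawSet (f p) (f q)` by `nb0_emb` for the
map `F (y, t) = (f y, t)` (`LinearMap.prodMap f LinearMap.id`), which is injective on the span by
`fst_mem_span`.

`nb0_inl`, `nb1_inl`: `nb0_emb`, `nb1_emb` for `LinearMap.fst` and `X = inl '' Y`
(`inl_mem_span`).
-/

namespace RC.Str

open Submodule Module

variable {V V' : Type} [AddCommGroup V] [Module ℚ V] [AddCommGroup V'] [Module ℚ V']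

theorem nb0_emb (hC : Cls DecC) {X : Set V} {Y : Set V'} (f : V →ₗ[ℚ] V')
    (inj : ∀ y ∈ span ℚ X, f y = 0 → y = 0) (sub : Dom (f '' X) Y) (hY : NB0 Y) : NB0 X := by
  intro m ι κ v c E e0 hb hd
  have inj' : ∀ y ∈ span ℚ (v '' (E : Set ι)), f y = 0 → y = 0 := fun y hy h0 =>
    inj y (dom_span hd hy) h0
  refine hY m ι κ (fun e => f (v e)) c E e0 (bad_map hC f hb inj') ?_
  have himg : (fun e => f (v e)) '' (E : Set ι) = f '' (v '' (E : Set ι)) := by
    rw [Set.image_image]
  rw [himg]
  exact dom_trans (dom_image f hd) sub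

theorem nb1_emb (hC : Cls DecC) {X : Set V} {Y : Set V'} (f : V →ₗ[ℚ] V')
    (inj : ∀ y ∈ span ℚ X, f y = 0 → y = 0) (sub : Dom (f '' X) Y) (hY : NB1 Y) : NB1 X := by
  intro p q li hd
  have hp : p ∈ span ℚ X := dom_span hd (subset_span (by simp))
  have hq : q ∈ span ℚ X := dom_span hd (subset_span (by simp))
  have li' : LinearIndependent ℚ ![f p, f q] := by
    rw [LinearIndependent.pair_iff] at li ⊢
    intro s t hst
    apply li s t
    apply inj _ (add_mem (Submodule.smul_mem _ _ hp) (Submodule.smul_mem _ _ hq))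
    rw [map_add, map_smul, map_smul]
    exact hst
  have hd' : Dom {f p, f q, f p + f q} Y := by
    have h1 := dom_trans (dom_image f hd) sub
    have h2 : f '' {p, q, p + q} = {f p, f q, f p + f q} := by
      simp [Set.image_insert_eq, Set.image_singleton, map_add]
    rwa [h2] at h1
  refine nb0_emb hC (LinearMap.prodMap f (LinearMap.id : ℚ →ₗ[ℚ] ℚ)) ?_ ?_
    (hY (f p) (f q) li' hd')
  · intro y hy h0
    have h1 := fst_mem_span hp hq hy
    have h2 : f y.1 = 0 := by simpa using congrArg Prod.fst h0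
    have h3 : y.2 = 0 := by simpa using congrArg Prod.snd h0
    exact Prod.ext (inj _ h1 h2) h3
  · rw [Set.image_union]
    refine dom_union (dom_union_left _ ?_) (dom_union_right _ ?_)
    · have h1 : (LinearMap.prodMap f (LinearMap.id : ℚ →ₗ[ℚ] ℚ)) ''
          ((fun x : V => (x, (0 : ℚ))) '' X) = (fun x : V' => (x, (0 : ℚ))) '' (f '' X) := by
        rw [Set.image_image, Set.image_image]
        rfl
      rw [h1]
      exact dom_inl sub
    · have h1 : (LinearMap.prodMap f (LinearMap.id : ℚ →ₗ[ℚ] ℚ)) '' (clawSet p q) =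
          clawSet (f p) (f q) := by
        simp [clawSet, Set.image_insert_eq, Set.image_singleton]
      rw [h1]
      exact dom_refl _

theorem nb0_inl (hC : Cls DecC) {Y : Set V} (hY : NB0 Y) :
    NB0 ((fun x : V => (x, (0 : ℚ))) '' Y) := by
  refine nb0_emb hC (LinearMap.fst ℚ V ℚ) ?_ ?_ hY
  · intro y hy h0
    exact Prod.ext h0 (inl_mem_span hy).2
  · rw [Set.image_image]
    exact dom_of_subset (by rintro _ ⟨x, hx, rfl⟩; exact hx)

theorem nb1_inl (hC : Cls DecC) {Y : Set V} (hY : NB1 Y) :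
    NB1 ((fun x : V => (x, (0 : ℚ))) '' Y) := by
  refine nb1_emb hC (LinearMap.fst ℚ V ℚ) ?_ ?_ hY
  · intro y hy h0
    exact Prod.ext h0 (inl_mem_span hy).2
  · rw [Set.image_image]
    exact dom_of_subset (by rintro _ ⟨x, hx, rfl⟩; exact hx)

end RC.Str
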