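import Pool.Agent.Helper59.RC.StrDom
import Pool.Agent.Helper59.RC.BaseGraph

/-!
Module RC-P4.  Graphic sets.

`nb0_graphic`: let `v, E` be a bad system dominated by `Y`.  Then `span (v '' E) ≤ span Y`
(`dom_span`), so `φ` is injective on it, and for `e ∈ E`, `v e ≠ 0`, `v e ∈ Y` or `- v e ∈ Y`, so
`φ (v e) = single a 1 - single b 1` for some `a b` (swap `a` and `b` for the negative).  Apply
`RC.Base.bad_not_graphic` with `hC` = `cls_dec`; to avoid importing `DecClass` the hypothesis
`hC : Cls DecC` is an argument.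

`graph_claw`: `φ p = ε a - ε b`, `φ q = ε c - ε d`, `φ (p + q) = ε e - ε f` with `a ≠ b`,
`c ≠ d`, `e ≠ f` (the three vectors are nonzero elements of `span Y`; `ε w = Pi.single w 1`).
The sum `ε a - ε b + ε c - ε d = ε e - ε f` shows `b = c` or `a = d` (otherwise, evaluating at `a`
and `c`: if `a = c` the value at `a` is `2`; if `a ≠ c` both have value `1`, but the right side
has only one positive value).
Let `j : (W → ℚ) →ₗ (Option W → ℚ)` be the extension by `0` at `none`.  Put
`φ' (y, t) = j (φ y) + t • (ε (some b) - ε none)` if `b = c`; then `φ' (0,1) = ε b - ε none`,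
`φ' (p,1) = ε a - ε none`, `φ' (-q,1) = ε d - ε none`.
`φ' (y, t) = j (φ y) + t • (ε none - ε (some a))` if `a = d`; then `φ' (0,1) = ε none - ε a`,
`φ' (p,1) = ε none - ε b`, `φ' (-q,1) = ε none - ε c`.
Injective on the span: `φ' (y, t) = 0` at `none` gives `t = 0`, then `φ y = 0`, and
`y ∈ span Y` by `fst_mem_span`.

`nb1_graphic`: `graph_claw` and `nb0_graphic`.
-/

namespace RC.Str

open Submodule Module

theorem nb0_graphic (hC : Cls DecC) {V : Type} [AddCommGroup V] [Module ℚ V] (Y : Set V)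
    (W : Type) [Fintype W] [DecidableEq W] (φ : V →ₗ[ℚ] (W → ℚ))
    (inj : ∀ y ∈ span ℚ Y, φ y = 0 → y = 0)
    (edge : ∀ x ∈ Y, ∃ a b : W, φ x = Pi.single a 1 - Pi.single b 1) : NB0 Y := by
  intro h ι κ v c E e0 hb hd
  refine RC.Base.bad_not_graphic hC hb W φ (fun y hy => inj y (dom_span hd hy)) ?_
  intro e he
  rcases hd (v e) ⟨e, he, rfl⟩ with h0 | h0 | h0
  · exact absurd h0 (hb.sys.ne e he)
  · exact edge _ h0
  · obtain ⟨a, b, hab⟩ := edge _ h0
    refine ⟨b, a, ?_⟩
    rw [map_neg] at hab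
    rw [← neg_neg (φ (v e)), hab, neg_sub]

theorem claw_ends {W : Type} [DecidableEq W] {a b c d e f : W} (hab : a ≠ b) (hcd : c ≠ d)
    (H : (Pi.single a 1 - Pi.single b 1 : W → ℚ) + (Pi.single c 1 - Pi.single d 1) =
      Pi.single e 1 - Pi.single f 1) : b = c ∨ a = d := by
  by_contra hno
  push Not at hno
  obtain ⟨hbc, had⟩ := hno
  have ha := congrFun H a
  have hc := congrFun H c
  simp only [Pi.add_apply, Pi.sub_apply, Pi.single_apply, if_true, if_neg hab, if_neg hcd,
    if_neg had, if_neg hbc.symm] at ha hc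
  have e1 : a = e := by
    by_contra h
    rw [if_neg h] at ha
    split_ifs at ha <;> linarith
  have e2 : c = e := by
    by_contra h
    rw [if_neg h] at hc
    split_ifs at hc <;> linarith
  have e3 : a = c := e1.trans e2.symm
  rw [if_pos e3, if_pos e1] at ha
  split_ifs at ha <;> linarith

/-- Extension of a function by zero. -/
def ext0 (W : Type) : (W → ℚ) →ₗ[ℚ] (Option W → ℚ) where
  toFun g := fun o => o.elim 0 g
  map_add' g h := by
    funext o
    cases o <;> simp
  map_smul' r g := by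
    funext o
    cases o <;> simp

theorem ext0_none {W : Type} (g : W → ℚ) : ext0 W g none = 0 := rfl

theorem ext0_some {W : Type} (g : W → ℚ) (w : W) : ext0 W g (some w) = g w := rfl

theorem ext0_single {W : Type} [DecidableEq W] (w : W) :
    ext0 W (Pi.single w 1) = Pi.single (some w) 1 := by
  funext o
  cases o with
  | none => rw [ext0_none, Pi.single_apply, if_neg (by simp)]
  | some x =>
    rw [ext0_some, Pi.single_apply, Pi.single_apply]
    simp

theorem graph_claw {V : Type} [AddCommGroup V] [Module ℚ V] (Y : Set V)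
    (W : Type) [Fintype W] [DecidableEq W] (φ : V →ₗ[ℚ] (W → ℚ))
    (inj : ∀ y ∈ span ℚ Y, φ y = 0 → y = 0)
    (edge : ∀ x ∈ Y, ∃ a b : W, φ x = Pi.single a 1 - Pi.single b 1) {p q : V}
    (li : LinearIndependent ℚ ![p, q]) (hd : Dom {p, q, p + q} Y) :
    ∃ φ' : (V × ℚ) →ₗ[ℚ] (Option W → ℚ),
      (∀ y ∈ span ℚ ((fun x : V => (x, (0 : ℚ))) '' Y ∪ clawSet p q), φ' y = 0 → y = 0) ∧
      ∀ x ∈ (fun x : V => (x, (0 : ℚ))) '' Y ∪ clawSet p q,
        ∃ a b : Option W, φ' x = Pi.single a 1 - Pi.single b 1 := by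
  have hspan := dom_span hd
  have hpY : p ∈ span ℚ Y := hspan (subset_span (by simp))
  have hqY : q ∈ span ℚ Y := hspan (subset_span (by simp))
  have hpqY : p + q ∈ span ℚ Y := hspan (subset_span (by simp))
  rw [LinearIndependent.pair_iff] at li
  have hp0 : p ≠ 0 := by
    intro h
    have := li 1 0 (by rw [h]; simp)
    exact one_ne_zero this.1
  have hq0 : q ≠ 0 := by
    intro h
    have := li 0 1 (by rw [h]; simp)
    exact one_ne_zero this.2
  have hpq0 : p + q ≠ 0 := by
    intro h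
    have := li 1 1 (by rw [one_smul, one_smul]; exact h)
    exact one_ne_zero this.1
  have key : ∀ x : V, x ≠ 0 → x ∈ span ℚ Y → (x = 0 ∨ x ∈ Y ∨ -x ∈ Y) →
      ∃ a b : W, a ≠ b ∧ φ x = Pi.single a 1 - Pi.single b 1 := by
    intro x hx hxs hxY
    have h1 : ∃ a b : W, φ x = Pi.single a 1 - Pi.single b 1 := by
      rcases hxY with h0 | h0 | h0
      · exact absurd h0 hx
      · exact edge _ h0
      · obtain ⟨a, b, hab⟩ := edge _ h0
        refine ⟨b, a, ?_⟩
        rw [map_neg] at hab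
        rw [← neg_neg (φ x), hab, neg_sub]
    obtain ⟨a, b, hab⟩ := h1
    refine ⟨a, b, ?_, hab⟩
    rintro rfl
    exact hx (inj x hxs (by rw [hab, sub_self]))
  obtain ⟨a, b, hab, hφp⟩ := key p hp0 hpY (hd p (by simp))
  obtain ⟨c, d, hcd, hφq⟩ := key q hq0 hqY (hd q (by simp))
  obtain ⟨e, f, -, hφpq⟩ := key (p + q) hpq0 hpqY (hd (p + q) (by simp))
  have H := hφpq
  rw [map_add, hφp, hφq] at H
  have main : ∀ u : Option W → ℚ, u none ≠ 0 →
      (∃ x y : Option W, u = Pi.single x 1 - Pi.single y 1) →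
      (∃ x y : Option W, ext0 W (φ p) + u = Pi.single x 1 - Pi.single y 1) →
      (∃ x y : Option W, - ext0 W (φ q) + u = Pi.single x 1 - Pi.single y 1) →
      ∃ φ' : (V × ℚ) →ₗ[ℚ] (Option W → ℚ),
        (∀ y ∈ span ℚ ((fun x : V => (x, (0 : ℚ))) '' Y ∪ clawSet p q), φ' y = 0 → y = 0) ∧
        ∀ x ∈ (fun x : V => (x, (0 : ℚ))) '' Y ∪ clawSet p q,
          ∃ a b : Option W, φ' x = Pi.single a 1 - Pi.single b 1 := by
    intro u hu h1 h2 h3
    have hval : ∀ z : V × ℚ, ((ext0 W) ∘ₗ φ ∘ₗ (LinearMap.fst ℚ V ℚ) +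
        (LinearMap.snd ℚ V ℚ).smulRight u) z = ext0 W (φ z.1) + z.2 • u := by
      intro z
      simp
    refine ⟨(ext0 W) ∘ₗ φ ∘ₗ (LinearMap.fst ℚ V ℚ) + (LinearMap.snd ℚ V ℚ).smulRight u, ?_, ?_⟩
    · intro z hz h0
      rw [hval] at h0
      have hz1 := fst_mem_span hpY hqY hz
      have h4 := congrFun h0 none
      rw [Pi.add_apply, ext0_none, Pi.smul_apply, smul_eq_mul, zero_add, Pi.zero_apply,
        mul_eq_zero] at h4
      have h5 : z.2 = 0 := h4.resolve_right hu
      rw [h5, zero_smul, add_zero] at h0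
      have h6 : φ z.1 = 0 := by
        funext w
        have := congrFun h0 (some w)
        rwa [ext0_some] at this
      exact Prod.ext (inj _ hz1 h6) h5
    · rintro x (⟨x, hx, rfl⟩ | hx)
      · obtain ⟨a', b', hab'⟩ := edge x hx
        refine ⟨some a', some b', ?_⟩
        rw [hval]
        simp only [zero_smul, add_zero]
        rw [hab', map_sub, ext0_single, ext0_single]
      · rcases hx with rfl | rfl | rfl
        · rw [hval]
          simpa using h1
        · rw [hval]
          simpa using h2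
        · rw [hval]
          simpa using h3
  rcases claw_ends hab hcd H with rfl | rfl
  · refine main (Pi.single (some b) 1 - Pi.single none 1) ?_ ⟨_, _, rfl⟩
      ⟨some a, none, ?_⟩ ⟨some d, none, ?_⟩
    · simp
    · rw [hφp, map_sub, ext0_single, ext0_single]
      abel
    · rw [hφq, map_sub, ext0_single, ext0_single]
      abel
  · refine main (Pi.single none 1 - Pi.single (some a) 1) ?_ ⟨_, _, rfl⟩
      ⟨none, some b, ?_⟩ ⟨none, some c, ?_⟩
    · simp
    · rw [hφp, map_sub, ext0_single, ext0_single]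
      abel
    · rw [hφq, map_sub, ext0_single, ext0_single]
      abel

theorem nb1_graphic (hC : Cls DecC) {V : Type} [AddCommGroup V] [Module ℚ V] (Y : Set V)
    (W : Type) [Fintype W] [DecidableEq W] (φ : V →ₗ[ℚ] (W → ℚ))
    (inj : ∀ y ∈ span ℚ Y, φ y = 0 → y = 0)
    (edge : ∀ x ∈ Y, ∃ a b : W, φ x = Pi.single a 1 - Pi.single b 1) : NB1 Y := by
  intro p q li hd
  obtain ⟨φ', inj', edge'⟩ := graph_claw Y W φ inj edge li hd
  exact nb0_graphic hC _ (Option W) φ' inj' edge'

end RC.Str
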