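import Pool.Agent.Helper59.RC.UniPlane
import Pool.Agent.Helper59.RC.StrDefs
import Pool.Agent.Helper73.RCS.Sep

/-!
Module RC-P2.  The general form of the separation theorem, from `RC.sep1`, `RC.sep2`, `RC.sep3`
(`Pool/Agent/Helper73/RCS/Sep.lean`; add this import).

Let `L = span {p, q}`, `U = span (v '' A) ⊓ span (v '' B)`; `U ≤ L` by `hsp`.
* `U = ⊥`: `sep1`: `A` or `B` is empty.
* `U = span {d}` with `d ∈ {p, q, p + q}`, `d ≠ 0`: `sep2` for `d` (the sets `v '' A ∪ {d}`,
  `v '' B ∪ {d}` are in `C` by `hC.mono`): `A` or `B` has at most one element.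
* `U = L`, `p, q` independent: `sep3`.
One of these cases holds: if `q = 0`, `L = span {p}`.  If `p, q` are independent, by `uni_cut`
`span (v '' A) ⊓ L` and `span (v '' B) ⊓ L` are `⊥`, `span {d}` with `d ∈ {p, q, p + q}`, or `L`, and
`U` is the intersection of the two; two different lines `span {d}`, `span {d'}` meet in `⊥`.
-/

namespace RC.Str

open Submodule Module

open Classical in
theorem sep_gen {C : ClsT} (hC : Cls C) {V : Type} [AddCommGroup V] [Module ℚ V] {h : ℕ}
    {ι κ : Type} {v : ι → V} {c : ι → κ} {E : Finset ι} {e0 : ι} (hb : Bad C h v c E e0)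
    (A B : Finset ι) (hAB : A ∪ B = E) (hd : Disjoint A B) (p q : V)
    (hpq : LinearIndependent ℚ ![p, q] ∨ q = 0)
    (hsp : span ℚ (v '' (A : Set ι) ∪ {p, q}) ⊓ span ℚ (v '' (B : Set ι) ∪ {p, q}) =
      span ℚ {p, q})
    (hA : C V (v '' (A : Set ι) ∪ {p, q, p + q})) (hB : C V (v '' (B : Set ι) ∪ {p, q, p + q})) :
    (A.filter (fun e => v e ∉ span ℚ {p, q})).card ≤ 3 ∨
      (B.filter (fun e => v e ∉ span ℚ {p, q})).card ≤ 3 := by
  rcases hpq with li | hq
  · exact sep3 hC hb hAB hd li hsp.le hA hB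
  · subst hq
    have hmono : ∀ X : Finset ι, span ℚ (v '' (X : Set ι)) ≤
        span ℚ (v '' (X : Set ι) ∪ {p, 0}) := fun X => span_mono Set.subset_union_left
    have hline : span ℚ ({p, 0} : Set V) = span ℚ {p} := by
      rw [Set.pair_comm, span_insert_zero]
    by_cases hp : p = 0
    · subst hp
      have h0 : span ℚ (v '' (A : Set ι)) ⊓ span ℚ (v '' (B : Set ι)) = ⊥ := by
        rw [eq_bot_iff]
        refine le_trans (inf_le_inf (hmono A) (hmono B)) ?_
        rw [hsp, hline, span_zero_singleton]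
      rcases sep1 hC hb hAB hd h0 with h | h
      · left; rw [h]; simp
      · right; rw [h]; simp
    · have h1 : span ℚ (v '' (A : Set ι)) ⊓ span ℚ (v '' (B : Set ι)) ≤ span ℚ {p} := by
        refine le_trans (inf_le_inf (hmono A) (hmono B)) ?_
        rw [hsp, hline]
      have hsub : ({p} : Set V) ⊆ {p, 0, p + 0} := by simp
      have m : ∀ X : Finset ι, C V (v '' (X : Set ι) ∪ {p, 0, p + 0}) →
          C V (v '' (X : Set ι) ∪ {p}) := fun X hX =>
        hC.mono hX (fun u hu => Or.inr (Or.inl (Set.union_subset_union_right _ hsub hu)))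
      rcases sep2 hC hb hAB hd hp h1 (m A hA) (m B hB) with h | h
      · left
        exact le_trans (Finset.card_le_card (Finset.filter_subset _ _)) (by omega)
      · right
        exact le_trans (Finset.card_le_card (Finset.filter_subset _ _)) (by omega)

end RC.Str
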