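import Pool.Agent.Helper59.RC.StrSep
import Pool.Agent.Helper59.RC.StrSmall
import Pool.Agent.Helper59.RC.StrEmb
import Pool.Agent.Helper59.RC.DecBasic

/-!
Module RC-P12.  Sums, `NB0`.

`line_dom`: let `Y` be unimodular with `p, q, p + q ∈ Y`, `p, q` independent or `q = 0`, and
`x ∈ Y` with `x ∈ span {p, q}`.  Then `{x}` is dominated by `{p, q, p + q}`: `uni_plane` in the
first case; for `q = 0`: `x ∈ span {p}`; if `x ≠ 0` then `p ≠ 0` and `uni_par` gives `x = ± p`.

`sum_half`: let `v, E` be a bad system with `E = EA ∪ EB` (disjoint), `v '' EA` dominated by `A`,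
`v '' EB` dominated by `B`, and at most three elements of `EB` outside `L = span {p, q}`.
Apply `small_claw` for `EA`, `EB` (`hsp` by monotonicity from `hsp`: `span (v '' EA ∪ {p, q}) ≤
span (A ∪ {p, q})` and the same for `B`, `dom_span`; the class of `v '' EB ∪ {p, q, p + q}` by
`dec_dom` from `hB`).
* No element of `EB` is outside `L`: by `line_dom` (in `B ∪ {p, q, p + q}`, `Uni` by `dec_uni`)
  `v '' E` is dominated by `A ∪ {p, q, p + q}`; contradiction to `n0`.
* Otherwise `p, q` are independent and there is `Φ`.  By `bad_map` `Φ ∘ v` is a bad system; it is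
  dominated by `inl '' (A ∪ {p, q, p + q}) ∪ clawSet p q`: for `e ∈ EA`, `Φ (v e) = (v e, 0)`; for
  `e ∈ EB` inside `L`, `Φ (v e) = (v e, 0)` and `line_dom`; for `e ∈ EB` outside `L`, `Φ (v e)` is in
  `± clawSet p q`.  Contradiction to `n1`.

`nb0_sum`: let `v, E` be a bad system dominated by `A ∪ B`; `EA` = the set of `e ∈ E` with
`v e ∈ A` or `- v e ∈ A`, `EB = E \ EA` (`v e ≠ 0`).  `sep_gen` and `sum_half` for `A, B` or with
`A` and `B` exchanged (`Set.union_comm`, `inf_comm`).
-/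

namespace RC.Str

open Submodule Module

variable {V : Type} [AddCommGroup V] [Module ℚ V]

theorem line_dom {Y : Set V} (hY : Uni Y) {p q x : V} (hp : p ∈ Y) (hq : q ∈ Y) (hs : p + q ∈ Y)
    (hpq : LinearIndependent ℚ ![p, q] ∨ q = 0) (hx : x ∈ Y) (hxs : x ∈ span ℚ {p, q}) :
    Dom {x} {p, q, p + q} := by
  rintro y rfl
  rcases hpq with li | rfl
  · rcases uni_plane hY hp hq hs li hx hxs with h | h | h | h | h | h | h
    · exact Or.inl h
    · exact Or.inr (Or.inl (by simp [h]))
    · exact Or.inr (Or.inr (by simp [h]))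
    · exact Or.inr (Or.inl (by simp [h]))
    · exact Or.inr (Or.inr (by simp [h]))
    · exact Or.inr (Or.inl (by simp [h]))
    · refine Or.inr (Or.inr ?_)
      rw [h, neg_neg]
      simp
  · by_cases hy0 : y = 0
    · exact Or.inl hy0
    · obtain ⟨a, b, hab⟩ := mem_span_pair.1 hxs
      rw [smul_zero, add_zero] at hab
      have hp0 : p ≠ 0 := by
        rintro rfl
        exact hy0 (by rw [← hab, smul_zero])
      have hnl : ¬ LinearIndependent ℚ ![p, y] := by
        rw [LinearIndependent.pair_iff' hp0]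
        push Not
        exact ⟨a, hab⟩
      rcases uni_par hY hp hx hp0 hy0 hnl with h | h
      · exact Or.inr (Or.inl (by simp [h]))
      · refine Or.inr (Or.inr ?_)
        rw [h, neg_neg]
        simp

private theorem sp_mono {A B A' B' : Set V} {p q : V} (dA : Dom A' A) (dB : Dom B' B)
    (hsp : span ℚ (A ∪ {p, q}) ⊓ span ℚ (B ∪ {p, q}) = span ℚ {p, q}) :
    span ℚ (A' ∪ {p, q}) ⊓ span ℚ (B' ∪ {p, q}) = span ℚ {p, q} := by
  apply le_antisymm
  · refine le_trans (inf_le_inf ?_ ?_) hsp.le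
    · exact dom_span (dom_union (dom_union_left _ dA) (dom_union_right _ (dom_refl _)))
    · exact dom_span (dom_union (dom_union_left _ dB) (dom_union_right _ (dom_refl _)))
  · exact le_inf (span_mono Set.subset_union_right) (span_mono Set.subset_union_right)

private theorem dec_side {B B' : Set V} {p q : V} (hB : Dec V (B ∪ {p, q, p + q}))
    (dB : Dom B' B) : Dec V (B' ∪ {p, q, p + q}) :=
  dec_dom hB (dom_union (dom_union_left _ dB) (dom_union_right _ (dom_refl _)))

open Classical in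
theorem sum_half (hC : Cls DecC) {A B : Set V} {p q : V}
    (hpq : LinearIndependent ℚ ![p, q] ∨ q = 0)
    (hsp : span ℚ (A ∪ {p, q}) ⊓ span ℚ (B ∪ {p, q}) = span ℚ {p, q})
    (hB : Dec V (B ∪ {p, q, p + q})) (n0 : NB0 (A ∪ {p, q, p + q}))
    (n1 : NB1 (A ∪ {p, q, p + q})) {h : ℕ} {ι κ : Type} {v : ι → V} {c : ι → κ} {E : Finset ι}
    {e0 : ι} (hb : Bad DecC h v c E e0) (EA EB : Finset ι) (hE : EA ∪ EB = E)
    (hd : Disjoint EA EB) (dA : Dom (v '' (EA : Set ι)) A) (dB : Dom (v '' (EB : Set ι)) B)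
    (h3 : (EB.filter (fun e => v e ∉ span ℚ {p, q})).card ≤ 3) : False := by
  have hsp' := sp_mono dA dB hsp
  have hB' := dec_side hB dB
  have hU : Uni (v '' (EB : Set ι) ∪ {p, q, p + q}) := dec_uni hB'
  have hline : ∀ e ∈ EB, v e ∈ span ℚ {p, q} → Dom {v e} (A ∪ {p, q, p + q}) := by
    intro e he hes
    refine dom_trans (line_dom hU (Or.inr (by simp)) (Or.inr (by simp)) (Or.inr (by simp)) hpq
      (Or.inl ⟨e, he, rfl⟩) hes) (dom_of_subset Set.subset_union_right)
  have hall : ∀ e ∈ E, e ∉ EB.filter (fun e => v e ∉ span ℚ {p, q}) →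
      Dom {v e} (A ∪ {p, q, p + q}) := by
    intro e he hne
    rw [← hE, Finset.mem_union] at he
    by_cases hB1 : e ∈ EB
    · refine hline e hB1 ?_
      by_contra hcon
      exact hne (Finset.mem_filter.2 ⟨hB1, hcon⟩)
    · have hA1 : e ∈ EA := he.resolve_right hB1
      refine dom_union_left _ (dom_trans (dom_of_subset ?_) dA)
      rintro _ rfl
      exact ⟨e, hA1, rfl⟩
  rcases small_claw hC hb EA EB hE hd p q hpq hsp' hB' h3 with h | ⟨li, -, -, -, Φ, hΦ, h1, h2⟩
  · refine n0 _ ι κ v c E e0 hb ?_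
    rintro _ ⟨e, he, rfl⟩
    exact hall e he (by rw [h]; exact Finset.notMem_empty e) (v e) rfl
  · have hb' := bad_map hC Φ hb (fun y _ hy => hΦ y hy)
    refine n1 p q li (dom_of_subset Set.subset_union_right) _ ι κ _ c E e0 hb' ?_
    rintro _ ⟨e, he, rfl⟩
    by_cases hf : e ∈ EB.filter (fun e => v e ∉ span ℚ {p, q})
    · rcases h2 e hf with h | h
      · exact Or.inr (Or.inl (Or.inr h))
      · exact Or.inr (Or.inr (Or.inr h))
    · have h5 := dom_union_left (clawSet p q) (dom_inl (hall e he hf))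
      refine h5 _ ?_
      rw [Set.image_singleton]
      exact h1 e he hf

theorem nb0_sum (hC : Cls DecC) {A B : Set V} {p q : V}
    (hpq : LinearIndependent ℚ ![p, q] ∨ q = 0)
    (hsp : span ℚ (A ∪ {p, q}) ⊓ span ℚ (B ∪ {p, q}) = span ℚ {p, q})
    (hA : Dec V (A ∪ {p, q, p + q})) (hB : Dec V (B ∪ {p, q, p + q}))
    (a0 : NB0 (A ∪ {p, q, p + q})) (a1 : NB1 (A ∪ {p, q, p + q}))
    (b0 : NB0 (B ∪ {p, q, p + q})) (b1 : NB1 (B ∪ {p, q, p + q})) : NB0 (A ∪ B) := by
  classical
  intro m ι κ v c E e0 hb hdom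
  set EA := E.filter (fun e => v e ∈ A ∨ -v e ∈ A) with hEA
  set EB := E.filter (fun e => ¬ (v e ∈ A ∨ -v e ∈ A)) with hEB
  have hE : EA ∪ EB = E := Finset.filter_union_filter_not_eq _ _
  have hd : Disjoint EA EB := Finset.disjoint_filter_filter_not _ _ _
  have dA : Dom (v '' (EA : Set ι)) A := by
    rintro _ ⟨e, he, rfl⟩
    rw [Finset.mem_coe, hEA, Finset.mem_filter] at he
    exact Or.inr he.2
  have dB : Dom (v '' (EB : Set ι)) B := by
    rintro _ ⟨e, he, rfl⟩
    rw [Finset.mem_coe, hEB, Finset.mem_filter] at he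
    rcases hdom (v e) ⟨e, he.1, rfl⟩ with h | (h | h) | (h | h)
    · exact Or.inl h
    · exact absurd (Or.inl h) he.2
    · exact Or.inr (Or.inl h)
    · exact absurd (Or.inr h) he.2
    · exact Or.inr (Or.inr h)
  rcases sep_gen hC hb EA EB hE hd p q hpq (sp_mono dA dB hsp) (dec_side hA dA)
    (dec_side hB dB) with h | h
  · exact sum_half hC hpq (by rw [inf_comm]; exact hsp) hA b0 b1 hb EB EA
      (by rw [Finset.union_comm]; exact hE) hd.symm dB dA h
  · exact sum_half hC hpq hsp hB a0 a1 hb EA EB hE hd dA dB h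

end RC.Str
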