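import Pool.Agent.Helper59.RC.UniPlane

/-!
Module RC-U4.  The 3-sum (2-sum, 1-sum) of unimodular sets is unimodular.

Write `D = {p, q, p + q}`, `A' = A ∪ D`, `B' = B ∪ D`, `L = span D = span {p, q}`.
Let `s` be a finite independent subset of `A ∪ B ∪ D` and `x = ∑ c a • a` in `A ∪ B ∪ D`.
By symmetry let `x ∈ A'`.  Put `s_B = s ∩ B` minus `A'`, `s_A = s` minus `s_B`, so `s_A ⊆ A'`,
`s_B ⊆ B`, and `w = ∑_{s_B} c b • b = x - ∑_{s_A} c a • a` lies in
`span A' ⊓ span B' = L` (note `span A' = span (A ∪ {p,q})`).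
* `w = 0`: all `c b = 0` for `b ∈ s_B`, and `c a ∈ {0,1,-1}` for `a ∈ s_A` by `Uni A'`.
* `w ≠ 0`.  Let `U = span s_B ⊓ L`, it contains `w`.
  If `q = 0`: `L = span {p}`, `p ≠ 0`, `U = span {p}`.  Otherwise `p, q` are independent and by
  `uni_cut` (for `s_B ∪ D`, a subset of `B'`) `U` is `span {d}` with `d ∈ D` or `U = L`.
  (a) `U = span {d}`, `d ∈ D`, `d ≠ 0`: `w = λ d`.  `s_A ∪ {d}` is independent, because
      `d ∈ span s_B` and `span s_A ⊓ span s_B = ⊥` (`s` independent).
      `x = ∑_{s_A} c a • a + λ d`, so `c a, λ ∈ {0,1,-1}` (`Uni A'`), and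
      `d = ∑_{s_B} e b • b` with `e b ∈ {0,1,-1}` (`Uni B'`), `c b = λ e b`.
  (b) `U = L`, `p, q` independent: `w = α p + β q`; `s_A ∪ {p, q}` is independent, so
      `c a, α, β ∈ {0,1,-1}`; using `s_A ∪ {p, p + q}`: `w = (α - β) p + β (p + q)`, so
      `α - β ∈ {0,1,-1}`.  Hence `w = ± d` with `d ∈ D`, and `d ∈ span s_B` has coordinates
      `0,1,-1` (`Uni B'`), so `c b ∈ {0,1,-1}`.
-/

namespace RC

open Submodule Module

variable {V : Type} [AddCommGroup V] [Module ℚ V]

/-- A vector outside the line of `z` stays outside the span of a complementary set and `z`. -/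
theorem glue_not_mem {S T : Set V} (hd : Disjoint (span ℚ S) (span ℚ T)) {y z : V}
    (hy : y ∈ span ℚ T) (hz : z ∈ span ℚ T) (h : ∀ t : ℚ, y ≠ t • z) :
    y ∉ span ℚ (S ∪ {z}) := by
  intro hm
  rw [span_union, mem_sup] at hm
  obtain ⟨u, hu, v, hv, huv⟩ := hm
  obtain ⟨t, rfl⟩ := mem_span_singleton.1 hv
  have h1 : u ∈ span ℚ T := by
    have h2 : u = y - t • z := by rw [← huv]; abel
    rw [h2]
    exact Submodule.sub_mem _ hy (Submodule.smul_mem _ _ hz)
  have h3 : u = 0 := (Submodule.disjoint_def.1 hd) u hu h1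
  exact h t (by rw [← huv, h3, zero_add])

/-- The case of a sum which lies on the left side. -/
theorem glue_aux {A B : Set V} {p q : V} (hpq : LinearIndependent ℚ ![p, q] ∨ q = 0)
    (hA : Uni (A ∪ {p, q, p + q})) (hB : Uni (B ∪ {p, q, p + q}))
    (h : span ℚ (A ∪ {p, q}) ⊓ span ℚ (B ∪ {p, q}) = span ℚ {p, q})
    (s : Finset V) (c : V → ℚ) (hs : (s : Set V) ⊆ A ∪ B ∪ {p, q, p + q})
    (hli : LinearIndepOn ℚ id (s : Set V)) (hx : ∑ a ∈ s, c a • a ∈ A ∪ {p, q, p + q}) :
    ∀ a ∈ s, c a = 0 ∨ c a = 1 ∨ c a = -1 := by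
  classical
  set sA : Finset V := s.filter (· ∈ A ∪ {p, q, p + q}) with hsA
  set sB : Finset V := s.filter (¬ · ∈ A ∪ {p, q, p + q}) with hsB
  have hAsub : (sA : Set V) ⊆ A ∪ {p, q, p + q} := fun a ha =>
    (Finset.mem_filter.1 (Finset.mem_coe.1 ha)).2
  have hBsub : (sB : Set V) ⊆ B := by
    intro a ha
    obtain ⟨h1, h2⟩ := Finset.mem_filter.1 (Finset.mem_coe.1 ha)
    rcases hs (Finset.mem_coe.2 h1) with (h3 | h3) | h3
    · exact absurd (Or.inl h3) h2
    · exact h3
    · exact absurd (Or.inr h3) h2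
  have hunion : s = sA ∪ sB := (Finset.filter_union_filter_not_eq _ s).symm
  have hdisj : Disjoint sA sB := Finset.disjoint_filter_filter_not s s _
  have hsum : ∑ a ∈ s, c a • a = ∑ a ∈ sA, c a • a + ∑ a ∈ sB, c a • a := by
    conv_lhs => rw [hunion]
    exact Finset.sum_union hdisj
  have hli' := hli
  rw [hunion, Finset.coe_union, linearIndepOn_id_union_iff (Finset.disjoint_coe.2 hdisj)] at hli'
  obtain ⟨liA, liB, hd⟩ := hli'
  set w : V := ∑ a ∈ sB, c a • a with hw
  have hwB : w ∈ span ℚ (sB : Set V) :=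
    Submodule.sum_mem _ fun a ha => Submodule.smul_mem _ _ (subset_span (Finset.mem_coe.2 ha))
  have hxA : ∑ a ∈ sA, c a • a ∈ span ℚ (sA : Set V) :=
    Submodule.sum_mem _ fun a ha => Submodule.smul_mem _ _ (subset_span (Finset.mem_coe.2 ha))
  -- the span of the left side
  have hAspan : ∀ y ∈ A ∪ {p, q, p + q}, y ∈ span ℚ (A ∪ {p, q}) := by
    intro y hy
    have hp1 : p ∈ span ℚ (A ∪ {p, q}) := subset_span (Or.inr (by simp))
    have hq1 : q ∈ span ℚ (A ∪ {p, q}) := subset_span (Or.inr (by simp))
    rcases hy with hy | hy | hy | hy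
    · exact subset_span (Or.inl hy)
    · rw [hy]; exact hp1
    · rw [hy]; exact hq1
    · rw [Set.mem_singleton_iff] at hy
      rw [hy]; exact Submodule.add_mem _ hp1 hq1
  have hwL : w ∈ span ℚ {p, q} := by
    rw [← h]
    constructor
    · have h1 : w = ∑ a ∈ s, c a • a - ∑ a ∈ sA, c a • a := by
        rw [hsum]; abel
      rw [h1]
      refine Submodule.sub_mem _ (hAspan _ hx) (Submodule.sum_mem _ fun a ha => ?_)
      exact Submodule.smul_mem _ _ (hAspan a (hAsub (Finset.mem_coe.2 ha)))
    · exact span_mono (hBsub.trans Set.subset_union_left) hwB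
  -- the final step
  have key : ∀ (l : ℚ) (d : V), d ∈ ({p, q, p + q} : Set V) → w = l • d → w ≠ 0 →
      ∀ a ∈ s, c a = 0 ∨ c a = 1 ∨ c a = -1 := by
    intro l d hdD hwd hw0
    have hl0 : l ≠ 0 := by
      rintro rfl
      exact hw0 (by rw [hwd, zero_smul])
    have hdB : d ∈ span ℚ (sB : Set V) := by
      have h1 : d = l⁻¹ • w := by
        rw [hwd, smul_smul, inv_mul_cancel₀ hl0, one_smul]
      rw [h1]
      exact Submodule.smul_mem _ _ hwB
    have hd0 : d ≠ 0 := by
      rintro rfl
      exact hw0 (by rw [hwd, smul_zero])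
    have hdA : d ∉ span ℚ (sA : Set V) := fun h1 =>
      hd0 ((Submodule.disjoint_def.1 hd) d h1 hdB)
    have hdsA : d ∉ sA := fun h1 => hdA (subset_span (Finset.mem_coe.2 h1))
    have hiA := hA (insert d sA) (fun a => if a = d then l else c a)
      (by
        rw [Finset.coe_insert]
        intro y hy
        rcases hy with rfl | hy
        · exact Or.inr hdD
        · exact hAsub hy)
      (by
        rw [Finset.coe_insert]
        exact liA.id_insert hdA)
      (by
        have h1 : ∑ a ∈ insert d sA, (if a = d then l else c a) • a = ∑ a ∈ s, c a • a := by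
          rw [Finset.sum_insert hdsA, if_pos rfl, hsum, ← hwd, add_comm]
          congr 1
          refine Finset.sum_congr rfl fun a ha => ?_
          have h2 : a ≠ d := by
            rintro rfl
            exact hdsA ha
          rw [if_neg h2]
        rw [h1]
        exact hx)
    have hl : l = 1 ∨ l = -1 := by
      have h1 := hiA d (Finset.mem_insert_self _ _)
      simp only [if_true] at h1
      rcases h1 with h1 | h1 | h1
      · exact absurd h1 hl0
      · exact Or.inl h1
      · exact Or.inr h1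
    have hll : l * l = 1 := by
      rcases hl with rfl | rfl <;> norm_num
    have hiB := hB sB (fun a => l * c a) (hBsub.trans Set.subset_union_left) liB
      (by
        have h1 : ∑ a ∈ sB, (l * c a) • a = d := by
          have h2 : ∑ a ∈ sB, (l * c a) • a = l • w := by
            rw [hw, Finset.smul_sum]
            exact Finset.sum_congr rfl fun a _ => by rw [smul_smul]
          rw [h2, hwd, smul_smul, hll, one_smul]
        rw [h1]
        exact Or.inr hdD)
    intro a ha
    rw [hunion] at ha
    rcases Finset.mem_union.1 ha with ha | ha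
    · have h1 := hiA a (Finset.mem_insert_of_mem ha)
      have h2 : a ≠ d := by
        rintro rfl
        exact hdsA ha
      simpa only [if_neg h2] using h1
    · have h1 := hiB a ha
      rcases hl with rfl | rfl <;> rcases h1 with h1 | h1 | h1
      all_goals first
        | (left; linarith)
        | (right; left; linarith)
        | (right; right; linarith)
  by_cases hw0 : w = 0
  · intro a ha
    rw [hunion] at ha
    rcases Finset.mem_union.1 ha with ha | ha
    · refine hA sA c hAsub liA ?_ a ha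
      have h1 : ∑ a ∈ s, c a • a = ∑ a ∈ sA, c a • a := by rw [hsum, hw0, add_zero]
      rw [← h1]
      exact hx
    · left
      exact linearIndepOn_finset_iff.1 liB c (by simpa [hw] using hw0) a ha
  rcases hpq with li | hq0
  · have hX : Uni ((sB : Set V) ∪ {p, q, p + q}) := uni_mono hB fun y hy => by
      rcases hy with hy | hy
      · exact Or.inr (Or.inl (Or.inl (hBsub hy)))
      · exact Or.inr (Or.inl (Or.inr hy))
    have hwU : w ∈ span ℚ (sB : Set V) ⊓ span ℚ {p, q} := ⟨hwB, hwL⟩
    rcases uni_cut hX li with h1 | h1 | h1 | h1 | h1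
    · rw [h1, Submodule.mem_bot] at hwU
      exact absurd hwU hw0
    · rw [h1] at hwU
      obtain ⟨l, hl⟩ := mem_span_singleton.1 hwU
      exact key l p (by simp) hl.symm hw0
    · rw [h1] at hwU
      obtain ⟨l, hl⟩ := mem_span_singleton.1 hwU
      exact key l q (by simp) hl.symm hw0
    · rw [h1] at hwU
      obtain ⟨l, hl⟩ := mem_span_singleton.1 hwU
      exact key l (p + q) (by simp) hl.symm hw0
    · have hle : span ℚ {p, q} ≤ span ℚ (sB : Set V) := inf_eq_right.1 h1
      have hpB : p ∈ span ℚ (sB : Set V) := hle (subset_span (by simp))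
      have hqB : q ∈ span ℚ (sB : Set V) := hle (subset_span (by simp))
      have hpqB : p + q ∈ span ℚ (sB : Set V) := Submodule.add_mem _ hpB hqB
      obtain ⟨α, β, hαβ⟩ := mem_span_pair.1 hwL
      have li' := LinearIndependent.pair_iff.1 li
      have n1 : p ∉ span ℚ ((sA : Set V) ∪ {q}) := glue_not_mem hd hpB hqB fun t ht => by
        have h2 := li' 1 (-t) (by rw [one_smul, neg_smul, ← ht]; abel)
        exact one_ne_zero h2.1
      have n2 : q ∉ span ℚ ((sA : Set V) ∪ {p}) := glue_not_mem hd hqB hpB fun t ht => by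
        have h2 := li' (-t) 1 (by rw [one_smul, neg_smul, ← ht]; abel)
        exact one_ne_zero h2.2
      have n3 : p ∉ span ℚ ((sA : Set V) ∪ {p + q}) := glue_not_mem hd hpB hpqB fun t ht => by
        have h2 := li' (1 - t) (-t) (by
          have h3 : (1 - t) • p + (-t) • q = p - t • (p + q) := by module
          rw [h3, ← ht, sub_self])
        have h4 : t = 0 := by linarith [h2.2]
        have h5 := h2.1
        rw [h4] at h5
        norm_num at h5
      have hpX : p ∈ A ∪ {p, q, p + q} := Or.inr (by simp)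
      have hqX : q ∈ A ∪ {p, q, p + q} := Or.inr (by simp)
      have hsX : p + q ∈ A ∪ {p, q, p + q} := Or.inr (by simp)
      have hsub : ∀ z ∈ A ∪ {p, q, p + q}, (sA : Set V) ∪ {z} ⊆ A ∪ {p, q, p + q} := by
        intro z hz y hy
        rcases hy with hy | hy
        · exact hAsub hy
        · rw [Set.mem_singleton_iff] at hy
          rw [hy]
          exact hz
      have hin : ∀ (z : V) (t : ℚ), t • z + ∑ a ∈ sA, c a • a ∈ span ℚ ((sA : Set V) ∪ {z}) := by
        intro z t
        refine Submodule.add_mem _ (Submodule.smul_mem _ _ (subset_span (Or.inr rfl))) ?_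
        exact span_mono Set.subset_union_left hxA
      have c1 := uni_cut_coord hA (hsub q hqX) hpX n1 (hin q β) α (by
        have h2 : α • p + (β • q + ∑ a ∈ sA, c a • a) = ∑ a ∈ s, c a • a := by
          rw [hsum, ← hαβ]; abel
        rw [h2]
        exact hx)
      have c2 := uni_cut_coord hA (hsub p hpX) hqX n2 (hin p α) β (by
        have h2 : β • q + (α • p + ∑ a ∈ sA, c a • a) = ∑ a ∈ s, c a • a := by
          rw [hsum, ← hαβ]; abel
        rw [h2]
        exact hx)
      have c3 := uni_cut_coord hA (hsub (p + q) hsX) hpX n3 (hin (p + q) β) (α - β) (by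
        have h2 : (α - β) • p + (β • (p + q) + ∑ a ∈ sA, c a • a) = ∑ a ∈ s, c a • a := by
          rw [hsum, ← hαβ]; module
        rw [h2]
        exact hx)
      by_cases hα : α = 0
      · exact key β q (by simp) (by rw [← hαβ, hα, zero_smul, zero_add]) hw0
      by_cases hβ : β = 0
      · exact key α p (by simp) (by rw [← hαβ, hβ, zero_smul, add_zero]) hw0
      have hab : α = β := by
        rcases c1 with c1 | c1 | c1
        · exact absurd c1 hα
        · rcases c2 with c2 | c2 | c2
          · exact absurd c2 hβ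
          · rw [c1, c2]
          · exfalso
            rw [c1, c2] at c3
            rcases c3 with c3 | c3 | c3 <;> norm_num at c3
        · rcases c2 with c2 | c2 | c2
          · exact absurd c2 hβ
          · exfalso
            rw [c1, c2] at c3
            rcases c3 with c3 | c3 | c3 <;> norm_num at c3
          · rw [c1, c2]
      exact key α (p + q) (by simp) (by rw [← hαβ, hab, smul_add]) hw0
  · obtain ⟨α, β, hαβ⟩ := mem_span_pair.1 hwL
    exact key α p (by simp) (by rw [← hαβ, hq0, smul_zero, add_zero]) hw0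

theorem uni_glue {A B : Set V} {p q : V} (hpq : LinearIndependent ℚ ![p, q] ∨ q = 0)
    (hA : Uni (A ∪ {p, q, p + q})) (hB : Uni (B ∪ {p, q, p + q}))
    (h : span ℚ (A ∪ {p, q}) ⊓ span ℚ (B ∪ {p, q}) = span ℚ {p, q}) :
    Uni (A ∪ B ∪ {p, q, p + q}) := by
  intro s c hs hli hx
  have hx' : ∑ a ∈ s, c a • a ∈ A ∪ {p, q, p + q} ∨ ∑ a ∈ s, c a • a ∈ B ∪ {p, q, p + q} := by
    rcases hx with (hx | hx) | hx
    · exact Or.inl (Or.inl hx)
    · exact Or.inr (Or.inl hx)
    · exact Or.inl (Or.inr hx)
  rcases hx' with hx' | hx'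
  · exact glue_aux hpq hA hB h s c hs hli hx'
  · refine glue_aux hpq hB hA (by rw [inf_comm]; exact h) s c ?_ hli hx'
    rw [Set.union_comm B A]
    exact hs

end RC
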