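import Pool.Agent.Helper59.RC.UniBasic

/-!
Module RC-U3.  Unimodular sets and planes.

`uni_plane`: write `x = α p + β q`; by `uni_coord` for the basis `p, q` both are `0, 1, -1`;
for the basis `p, p + q`: `x = (α - β) p + β (p + q)`, so `α - β` is `0, 1, -1`.

`uni_cut`: let `U = span A ⊓ span {p, q}`.  If `U = ⊥` or `U` is the plane, done; otherwise
`finrank U = 1`.  Let `x ≠ 0` in `U`, `x = α p + β q`.  Choose a finite independent subset
`A₀ ⊆ A` with `x ∈ span A₀`.
* If `p ∈ span A` then `p ∈ U`, so `U = span {p}`.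
* Otherwise `p ∉ span A₀`, `β ≠ 0` (else `x = α p`), so `q = - (α/β) p + (1/β) x` and the
  coordinate of `q` at `p` in the basis `A₀ ∪ {p}` is `λ = - α/β`; the coordinate of `p + q` is
  `1 + λ`.  Both are `0, 1, -1`, so `λ = 0` (then `α = 0`, `U = span {q}`) or `λ = -1` (then
  `α = β`, `U = span {p + q}`).
-/

namespace RC

open Submodule Module

variable {V : Type} [AddCommGroup V] [Module ℚ V]

theorem uni_plane {X : Set V} (hX : Uni X) {p q x : V} (hp : p ∈ X) (hq : q ∈ X)
    (hs : p + q ∈ X) (li : LinearIndependent ℚ ![p, q]) (hx : x ∈ X) (hxs : x ∈ span ℚ {p, q}) :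
    x = 0 ∨ x = p ∨ x = -p ∨ x = q ∨ x = -q ∨ x = p + q ∨ x = -(p + q) := by
  obtain ⟨α, β, rfl⟩ := mem_span_pair.1 hxs
  have li' : LinearIndependent ℚ ![p, p + q] := by
    rw [LinearIndependent.pair_iff] at li ⊢
    intro s t hst
    have h1 := li (s + t) t (by rw [← hst]; module)
    exact ⟨by linarith [h1.1, h1.2], h1.2⟩
  have h1 := uni_coord hX ![p, q] Finset.univ
    (by intro i _; fin_cases i <;> simp [hp, hq])
    (by rw [Finset.coe_univ, linearIndepOn_univ_iff]; exact li) ![α, β]
    (by simpa [Fin.sum_univ_two] using hx)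
  have h2 := uni_coord hX ![p, p + q] Finset.univ
    (by intro i _; fin_cases i <;> simp [hp, hs])
    (by rw [Finset.coe_univ, linearIndepOn_univ_iff]; exact li') ![α - β, β]
    (by
      have h3 : ∑ i : Fin 2, (![α - β, β] : Fin 2 → ℚ) i • (![p, p + q] : Fin 2 → V) i
          = α • p + β • q := by
        simp only [Fin.sum_univ_two, Matrix.cons_val_zero, Matrix.cons_val_one]
        module
      rw [h3]
      exact hx)
  have ha := h1 0 (Finset.mem_univ _)
  have hb := h1 1 (Finset.mem_univ _)
  have hc := h2 0 (Finset.mem_univ _)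
  simp only [Matrix.cons_val_zero, Matrix.cons_val_one] at ha hb hc
  rcases ha with rfl | rfl | rfl <;> rcases hb with rfl | rfl | rfl
  · left; simp
  · right; right; right; left; simp
  · right; right; right; right; left; simp
  · right; left; simp
  · right; right; right; right; right; left; simp
  · exfalso; rcases hc with hc | hc | hc <;> norm_num at hc
  · right; right; left; simp
  · exfalso; rcases hc with hc | hc | hc <;> norm_num at hc
  · right; right; right; right; right; right; simp only [neg_smul, one_smul]; abel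

/-- The coordinate of a vector of `X` at `p`. -/
theorem uni_cut_coord {A X : Set V} {p : V} (hX : Uni X) (hA : A ⊆ X) (hp : p ∈ X)
    (hpA : p ∉ span ℚ A) {x : V} (hx : x ∈ span ℚ A) (l : ℚ) (h : l • p + x ∈ X) :
    l = 0 ∨ l = 1 ∨ l = -1 := by
  classical
  obtain ⟨b, hbA, hbs, hbl⟩ := exists_linearIndependent ℚ A
  rw [← hbs] at hx
  obtain ⟨T, hT, hxT⟩ := Submodule.mem_span_finite_of_mem_span hx
  have hTl : LinearIndepOn ℚ id (T : Set V) := LinearIndepOn.mono hbl hT
  have hTA : (T : Set V) ⊆ A := hT.trans hbA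
  have hpT : p ∉ span ℚ (T : Set V) := fun h1 => hpA (span_mono hTA h1)
  have hpT' : p ∉ T := fun h1 => hpT (subset_span (Finset.mem_coe.2 h1))
  obtain ⟨c, hc⟩ := (Submodule.mem_span_finset (R := ℚ)).1 hxT
  have hli : LinearIndepOn ℚ id ((insert p T : Finset V) : Set V) := by
    rw [Finset.coe_insert]
    exact hTl.id_insert hpT
  have hsub : ((insert p T : Finset V) : Set V) ⊆ X := by
    rw [Finset.coe_insert]
    intro y hy
    rcases hy with rfl | hy
    · exact hp
    · exact hA (hTA hy)
  have hsum : ∑ a ∈ insert p T, (if a = p then l else c a) • a = l • p + x := by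
    rw [Finset.sum_insert hpT', if_pos rfl, ← hc.2]
    congr 1
    refine Finset.sum_congr rfl fun a ha => ?_
    have h2 : a ≠ p := by
      rintro rfl
      exact hpT' ha
    rw [if_neg h2]
  have h1 := hX (insert p T) (fun a => if a = p then l else c a) hsub hli
    (by rw [hsum]; exact h) p (Finset.mem_insert_self _ _)
  simpa using h1

theorem uni_cut {A : Set V} {p q : V} (hX : Uni (A ∪ {p, q, p + q}))
    (li : LinearIndependent ℚ ![p, q]) :
    span ℚ A ⊓ span ℚ {p, q} = ⊥ ∨ span ℚ A ⊓ span ℚ {p, q} = span ℚ {p} ∨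
      span ℚ A ⊓ span ℚ {p, q} = span ℚ {q} ∨ span ℚ A ⊓ span ℚ {p, q} = span ℚ {p + q} ∨
      span ℚ A ⊓ span ℚ {p, q} = span ℚ {p, q} := by
  have hAX : A ⊆ A ∪ {p, q, p + q} := Set.subset_union_left
  have hpX : p ∈ A ∪ {p, q, p + q} := Or.inr (by simp)
  have hqX : q ∈ A ∪ {p, q, p + q} := Or.inr (by simp)
  have hsX : p + q ∈ A ∪ {p, q, p + q} := Or.inr (by simp)
  have hpP : p ∈ span ℚ {p, q} := subset_span (by simp)
  have hqP : q ∈ span ℚ {p, q} := subset_span (by simp)
  have hdiv : ∀ (t : ℚ) (y : V), t ≠ 0 → t • y ∈ span ℚ A → y ∈ span ℚ A := by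
    intro t y ht hy
    have h1 := Submodule.smul_mem (span ℚ A) t⁻¹ hy
    rwa [smul_smul, inv_mul_cancel₀ ht, one_smul] at h1
  by_cases hp : p ∈ span ℚ A
  · by_cases hq : q ∈ span ℚ A
    · right; right; right; right
      apply inf_eq_right.2
      rw [span_le]
      intro y hy
      rcases hy with rfl | hy
      · exact hp
      · rw [Set.mem_singleton_iff] at hy
        rw [hy]
        exact hq
    · right; left
      apply le_antisymm
      · rintro x ⟨hxA, hxP⟩
        obtain ⟨α, β, rfl⟩ := mem_span_pair.1 hxP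
        have h1 : β • q ∈ span ℚ A := by
          have h2 := Submodule.sub_mem _ hxA (Submodule.smul_mem _ α hp)
          rwa [add_sub_cancel_left] at h2
        have h3 : β = 0 := by
          by_contra h4
          exact hq (hdiv β q h4 h1)
        rw [h3, zero_smul, add_zero]
        exact Submodule.smul_mem _ _ (mem_span_singleton_self p)
      · rw [span_singleton_le_iff_mem]
        exact ⟨hp, hpP⟩
  by_cases hq : q ∈ span ℚ A
  · right; right; left
    apply le_antisymm
    · rintro x ⟨hxA, hxP⟩
      obtain ⟨α, β, rfl⟩ := mem_span_pair.1 hxP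
      have h1 : α • p ∈ span ℚ A := by
        have h2 := Submodule.sub_mem _ hxA (Submodule.smul_mem _ β hq)
        rwa [add_sub_cancel_right] at h2
      have h3 : α = 0 := by
        by_contra h4
        exact hp (hdiv α p h4 h1)
      rw [h3, zero_smul, zero_add]
      exact Submodule.smul_mem _ _ (mem_span_singleton_self q)
    · rw [span_singleton_le_iff_mem]
      exact ⟨hq, hqP⟩
  by_cases hs : p + q ∈ span ℚ A
  · right; right; right; left
    apply le_antisymm
    · rintro x ⟨hxA, hxP⟩
      obtain ⟨α, β, rfl⟩ := mem_span_pair.1 hxP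
      have h1 : (α - β) • p ∈ span ℚ A := by
        have h2 := Submodule.sub_mem _ hxA (Submodule.smul_mem _ β hs)
        have h3 : α • p + β • q - β • (p + q) = (α - β) • p := by module
        rwa [h3] at h2
      have h3 : α = β := by
        by_contra h4
        exact hp (hdiv _ p (sub_ne_zero.2 h4) h1)
      rw [h3, ← smul_add]
      exact Submodule.smul_mem _ _ (mem_span_singleton_self _)
    · rw [span_singleton_le_iff_mem]
      exact ⟨hs, Submodule.add_mem _ hpP hqP⟩
  left
  rw [eq_bot_iff]
  rintro x ⟨hxA, hxP⟩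
  obtain ⟨α, β, rfl⟩ := mem_span_pair.1 hxP
  rw [Submodule.mem_bot]
  by_contra hx0
  have hβ : β ≠ 0 := by
    rintro rfl
    rw [zero_smul, add_zero] at hxA hx0
    have hα : α ≠ 0 := by
      rintro rfl
      exact hx0 (zero_smul _ _)
    exact hp (hdiv α p hα hxA)
  have hα : α ≠ 0 := by
    rintro rfl
    rw [zero_smul, zero_add] at hxA
    exact hq (hdiv β q hβ hxA)
  have hy : β⁻¹ • (α • p + β • q) ∈ span ℚ A := Submodule.smul_mem _ _ hxA
  have e1 : (-(α / β)) • p + β⁻¹ • (α • p + β • q) = q := by
    rw [smul_add, smul_smul, smul_smul, inv_mul_cancel₀ hβ, one_smul, ← add_assoc, ← add_smul]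
    have : -(α / β) + β⁻¹ * α = 0 := by
      rw [div_eq_inv_mul]
      ring
    rw [this, zero_smul, zero_add]
  have e2 : (1 + -(α / β)) • p + β⁻¹ • (α • p + β • q) = p + q := by
    rw [add_smul, one_smul, add_assoc, e1]
  have c1 := uni_cut_coord hX hAX hpX hp hy (-(α / β)) (by rw [e1]; exact hqX)
  have c2 := uni_cut_coord hX hAX hpX hp hy (1 + -(α / β)) (by rw [e2]; exact hsX)
  have hne : α / β ≠ 0 := div_ne_zero hα hβ
  have hab : α / β = 1 := by
    rcases c1 with c1 | c1 | c1
    · exact absurd (neg_eq_zero.1 c1) hne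
    · exfalso
      rw [c1] at c2
      rcases c2 with c2 | c2 | c2 <;> norm_num at c2
    · linarith
  have hab' : α = β := by
    rw [div_eq_one_iff_eq hβ] at hab
    exact hab
  apply hs
  apply hdiv β (p + q) hβ
  rw [hab'] at hxA
  rwa [smul_add]

end RC
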